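import Pool.Agent.Q281.KG.Kurosh

/-!
# Finitely generated normal subgroups of groups acting on trees with trivial edge stabilizers
-/

set_option autoImplicit false

namespace Pool.Agent.Run7.h562

open Pool.Agent.H599R3.RH

section
variable {G V E : Type} [Group G] [MulAction G V] [MulAction G E] (T : Tree G V E)

/-- the group elements moving the base vertex to the far side of the edge -/
def almA (e : E) : Set G := {g | side T e (g • T.d0 e)}

/-- almost invariance under right translations -/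
theorem almA_fin {e : E} (he : ∀ g : G, g • e = e → g = 1) (n : G) :
    {g : G | ¬ (g ∈ almA T e ↔ g * n ∈ almA T e)}.Finite := by
  have hinj : Set.InjOn (fun g : G => g⁻¹ • e) {g : G | ¬ (g ∈ almA T e ↔ g * n ∈ almA T e)} := by
    intro a _ b _ hab
    have h1 : (b * a⁻¹) • e = e := by
      have : a⁻¹ • e = b⁻¹ • e := hab
      rw [mul_smul, this, smul_inv_smul]
    have := he _ h1
    exact (mul_inv_eq_one.1 this).symm
  refine Set.Finite.of_finite_image ?_ hinj
  apply (fin_sep T (T.d0 e) (n • T.d0 e)).subset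
  rintro _ ⟨g, hg, rfl⟩
  intro h
  apply hg
  change side T e (g • T.d0 e) ↔ side T e ((g * n) • T.d0 e)
  rw [mul_smul, side_smul', side_smul' T g e (n • _)]
  exact h

variable {e : E} {c d : G}

theorem side_c (he : ∀ g : G, g • e = e → g = 1) (hc1 : c ≠ 1) (hc : c • T.d0 e = T.d0 e) (v : V)
    (hv : side T e v) : ¬ side T e (c • v) := by
  have hne : c • e ≠ e := fun h => hc1 (he c h)
  have h1 := quad T hne (c • v)
  rw [side_smul, T.s0, hc] at h1
  have h2 : ¬ side T (c • e) (T.d0 e) := by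
    have := side_smul T c e (T.d0 e)
    rw [hc] at this
    rw [this]
    exact side0 T e
  have := side0 T e
  tauto

theorem side_d (he : ∀ g : G, g • e = e → g = 1) (hd1 : d ≠ 1) (hd : d • T.d1 e = T.d1 e) (v : V)
    (hv : ¬ side T e v) : side T e (d • v) := by
  have hne : d • e ≠ e := fun h => hd1 (he d h)
  have h1 := quad T hne (d • v)
  rw [side_smul] at h1
  have h2 : side T (d • e) (T.d0 e) := by
    rw [← side_ne T hne.symm]
    have := side_smul T d e (T.d1 e)
    rw [hd] at this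
    rw [this]
    exact side1 T e
  have h3 : side T e (T.d0 (d • e)) := by
    rw [← side_ne T hne, T.s1, hd]
    exact side1 T e
  tauto

theorem almA_inf (he : ∀ g : G, g • e = e → g = 1) (hc1 : c ≠ 1) (hc : c • T.d0 e = T.d0 e)
    (hd1 : d ≠ 1) (hd : d • T.d1 e = T.d1 e) : (almA T e).Infinite ∧ (almA T e)ᶜ.Infinite := by
  have hD : (fun g => d * g) '' (almA T e)ᶜ ⊆ almA T e := by
    rintro _ ⟨g, hg, rfl⟩
    change side T e ((d * g) • T.d0 e)
    rw [mul_smul]
    exact side_d T he hd1 hd _ hg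
  have hC : (fun g => c * g) '' (almA T e) ⊆ (almA T e)ᶜ := by
    rintro _ ⟨g, hg, rfl⟩
    change ¬ side T e ((c * g) • T.d0 e)
    rw [mul_smul]
    exact side_c T he hc1 hc _ hg
  have hone : (1 : G) ∈ (almA T e)ᶜ := by
    change ¬ side T e ((1 : G) • T.d0 e)
    rw [one_smul]
    exact side0 T e
  have h1n : (1 : G) ∉ (fun g => c * g) '' (almA T e) := by
    rintro ⟨g, hg, h⟩
    have hg2 : g = c⁻¹ := eq_inv_of_mul_eq_one_right h
    have h3 : side T e (g • T.d0 e) := hg
    rw [hg2] at h3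
    have h4 : c⁻¹ • T.d0 e = T.d0 e := by rw [inv_smul_eq_iff, hc]
    rw [h4] at h3
    exact side0 T e h3
  have key : (almA T e).Finite → (almA T e)ᶜ.Finite → False := by
    intro hf hf'
    have h1 : (almA T e)ᶜ.ncard ≤ (almA T e).ncard := by
      rw [← Set.ncard_image_of_injective _ (mul_right_injective d)]
      exact Set.ncard_le_ncard hD hf
    have h2 : (almA T e).ncard < (almA T e)ᶜ.ncard := by
      rw [← Set.ncard_image_of_injective (almA T e) (mul_right_injective c)]
      exact Set.ncard_lt_ncard ⟨hC, fun h => h1n (h hone)⟩ hf'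
    omega
  constructor
  · intro hf
    exact key hf (Set.Finite.of_finite_image (hf.subset hD) (mul_right_injective d).injOn)
  · intro hf
    exact key (Set.Finite.of_finite_image (hf.subset hC) (mul_right_injective c).injOn) hf

/-- a finite normal subgroup is trivial -/
theorem fin_normal (he : ∀ g : G, g • e = e → g = 1) (hc1 : c ≠ 1) (hc : c • T.d0 e = T.d0 e)
    (hd1 : d ≠ 1) (hd : d • T.d1 e = T.d1 e) (N : Subgroup G) [N.Normal] [Finite N] : N = ⊥ := by
  obtain ⟨hA, hA'⟩ := almA_inf T he hc1 hc hd1 hd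
  rw [Subgroup.eq_bot_iff_forall]
  intro n hn
  by_contra hn1
  have hfin : {g : G | ¬ (side T e (g • T.d0 e) ↔ side T e (n • g • T.d0 e))}.Finite := by
    have h1 : (⋃ m : N, {g : G | ¬ (g ∈ almA T e ↔ g * m.1 ∈ almA T e)}).Finite :=
      Set.finite_iUnion (fun m => almA_fin T he m.1)
    apply h1.subset
    intro g hg
    rw [Set.mem_iUnion]
    refine ⟨⟨g⁻¹ * n * g, by simpa using Subgroup.Normal.conj_mem ‹N.Normal› n hn g⁻¹⟩, ?_⟩
    intro h
    apply hg
    have h2 : g * (g⁻¹ * n * g) = n * g := by group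
    have h3 : side T e (g • T.d0 e) ↔ side T e ((g * (g⁻¹ * n * g)) • T.d0 e) := h
    rw [h2, mul_smul] at h3
    exact h3
  have hne : e ≠ n⁻¹ • e := by
    intro h
    apply hn1
    have := he n⁻¹ h.symm
    simpa using this
  have hq := quad T hne
  have htors : ∃ m : ℕ, 0 < m ∧ n ^ m = 1 := by
    have h1 : IsOfFinOrder (⟨n, hn⟩ : N) := isOfFinOrder_of_finite _
    obtain ⟨m, hm, h2⟩ := isOfFinOrder_iff_pow_eq_one.1 h1
    exact ⟨m, hm, by simpa using congrArg Subtype.val h2⟩
  obtain ⟨m, hm, hnm⟩ := htors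
  have hs' : ∀ v, side T (n⁻¹ • e) v ↔ side T e (n • v) := fun v => (side_smul' T n e v).symm
  by_cases h1 : side T e (T.d0 (n⁻¹ • e)) <;> by_cases h2 : side T (n⁻¹ • e) (T.d0 e)
  · -- union is everything
    apply hA'
    apply hfin.subset
    intro g hg
    have hg1 : ¬ side T e (g • T.d0 e) := hg
    have h3 := hq (g • T.d0 e)
    rw [hs'] at h3
    rw [hs'] at h2 h3
    intro h4
    tauto
  · -- nested
    have h0 : ∀ v, side T e (n • v) → side T e v := by
      intro v hv
      have h3 := hq v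
      rw [hs'] at h2 h3
      rw [hs'] at h3
      tauto
    have h5 : ∀ j : ℕ, side T e ((n⁻¹) ^ (j + 1) • T.d0 e) := by
      intro j
      induction j with
      | zero =>
        rw [zero_add, pow_one, ← T.s0]
        exact h1
      | succ j ih =>
        rw [pow_succ', mul_smul]
        apply h0
        rwa [smul_inv_smul]
    obtain ⟨j, rfl⟩ : ∃ j, m = j + 1 := ⟨m - 1, by omega⟩
    have h6 := h5 j
    rw [inv_pow, hnm, inv_one, one_smul] at h6
    exact side0 T e h6
  · have h0 : ∀ v, side T e v → side T e (n • v) := by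
      intro v hv
      have h3 := hq v
      rw [hs'] at h2 h3
      rw [hs'] at h3
      tauto
    have h5 : ∀ j : ℕ, side T e (n ^ (j + 1) • T.d0 e) := by
      intro j
      induction j with
      | zero =>
        rw [zero_add, pow_one]
        exact (hs' _).1 h2
      | succ j ih =>
        rw [pow_succ', mul_smul]
        exact h0 _ ih
    obtain ⟨j, rfl⟩ : ∃ j, m = j + 1 := ⟨m - 1, by omega⟩
    have h6 := h5 j
    rw [hnm, one_smul] at h6
    exact side0 T e h6
  · apply hA
    apply hfin.subset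
    intro g hg
    have hg1 : side T e (g • T.d0 e) := hg
    have h3 := hq (g • T.d0 e)
    rw [hs'] at h3
    rw [hs'] at h2 h3
    intro h4
    tauto

/-- **finitely generated normal subgroups** are trivial or of finite index -/
theorem fg_normal (he : ∀ g : G, g • e = e → g = 1) (hc1 : c ≠ 1) (hc : c • T.d0 e = T.d0 e)
    (hd1 : d ≠ 1) (hd : d • T.d1 e = T.d1 e) (N : Subgroup G) [N.Normal] (hN : N.FG) :
    N = ⊥ ∨ N.FiniteIndex := by
  by_cases hfin : Finite N
  · exact Or.inl (fin_normal T he hc1 hc hd1 hd N)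
  right
  have hinf : Infinite N := not_finite_iff_infinite.1 hfin
  obtain ⟨hA, hA'⟩ := almA_inf T he hc1 hc hd1 hd
  obtain ⟨F, hF⟩ := hN
  set 𝒜 : Set G := almA T e with h𝒜
  -- the bad set
  have hB : (⋃ s ∈ F, {g : G | ¬ (g ∈ 𝒜 ↔ g * s ∈ 𝒜)}).Finite :=
    Set.Finite.biUnion F.finite_toSet (fun s _ => almA_fin T he s)
  set B : Set G := ⋃ s ∈ F, {g : G | ¬ (g ∈ 𝒜 ↔ g * s ∈ 𝒜)} with hBdef
  have hBs : ∀ g, g ∉ B → ∀ s ∈ F, (g ∈ 𝒜 ↔ g * s ∈ 𝒜) := by
    intro g hg s hs
    by_contra h
    exact hg (Set.mem_biUnion hs h)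
  -- cosets avoiding the bad set
  have hcos : ∀ g : G, (∀ n ∈ N, g * n ∉ B) → ∀ n ∈ N, (g ∈ 𝒜 ↔ g * n ∈ 𝒜) := by
    intro g hg n hn
    have hle : Subgroup.closure (F : Set G) ≤ N := hF.le
    rw [← hF] at hn
    have h1 : ∀ k ∈ Subgroup.closure (F : Set G), ∀ g', (∀ n ∈ N, g' * n ∉ B) →
        (g' ∈ 𝒜 ↔ g' * k ∈ 𝒜) := by
      intro k hk
      induction hk using Subgroup.closure_induction with
      | mem s hs =>
        intro g' hg'
        apply hBs g' _ s hs
        simpa using hg' 1 N.one_mem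
      | one => intro g' _; rw [mul_one]
      | mul x y hx hy ihx ihy =>
        intro g' hg'
        rw [ihx g' hg', ← mul_assoc]
        apply ihy
        intro n hn
        rw [mul_assoc]
        exact hg' _ (N.mul_mem (hle hx) hn)
      | inv x hx ih =>
        intro g' hg'
        rw [ih (g' * x⁻¹), inv_mul_cancel_right]
        intro n hn
        rw [mul_assoc]
        exact hg' _ (N.mul_mem (N.inv_mem (hle hx)) hn)
    exact h1 n hn g hg
  -- independence of the coset
  have hind : ∀ (S : Set G), (∀ g, {x : G | ¬ (x ∈ S ↔ x * g ∈ S)}.Finite) → ∀ g : G,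
      {n : G | n ∈ N ∧ n ∈ S}.Finite → {n : G | n ∈ N ∧ g * n ∈ S}.Finite := by
    intro S hS g hf
    have h1 : {n : G | n ∈ N ∧ g * n ∈ S} ⊆
        (fun m => g⁻¹ * m * g) '' ({n : G | n ∈ N ∧ n ∈ S} ∪ {x : G | ¬ (x ∈ S ↔ x * g ∈ S)}) := by
      rintro n ⟨hn, hn2⟩
      refine ⟨g * n * g⁻¹, ?_, by group⟩
      by_cases h : g * n * g⁻¹ ∈ S
      · exact Or.inl ⟨Subgroup.Normal.conj_mem ‹N.Normal› n hn g, h⟩
      · right
        intro h2
        apply h
        rw [h2]
        simpa using hn2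
    exact ((hf.union (hS g)).image _).subset h1
  have hind' : ∀ (S : Set G), (∀ g, {x : G | ¬ (x ∈ S ↔ x * g ∈ S)}.Finite) → ∀ g : G,
      {n : G | n ∈ N ∧ g * n ∈ S}.Finite → {n : G | n ∈ N ∧ n ∈ S}.Finite := by
    intro S hS g hf
    have h1 : {n : G | n ∈ N ∧ n ∈ S} ⊆
        (fun m => g * m * g⁻¹) '' ({n : G | n ∈ N ∧ g * n ∈ S}) ∪ {x : G | ¬ (x ∈ S ↔ x * g ∈ S)} := by
      rintro n ⟨hn, hn2⟩
      by_cases h : n * g ∈ S
      · left
        refine ⟨g⁻¹ * n * g, ⟨by simpa using Subgroup.Normal.conj_mem ‹N.Normal› n hn g⁻¹, ?_⟩,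
          by group⟩
        have : g * (g⁻¹ * n * g) = n * g := by group
        rw [this]; exact h
      · right
        intro h2
        exact h (h2.1 hn2)
    exact ((hf.image _).union (hS g)).subset h1
  -- main dichotomy
  have main : ∀ S : Set G, (∀ g, {x : G | ¬ (x ∈ S ↔ x * g ∈ S)}.Finite) →
      {n : G | n ∈ N ∧ n ∈ S}.Finite → S.Infinite →
      (∀ g : G, (∀ n ∈ N, g * n ∉ B) → ∀ n ∈ N, (g ∈ S ↔ g * n ∈ S)) → False := by
    intro S hS hf hSi hc
    apply hSi
    have h1 : S ⊆ ⋃ b ∈ B, (fun n => b * n) '' {n : G | n ∈ N ∧ b * n ∈ S} := by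
      intro g hg
      by_cases h : ∀ n ∈ N, g * n ∉ B
      · exfalso
        have h2 := hc g h
        have h3 := hind S hS g hf
        have h4 : {n : G | n ∈ N ∧ g * n ∈ S} = N := by
          ext n
          exact ⟨fun h => h.1, fun h => ⟨h, (h2 n h).1 hg⟩⟩
        rw [h4] at h3
        exact Set.infinite_coe_iff.1 hinf h3
      · push Not at h
        obtain ⟨n, hn, hb⟩ := h
        refine Set.mem_biUnion hb ⟨n⁻¹, ⟨N.inv_mem hn, ?_⟩, ?_⟩
        · simpa using hg
        · simp
    exact (Set.Finite.biUnion hB (fun b _ => (hind S hS b hf).image _)).subset h1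
  by_contra hidx
  -- a coset avoiding the bad set
  have hex : ∃ g : G, ∀ n ∈ N, g * n ∉ B := by
    by_contra h
    push Not at h
    apply hidx
    have : Finite (G ⧸ N) := by
      have hBf : Finite B := hB.to_subtype
      apply Finite.of_surjective (fun b : B => (b.1 : G ⧸ N))
      intro q
      induction q using QuotientGroup.induction_on with
      | H g =>
        obtain ⟨n, hn, hb⟩ := h g
        refine ⟨⟨_, hb⟩, ?_⟩
        change ((g * n : G) : G ⧸ N) = g
        rw [QuotientGroup.eq]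
        simpa using N.inv_mem hn
    exact Subgroup.finiteIndex_of_finite_quotient
  obtain ⟨g, hg⟩ := hex
  have hAf : ∀ g, {x : G | ¬ (x ∈ 𝒜 ↔ x * g ∈ 𝒜)}.Finite := fun g => almA_fin T he g
  have hAf' : ∀ g, {x : G | ¬ (x ∈ 𝒜ᶜ ↔ x * g ∈ 𝒜ᶜ)}.Finite := by
    intro g
    apply (hAf g).subset
    intro x hx h
    apply hx
    rw [Set.mem_compl_iff, Set.mem_compl_iff, h]
  by_cases hgA : g ∈ 𝒜
  · refine main 𝒜ᶜ hAf' ?_ hA' (fun g' hg' n hn => ?_)
    · apply hind' 𝒜ᶜ hAf' g
      have : {n : G | n ∈ N ∧ g * n ∈ 𝒜ᶜ} = ∅ := by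
        ext n
        simp only [Set.mem_ofPred_eq, Set.mem_empty_iff_false, iff_false]
        rintro ⟨hn, h2⟩
        exact h2 ((hcos g hg n hn).1 hgA)
      rw [this]; exact Set.finite_empty
    · rw [Set.mem_compl_iff, Set.mem_compl_iff, hcos g' hg' n hn]
  · refine main 𝒜 hAf ?_ hA (fun g' hg' n hn => hcos g' hg' n hn)
    · apply hind' 𝒜 hAf g
      have : {n : G | n ∈ N ∧ g * n ∈ 𝒜} = ∅ := by
        ext n
        simp only [Set.mem_ofPred_eq, Set.mem_empty_iff_false, iff_false]
        rintro ⟨hn, h2⟩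
        exact hgA ((hcos g hg n hn).2 h2)
      rw [this]; exact Set.finite_empty

end

section coprod
open Monoid Pool.Agent.Q281.KG

variable {C D : Type} [Group C] [Group D]

theorem tree_free (g x : Coprod C D) (hg : g * x = x) : g = 1 := mul_eq_right.1 hg

theorem tree_fixL (c : C) :
    (Sum.inl ((Coprod.inl c * 1 : Coprod C D) : Coprod C D ⧸ LC C D) : Vx C D) =
      Sum.inl ((1 : Coprod C D) : Coprod C D ⧸ LC C D) := by
  congr 1
  rw [QuotientGroup.eq]
  exact ⟨c⁻¹, by simp⟩

theorem tree_fixR (d : D) :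
    (Sum.inr ((Coprod.inr d * 1 : Coprod C D) : Coprod C D ⧸ RD C D) : Vx C D) =
      Sum.inr ((1 : Coprod C D) : Coprod C D ⧸ RD C D) := by
  congr 1
  rw [QuotientGroup.eq]
  exact ⟨d⁻¹, by simp⟩

theorem inl_ne {c : C} (hc : c ≠ 1) : (Coprod.inl c : Coprod C D) ≠ 1 :=
  fun h => hc (Coprod.inl_injective (h.trans (map_one _).symm))

theorem inr_ne {d : D} (hd : d ≠ 1) : (Coprod.inr d : Coprod C D) ≠ 1 :=
  fun h => hd (Coprod.inr_injective (h.trans (map_one _).symm))

/-- **finitely generated normal subgroups of free products** -/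
theorem coprod_fg_normal [Nontrivial C] [Nontrivial D] (N : Subgroup (Coprod C D)) [N.Normal]
    (hN : N.FG) : N = ⊥ ∨ N.FiniteIndex := by
  obtain ⟨c, hc⟩ := exists_ne (1 : C)
  obtain ⟨d, hd⟩ := exists_ne (1 : D)
  let iV := actV (MonoidHom.id (Coprod C D))
  let iE := actE (MonoidHom.id (Coprod C D))
  exact @fg_normal (Coprod C D) (Vx C D) (Coprod C D) _ iV iE (tree (MonoidHom.id _)) 1
    (Coprod.inl c) (Coprod.inr d) (fun g hg => tree_free g 1 hg) (inl_ne hc) (tree_fixL c)
    (inr_ne hd) (tree_fixR d) N _ hN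

/-- a nontrivial free product is infinite -/
theorem coprod_infinite [Nontrivial C] [Nontrivial D] : Infinite (Coprod C D) := by
  obtain ⟨c, hc⟩ := exists_ne (1 : C)
  obtain ⟨d, hd⟩ := exists_ne (1 : D)
  let iV := actV (MonoidHom.id (Coprod C D))
  let iE := actE (MonoidHom.id (Coprod C D))
  have := (@almA_inf (Coprod C D) (Vx C D) (Coprod C D) _ iV iE (tree (MonoidHom.id _)) 1
    (Coprod.inl c) (Coprod.inr d) (fun g hg => tree_free g 1 hg) (inl_ne hc) (tree_fixL c)
    (inr_ne hd) (tree_fixR d)).1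
  exact Set.infinite_univ_iff.1 (this.mono (Set.subset_univ _))

end coprod

end Pool.Agent.Run7.h562
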