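import Mathlib

/-!
# Primitive elements of algebraic extensions of finite type of integrally closed domains
-/

set_option autoImplicit false

open Polynomial TensorProduct

namespace Pool.Agent.Run7.h562

theorem exists_field' (K T : Type) [Field K] [CommRing T] [Algebra K T] [Algebra.FiniteType K T]
    [Nontrivial T] : ∃ (L : Type) (_ : Field L) (_ : Algebra K L), Module.Finite K L ∧
      ∃ π : T →ₐ[K] L, Function.Surjective π := by
  obtain ⟨m, hm⟩ := Ideal.exists_maximal T
  let := Ideal.Quotient.field m
  have := finite_of_finite_type_of_isJacobsonRing K (T ⧸ m)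
  exact ⟨T ⧸ m, inferInstance, inferInstance, this, Ideal.Quotient.mkₐ K m,
    Ideal.Quotient.mkₐ_surjective K m⟩

section
variable {R A : Type} [CommRing R] [IsDomain R] [CommRing A] [Algebra R A]

theorem clear_tensor (τ : TensorProduct R (FractionRing R) A) :
    ∃ r : R, r ≠ 0 ∧ ∃ a : A, r • τ = (1 : FractionRing R) ⊗ₜ[R] a := by
  induction τ using TensorProduct.induction_on with
  | zero => exact ⟨1, one_ne_zero, 0, by simp⟩
  | tmul k a =>
    obtain ⟨⟨p, q⟩, h⟩ := IsLocalization.surj (nonZeroDivisors R) k
    refine ⟨q, nonZeroDivisors.coe_ne_zero q, p • a, ?_⟩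
    simp only at h
    rw [smul_tmul', tmul_smul, smul_tmul']
    congr 1
    rw [Algebra.smul_def, Algebra.smul_def, mul_comm, h, mul_one]
  | add x y hx hy =>
    obtain ⟨r, hr, a, ha⟩ := hx
    obtain ⟨r', hr', a', ha'⟩ := hy
    refine ⟨r * r', mul_ne_zero hr hr', r' • a + r • a', ?_⟩
    rw [smul_add, tmul_add, tmul_smul, tmul_smul, ← ha, ← ha', smul_smul, smul_smul,
      mul_comm r' r]

end

section
variable {R : Type} [CommRing R] [IsDomain R]

/-- clearing denominators of finitely many polynomials -/
theorem exists_clear {ι : Type} [Finite ι] (f : ι → (FractionRing R)[X]) :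
    ∃ (b : R) (g : ι → R[X]), b ≠ 0 ∧
      ∀ i, (g i).map (algebraMap R (FractionRing R)) = C (algebraMap R (FractionRing R) b) * f i := by
  classical
  cases nonempty_fintype ι
  obtain ⟨b, hb⟩ := IsLocalization.exist_integer_multiples_of_finset (nonZeroDivisors R)
    (Finset.univ.biUnion fun i => (f i).coeffs)
  have hb0 : (b : R) ≠ 0 := nonZeroDivisors.coe_ne_zero b
  have h1 : ∀ i, ∃ g : R[X], g.map (algebraMap R (FractionRing R)) =
      C (algebraMap R (FractionRing R) b) * f i := by
    intro i
    rw [← mem_lifts, lifts_iff_coeff_lifts]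
    intro n
    rw [coeff_C_mul]
    by_cases h : (f i).coeff n = 0
    · rw [h, mul_zero]
      exact ⟨0, map_zero _⟩
    · have h2 : (f i).coeff n ∈ Finset.univ.biUnion fun i => (f i).coeffs := by
        rw [Finset.mem_biUnion]
        exact ⟨i, Finset.mem_univ _, coeff_mem_coeffs h⟩
      obtain ⟨r, hr⟩ := hb _ h2
      refine ⟨r, ?_⟩
      rw [hr, Algebra.smul_def]
  choose g hg using h1
  exact ⟨b, g, hb0, hg⟩

theorem exists_prim [IsIntegrallyClosed R] [CharZero R] {A : Type} [CommRing A] [IsDomain A]
    [Algebra R A] [Algebra.FiniteType R A] (hinj : Function.Injective (algebraMap R A))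
    [Algebra.IsAlgebraic R A] {σ : Type} [Finite σ] (w : σ → A) :
    ∃ (b : R) (θ : A) (P : R[X]) (s : σ → R[X]) (U V : R[X]), b ≠ 0 ∧ P.Monic ∧
      0 < P.natDegree ∧ aeval θ P = 0 ∧ (∀ i, aeval θ (s i) = algebraMap R A b * w i) ∧
      U * P + V * derivative P = C b ∧ ∀ q : R[X], aeval θ q = 0 → P ∣ q := by
  classical
  have hcz : CharZero (FractionRing R) :=
    charZero_of_injective_algebraMap (IsFractionRing.injective R (FractionRing R))
  have : Nontrivial (TensorProduct R (FractionRing R) A) :=
    TensorProduct.nontrivial_of_linearMap_injective_of_flat_left R _ A (Algebra.linearMap R A) hinj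
  obtain ⟨L, _, _, hfin, π, hπ⟩ := exists_field' (FractionRing R)
    (TensorProduct R (FractionRing R) A)
  let iRL : Algebra R L :=
    ((algebraMap (FractionRing R) L).comp (algebraMap R (FractionRing R))).toAlgebra
  have iT : IsScalarTower R (FractionRing R) L := IsScalarTower.of_algebraMap_eq (fun _ => rfl)
  let ι : A →ₐ[R] L :=
    { toRingHom := π.toRingHom.comp
        (Algebra.TensorProduct.includeRight (R := R) (A := FractionRing R) (B := A)).toRingHom
      commutes' := by
        intro r
        have h1 : (Algebra.TensorProduct.includeRight (R := R) (A := FractionRing R) (B := A))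
            (algebraMap R A r) = algebraMap (FractionRing R) (TensorProduct R (FractionRing R) A)
              (algebraMap R (FractionRing R) r) := by
          rw [AlgHom.commutes, IsScalarTower.algebraMap_apply R (FractionRing R)
            (TensorProduct R (FractionRing R) A)]
        show π ((Algebra.TensorProduct.includeRight (R := R) (A := FractionRing R) (B := A))
            (algebraMap R A r)) = _
        rw [h1, AlgHom.commutes]
        rfl }
  have hι : ∀ a, ι a = π ((1 : FractionRing R) ⊗ₜ[R] a) := fun a => rfl
  have hRL : Function.Injective (algebraMap R L) := by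
    rw [IsScalarTower.algebraMap_eq R (FractionRing R) L]
    exact (algebraMap (FractionRing R) L).injective.comp
      (IsFractionRing.injective R (FractionRing R))
  have hιinj : Function.Injective ι := by
    rw [injective_iff_map_eq_zero]
    intro a ha
    by_contra ha0
    obtain ⟨r, hr, a', hra⟩ := (Algebra.IsAlgebraic.isAlgebraic (R := R) a).exists_nonzero_dvd
      (mem_nonZeroDivisors_of_ne_zero ha0)
    have h1 := congrArg ι hra
    rw [AlgHom.commutes, map_mul, ha, zero_mul] at h1
    exact hr (hRL (h1.trans (map_zero _).symm))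
  obtain ⟨θ₀, hθ₀⟩ := Field.exists_primitive_element (FractionRing R) L
  obtain ⟨τ, hτ⟩ := hπ θ₀
  obtain ⟨r, hr, a, ha⟩ := clear_tensor τ
  have h1 : ι a = algebraMap R L r * θ₀ := by
    rw [hι, ← ha, ← hτ]
    have h2 : r • τ = (algebraMap R (FractionRing R) r) • τ := (algebraMap_smul _ r τ).symm
    rw [h2, map_smul, Algebra.smul_def]
    rfl
  obtain ⟨y, hy, hint⟩ := (Algebra.IsAlgebraic.isAlgebraic (R := R) a).exists_integral_multiple
  set θ : A := y • a with hθ
  have h2 : ι θ = algebraMap R L (y * r) * θ₀ := by
    rw [hθ, map_smul, h1, Algebra.smul_def, map_mul, mul_assoc]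
  have hyr : algebraMap R L (y * r) ≠ 0 := by
    rw [Ne, map_eq_zero_iff _ hRL]
    exact mul_ne_zero hy hr
  have htop : IntermediateField.adjoin (FractionRing R) {ι θ} = ⊤ := by
    rw [eq_top_iff, ← hθ₀, IntermediateField.adjoin_le_iff, Set.singleton_subset_iff]
    have h3 : θ₀ = (algebraMap R L (y * r))⁻¹ * ι θ := by
      rw [h2, inv_mul_cancel_left₀ hyr]
    rw [SetLike.mem_coe, h3]
    refine mul_mem (inv_mem ?_) (IntermediateField.mem_adjoin_simple_self _ _)
    rw [IsScalarTower.algebraMap_apply R (FractionRing R) L]
    exact IntermediateField.algebraMap_mem _ _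
  have hintK : IsIntegral (FractionRing R) (ι θ) := Algebra.IsIntegral.isIntegral _
  have hs : ∀ x : L, ∃ f : (FractionRing R)[X], aeval (ι θ) f = x := by
    intro x
    have h1 : x ∈ (IntermediateField.adjoin (FractionRing R) {ι θ}).toSubalgebra := by
      rw [htop]; trivial
    rw [IntermediateField.adjoin_simple_toSubalgebra_of_isAlgebraic hintK.isAlgebraic,
      Algebra.adjoin_singleton_eq_range_aeval] at h1
    exact h1
  choose f hf using hs
  have htf : Module.IsTorsionFree R A := by
    rw [Module.isTorsionFree_iff_algebraMap_injective]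
    exact hinj
  have htf' : Module.IsTorsionFree R L := by
    rw [Module.isTorsionFree_iff_algebraMap_injective]
    exact hRL
  have hintL : IsIntegral R (ι θ) := hint.map ι
  have hP : minpoly (FractionRing R) (ι θ) =
      (minpoly R θ).map (algebraMap R (FractionRing R)) := by
    rw [minpoly.isIntegrallyClosed_eq_field_fractions' (FractionRing R) hintL,
      minpoly.algHom_eq ι hιinj]
  have hsep : (minpoly (FractionRing R) (ι θ)).Separable := Algebra.IsSeparable.isSeparable _ _
  obtain ⟨u, v, huv⟩ := hsep
  obtain ⟨b, g, hb, hg⟩ := exists_clear (fun i : Option (Option σ) => match i with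
    | none => u
    | some none => v
    | some (some i) => f (ι (w i)))
  have hmi : Function.Injective (Polynomial.map (algebraMap R (FractionRing R))) :=
    Polynomial.map_injective _ (IsFractionRing.injective R (FractionRing R))
  have hae : ∀ q : R[X], ι (aeval θ q) = aeval (ι θ) (q.map (algebraMap R (FractionRing R))) := by
    intro q
    rw [aeval_map_algebraMap, aeval_algHom_apply]
  refine ⟨b, θ, minpoly R θ, fun i => g (some (some i)), g none, g (some none), hb,
    minpoly.monic hint, minpoly.natDegree_pos hint, minpoly.aeval R θ, fun i => ?_, ?_,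
    fun q hq => minpoly.isIntegrallyClosed_dvd hint hq⟩
  · apply hιinj
    rw [hae, hg, map_mul, map_mul, AlgHom.commutes, aeval_C, hf]
    rfl
  · apply hmi
    rw [Polynomial.map_add, Polynomial.map_mul, Polynomial.map_mul, hg, hg, ← hP,
      ← derivative_map, ← hP, map_C]
    simp only
    rw [mul_assoc, mul_assoc, ← mul_add, huv, mul_one]

end

end Pool.Agent.Run7.h562
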