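import Pool.Agent.Run7.h562.PencilB

/-!
# Free factors are free products of cyclic groups
-/

set_option autoImplicit false
set_option linter.unusedSectionVars false

open Topology Set unitInterval

namespace Pool.Agent.Run7.h562

open Pool.Agent.Y193.FG Monoid

theorem hypB_of_bot {T : Type} [Fintype T] {X : Set (T → ℂ)} (hX : IsSubm X) (hc : IsConnected X)
    (f : MvPolynomial T ℂ) {B : Set ℂ} (hB : B.Finite) (x₀ : X) (hx₀ : fc X f x₀ ∉ B)
    (h : ∀ (γ : Path x₀ x₀) (hγ : ∀ t, (γ.map (fc X f).continuous) t ∈ Bᶜ),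
        (cod (γ.map (fc X f).continuous) hγ).Homotopic (Path.refl _) →
        γ.Homotopic (Path.refl _)) : HypB X f B := by
  classical
  intro x γ hγ hn
  let H : MvPolynomial T ℂ := ∏ b ∈ hB.toFinset, (f - MvPolynomial.C b)
  have hH : ∀ y : X, MvPolynomial.eval y.1 H ≠ 0 ↔ fc X f y ∈ Bᶜ := by
    intro y
    have h1 : MvPolynomial.eval y.1 H = ∏ b ∈ hB.toFinset, (fc X f y - b) := by
      change MvPolynomial.eval y.1 (∏ b ∈ hB.toFinset, (f - MvPolynomial.C b)) = _
      rw [map_prod]
      refine Finset.prod_congr rfl (fun b _ => ?_)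
      rw [map_sub, MvPolynomial.eval_C]
      rfl
    rw [h1, Finset.prod_ne_zero_iff]
    constructor
    · intro h2 h3
      exact h2 _ (hB.mem_toFinset.2 h3) (sub_self _)
    · intro h2 b hb h3
      exact h2 (by rw [sub_eq_zero.1 h3]; exact hB.mem_toFinset.1 hb)
  have hx : fc X f x ∈ Bᶜ := by
    have h1 := hγ 0
    rwa [Path.source] at h1
  set XU := Nzs X H with hXU
  have hXUs : IsSubm XU := nzs_subm hX H
  have hXUc : IsConnected XU := nzs_conn hX hc H ⟨x₀.1, x₀.2, (hH x₀).2 hx₀⟩
  have hpc : PathConnectedSpace XU := pathConnected_of hXUs hXUc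
  let x₀U : XU := ⟨x₀.1, x₀.2, (hH x₀).2 hx₀⟩
  let xU : XU := ⟨x.1, x.2, (hH x).2 hx⟩
  obtain ⟨δ⟩ := PathConnectedSpace.joined x₀U xU
  let γU : Path xU xU :=
    { toFun := fun t => ⟨(γ t).1, (γ t).2, (hH (γ t)).2 (hγ t)⟩
      continuous_toFun := Continuous.subtype_mk (continuous_subtype_val.comp γ.continuous) _
      source' := Subtype.ext (by change (γ 0).1 = x.1; rw [γ.source])
      target' := Subtype.ext (by change (γ 1).1 = x.1; rw [γ.target]) }
  have hBc : ∀ y : XU, fc X f (inc (nzs_sub X H) y) ∈ Bᶜ := fun y =>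
    (hH (inc (nzs_sub X H) y)).1 y.2.2
  let fU : C(XU, (Bᶜ : Set ℂ)) := ⟨fun y => ⟨fc X f (inc (nzs_sub X H) y), hBc y⟩,
    Continuous.subtype_mk ((fc X f).continuous.comp (inc (nzs_sub X H)).continuous) _⟩
  have hn1 : (γU.map fU.continuous).Homotopic (Path.refl _) :=
    null_congr _ (cod (γ.map (fc X f).continuous) hγ) (fun t => rfl) hn
  have hn2 : ((δ.trans (γU.trans δ.symm)).map fU.continuous).Homotopic (Path.refl _) := by
    rw [← Path.Homotopic.Quotient.eq]
    rw [Path.map_trans, Path.map_trans, Path.Homotopic.Quotient.mk_trans,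
      Path.Homotopic.Quotient.mk_trans, Path.Homotopic.Quotient.eq.2 hn1,
      Path.Homotopic.Quotient.mk_refl, Path.Homotopic.Quotient.refl_trans, ← Path.map_symm,
      Path.Homotopic.Quotient.mk_symm, Path.Homotopic.Quotient.trans_symm,
      Path.Homotopic.Quotient.mk_refl]
  have h3 := h ((δ.trans (γU.trans δ.symm)).map (inc (nzs_sub X H)).continuous : Path x₀ x₀)
    (fun t => hBc _) hn2
  have h4 : Path.Homotopic.Quotient.mk ((δ.trans (γU.trans δ.symm)).map
      (inc (nzs_sub X H)).continuous : Path x₀ x₀) = Path.Homotopic.Quotient.refl x₀ :=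
    Path.Homotopic.Quotient.eq.2 h3
  let δ' : Path x₀ x := δ.map (inc (nzs_sub X H)).continuous
  have h5 : (Path.Homotopic.Quotient.mk δ').trans ((Path.Homotopic.Quotient.mk γ).trans
      (Path.Homotopic.Quotient.mk δ').symm) = Path.Homotopic.Quotient.refl x₀ := by
    rw [← h4, Path.map_trans, Path.map_trans, Path.Homotopic.Quotient.mk_trans,
      Path.Homotopic.Quotient.mk_trans]
    rfl
  have h6 : Path.Homotopic.Quotient.mk γ = Path.Homotopic.Quotient.refl x := by
    calc Path.Homotopic.Quotient.mk γ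
        = (Path.Homotopic.Quotient.mk δ').symm.trans (((Path.Homotopic.Quotient.mk δ').trans
          ((Path.Homotopic.Quotient.mk γ).trans (Path.Homotopic.Quotient.mk δ').symm)).trans
          (Path.Homotopic.Quotient.mk δ')) := by
          rw [Path.Homotopic.Quotient.trans_assoc, Path.Homotopic.Quotient.trans_assoc,
            Path.Homotopic.Quotient.symm_trans, Path.Homotopic.Quotient.trans_refl,
            ← Path.Homotopic.Quotient.trans_assoc, Path.Homotopic.Quotient.symm_trans,
            Path.Homotopic.Quotient.refl_trans]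
      _ = Path.Homotopic.Quotient.refl x := by
          rw [h5, Path.Homotopic.Quotient.refl_trans, Path.Homotopic.Quotient.symm_trans]
  exact Path.Homotopic.Quotient.eq.1 h6

/-- the inclusion of a fibre -/
def fibI {Y : Type} [TopologicalSpace Y] (F : Y → ℂ) (z : Y) : C({w : Y // F w = F z}, Y) :=
  ⟨Subtype.val, continuous_subtype_val⟩

/-- the image of the fundamental group of a fibre -/
noncomputable def fibG {Y : Type} [TopologicalSpace Y] (F : Y → ℂ) (z : Y) :
    Subgroup (FundamentalGroup Y z) :=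
  (FundamentalGroup.map (fibI F z) ⟨z, rfl⟩).range

theorem mem_fibG {Y : Type} [TopologicalSpace Y] (F : Y → ℂ) (z : Y)
    (g : FundamentalGroup Y z) : g ∈ fibG F z ↔ ∃ γ : Path z z, (∀ t, F (γ t) = F z) ∧
      (Path.Homotopic.Quotient.mk γ : FundamentalGroup Y z) = g := by
  constructor
  · rintro ⟨n, rfl⟩
    obtain ⟨γ, rfl⟩ := Path.Homotopic.Quotient.mk_surjective n
    exact ⟨γ.map (fibI F z).continuous, fun t => (γ t).2, rfl⟩
  · rintro ⟨γ, hγ, rfl⟩
    exact ⟨Path.Homotopic.Quotient.mk (⟨⟨fun t => ⟨γ t, hγ t⟩, by fun_prop⟩,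
      Subtype.ext γ.source, Subtype.ext γ.target⟩ :
        Path (⟨z, rfl⟩ : {w : Y // F w = F z}) ⟨z, rfl⟩), rfl⟩

theorem factors_fpc {T : Type} [Fintype T] {X : Set (T → ℂ)} (hX : IsSubm X) (hc : IsConnected X)
    {Sx : Set (MvPolynomial T ℂ)} (hXa : X = {x | ∀ F ∈ Sx, MvPolynomial.eval x F = 0})
    (f : MvPolynomial T ℂ) (hf : ∀ c : ℂ, ∃ x ∈ X, MvPolynomial.eval x f ≠ c)
    (Tv : Set ℂ) (hTv : Tv.Infinite)
    (hidx : ∀ z : X, fc X f z ∈ Tv → (fibG (fc X f) z).index = 0) (x₁ : X)
    {A B : Type} [Group A] [Group B] [Nontrivial A] [Nontrivial B]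
    (e : FundamentalGroup X x₁ ≃* Coprod A B) :
    FPC A inferInstance ∧ FPC B inferInstance := by
  obtain ⟨S, x₀, N, hS, hx₀T, hx₀S, hNn, hNfg, hN1, hN2⟩ := fibre_group hX hc hXa f hf Tv hTv
  have hpc : PathConnectedSpace X := pathConnected_of hX hc
  have hlpc := lpc_of_subm hX hc
  let e' : FundamentalGroup X x₀ ≃* Coprod A B :=
    (FundamentalGroup.fundamentalGroupMulEquivOfPathConnected x₀ x₁).trans e
  -- the group `N` is trivial
  have hNbot : N = ⊥ := by
    let N' : Subgroup (Coprod A B) := N.map e'.toMonoidHom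
    have h1 : N'.Normal := hNn.map _ e'.surjective
    have h2 : N'.FG := by
      have h0 : Group.FG N := (Group.fg_iff_subgroup_fg _).2 hNfg
      have h5 : Group.FG N' := Group.fg_of_surjective (f := e'.toMonoidHom.subgroupMap N)
        (e'.toMonoidHom.subgroupMap_surjective N)
      exact (Group.fg_iff_subgroup_fg _).1 h5
    rcases coprod_fg_normal N' h2 with h3 | h3
    · exact (Subgroup.map_eq_bot_iff_of_injective N e'.injective).1 h3
    · exfalso
      have h4 : N.FiniteIndex := by
        have h5 : N'.index = N.index := Subgroup.index_map_equiv N e'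
        exact ⟨by rw [← h5]; exact h3.index_ne_zero⟩
      have h6 : N ≤ fibG (fc X f) x₀ := by
        intro n hn
        exact (mem_fibG _ _ _).2 (hN2 n hn)
      have h7 : (fibG (fc X f) x₀).FiniteIndex := Subgroup.finiteIndex_of_le h6
      exact h7.index_ne_zero (hidx x₀ hx₀T)
  have H1 : HypB X f S := by
    refine hypB_of_bot hX hc f hS x₀ hx₀S (fun γ hγ hn => ?_)
    have h1 : (Path.Homotopic.Quotient.mk γ : FundamentalGroup X x₀) ∈
        (⊥ : Subgroup (FundamentalGroup X x₀)) := by
      rw [← hNbot]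
      exact hN1 γ hγ hn
    have h2 := (Subgroup.mem_bot (G := FundamentalGroup X x₀)).1 h1
    exact Path.Homotopic.Quotient.eq.1 h2
  obtain ⟨U, tU, hsc, hlpcU, p, act, cov, -, hGc, hGp, hGf, -⟩ :=
    exists_uc X (slsc_of_subm hX hc) x₀
  have hfg : Group.FG (FundamentalGroup X x₀) := pi1_fg hX hc hXa f hf x₀
  have key : ∀ (C : Type) [Group C] (φ : C →* Coprod A B), Function.Injective φ →
      Group.FG C → FPC C inferInstance := by
    intro C _ φ hφ hC
    let ψ : C →* FundamentalGroup X x₀ := e'.symm.toMonoidHom.comp φ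
    have hψ : Function.Injective ψ := e'.symm.injective.comp hφ
    let _ : MulAction C U := MulAction.compHom U ψ
    refine pencil_fpc hX hc hf p cov (G := C) (fun g => hGc (ψ g)) (fun g u => hGp (ψ g) u)
      (fun g u h => ?_) H1 hS hC
    have h1 : ψ g = 1 := hGf (ψ g) u h
    exact hψ (h1.trans (map_one ψ).symm)
  have hcop : Group.FG (Coprod A B) := Group.fg_of_surjective (f := e'.toMonoidHom) e'.surjective
  refine ⟨key A Coprod.inl Coprod.inl_injective ?_, key B Coprod.inr Coprod.inr_injective ?_⟩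
  · exact Group.fg_of_surjective (f := (Coprod.fst : Coprod A B →* A)) Coprod.fst_surjective
  · exact Group.fg_of_surjective (f := (Coprod.snd : Coprod A B →* B)) Coprod.snd_surjective

end Pool.Agent.Run7.h562
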