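import Pool.Agent.W622.RB.Ex
import Pool.Agent.W400.RB.Uni
import Pool.Agent.W400.RB.Deck
import Pool.Agent.Y193.FG.Main

/-!
# Basic topology: squares, universal covers
-/

set_option autoImplicit false

namespace Pool.Agent.Run7.h562

open Topology Set unitInterval Pool.Agent.Y193.FG Pool.Agent.W622.RB

section

variable {X : Type*} [TopologicalSpace X]

/-- a path in a subset as a path in the subtype -/
def cod {S : Set X} {a b : X} (p : Path a b) (h : ∀ t, p t ∈ S) :
    Path (⟨a, by simpa using h 0⟩ : S) ⟨b, by simpa using h 1⟩ where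
  toFun t := ⟨p t, h t⟩
  continuous_toFun := Continuous.subtype_mk p.continuous _
  source' := Subtype.ext p.source
  target' := Subtype.ext p.target

theorem cod_apply {S : Set X} {a b : X} (p : Path a b) (h : ∀ t, p t ∈ S) (t : I) :
    (cod p h t).1 = p t := rfl

theorem cod_homotopic {S : Set X} {a b : X} {p q : Path a b} {hp : ∀ t, p t ∈ S}
    {hq : ∀ t, q t ∈ S} (h : (cod p hp).Homotopic (cod q hq)) : p.Homotopic q :=
  h.map (⟨Subtype.val, continuous_subtype_val⟩ : C(S, X))

instance contrI : ContractibleSpace I :=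
  (convex_Icc (0 : ℝ) 1).contractibleSpace ⟨0, by simp⟩

/-- opposite sides of a square -/
theorem square {a b c d : X} (p : Path a b) (q : Path c d) (l : Path a c) (r : Path b d)
    (F : C(I × I, X)) (h0 : ∀ t, F (t, 0) = p t) (h1 : ∀ t, F (t, 1) = q t)
    (h2 : ∀ s, F (0, s) = l s) (h3 : ∀ s, F (1, s) = r s) :
    (Path.Homotopic.Quotient.mk p).trans (Path.Homotopic.Quotient.mk r) =
      (Path.Homotopic.Quotient.mk l).trans (Path.Homotopic.Quotient.mk q) := by
  have ha : F (0, 0) = a := by rw [h0, p.source]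
  have hb : F (1, 0) = b := by rw [h0, p.target]
  have hc : F (0, 1) = c := by rw [h1, q.source]
  have hd : F (1, 1) = d := by rw [h1, q.target]
  subst ha hb hc hd
  let p' : Path ((0 : I), (0 : I)) (1, 0) := ⟨⟨fun t => (t, 0), by fun_prop⟩, rfl, rfl⟩
  let q' : Path ((0 : I), (1 : I)) (1, 1) := ⟨⟨fun t => (t, 1), by fun_prop⟩, rfl, rfl⟩
  let l' : Path ((0 : I), (0 : I)) (0, 1) := ⟨⟨fun t => (0, t), by fun_prop⟩, rfl, rfl⟩
  let r' : Path ((1 : I), (0 : I)) (1, 1) := ⟨⟨fun t => (1, t), by fun_prop⟩, rfl, rfl⟩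
  have e : (p'.trans r').Homotopic (l'.trans q') := SimplyConnectedSpace.paths_homotopic _ _
  have e2 := e.map F
  rw [Path.map_trans, Path.map_trans] at e2
  have hp : p'.map F.continuous = p := by ext t; exact h0 t
  have hq : q'.map F.continuous = q := by ext t; exact h1 t
  have hl : l'.map F.continuous = l := by ext t; exact h2 t
  have hr : r'.map F.continuous = r := by ext t; exact h3 t
  have e3 : (p.trans r).Homotopic (l.trans q) := by
    rw [← hp, ← hq, ← hl, ← hr]
    exact e2
  exact Path.Homotopic.Quotient.eq.2 e3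

/-- a path whose class is of the form `l r⁻¹` -/
theorem loop_of_square {a c d : X} (p : Path a a) (q : Path c d) (l : Path a c) (r : Path a d)
    (h : (Path.Homotopic.Quotient.mk p).trans (Path.Homotopic.Quotient.mk r) =
      (Path.Homotopic.Quotient.mk l).trans (Path.Homotopic.Quotient.mk q)) :
    Path.Homotopic.Quotient.mk p = ((Path.Homotopic.Quotient.mk l).trans
      (Path.Homotopic.Quotient.mk q)).trans (Path.Homotopic.Quotient.mk r).symm := by
  rw [← h, Path.Homotopic.Quotient.trans_assoc, Path.Homotopic.Quotient.trans_symm,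
    Path.Homotopic.Quotient.trans_refl]

end

section

theorem lpc_of_lh {U X : Type*} [TopologicalSpace U] [TopologicalSpace X]
    [LocallyPathConnectedSpace X] {p : U → X} (hp : IsLocalHomeomorph p) :
    LocallyPathConnectedSpace U := by
  refine ⟨fun u => ?_⟩
  rw [Filter.hasBasis_iff]
  intro N
  constructor
  · intro hN
    obtain ⟨φ, hu, hφ⟩ := hp u
    have h1 : N ∩ φ.source ∈ 𝓝 u := Filter.inter_mem hN (φ.open_source.mem_nhds hu)
    obtain ⟨O, hON, hO, huO⟩ := mem_nhds_iff.1 h1
    have h2 : IsOpen (φ '' O) :=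
      φ.isOpen_image_of_subset_source hO (fun x hx => (hON hx).2)
    have hmem : φ u ∈ φ '' O := ⟨u, huO, rfl⟩
    set P := pathComponentIn (φ '' O) (φ u) with hP
    have hPsub : P ⊆ φ '' O := pathComponentIn_subset
    have hPo : IsOpen P := h2.pathComponentIn _
    have hPc : IsPathConnected P := isPathConnected_pathComponentIn hmem
    have hPt : P ⊆ φ.target := by
      intro x hx
      obtain ⟨y, hy, rfl⟩ := hPsub hx
      exact φ.map_source (hON hy).2
    refine ⟨φ.symm '' P, ⟨?_, ?_⟩, ?_⟩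
    · have h3 : IsOpen (φ.symm '' P) := φ.symm.isOpen_image_of_subset_source hPo hPt
      exact h3.mem_nhds ⟨φ u, mem_pathComponentIn_self hmem, φ.left_inv hu⟩
    · exact hPc.image' (φ.continuousOn_symm.mono hPt)
    · rintro _ ⟨x, hx, rfl⟩
      obtain ⟨y, hy, rfl⟩ := hPsub hx
      have h5 : φ.symm (φ y) = y := φ.left_inv (hON hy).2
      rw [h5]
      exact (hON hy).1
  · rintro ⟨P, ⟨hP, -⟩, hPN⟩
    exact Filter.mem_of_superset hP hPN

theorem lpc_of_good {X : Type*} [TopologicalSpace X] {U : Set X} (hB : GoodBasis U) :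
    LocallyPathConnectedSpace X := by
  refine LocallyPathConnectedSpace.of_bases (ι := Set X)
    (p := fun x B => Good U B ∧ x ∈ B)
    (s := fun _ B => B) (fun x => ?_) ?_
  · rw [Filter.hasBasis_iff]
    intro O
    constructor
    · intro hO
      obtain ⟨B, hB1, hB2, hB3⟩ := hB x O hO
      exact ⟨B, ⟨hB1, hB2⟩, hB3⟩
    · rintro ⟨B, ⟨hB1, hB2⟩, hB3⟩
      exact Filter.mem_of_superset (hB1.isOpen.mem_nhds hB2) hB3
  · rintro x B ⟨hB1, hB2⟩
    exact ⟨x, hB2, fun {y} hy => by
      obtain ⟨γ, hγ⟩ := hB1.joined x hB2 y hy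
      exact ⟨γ, hγ⟩⟩

theorem slsc_of_good {X : Type} [TopologicalSpace X] {U : Set X} (hB : GoodBasis U) :
    SLSC X := by
  intro x
  obtain ⟨B, hB1, hx, -⟩ := hB x univ Filter.univ_mem
  exact ⟨B, hB1.isOpen.mem_nhds hx, fun y γ hγ => hB1.homotopic y y γ (Path.refl y) hγ
    (fun t => by have := hγ 0; rwa [γ.source] at this)⟩

/-- **universal covers** -/
theorem exists_uc (X : Type) [TopologicalSpace X] [PathConnectedSpace X]
    [LocallyPathConnectedSpace X] (h : SLSC X) (x₀ : X) :
    ∃ (U : Type) (_ : TopologicalSpace U) (_ : SimplyConnectedSpace U)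
      (_ : LocallyPathConnectedSpace U) (p : C(U, X)) (_ : MulAction (FundamentalGroup X x₀) U),
      IsCoveringMap p ∧ Function.Surjective p ∧
      (∀ g : FundamentalGroup X x₀, Continuous (fun u : U => g • u)) ∧
      (∀ (g : FundamentalGroup X x₀) (u : U), p (g • u) = p u) ∧
      (∀ (g : FundamentalGroup X x₀) (u : U), g • u = u → g = 1) ∧
      (∀ u u' : U, p u = p u' → ∃ g : FundamentalGroup X x₀, g • u = u') := by
  obtain ⟨U, tU, p, e₀, γ, hp, hU, himg⟩ := Pool.Agent.W622.RB.Ex.main X h x₀ ⊥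
  have hsc := Pool.Agent.W400.RB.Uni.main X U p hp hU e₀ x₀ γ himg.symm
  have hlpc : LocallyPathConnectedSpace U := lpc_of_lh hp.isLocalHomeomorph
  have hsurj : Function.Surjective p := by
    intro x
    obtain ⟨δ⟩ := PathConnectedSpace.joined (p e₀) x
    obtain ⟨Γ, hΓ, hΓ0⟩ := hp.exists_path_lifts δ e₀ δ.source
    refine ⟨Γ 1, ?_⟩
    have := congrFun hΓ 1
    simpa using this
  obtain ⟨act, h1, h2, h3, h4, -⟩ := Pool.Agent.W400.RB.Deck.main X U p hp hsurj x₀
  exact ⟨U, tU, hsc, hlpc, p, act, hp, hsurj, h1, h2, h3, h4⟩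

end

end Pool.Agent.Run7.h562
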