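import Pool.Agent.Run7.h562.ModelProd

/-!
# Models of the trivial group and of the infinite cyclic group
-/

set_option autoImplicit false
set_option linter.unusedSectionVars false

open Topology Set unitInterval

namespace Pool.Agent.Run7.h562

open Pool.Agent.Y193.FG Monoid

open Classical in
/-- trivializations from functions on the ambient space -/
noncomputable def Trv.amb {T : Type} [Fintype T] {F : Type} [NormedAddCommGroup F]
    [NormedSpace ℝ F] {S : Set (T → ℂ)} {f : MvPolynomial T ℂ} {D : Set ℂ} (x₀ : S)
    (Φ : (T → ℂ) → F) (Ψ : ℂ × F → (T → ℂ))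
    (hΦ : ContinuousOn Φ {z | z ∈ S ∧ MvPolynomial.eval z f ∈ D})
    (hΨ : ContinuousOn Ψ (D ×ˢ univ)) (hS : ∀ t ∈ D, ∀ v, Ψ (t, v) ∈ S)
    (hf : ∀ t ∈ D, ∀ v, MvPolynomial.eval (Ψ (t, v)) f = t)
    (hl : ∀ t ∈ D, ∀ v, Φ (Ψ (t, v)) = v)
    (hr : ∀ z ∈ S, MvPolynomial.eval z f ∈ D → Ψ (MvPolynomial.eval z f, Φ z) = z) :
    Trv F (fc S f) D where
  Φ := fun y => Φ y.1
  Ψ := fun x => if h : x.1 ∈ D then ⟨Ψ (x.1, x.2), hS _ h _⟩ else x₀
  hΦ := hΦ.comp continuous_subtype_val.continuousOn (fun y hy => ⟨y.2, hy⟩)
  hΨ := by
    rw [IsInducing.subtypeVal.continuousOn_iff]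
    refine hΨ.congr ?_
    rintro x ⟨hx, -⟩
    change Subtype.val (dite _ _ _) = _
    rw [dif_pos hx]
  hf t ht v := by
    rw [dif_pos (show (t, v).1 ∈ D from ht)]
    exact hf t ht v
  hl t ht v := by
    rw [dif_pos (show (t, v).1 ∈ D from ht)]
    exact hl t ht v
  hr y hy := by
    rw [dif_pos (show (fc S f y, Φ y.1).1 ∈ D from hy)]
    exact Subtype.ext (hr y.1 y.2 hy)

/-- linear directions -/
theorem fderiv_of_lin {V W : Type} [NormedAddCommGroup V] [NormedSpace ℂ V]
    [NormedAddCommGroup W] [NormedSpace ℂ W] {g : V → W} {p v : V} {a : W}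
    (hg : DifferentiableAt ℂ g p) (h : ∀ t : ℂ, g (p + t • v) = g p + t • a) :
    fderiv ℂ g p v = a := by
  have h0 : HasDerivAt (fun t : ℂ => t • v) v 0 := by
    simpa using (hasDerivAt_id (0 : ℂ)).smul_const v
  have h1 : HasDerivAt (fun t : ℂ => p + t • v) v 0 := h0.const_add p
  have h2 : HasFDerivAt g (fderiv ℂ g p) (p + (0 : ℂ) • v) := by
    rw [zero_smul, add_zero]
    exact hg.hasFDerivAt
  have h3 := h2.comp_hasDerivAt (0 : ℂ) h1
  have h4 : HasDerivAt (fun t : ℂ => t • a) a 0 := by
    simpa using (hasDerivAt_id (0 : ℂ)).smul_const a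
  have h5 : HasDerivAt (fun t : ℂ => g p + t • a) a 0 := h4.const_add (g p)
  have h6 : (g ∘ fun t : ℂ => p + t • v) = fun t : ℂ => g p + t • a := funext h
  rw [h6] at h3
  exact h3.unique h5

/-- simple connectedness from one base point -/
theorem sc_of_one {Y : Type} [TopologicalSpace Y] [PathConnectedSpace Y] (x₀ : Y)
    (h : ∀ γ : Path x₀ x₀, γ.Homotopic (Path.refl x₀)) : SimplyConnectedSpace Y := by
  rw [simply_connected_iff_loops_nullhomotopic]
  refine ⟨inferInstance, fun x γ => ?_⟩
  obtain ⟨δ⟩ := PathConnectedSpace.joined x₀ x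
  have h5 : (Path.Homotopic.Quotient.mk δ).trans ((Path.Homotopic.Quotient.mk γ).trans
      (Path.Homotopic.Quotient.mk δ).symm) = Path.Homotopic.Quotient.refl x₀ :=
    Path.Homotopic.Quotient.eq.2 (h (δ.trans (γ.trans δ.symm)))
  have h6 : Path.Homotopic.Quotient.mk γ = Path.Homotopic.Quotient.refl x := by
    calc Path.Homotopic.Quotient.mk γ
        = (Path.Homotopic.Quotient.mk δ).symm.trans (((Path.Homotopic.Quotient.mk δ).trans
          ((Path.Homotopic.Quotient.mk γ).trans (Path.Homotopic.Quotient.mk δ).symm)).trans
          (Path.Homotopic.Quotient.mk δ)) := by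
          rw [Path.Homotopic.Quotient.trans_assoc, Path.Homotopic.Quotient.trans_assoc,
            Path.Homotopic.Quotient.symm_trans, Path.Homotopic.Quotient.trans_refl,
            ← Path.Homotopic.Quotient.trans_assoc, Path.Homotopic.Quotient.symm_trans,
            Path.Homotopic.Quotient.refl_trans]
      _ = Path.Homotopic.Quotient.refl x := by
          rw [h5, Path.Homotopic.Quotient.refl_trans, Path.Homotopic.Quotient.symm_trans]
  exact Path.Homotopic.Quotient.eq.1 h6

/-! ### the trivial group -/

theorem model_triv : Nonempty (Mdl PUnit.{1}) := by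
  have hcv : Convex ℝ (univ : Set (Unit → ℂ)) := convex_univ
  have hct : ContractibleSpace (univ : Set (Unit → ℂ)) := hcv.contractibleSpace ⟨0, trivial⟩
  let x₀ : (univ : Set (Unit → ℂ)) := ⟨0, trivial⟩
  have hss : Subsingleton (FundamentalGroup (univ : Set (Unit → ℂ)) x₀) := inferInstance
  refine ⟨
    { T := Unit
      fT := inferInstance
      S := univ
      P := ∅
      hP := by simp
      f := MvPolynomial.X ()
      B := ∅
      hB := finite_empty
      sm := ?_
      pc := inferInstance
      x := x₀
      e :=
        { toFun := fun _ => 1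
          invFun := fun _ => 1
          left_inv := fun _ => Subsingleton.elim _ _
          right_inv := fun _ => rfl
          map_mul' := fun _ _ => rfl }
      F := PUnit.{1}
      iF1 := inferInstance
      iF2 := inferInstance
      tr := Trv.amb x₀ (fun _ => 0) (fun x _ => x.1) continuousOn_const (by fun_prop)
        (fun _ _ _ => trivial) (fun t _ _ => by simp) (fun _ _ _ => rfl)
        (fun z _ _ => by
          funext i
          simp) }⟩
  intro p _
  refine ⟨PUnit.{1}, inferInstance, inferInstance, inferInstance, fun _ => 0, univ, isOpen_univ,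
    trivial, differentiableOn_const _, fun a => ⟨0, Subsingleton.elim _ _⟩,
    fun z _ => ⟨fun _ => rfl, fun _ => trivial⟩, ?_⟩
  intro _ a c
  refine ⟨fun _ => c, Subsingleton.elim _ _, ?_⟩
  apply fderiv_of_lin (differentiable_eval _ p)
  intro t
  simp

/-! ### the infinite cyclic group -/

/-- the action of the integers on the plane by translations -/
@[reducible] noncomputable def actZ : MulAction (Multiplicative ℤ) ℂ where
  smul n z := z + 2 * Real.pi * Complex.I * (Multiplicative.toAdd n : ℤ)
  one_smul z := by
    change z + 2 * Real.pi * Complex.I * ((0 : ℤ) : ℂ) = z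
    simp
  mul_smul n m z := by
    change z + 2 * Real.pi * Complex.I * ((Multiplicative.toAdd n + Multiplicative.toAdd m : ℤ) : ℂ)
      = (z + 2 * Real.pi * Complex.I * (Multiplicative.toAdd m : ℤ)) +
        2 * Real.pi * Complex.I * (Multiplicative.toAdd n : ℤ)
    push_cast
    ring

theorem pi1_punctured (w : {z : ℂ // z ≠ 0}) :
    Nonempty (FundamentalGroup {z : ℂ // z ≠ 0} w ≃* Multiplicative ℤ) := by
  let _ := actZ
  have hsm : ∀ (n : Multiplicative ℤ) (z : ℂ),
      n • z = z + 2 * Real.pi * Complex.I * (Multiplicative.toAdd n : ℤ) := fun _ _ => rfl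
  have h2 : 2 * (Real.pi : ℂ) * Complex.I ≠ 0 := Complex.two_pi_I_ne_zero
  have hq : IsQuotientCoveringMap (fun z : ℂ => (⟨_, z.exp_ne_zero⟩ : {z : ℂ // z ≠ 0}))
      (Multiplicative ℤ) := by
    rw [isQuotientCoveringMap_iff_isCoveringMap_and]
    refine ⟨Complex.isCoveringMap_exp, ?_, ⟨fun n => ?_⟩, ?_, ?_⟩
    · rintro ⟨z, hz⟩
      exact ⟨Complex.log z, Subtype.ext (Complex.exp_log hz)⟩
    · change Continuous (fun z : ℂ => z + 2 * Real.pi * Complex.I * (Multiplicative.toAdd n : ℤ))
      fun_prop
    · rw [isCancelSMul_iff_eq_one_of_smul_eq]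
      intro n z h
      rw [hsm] at h
      have h3 : 2 * (Real.pi : ℂ) * Complex.I * ((Multiplicative.toAdd n : ℤ) : ℂ) = 0 := by
        linear_combination h
      have h4 : ((Multiplicative.toAdd n : ℤ) : ℂ) = 0 := (mul_eq_zero.1 h3).resolve_left h2
      have h5 : Multiplicative.toAdd n = 0 := by exact_mod_cast h4
      exact h5
    · intro e₁ e₂
      constructor
      · intro h
        have h3 : Complex.exp e₁ = Complex.exp e₂ := congrArg Subtype.val h
        obtain ⟨n, hn⟩ := Complex.exp_eq_exp_iff_exists_int.1 h3
        refine ⟨Multiplicative.ofAdd n, ?_⟩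
        change e₂ + 2 * Real.pi * Complex.I * (n : ℂ) = e₁
        rw [hn]
        ring
      · rintro ⟨n, rfl⟩
        apply Subtype.ext
        change Complex.exp (e₂ + 2 * Real.pi * Complex.I * (Multiplicative.toAdd n : ℤ)) = _
        rw [Complex.exp_add, exp_period, mul_one]
  have E := hq.fundamentalGroupEquiv (x := w) ⟨Complex.log w.1, by
    apply Subtype.ext
    exact Complex.exp_log w.2⟩
  exact ⟨E.trans (MulEquiv.inv' _).symm⟩

/-- the hyperbola -/
def hyp : Set (Bool → ℂ) := {z | z false * z true = 1}

theorem hyp_ne {z : Bool → ℂ} (hz : z ∈ hyp) : z false ≠ 0 := by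
  intro h
  have : z false * z true = 1 := hz
  rw [h, zero_mul] at this
  exact zero_ne_one this

/-- the hyperbola is the punctured plane -/
noncomputable def hypH : {z : ℂ // z ≠ 0} ≃ₜ hyp where
  toFun t := ⟨fun b => if b then (t.1)⁻¹ else t.1, by
    change t.1 * (t.1)⁻¹ = 1
    exact mul_inv_cancel₀ t.2⟩
  invFun z := ⟨z.1 false, hyp_ne z.2⟩
  left_inv t := rfl
  right_inv z := by
    apply Subtype.ext
    funext b
    rcases b with _ | _
    · rfl
    · change (z.1 false)⁻¹ = z.1 true
      have : z.1 false * z.1 true = 1 := z.2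
      exact inv_eq_of_mul_eq_one_right this
  continuous_toFun := by
    refine Continuous.subtype_mk (continuous_pi (fun b => ?_)) _
    rcases b with _ | _
    · exact continuous_subtype_val
    · exact continuous_subtype_val.inv₀ (fun t => t.2)
  continuous_invFun := by
    refine Continuous.subtype_mk ?_ _
    exact (continuous_apply false).comp continuous_subtype_val

theorem model_int : Nonempty (Mdl (Multiplicative ℤ)) := by
  let w : {z : ℂ // z ≠ 0} := ⟨1, one_ne_zero⟩
  obtain ⟨E1⟩ := pi1_punctured w
  obtain ⟨E2⟩ := pi1_homeo hypH w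
  have hpc0 : IsPathConnected {z : ℂ | z ≠ 0} := by
    have := isPathConnected_compl_singleton_of_one_lt_rank (E := ℂ) (by
      rw [Complex.rank_real_complex]; exact Nat.one_lt_ofNat) (0 : ℂ)
    exact this
  have hpc1 : PathConnectedSpace {z : ℂ // z ≠ 0} := isPathConnected_iff_pathConnectedSpace.1 hpc0
  have hpc : PathConnectedSpace hyp := hypH.surjective.pathConnectedSpace hypH.continuous
  have hev : ∀ z : Bool → ℂ, MvPolynomial.eval z (MvPolynomial.X false) = z false :=
    fun z => MvPolynomial.eval_X _
  refine ⟨
    { T := Bool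
      fT := inferInstance
      S := hyp
      P := {MvPolynomial.X false * MvPolynomial.X true - 1}
      hP := by
        ext z
        constructor
        · intro hz F hF
          rw [Set.mem_singleton_iff.1 hF]
          have : z false * z true = 1 := hz
          simp [this]
        · intro hz
          have := hz _ rfl
          simp only [map_sub, map_mul, MvPolynomial.eval_X, map_one] at this
          exact sub_eq_zero.1 this
      f := MvPolynomial.X false
      B := {0}
      hB := finite_singleton 0
      sm := ?_
      pc := hpc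
      x := hypH w
      e := E2.symm.trans E1
      F := PUnit.{1}
      iF1 := inferInstance
      iF2 := inferInstance
      tr := Trv.amb (hypH w) (fun _ => 0) (fun x b => if b then (x.1)⁻¹ else x.1)
        continuousOn_const ?_ ?_ ?_ (fun _ _ _ => rfl) ?_ }⟩
  · intro p hp
    have hp0 : p false ≠ 0 := hyp_ne hp
    have hp1 : p false * p true = 1 := hp
    let g : (Bool → ℂ) → ℂ := fun z => z false * z true - 1
    have hg : Differentiable ℂ g := by fun_prop
    have key : ∀ c a : ℂ, fderiv ℂ g p (fun b => if b then a else c) = c * p true + a * p false := by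
      intro c a
      have h1 : fderiv ℂ g p (fun b => if b then 0 else 1) = p true := by
        apply fderiv_of_lin (hg p)
        intro t
        simp only [g, Pi.add_apply, Pi.smul_apply, smul_eq_mul, if_true, Bool.false_eq_true,
          if_false]
        ring
      have h2 : fderiv ℂ g p (fun b => if b then 1 else 0) = p false := by
        apply fderiv_of_lin (hg p)
        intro t
        simp only [g, Pi.add_apply, Pi.smul_apply, smul_eq_mul, if_true, Bool.false_eq_true,
          if_false]
        ring
      have h3 : (fun b : Bool => if b then a else c) =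
          c • (fun b : Bool => if b then (0 : ℂ) else 1) +
          a • (fun b : Bool => if b then (1 : ℂ) else 0) := by
        funext b
        rcases b with _ | _ <;> simp
      rw [h3, map_add, map_smul, map_smul, h1, h2]
      simp
    refine ⟨ℂ, inferInstance, inferInstance, inferInstance, g, univ, isOpen_univ, trivial,
      hg.differentiableOn, ?_, ?_, ?_⟩
    · intro a
      refine ⟨fun b => if b then a / p false else 0, ?_⟩
      rw [key, zero_mul, zero_add, div_mul_cancel₀ _ hp0]
    · intro z _
      exact ⟨fun h => sub_eq_zero.2 h, fun h => sub_eq_zero.1 h⟩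
    · intro _ a c
      refine ⟨fun b => if b then (a - c * p true) / p false else c, ?_, ?_⟩
      · rw [key, div_mul_cancel₀ _ hp0]
        ring
      · have h1 : (fun z : Bool → ℂ => MvPolynomial.eval z (MvPolynomial.X false)) =
            fun z => z false := funext hev
        rw [h1]
        apply fderiv_of_lin (by fun_prop)
        intro t
        simp
  · rw [continuousOn_pi]
    rintro (_ | _)
    · exact continuous_fst.continuousOn
    · refine ContinuousOn.inv₀ continuous_fst.continuousOn ?_
      rintro x ⟨hx, -⟩
      exact hx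
  · intro t ht v
    change t * t⁻¹ = 1
    exact mul_inv_cancel₀ ht
  · intro t ht v
    rw [hev]
    rfl
  · intro z hz ht
    rw [hev]
    funext b
    rcases b with _ | _
    · rfl
    · change (z false)⁻¹ = z true
      have : z false * z true = 1 := hz
      exact inv_eq_of_mul_eq_one_right this

end Pool.Agent.Run7.h562
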