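import Pool.Agent.Run7.h562.BaseA

/-!
# Models of finite cyclic groups, part 1
-/

set_option autoImplicit false
set_option linter.unusedSectionVars false

open Topology Set unitInterval

namespace Pool.Agent.Run7.h562

open Pool.Agent.Y193.FG Monoid

/-- the relations -/
def Rl (k : ℕ) (x y e g b d : ℂ) : Prop :=
  y * x ^ (k + 1) = e ^ (k + 2) ∧ x * y ^ (k + 1) = g ^ (k + 2) ∧ e * g = x * y ∧
    x * b + y * d = 1

theorem Rl.symm {k : ℕ} {x y e g b d : ℂ} (h : Rl k x y e g b d) : Rl k y x g e d b := by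
  obtain ⟨h1, h2, h3, h4⟩ := h
  exact ⟨h2, h1, by rw [mul_comm, h3, mul_comm], by rw [add_comm]; exact h4⟩

theorem Rl_iff {k : ℕ} {x y e g b d : ℂ} (hx : x ≠ 0) : Rl k x y e g b d ↔
    y = e ^ (k + 2) / x ^ (k + 1) ∧ g = e ^ (k + 1) / x ^ k ∧ b = (1 - y * d) / x := by
  constructor
  · rintro ⟨h1, h2, h3, h4⟩
    have hy : y = e ^ (k + 2) / x ^ (k + 1) := by
      rw [eq_div_iff (pow_ne_zero _ hx)]
      exact h1
    refine ⟨hy, ?_, ?_⟩
    · rw [eq_div_iff (pow_ne_zero _ hx)]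
      by_cases he : e = 0
      · rw [he, zero_pow (by omega)] at hy
        rw [zero_div] at hy
        rw [hy, zero_pow (by omega), mul_zero] at h2
        have hg : g = 0 := pow_eq_zero_iff (by omega) |>.1 h2.symm
        rw [hg, he, zero_mul, zero_pow (by omega)]
      · apply mul_left_cancel₀ he
        have h5 : e * (g * x ^ k) = (e * g) * x ^ k := by ring
        rw [h5, h3]
        have h6 : x * y * x ^ k = y * x ^ (k + 1) := by ring
        rw [h6, h1]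
        ring
    · rw [eq_div_iff hx]
      linear_combination h4
  · rintro ⟨h1, h2, h3⟩
    have h1' : y * x ^ (k + 1) = e ^ (k + 2) := by
      rw [h1, div_mul_cancel₀ _ (pow_ne_zero _ hx)]
    have h2' : g * x ^ k = e ^ (k + 1) := by
      rw [h2, div_mul_cancel₀ _ (pow_ne_zero _ hx)]
    refine ⟨h1', ?_, ?_, ?_⟩
    · apply mul_right_cancel₀ (pow_ne_zero (k * (k + 2)) hx)
      have h5 : x * y ^ (k + 1) * x ^ (k * (k + 2)) = (y * x ^ (k + 1)) ^ (k + 1) := by ring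
      have h6 : g ^ (k + 2) * x ^ (k * (k + 2)) = (g * x ^ k) ^ (k + 2) := by ring
      rw [h5, h6, h1', h2']
      ring
    · apply mul_right_cancel₀ (pow_ne_zero k hx)
      have h5 : e * g * x ^ k = e * (g * x ^ k) := by ring
      have h6 : x * y * x ^ k = y * x ^ (k + 1) := by ring
      rw [h5, h6, h1', h2']
      ring
    · rw [h3, mul_div_cancel₀ _ hx]
      ring

/-- the threefold with respect to an ordering of the coordinates -/
def YI (k : ℕ) (ι : Fin 6 → Fin 6) : Set (Fin 6 → ℂ) :=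
  {z | Rl k (z (ι 0)) (z (ι 1)) (z (ι 2)) (z (ι 3)) (z (ι 4)) (z (ι 5))}

/-- the chart -/
theorem chartY (k : ℕ) {ι : Fin 6 → Fin 6} (hι : Function.Injective ι) (p : Fin 6 → ℂ)
    (hp : p (ι 0) ≠ 0) : ∃ (g : (Fin 6 → ℂ) → ℂ × ℂ × ℂ) (U : Set (Fin 6 → ℂ)),
      IsOpen U ∧ p ∈ U ∧ DifferentiableOn ℂ g U ∧
      (∀ a, ∃ w, fderiv ℂ g p w = a ∧ w (ι 0) = 0) ∧ ∀ z ∈ U, (z ∈ YI k ι ↔ g z = 0) := by
  let U : Set (Fin 6 → ℂ) := {z | z (ι 0) ≠ 0}
  have hU : IsOpen U := isOpen_ne_fun (continuous_apply _) continuous_const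
  let g : (Fin 6 → ℂ) → ℂ × ℂ × ℂ := fun z =>
    (z (ι 1) - z (ι 2) ^ (k + 2) / z (ι 0) ^ (k + 1), z (ι 3) - z (ι 2) ^ (k + 1) / z (ι 0) ^ k,
      z (ι 4) - (1 - z (ι 1) * z (ι 5)) / z (ι 0))
  have hg : ∀ z ∈ U, DifferentiableAt ℂ g z := by
    intro z hz
    have hz' : z (ι 0) ≠ 0 := hz
    have n0 : ∀ j : ℕ, DifferentiableAt ℂ (fun z : Fin 6 → ℂ => z (ι 0) ^ j) z := fun j => by
      fun_prop
    have n2 : ∀ j : ℕ, DifferentiableAt ℂ (fun z : Fin 6 → ℂ => z (ι 2) ^ j) z := fun j => by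
      fun_prop
    have n1 : ∀ i, DifferentiableAt ℂ (fun z : Fin 6 → ℂ => z i) z := fun i => by fun_prop
    have n3 : DifferentiableAt ℂ (fun z : Fin 6 → ℂ => 1 - z (ι 1) * z (ι 5)) z := by fun_prop
    have dv : ∀ c d : (Fin 6 → ℂ) → ℂ, DifferentiableAt ℂ c z → DifferentiableAt ℂ d z →
        d z ≠ 0 → DifferentiableAt ℂ (fun z => c z / d z) z := by
      intro c d hc hd h
      simp only [div_eq_mul_inv]
      exact hc.mul (hd.inv h)
    have q1 : DifferentiableAt ℂ (fun z : Fin 6 → ℂ => z (ι 2) ^ (k + 2) / z (ι 0) ^ (k + 1)) z :=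
      dv _ _ (n2 _) (n0 _) (pow_ne_zero _ hz')
    have q2 : DifferentiableAt ℂ (fun z : Fin 6 → ℂ => z (ι 2) ^ (k + 1) / z (ι 0) ^ k) z :=
      dv _ _ (n2 _) (n0 _) (pow_ne_zero _ hz')
    have q3 : DifferentiableAt ℂ (fun z : Fin 6 → ℂ => (1 - z (ι 1) * z (ι 5)) / z (ι 0)) z :=
      dv _ _ n3 (n1 _) hz'
    exact ((n1 _).sub q1).prodMk (((n1 _).sub q2).prodMk ((n1 _).sub q3))
  refine ⟨g, U, hU, hp, fun z hz => (hg z hz).differentiableWithinAt, ?_, ?_⟩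
  · rintro ⟨a1, a3, a4⟩
    let w : Fin 6 → ℂ := ![0, a1, 0, a3, a4 - a1 * p (ι 5) / p (ι 0), 0]
    have hw : ∀ i, Function.extend ι w 0 (ι i) = w i := fun i => hι.extend_apply w 0 i
    refine ⟨Function.extend ι w 0, ?_, hw 0⟩
    apply fderiv_of_lin (hg p hp)
    intro t
    have e0 : (p + t • Function.extend ι w 0) (ι 0) = p (ι 0) := by
      rw [Pi.add_apply, Pi.smul_apply, hw]
      change p (ι 0) + t * 0 = _
      ring
    have e1 : (p + t • Function.extend ι w 0) (ι 1) = p (ι 1) + t * a1 := by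
      rw [Pi.add_apply, Pi.smul_apply, hw]
      rfl
    have e2 : (p + t • Function.extend ι w 0) (ι 2) = p (ι 2) := by
      rw [Pi.add_apply, Pi.smul_apply, hw]
      change p (ι 2) + t * 0 = _
      ring
    have e3 : (p + t • Function.extend ι w 0) (ι 3) = p (ι 3) + t * a3 := by
      rw [Pi.add_apply, Pi.smul_apply, hw]
      rfl
    have e4 : (p + t • Function.extend ι w 0) (ι 4) =
        p (ι 4) + t * (a4 - a1 * p (ι 5) / p (ι 0)) := by
      rw [Pi.add_apply, Pi.smul_apply, hw]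
      rfl
    have e5 : (p + t • Function.extend ι w 0) (ι 5) = p (ι 5) := by
      rw [Pi.add_apply, Pi.smul_apply, hw]
      change p (ι 5) + t * 0 = _
      ring
    refine Prod.ext ?_ (Prod.ext ?_ ?_)
    · change (p + t • Function.extend ι w 0) (ι 1) - (p + t • Function.extend ι w 0) (ι 2) ^
        (k + 2) / (p + t • Function.extend ι w 0) (ι 0) ^ (k + 1) =
        (p (ι 1) - p (ι 2) ^ (k + 2) / p (ι 0) ^ (k + 1)) + t * a1
      rw [e0, e1, e2]
      ring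
    · change (p + t • Function.extend ι w 0) (ι 3) - (p + t • Function.extend ι w 0) (ι 2) ^
        (k + 1) / (p + t • Function.extend ι w 0) (ι 0) ^ k =
        (p (ι 3) - p (ι 2) ^ (k + 1) / p (ι 0) ^ k) + t * a3
      rw [e0, e2, e3]
      ring
    · change (p + t • Function.extend ι w 0) (ι 4) - (1 - (p + t • Function.extend ι w 0) (ι 1) *
        (p + t • Function.extend ι w 0) (ι 5)) / (p + t • Function.extend ι w 0) (ι 0) =
        (p (ι 4) - (1 - p (ι 1) * p (ι 5)) / p (ι 0)) + t * a4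
      rw [e0, e1, e4, e5]
      field_simp
      ring
  · intro z hz
    have hz' : z (ι 0) ≠ 0 := hz
    change Rl k _ _ _ _ _ _ ↔ _
    rw [Rl_iff hz', Prod.ext_iff, Prod.ext_iff]
    change _ ↔ (z (ι 1) - z (ι 2) ^ (k + 2) / z (ι 0) ^ (k + 1) = 0 ∧
      z (ι 3) - z (ι 2) ^ (k + 1) / z (ι 0) ^ k = 0 ∧
      z (ι 4) - (1 - z (ι 1) * z (ι 5)) / z (ι 0) = 0)
    rw [sub_eq_zero, sub_eq_zero, sub_eq_zero]

/-- the threefold -/
def YS (k : ℕ) : Set (Fin 6 → ℂ) := YI k id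

theorem mem_YS {k : ℕ} {z : Fin 6 → ℂ} :
    z ∈ YS k ↔ Rl k (z 0) (z 1) (z 2) (z 3) (z 4) (z 5) := Iff.rfl

/-- the symmetry of the coordinates -/
def sw : Fin 6 → Fin 6 := ![1, 0, 3, 2, 5, 4]

theorem YS_sw (k : ℕ) : YS k = YI k sw := by
  ext z
  exact ⟨fun h => Rl.symm h, fun h => Rl.symm h⟩

theorem YS_smooth (k : ℕ) (p : Fin 6 → ℂ) (hp : p ∈ YS k) :
    SmF (YS k) (fun z => MvPolynomial.eval z (MvPolynomial.X 0)) {0} p := by
  have hev : (fun z : Fin 6 → ℂ => MvPolynomial.eval z (MvPolynomial.X 0)) = fun z => z 0 :=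
    funext (fun z => MvPolynomial.eval_X _)
  rw [hev]
  by_cases h0 : p 0 = 0
  · have h1 : p (sw 0) ≠ 0 := by
      change p 1 ≠ 0
      intro h1
      have h2 : p 0 * p 4 + p 1 * p 5 = 1 := hp.2.2.2
      rw [h0, h1, zero_mul, zero_mul, add_zero] at h2
      exact zero_ne_one h2
    obtain ⟨g, U, a1, a2, a3, a4, a5⟩ := chartY k (ι := sw) (by decide) p h1
    refine ⟨ℂ × ℂ × ℂ, inferInstance, inferInstance, inferInstance, g, U, a1, a2, a3,
      fun a => ?_, ?_, fun h => absurd h0 h⟩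
    · obtain ⟨w, hw, -⟩ := a4 a
      exact ⟨w, hw⟩
    · rw [YS_sw]
      exact a5
  · obtain ⟨g, U, a1, a2, a3, a4, a5⟩ := chartY k (ι := id) Function.injective_id p h0
    refine ⟨ℂ × ℂ × ℂ, inferInstance, inferInstance, inferInstance, g, U, a1, a2, a3,
      fun a => ?_, a5, fun _ a c => ?_⟩
    · obtain ⟨w, hw, -⟩ := a4 a
      exact ⟨w, hw⟩
    · let u : Fin 6 → ℂ := ![c, 0, 0, 0, 0, 0]
      obtain ⟨w, hw, hw0⟩ := a4 (a - fderiv ℂ g p u)
      refine ⟨u + w, ?_, ?_⟩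
      · rw [map_add, hw]
        abel
      · have h3 : fderiv ℂ (fun z : Fin 6 → ℂ => z 0) p (u + w) = (u + w) 0 := by
          apply fderiv_of_lin (by fun_prop)
          intro t
          rfl
        rw [h3]
        change c + w 0 = c
        have h4 : w 0 = 0 := hw0
        rw [h4, add_zero]

/-- the trivialization -/
noncomputable def Ypt (k : ℕ) (x : ℂ × (ℂ × ℂ)) : Fin 6 → ℂ :=
  ![x.1, x.2.1 ^ (k + 2) / x.1 ^ (k + 1), x.2.1, x.2.1 ^ (k + 1) / x.1 ^ k,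
    (1 - x.2.1 ^ (k + 2) / x.1 ^ (k + 1) * x.2.2) / x.1, x.2.2]

theorem Ypt_mem (k : ℕ) {t : ℂ} (ht : t ≠ 0) (v : ℂ × ℂ) : Ypt k (t, v) ∈ YS k := by
  rw [mem_YS]
  exact (Rl_iff ht).2 ⟨rfl, rfl, rfl⟩

noncomputable def Ytr (k : ℕ) (x₀ : YS k) :
    Trv (ℂ × ℂ) (fc (YS k) (MvPolynomial.X 0)) {0}ᶜ := by
  refine Trv.amb x₀ (fun z => (z 2, z 5)) (Ypt k) ?_ ?_ ?_ ?_ ?_ ?_
  · exact Continuous.continuousOn (by fun_prop)
  · rw [continuousOn_pi]
    intro i
    have hne : ∀ x : ℂ × (ℂ × ℂ), x ∈ ({0}ᶜ : Set ℂ) ×ˢ (univ : Set (ℂ × ℂ)) → x.1 ≠ 0 :=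
      fun x hx => hx.1
    have c1 : ContinuousOn (fun x : ℂ × (ℂ × ℂ) => x.2.1 ^ (k + 2) / x.1 ^ (k + 1))
        (({0}ᶜ : Set ℂ) ×ˢ (univ : Set (ℂ × ℂ))) :=
      ContinuousOn.div (by fun_prop) (by fun_prop) (fun x hx => pow_ne_zero _ (hne x hx))
    have c2 : ContinuousOn (fun x : ℂ × (ℂ × ℂ) => x.2.1 ^ (k + 1) / x.1 ^ k)
        (({0}ᶜ : Set ℂ) ×ˢ (univ : Set (ℂ × ℂ))) :=
      ContinuousOn.div (by fun_prop) (by fun_prop) (fun x hx => pow_ne_zero _ (hne x hx))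
    have c3 : ContinuousOn (fun x : ℂ × (ℂ × ℂ) =>
        (1 - x.2.1 ^ (k + 2) / x.1 ^ (k + 1) * x.2.2) / x.1)
        (({0}ᶜ : Set ℂ) ×ˢ (univ : Set (ℂ × ℂ))) :=
      ContinuousOn.div (continuousOn_const.sub (c1.mul (by fun_prop))) (by fun_prop) hne
    fin_cases i
    · exact Continuous.continuousOn (by change Continuous (fun x : ℂ × (ℂ × ℂ) => x.1); fun_prop)
    · exact c1
    · exact Continuous.continuousOn (by
        change Continuous (fun x : ℂ × (ℂ × ℂ) => x.2.1); fun_prop)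
    · exact c2
    · exact c3
    · exact Continuous.continuousOn (by
        change Continuous (fun x : ℂ × (ℂ × ℂ) => x.2.2); fun_prop)
  · intro t ht v
    exact Ypt_mem k ht v
  · intro t ht v
    rw [MvPolynomial.eval_X]
    rfl
  · intro t ht v
    rfl
  · intro z hz hz0
    rw [MvPolynomial.eval_X] at hz0 ⊢
    have hz0' : z 0 ≠ 0 := hz0
    obtain ⟨h1, h2, h3⟩ := (Rl_iff hz0').1 (mem_YS.1 hz)
    funext i
    fin_cases i
    · rfl
    · exact h1.symm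
    · rfl
    · exact h2.symm
    · change (1 - z 2 ^ (k + 2) / z 0 ^ (k + 1) * z 5) / z 0 = z 4
      rw [← h1]
      exact h3.symm
    · rfl

end Pool.Agent.Run7.h562
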