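import Pool.Agent.Run7.h562.BaseB

/-!
# Models of finite cyclic groups, part 2
-/

set_option autoImplicit false
set_option linter.unusedSectionVars false

open Topology Set unitInterval Filter

namespace Pool.Agent.Run7.h562

open Pool.Agent.Y193.FG Monoid

/-- the covering space -/
def ZS (k : ℕ) : Set (Fin 4 → ℂ) := {z | z 0 ^ (k + 2) * z 1 + z 2 ^ (k + 2) * z 3 = 1}

theorem ZS_ne {k : ℕ} {z : Fin 4 → ℂ} (hz : z ∈ ZS k) (h0 : z 0 = 0) : z 2 ≠ 0 := by
  intro h2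
  have h : z 0 ^ (k + 2) * z 1 + z 2 ^ (k + 2) * z 3 = 1 := hz
  rw [h0, h2, zero_pow (by omega), zero_mul, zero_mul, add_zero] at h
  exact zero_ne_one h

theorem ZS_smooth (k : ℕ) (p : Fin 4 → ℂ) (hp : p ∈ ZS k) : Sm (ZS k) p := by
  let g : (Fin 4 → ℂ) → ℂ := fun z => z 0 ^ (k + 2) * z 1 + z 2 ^ (k + 2) * z 3 - 1
  have hg : Differentiable ℂ g := by fun_prop
  refine ⟨ℂ, inferInstance, inferInstance, inferInstance, g, univ, isOpen_univ, trivial,
    hg.differentiableOn, ?_, fun z _ => ⟨fun h => sub_eq_zero.2 h, fun h => sub_eq_zero.1 h⟩⟩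
  intro a
  by_cases h0 : p 0 = 0
  · have h2 := ZS_ne hp h0
    refine ⟨![0, 0, 0, a / p 2 ^ (k + 2)], ?_⟩
    apply fderiv_of_lin (hg p)
    intro t
    change (p 0 + t * 0) ^ (k + 2) * (p 1 + t * 0) + (p 2 + t * 0) ^ (k + 2) *
      (p 3 + t * (a / p 2 ^ (k + 2))) - 1 = (p 0 ^ (k + 2) * p 1 + p 2 ^ (k + 2) * p 3 - 1) + t * a
    have h3 : p 2 ^ (k + 2) ≠ 0 := pow_ne_zero _ h2
    rw [mul_zero, add_zero, add_zero, add_zero]
    have h4 : p 2 ^ (k + 2) * (p 3 + t * (a / p 2 ^ (k + 2))) = p 2 ^ (k + 2) * p 3 + t * a := by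
      rw [mul_add]
      congr 1
      field_simp
    rw [h4]
    ring
  · refine ⟨![0, a / p 0 ^ (k + 2), 0, 0], ?_⟩
    apply fderiv_of_lin (hg p)
    intro t
    change (p 0 + t * 0) ^ (k + 2) * (p 1 + t * (a / p 0 ^ (k + 2))) + (p 2 + t * 0) ^ (k + 2) *
      (p 3 + t * 0) - 1 = (p 0 ^ (k + 2) * p 1 + p 2 ^ (k + 2) * p 3 - 1) + t * a
    have h3 : p 0 ^ (k + 2) ≠ 0 := pow_ne_zero _ h0
    rw [mul_zero, add_zero, add_zero, add_zero]
    have h4 : p 0 ^ (k + 2) * (p 1 + t * (a / p 0 ^ (k + 2))) = p 0 ^ (k + 2) * p 1 + t * a := by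
      rw [mul_add]
      congr 1
      field_simp
    rw [h4]
    ring

theorem ZS_closed (k : ℕ) : IsClosed (ZS k) := isClosed_eq (by fun_prop) continuous_const

/-- the moving point -/
noncomputable def mv (k : ℕ) (s : ℝ) (z : Fin 4 → ℂ) : Fin 4 → ℂ :=
  ![z 0, (1 - ((1 - (s : ℂ)) * z 2 + s) ^ (k + 2) * ((1 - (s : ℂ)) * z 3 + s)) / z 0 ^ (k + 2),
    (1 - (s : ℂ)) * z 2 + s, (1 - (s : ℂ)) * z 3 + s]

theorem mv_mem (k : ℕ) (s : ℝ) {z : Fin 4 → ℂ} (h0 : z 0 ≠ 0) : mv k s z ∈ ZS k := by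
  change z 0 ^ (k + 2) * ((1 - ((1 - (s : ℂ)) * z 2 + s) ^ (k + 2) *
    ((1 - (s : ℂ)) * z 3 + s)) / z 0 ^ (k + 2)) +
    ((1 - (s : ℂ)) * z 2 + s) ^ (k + 2) * ((1 - (s : ℂ)) * z 3 + s) = 1
  rw [mul_div_cancel₀ _ (pow_ne_zero _ h0)]
  ring

theorem mv_zero (k : ℕ) {z : Fin 4 → ℂ} (hz : z ∈ ZS k) (h0 : z 0 ≠ 0) : mv k 0 z = z := by
  have h : z 0 ^ (k + 2) * z 1 + z 2 ^ (k + 2) * z 3 = 1 := hz
  funext i
  fin_cases i
  · rfl
  · change (1 - ((1 - ((0 : ℝ) : ℂ)) * z 2 + ((0 : ℝ) : ℂ)) ^ (k + 2) *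
      ((1 - ((0 : ℝ) : ℂ)) * z 3 + ((0 : ℝ) : ℂ))) / z 0 ^ (k + 2) = z 1
    rw [Complex.ofReal_zero, sub_zero, one_mul, one_mul, add_zero, add_zero,
      div_eq_iff (pow_ne_zero _ h0)]
    linear_combination -h
  · change (1 - ((0 : ℝ) : ℂ)) * z 2 + ((0 : ℝ) : ℂ) = z 2
    rw [Complex.ofReal_zero, sub_zero, one_mul, add_zero]
  · change (1 - ((0 : ℝ) : ℂ)) * z 3 + ((0 : ℝ) : ℂ) = z 3
    rw [Complex.ofReal_zero, sub_zero, one_mul, add_zero]

theorem mv_one (k : ℕ) (z : Fin 4 → ℂ) : mv k 1 z = ![z 0, 0, 1, 1] := by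
  funext i
  fin_cases i
  · rfl
  · change (1 - ((1 - ((1 : ℝ) : ℂ)) * z 2 + ((1 : ℝ) : ℂ)) ^ (k + 2) *
      ((1 - ((1 : ℝ) : ℂ)) * z 3 + ((1 : ℝ) : ℂ))) / z 0 ^ (k + 2) = 0
    rw [Complex.ofReal_one, sub_self, zero_mul, zero_mul, zero_add, one_pow, mul_one, sub_self,
      zero_div]
  · change (1 - ((1 : ℝ) : ℂ)) * z 2 + ((1 : ℝ) : ℂ) = 1
    rw [Complex.ofReal_one, sub_self, zero_mul, zero_add]
  · change (1 - ((1 : ℝ) : ℂ)) * z 3 + ((1 : ℝ) : ℂ) = 1
    rw [Complex.ofReal_one, sub_self, zero_mul, zero_add]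

theorem mv_base (k : ℕ) (s : ℝ) : mv k s ![1, 0, 1, 1] = ![1, 0, 1, 1] := by
  have h1 : (1 - (s : ℂ)) * 1 + s = 1 := by ring
  funext i
  fin_cases i
  · rfl
  · change (1 - ((1 - (s : ℂ)) * 1 + (s : ℂ)) ^ (k + 2) *
      ((1 - (s : ℂ)) * 1 + (s : ℂ))) / 1 ^ (k + 2) = 0
    rw [h1, one_pow, mul_one, sub_self, zero_div]
  · exact h1
  · exact h1

theorem mv_cont (k : ℕ) {Y : Type} [TopologicalSpace Y] {s : Y → ℝ} {z : Y → Fin 4 → ℂ}
    (hs : Continuous s) (hz : Continuous z) (h0 : ∀ y, z y 0 ≠ 0) :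
    Continuous (fun y => mv k (s y) (z y)) := by
  have hz' : ∀ i, Continuous (fun y => z y i) := fun i => (continuous_apply i).comp hz
  have hs' : Continuous (fun y => ((s y : ℝ) : ℂ)) := Complex.continuous_ofReal.comp hs
  have c2 : Continuous (fun y => (1 - ((s y : ℝ) : ℂ)) * z y 2 + ((s y : ℝ) : ℂ)) :=
    ((continuous_const.sub hs').mul (hz' 2)).add hs'
  have c3 : Continuous (fun y => (1 - ((s y : ℝ) : ℂ)) * z y 3 + ((s y : ℝ) : ℂ)) :=
    ((continuous_const.sub hs').mul (hz' 3)).add hs'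
  refine continuous_pi (fun i => ?_)
  fin_cases i
  · exact hz' 0
  · exact (continuous_const.sub ((c2.pow _).mul c3)).div ((hz' 0).pow _)
      (fun y => pow_ne_zero _ (h0 y))
  · exact c2
  · exact c3

/-- the base point -/
def Zb (k : ℕ) : ZS k := ⟨![1, 0, 1, 1], by
  change (1 : ℂ) ^ (k + 2) * 0 + 1 ^ (k + 2) * 1 = 1
  simp⟩

/-- the contractible line -/
noncomputable def Zl (k : ℕ) : C(ℂ, ZS k) := ⟨fun a => ⟨![a, 0, 1, 1], by
  change a ^ (k + 2) * 0 + 1 ^ (k + 2) * 1 = 1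
  simp⟩, by
  refine Continuous.subtype_mk (continuous_pi (fun i => ?_)) _
  fin_cases i
  · exact continuous_id
  · exact continuous_const
  · exact continuous_const
  · exact continuous_const⟩

theorem ZS_joined1 (k : ℕ) (z : ZS k) (h0 : z.1 0 ≠ 0) : Joined z (Zb k) := by
  have j1 : Joined z (Zl k (z.1 0)) := by
    refine ⟨⟨⟨fun s => ⟨mv k s z.1, mv_mem k s h0⟩, ?_⟩, ?_, ?_⟩⟩
    · exact Continuous.subtype_mk (mv_cont k continuous_subtype_val continuous_const
        (fun _ => h0)) _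
    · exact Subtype.ext (mv_zero k z.2 h0)
    · exact Subtype.ext (mv_one k z.1)
  have j2 : Joined (Zl k (z.1 0)) (Zl k 1) := by
    obtain ⟨p⟩ := PathConnectedSpace.joined (z.1 0) (1 : ℂ)
    exact ⟨p.map (Zl k).continuous⟩
  exact j1.trans j2

theorem ZS_joined (k : ℕ) (z : ZS k) : Joined z (Zb k) := by
  by_cases h0 : z.1 0 = 0
  · have hz : z.1 0 ^ (k + 2) * z.1 1 + z.1 2 ^ (k + 2) * z.1 3 = 1 := z.2
    rw [h0, zero_pow (by omega), zero_mul, zero_add] at hz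
    let z₁ : ZS k := ⟨![0, 0, z.1 2, z.1 3], by
      change (0 : ℂ) ^ (k + 2) * 0 + z.1 2 ^ (k + 2) * z.1 3 = 1
      rw [mul_zero, zero_add, hz]⟩
    let z₂ : ZS k := ⟨![1, 0, z.1 2, z.1 3], by
      change (1 : ℂ) ^ (k + 2) * 0 + z.1 2 ^ (k + 2) * z.1 3 = 1
      rw [mul_zero, zero_add, hz]⟩
    have j1 : Joined z z₁ := by
      refine ⟨⟨⟨fun s => ⟨![0, (1 - ((s : ℝ) : ℂ)) * z.1 1, z.1 2, z.1 3], ?_⟩, ?_⟩, ?_, ?_⟩⟩
      · change (0 : ℂ) ^ (k + 2) * _ + z.1 2 ^ (k + 2) * z.1 3 = 1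
        rw [zero_pow (by omega), zero_mul, zero_add, hz]
      · refine Continuous.subtype_mk (continuous_pi (fun i => ?_)) _
        fin_cases i
        · exact continuous_const
        · change Continuous (fun s : I => (1 - ((s : ℝ) : ℂ)) * z.1 1)
          fun_prop
        · exact continuous_const
        · exact continuous_const
      · apply Subtype.ext
        funext i
        fin_cases i
        · exact h0.symm
        · change (1 - (((0 : I) : ℝ) : ℂ)) * z.1 1 = z.1 1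
          simp
        · rfl
        · rfl
      · apply Subtype.ext
        funext i
        fin_cases i
        · rfl
        · change (1 - (((1 : I) : ℝ) : ℂ)) * z.1 1 = 0
          simp
        · rfl
        · rfl
    have j2 : Joined z₁ z₂ := by
      refine ⟨⟨⟨fun s => ⟨![((s : ℝ) : ℂ), 0, z.1 2, z.1 3], ?_⟩, ?_⟩, ?_, ?_⟩⟩
      · change ((s : ℝ) : ℂ) ^ (k + 2) * 0 + z.1 2 ^ (k + 2) * z.1 3 = 1
        rw [mul_zero, zero_add, hz]
      · refine Continuous.subtype_mk (continuous_pi (fun i => ?_)) _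
        fin_cases i
        · change Continuous (fun s : I => ((s : ℝ) : ℂ))
          fun_prop
        · exact continuous_const
        · exact continuous_const
        · exact continuous_const
      · apply Subtype.ext
        funext i
        fin_cases i
        · change (((0 : I) : ℝ) : ℂ) = 0
          simp
        · rfl
        · rfl
        · rfl
      · apply Subtype.ext
        funext i
        fin_cases i
        · change (((1 : I) : ℝ) : ℂ) = 1
          simp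
        · rfl
        · rfl
        · rfl
    exact (j1.trans j2).trans (ZS_joined1 k z₂ one_ne_zero)
  · exact ZS_joined1 k z h0

theorem ZS_pc (k : ℕ) : PathConnectedSpace (ZS k) :=
  ⟨⟨Zb k⟩, fun x y => (ZS_joined k x).trans (ZS_joined k y).symm⟩

/-- **the covering space is simply connected** -/
theorem ZS_sc (k : ℕ) : SimplyConnectedSpace (ZS k) := by
  have hpc := ZS_pc k
  have hsub : IsSubm (ZS k) := subm_of_sm (ZS_smooth k)
  have hconn : IsConnected (ZS k) := conn_of_pc hpc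
  refine sc_of_one (Zb k) (fun γ => ?_)
  have hev : ∀ z : Fin 4 → ℂ, MvPolynomial.eval z (MvPolynomial.X 0) = z 0 :=
    fun z => MvPolynomial.eval_X _
  obtain ⟨q, hq, hqγ⟩ := push_nz hsub hconn (MvPolynomial.X 0) (a := Zb k) (b := Zb k)
    (by rw [hev]; exact one_ne_zero) (by rw [hev]; exact one_ne_zero) γ
  have hq' : ∀ t, (q t).1 0 ≠ 0 := fun t => by
    have h := hq t
    rwa [hev] at h
  let π : C(ZS k, ℂ) := ⟨fun z => z.1 0, (continuous_apply 0).comp continuous_subtype_val⟩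
  let q' : Path (Zb k) (Zb k) := (q.map π.continuous).map (Zl k).continuous
  have h1 : q'.Homotopic (Path.refl _) := contr_null (Zl k) (q.map π.continuous)
  have hsq := square q q' (Path.refl (Zb k)) (Path.refl (Zb k))
    ⟨fun x : I × I => ⟨mv k x.2 (q x.1).1, mv_mem k _ (hq' x.1)⟩,
      Continuous.subtype_mk (mv_cont k (s := fun x : I × I => (x.2 : ℝ))
        (z := fun x : I × I => (q x.1).1) (by fun_prop)
        (continuous_subtype_val.comp (q.continuous.comp continuous_fst)) (fun x => hq' x.1)) _⟩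
    (fun t => Subtype.ext (mv_zero k (q t).2 (hq' t)))
    (fun t => Subtype.ext (mv_one k (q t).1))
    (fun s => by
      apply Subtype.ext
      change mv k s (q 0).1 = _
      rw [q.source]
      exact mv_base k s)
    (fun s => by
      apply Subtype.ext
      change mv k s (q 1).1 = _
      rw [q.target]
      exact mv_base k s)
  rw [Path.Homotopic.Quotient.eq.2 h1, Path.Homotopic.Quotient.mk_refl,
    Path.Homotopic.Quotient.trans_refl, Path.Homotopic.Quotient.trans_refl] at hsq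
  exact hqγ.symm.trans (Path.Homotopic.Quotient.eq.1 hsq)

end Pool.Agent.Run7.h562
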