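import Pool.Agent.Run7.h562.BaseC

/-!
# Models of finite cyclic groups, part 3
-/

set_option autoImplicit false
set_option linter.unusedSectionVars false

open Topology Set unitInterval Filter

namespace Pool.Agent.Run7.h562

open Pool.Agent.Y193.FG Monoid

/-- the quotient map on the ambient space -/
def mm (k : ℕ) (z : Fin 4 → ℂ) : Fin 6 → ℂ :=
  ![z 0 ^ (k + 2), z 2 ^ (k + 2), z 0 ^ (k + 1) * z 2, z 0 * z 2 ^ (k + 1), z 1, z 3]

theorem mm_cont (k : ℕ) : Continuous (mm k) := by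
  refine continuous_pi (fun i => ?_)
  fin_cases i
  · change Continuous (fun z : Fin 4 → ℂ => z 0 ^ (k + 2)); fun_prop
  · change Continuous (fun z : Fin 4 → ℂ => z 2 ^ (k + 2)); fun_prop
  · change Continuous (fun z : Fin 4 → ℂ => z 0 ^ (k + 1) * z 2); fun_prop
  · change Continuous (fun z : Fin 4 → ℂ => z 0 * z 2 ^ (k + 1)); fun_prop
  · change Continuous (fun z : Fin 4 → ℂ => z 1); fun_prop
  · change Continuous (fun z : Fin 4 → ℂ => z 3); fun_prop

theorem mm_mem (k : ℕ) {z : Fin 4 → ℂ} (hz : z ∈ ZS k) : mm k z ∈ YS k := by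
  have h : z 0 ^ (k + 2) * z 1 + z 2 ^ (k + 2) * z 3 = 1 := hz
  rw [mem_YS]
  refine ⟨?_, ?_, ?_, h⟩
  · change z 2 ^ (k + 2) * (z 0 ^ (k + 2)) ^ (k + 1) = (z 0 ^ (k + 1) * z 2) ^ (k + 2)
    ring
  · change z 0 ^ (k + 2) * (z 2 ^ (k + 2)) ^ (k + 1) = (z 0 * z 2 ^ (k + 1)) ^ (k + 2)
    ring
  · change z 0 ^ (k + 1) * z 2 * (z 0 * z 2 ^ (k + 1)) = z 0 ^ (k + 2) * z 2 ^ (k + 2)
    ring

theorem le_max_pow (w : ℂ) (k : ℕ) : ‖w‖ ≤ max 1 ‖w ^ (k + 2)‖ := by
  rcases le_total ‖w‖ 1 with h | h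
  · exact h.trans (le_max_left _ _)
  · refine le_trans ?_ (le_max_right _ _)
    rw [norm_pow]
    calc ‖w‖ = ‖w‖ ^ 1 := (pow_one _).symm
      _ ≤ ‖w‖ ^ (k + 2) := pow_le_pow_right₀ h (by omega)

theorem mm_norm (k : ℕ) (z : Fin 4 → ℂ) : ‖z‖ ≤ max 1 ‖mm k z‖ := by
  rw [pi_norm_le_iff_of_nonneg (by positivity)]
  have hle : ∀ i, ‖mm k z i‖ ≤ ‖mm k z‖ := fun i => norm_le_pi_norm _ i
  intro i
  fin_cases i
  · exact (le_max_pow (z 0) k).trans (max_le_max le_rfl (hle 0))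
  · exact (hle 4).trans (le_max_right _ _)
  · exact (le_max_pow (z 2) k).trans (max_le_max le_rfl (hle 1))
  · exact (hle 5).trans (le_max_right _ _)

theorem mm_proper (k : ℕ) : IsProperMap (mm k) := by
  rw [isProperMap_iff_tendsto_cocompact]
  refine ⟨mm_cont k, ?_⟩
  rw [← Metric.cobounded_eq_cocompact, ← Metric.cobounded_eq_cocompact,
    ← tendsto_norm_atTop_iff_cobounded]
  have h1 : Tendsto (fun z : Fin 4 → ℂ => ‖z‖ - 1) (Bornology.cobounded _) atTop :=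
    tendsto_atTop_add_const_right _ _ tendsto_norm_cobounded_atTop
  refine tendsto_atTop_mono (fun z => ?_) h1
  have h2 := mm_norm k z
  have h3 : max 1 ‖mm k z‖ ≤ 1 + ‖mm k z‖ :=
    max_le (by linarith [norm_nonneg (mm k z)]) (by linarith)
  linarith

/-- the quotient map -/
def qq (k : ℕ) : C(ZS k, YS k) := ⟨fun z => ⟨mm k z.1, mm_mem k z.2⟩,
  Continuous.subtype_mk ((mm_cont k).comp continuous_subtype_val) _⟩

theorem qq_closed (k : ℕ) : IsClosedMap (qq k) := by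
  intro C hC
  have h1 : IsClosed (Subtype.val '' C : Set (Fin 4 → ℂ)) :=
    (ZS_closed k).isClosedEmbedding_subtypeVal.isClosedMap C hC
  have h2 : IsClosed (mm k '' (Subtype.val '' C)) := (mm_proper k).isClosedMap _ h1
  have h3 : qq k '' C = Subtype.val ⁻¹' (mm k '' (Subtype.val '' C)) := by
    ext y
    constructor
    · rintro ⟨z, hz, rfl⟩
      exact ⟨z.1, ⟨z, hz, rfl⟩, rfl⟩
    · rintro ⟨_, ⟨z, hz, rfl⟩, hy⟩
      exact ⟨z, hz, Subtype.ext hy⟩
  rw [h3]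
  exact h2.preimage continuous_subtype_val

theorem qq_surj (k : ℕ) : Function.Surjective (qq k) := by
  have key : ∀ x y e g b d : ℂ, Rl k x y e g b d → x ≠ 0 → ∃ a c : ℂ, a ^ (k + 2) = x ∧
      c ^ (k + 2) = y ∧ a ^ (k + 1) * c = e ∧ a * c ^ (k + 1) = g := by
    intro x y e g b d h hx
    obtain ⟨h1, h2, -⟩ := (Rl_iff hx).1 h
    obtain ⟨a, ha⟩ := IsAlgClosed.exists_pow_nat_eq x (n := k + 2) (by omega)
    have ha0 : a ≠ 0 := by
      rintro rfl
      rw [zero_pow (by omega)] at ha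
      exact hx ha.symm
    have hc : ∀ j : ℕ, a ^ j ≠ 0 := fun j => pow_ne_zero _ ha0
    refine ⟨a, e / a ^ (k + 1), ha, ?_, ?_, ?_⟩
    · rw [h1, div_pow, ← ha]
      congr 1
      ring
    · rw [mul_div_cancel₀ _ (hc _)]
    · rw [h2, div_pow, ← ha, mul_div_assoc', div_eq_div_iff (pow_ne_zero _ (hc _))
        (pow_ne_zero _ (hc _))]
      ring
  rintro ⟨y, hy⟩
  have hy' := mem_YS.1 hy
  have h4 : y 0 * y 4 + y 1 * y 5 = 1 := hy'.2.2.2
  obtain ⟨a, c, ha, hc, he, hg⟩ : ∃ a c : ℂ, a ^ (k + 2) = y 0 ∧ c ^ (k + 2) = y 1 ∧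
      a ^ (k + 1) * c = y 2 ∧ a * c ^ (k + 1) = y 3 := by
    by_cases h0 : y 0 = 0
    · have h1 : y 1 ≠ 0 := by
        intro h1
        rw [h0, h1, zero_mul, zero_mul, add_zero] at h4
        exact zero_ne_one h4
      obtain ⟨a, c, h5, h6, h7, h8⟩ := key _ _ _ _ _ _ hy'.symm h1
      exact ⟨c, a, h6, h5, by rw [mul_comm]; exact h8, by rw [mul_comm]; exact h7⟩
    · exact key _ _ _ _ _ _ hy' h0
  refine ⟨⟨![a, y 4, c, y 5], ?_⟩, ?_⟩
  · change a ^ (k + 2) * y 4 + c ^ (k + 2) * y 5 = 1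
    rw [ha, hc, h4]
  · apply Subtype.ext
    funext i
    fin_cases i
    · exact ha
    · exact hc
    · exact he
    · exact hg
    · rfl
    · rfl

/-- the action of the roots of unity -/
@[reducible] def actR (k : ℕ) : MulAction (rootsOfUnity (k + 2) ℂ) (ZS k) where
  smul ζ z := ⟨![(ζ.1 : ℂ) * z.1 0, z.1 1, (ζ.1 : ℂ) * z.1 2, z.1 3], by
    have h : z.1 0 ^ (k + 2) * z.1 1 + z.1 2 ^ (k + 2) * z.1 3 = 1 := z.2
    have h1 : (ζ.1 : ℂ) ^ (k + 2) = 1 := by
      have := (mem_rootsOfUnity (k + 2) ζ.1).1 ζ.2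
      rw [← Units.val_pow_eq_pow_val, this, Units.val_one]
    change ((ζ.1 : ℂ) * z.1 0) ^ (k + 2) * z.1 1 + ((ζ.1 : ℂ) * z.1 2) ^ (k + 2) * z.1 3 = 1
    rw [mul_pow, mul_pow, h1, one_mul, one_mul, h]⟩
  one_smul z := by
    apply Subtype.ext
    funext i
    fin_cases i
    · change ((1 : ℂˣ) : ℂ) * z.1 0 = z.1 0
      simp
    · rfl
    · change ((1 : ℂˣ) : ℂ) * z.1 2 = z.1 2
      simp
    · rfl
  mul_smul ζ ξ z := by
    apply Subtype.ext
    funext i
    fin_cases i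
    · change ((ζ.1 * ξ.1 : ℂˣ) : ℂ) * z.1 0 = (ζ.1 : ℂ) * ((ξ.1 : ℂ) * z.1 0)
      rw [Units.val_mul, mul_assoc]
    · rfl
    · change ((ζ.1 * ξ.1 : ℂˣ) : ℂ) * z.1 2 = (ζ.1 : ℂ) * ((ξ.1 : ℂ) * z.1 2)
      rw [Units.val_mul, mul_assoc]
    · rfl

theorem pi1_YS (k : ℕ) (y : YS k) :
    Nonempty (FundamentalGroup (YS k) y ≃* (rootsOfUnity (k + 2) ℂ)ᵐᵒᵖ) := by
  let _ := actR k
  have hsc := ZS_sc k
  have s0 : ∀ (ζ : rootsOfUnity (k + 2) ℂ) (z : ZS k), (ζ • z).1 0 = (ζ.1 : ℂ) * z.1 0 :=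
    fun _ _ => rfl
  have s1 : ∀ (ζ : rootsOfUnity (k + 2) ℂ) (z : ZS k), (ζ • z).1 1 = z.1 1 := fun _ _ => rfl
  have s2 : ∀ (ζ : rootsOfUnity (k + 2) ℂ) (z : ZS k), (ζ • z).1 2 = (ζ.1 : ℂ) * z.1 2 :=
    fun _ _ => rfl
  have s3 : ∀ (ζ : rootsOfUnity (k + 2) ℂ) (z : ZS k), (ζ • z).1 3 = z.1 3 := fun _ _ => rfl
  have hroot : ∀ ζ : rootsOfUnity (k + 2) ℂ, (ζ.1 : ℂ) ^ (k + 2) = 1 := by
    intro ζ
    have := (mem_rootsOfUnity (k + 2) ζ.1).1 ζ.2
    rw [← Units.val_pow_eq_pow_val, this, Units.val_one]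
  have hcs : ContinuousConstSMul (rootsOfUnity (k + 2) ℂ) (ZS k) := by
    have hco : ∀ (i : Fin 4) (c : ℂ), Continuous (fun z : ZS k => c * z.1 i) := fun i c =>
      continuous_const.mul ((continuous_apply i).comp continuous_subtype_val)
    refine ⟨fun ζ => Continuous.subtype_mk (continuous_pi (fun i => ?_)) _⟩
    fin_cases i
    · exact hco 0 (ζ.1 : ℂ)
    · have := hco 1 1
      simp only [one_mul] at this
      exact this
    · exact hco 2 (ζ.1 : ℂ)
    · have := hco 3 1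
      simp only [one_mul] at this
      exact this
  have hcan : IsCancelSMul (rootsOfUnity (k + 2) ℂ) (ZS k) := by
    rw [isCancelSMul_iff_eq_one_of_smul_eq]
    intro ζ z h
    have h1 : (ζ.1 : ℂ) = 1 := by
      by_cases h0 : z.1 0 = 0
      · have h2 := ZS_ne z.2 h0
        have h3 : (ζ.1 : ℂ) * z.1 2 = z.1 2 := by rw [← s2, h]
        exact mul_right_cancel₀ h2 (h3.trans (one_mul _).symm)
      · have h3 : (ζ.1 : ℂ) * z.1 0 = z.1 0 := by rw [← s0, h]
        exact mul_right_cancel₀ h0 (h3.trans (one_mul _).symm)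
    exact Subtype.ext (Units.ext h1)
  have hlc : LocallyCompactSpace (ZS k) := (ZS_closed k).locallyCompactSpace
  have hquot : IsQuotientMap (qq k) :=
    (qq_closed k).isQuotientMap (qq k).continuous (qq_surj k)
  have horb : ∀ {e₁ e₂ : ZS k}, qq k e₁ = qq k e₂ ↔
      e₁ ∈ MulAction.orbit (rootsOfUnity (k + 2) ℂ) e₂ := by
    intro z w
    constructor
    · intro h
      have hm : mm k z.1 = mm k w.1 := congrArg Subtype.val h
      have m0 : z.1 0 ^ (k + 2) = w.1 0 ^ (k + 2) := congrFun hm 0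
      have m1 : z.1 2 ^ (k + 2) = w.1 2 ^ (k + 2) := congrFun hm 1
      have m2 : z.1 0 ^ (k + 1) * z.1 2 = w.1 0 ^ (k + 1) * w.1 2 := congrFun hm 2
      have m3 : z.1 0 * z.1 2 ^ (k + 1) = w.1 0 * w.1 2 ^ (k + 1) := congrFun hm 3
      have m4 : z.1 1 = w.1 1 := congrFun hm 4
      have m5 : z.1 3 = w.1 3 := congrFun hm 5
      have mk : ∀ u : ℂ, u ^ (k + 2) = 1 → z.1 0 = u * w.1 0 → z.1 2 = u * w.1 2 →
          z ∈ MulAction.orbit (rootsOfUnity (k + 2) ℂ) w := by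
        intro u hu h0 h2
        have hu0 : u ≠ 0 := by
          rintro rfl
          rw [zero_pow (by omega)] at hu
          exact zero_ne_one hu
        refine ⟨⟨Units.mk0 u hu0, (mem_rootsOfUnity _ _).2 (Units.ext (by
          rw [Units.val_pow_eq_pow_val]; exact hu))⟩, ?_⟩
        apply Subtype.ext
        funext i
        fin_cases i
        · exact h0.symm
        · exact m4.symm
        · exact h2.symm
        · exact m5.symm
      by_cases h0 : w.1 0 = 0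
      · have hw2 := ZS_ne w.2 h0
        have hz0 : z.1 0 = 0 := by
          rw [h0, zero_pow (by omega)] at m0
          exact (pow_eq_zero_iff (by omega)).1 m0
        refine mk (z.1 2 / w.1 2) ?_ ?_ ?_
        · rw [div_pow, m1, div_self (pow_ne_zero _ hw2)]
        · rw [hz0, h0, mul_zero]
        · rw [div_mul_cancel₀ _ hw2]
      · have hz0 : z.1 0 ≠ 0 := by
          intro hz0
          rw [hz0, zero_pow (by omega)] at m0
          exact h0 ((pow_eq_zero_iff (by omega)).1 m0.symm)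
        refine mk (z.1 0 / w.1 0) ?_ ?_ ?_
        · rw [div_pow, m0, div_self (pow_ne_zero _ h0)]
        · rw [div_mul_cancel₀ _ h0]
        · apply mul_left_cancel₀ (pow_ne_zero (k + 1) hz0)
          rw [m2, div_mul_eq_mul_div, mul_div_assoc', eq_div_iff h0]
          have h5 : w.1 0 ^ (k + 1) * w.1 2 * w.1 0 = w.1 0 ^ (k + 2) * w.1 2 := by ring
          rw [h5, ← m0]
          ring
    · rintro ⟨ζ, rfl⟩
      have hr := hroot ζ
      apply Subtype.ext
      funext i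
      fin_cases i
      · change ((ζ.1 : ℂ) * w.1 0) ^ (k + 2) = w.1 0 ^ (k + 2)
        rw [mul_pow, hr, one_mul]
      · change ((ζ.1 : ℂ) * w.1 2) ^ (k + 2) = w.1 2 ^ (k + 2)
        rw [mul_pow, hr, one_mul]
      · change ((ζ.1 : ℂ) * w.1 0) ^ (k + 1) * ((ζ.1 : ℂ) * w.1 2) = w.1 0 ^ (k + 1) * w.1 2
        have : ((ζ.1 : ℂ) * w.1 0) ^ (k + 1) * ((ζ.1 : ℂ) * w.1 2) =
          (ζ.1 : ℂ) ^ (k + 2) * (w.1 0 ^ (k + 1) * w.1 2) := by ring
        rw [this, hr, one_mul]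
      · change ((ζ.1 : ℂ) * w.1 0) * ((ζ.1 : ℂ) * w.1 2) ^ (k + 1) = w.1 0 * w.1 2 ^ (k + 1)
        have : ((ζ.1 : ℂ) * w.1 0) * ((ζ.1 : ℂ) * w.1 2) ^ (k + 1) =
          (ζ.1 : ℂ) ^ (k + 2) * (w.1 0 * w.1 2 ^ (k + 1)) := by ring
        rw [this, hr, one_mul]
      · rfl
      · rfl
  have hq : IsQuotientCoveringMap (qq k) (rootsOfUnity (k + 2) ℂ) :=
    hquot.isQuotientCoveringMap_of_properlyDiscontinuousSMul horb
  obtain ⟨z, hz⟩ := qq_surj k y
  exact ⟨hq.fundamentalGroupEquiv (x := y) ⟨z, hz⟩⟩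

theorem model_fin (k : ℕ) : Nonempty (Mdl (rootsOfUnity (k + 2) ℂ)) := by
  have hpcZ := ZS_pc k
  have hpc : PathConnectedSpace (YS k) := (qq_surj k).pathConnectedSpace (qq k).continuous
  let y₀ : YS k := qq k (Zb k)
  obtain ⟨E⟩ := pi1_YS k y₀
  refine ⟨
    { T := Fin 6
      fT := inferInstance
      S := YS k
      P := {MvPolynomial.X 1 * MvPolynomial.X 0 ^ (k + 1) - MvPolynomial.X 2 ^ (k + 2),
        MvPolynomial.X 0 * MvPolynomial.X 1 ^ (k + 1) - MvPolynomial.X 3 ^ (k + 2),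
        MvPolynomial.X 2 * MvPolynomial.X 3 - MvPolynomial.X 0 * MvPolynomial.X 1,
        MvPolynomial.X 0 * MvPolynomial.X 4 + MvPolynomial.X 1 * MvPolynomial.X 5 - 1}
      hP := ?_
      f := MvPolynomial.X 0
      B := {0}
      hB := finite_singleton 0
      sm := YS_smooth k
      pc := hpc
      x := y₀
      e := E.trans (MulEquiv.inv' _).symm
      F := ℂ × ℂ
      iF1 := inferInstance
      iF2 := inferInstance
      tr := Ytr k y₀ }⟩
  ext z
  rw [mem_YS]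
  constructor
  · rintro ⟨h1, h2, h3, h4⟩ F hF
    simp only [Set.mem_insert_iff, Set.mem_singleton_iff] at hF
    rcases hF with rfl | rfl | rfl | rfl
    · simp [h1]
    · simp [h2]
    · simp [h3]
    · simp [h4]
  · intro h
    refine ⟨?_, ?_, ?_, ?_⟩
    · have := h _ (Or.inl rfl)
      simp only [map_sub, map_mul, map_pow, MvPolynomial.eval_X] at this
      exact sub_eq_zero.1 this
    · have := h _ (Or.inr (Or.inl rfl))
      simp only [map_sub, map_mul, map_pow, MvPolynomial.eval_X] at this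
      exact sub_eq_zero.1 this
    · have := h _ (Or.inr (Or.inr (Or.inl rfl)))
      simp only [map_sub, map_mul, MvPolynomial.eval_X] at this
      exact sub_eq_zero.1 this
    · have := h _ (Or.inr (Or.inr (Or.inr rfl)))
      simp only [map_sub, map_add, map_mul, MvPolynomial.eval_X, map_one] at this
      exact sub_eq_zero.1 this

end Pool.Agent.Run7.h562
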