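import Pool.Agent.Run7.h562.Alg
import Pool.Agent.Run7.h562.Base

/-!
# A Zariski open piece of an affine variety as a finite etale cover of an open piece of affine space
-/

set_option autoImplicit false

open Polynomial Pool.Agent.Y193.FG

namespace Pool.Agent.Run7.h562

section

variable {σ T : Type}

/-- evaluation of the coefficients -/
noncomputable abbrev ev (v : σ → ℂ) : MvPolynomial σ ℂ →+* ℂ := MvPolynomial.eval v

/-- evaluation at `(v, θ)` -/
noncomputable def ev2 (v : σ → ℂ) (θ : ℂ) : (MvPolynomial σ ℂ)[X] →+* ℂ := eval₂RingHom (ev v) θ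

theorem ev2_apply (v : σ → ℂ) (θ : ℂ) (q : (MvPolynomial σ ℂ)[X]) :
    ev2 v θ q = (q.map (ev v)).eval θ := by
  rw [eval_map]; rfl

theorem ev2_C (v : σ → ℂ) (θ : ℂ) (q : MvPolynomial σ ℂ) : ev2 v θ (C q) = ev v q :=
  eval₂_C _ _

theorem ev2_X (v : σ → ℂ) (θ : ℂ) : ev2 v θ X = θ := eval₂_X _ _

/-- the point of the variety -/
noncomputable def ptt (D : MvPolynomial σ ℂ) (s : T → (MvPolynomial σ ℂ)[X]) (v : σ → ℂ) (θ : ℂ) :
    T → ℂ := fun i => ev2 v θ (s i) / ev v D

/-- clearing denominators -/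
theorem exists_hom {A : Type} [CommRing A] [Algebra ℂ A] [Algebra (MvPolynomial σ ℂ) A]
    [IsScalarTower ℂ (MvPolynomial σ ℂ) A] (D : MvPolynomial σ ℂ)
    (s : T → (MvPolynomial σ ℂ)[X]) (θ : A) (w : T → A)
    (hs : ∀ i, aeval θ (s i) = algebraMap (MvPolynomial σ ℂ) A D * w i) (F : MvPolynomial T ℂ) :
    ∃ (M : ℕ) (H : (MvPolynomial σ ℂ)[X]),
      aeval θ H = algebraMap (MvPolynomial σ ℂ) A D ^ M * MvPolynomial.aeval w F ∧
      ∀ (v : σ → ℂ) (t : ℂ), ev v D ≠ 0 →
        ev2 v t H = ev v D ^ M * MvPolynomial.eval (ptt D s v t) F := by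
  induction F using MvPolynomial.induction_on with
  | C a =>
    refine ⟨0, C (MvPolynomial.C a), ?_, fun v t _ => ?_⟩
    · rw [pow_zero, one_mul, aeval_C, MvPolynomial.aeval_C,
        IsScalarTower.algebraMap_apply ℂ (MvPolynomial σ ℂ) A]
      rfl
    · rw [ev2_C, pow_zero, one_mul, MvPolynomial.eval_C, MvPolynomial.eval_C]
  | add p q hp hq =>
    obtain ⟨M, H, h1, h2⟩ := hp
    obtain ⟨M', H', h1', h2'⟩ := hq
    refine ⟨M + M', C (D ^ M') * H + C (D ^ M) * H', ?_, fun v t hv => ?_⟩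
    · rw [map_add, map_mul, map_mul, aeval_C, aeval_C, h1, h1', map_pow, map_pow, map_add]
      ring
    · rw [map_add, map_mul, map_mul, ev2_C, ev2_C, h2 v t hv, h2' v t hv, map_pow, map_pow,
        map_add]
      ring
  | mul_X p i hp =>
    obtain ⟨M, H, h1, h2⟩ := hp
    refine ⟨M + 1, H * s i, ?_, fun v t hv => ?_⟩
    · rw [map_mul, h1, hs, map_mul, MvPolynomial.aeval_X]
      ring
    · rw [map_mul, h2 v t hv, map_mul, MvPolynomial.eval_X]
      have : ev2 v t (s i) = ev v D * ptt D s v t i := by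
        unfold ptt
        field_simp
      rw [this]
      ring

end

/-- the data of a chart -/
structure Cht {T : Type} (X : Set (T → ℂ)) (f : MvPolynomial T ℂ) where
  σ : Type
  fin : Fintype σ
  dec : DecidableEq σ
  s₀ : σ
  y : σ → MvPolynomial T ℂ
  Θ : MvPolynomial T ℂ
  D : MvPolynomial σ ℂ
  P : (MvPolynomial σ ℂ)[X]
  s : T → (MvPolynomial σ ℂ)[X]
  hf : ∀ x ∈ X, MvPolynomial.eval x (y s₀) = MvPolynomial.eval x f
  hD : D ≠ 0
  hP : P.Monic
  hdeg : 0 < P.natDegree
  rel : ∀ x ∈ X, ev2 (fun j => MvPolynomial.eval x (y j)) (MvPolynomial.eval x Θ) P = 0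
  crd : ∀ x ∈ X, MvPolynomial.eval (fun j => MvPolynomial.eval x (y j)) D ≠ 0 →
    ptt D s (fun j => MvPolynomial.eval x (y j)) (MvPolynomial.eval x Θ) = x
  sep : ∀ v θ, MvPolynomial.eval v D ≠ 0 → ev2 v θ P = 0 →
    (derivative (P.map (ev v))).eval θ ≠ 0
  mem : ∀ v θ, MvPolynomial.eval v D ≠ 0 → ev2 v θ P = 0 → ptt D s v θ ∈ X
  pr1 : ∀ v θ, MvPolynomial.eval v D ≠ 0 → ev2 v θ P = 0 → ∀ j,
    MvPolynomial.eval (ptt D s v θ) (y j) = v j
  pr2 : ∀ v θ, MvPolynomial.eval v D ≠ 0 → ev2 v θ P = 0 →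
    MvPolynomial.eval (ptt D s v θ) Θ = θ

theorem exists_cht {T : Type} [Finite T] {X : Set (T → ℂ)} (hX : IsDomain (polyFun X))
    {Sx : Set (MvPolynomial T ℂ)} (hXa : X = {x | ∀ F ∈ Sx, MvPolynomial.eval x F = 0})
    (f : MvPolynomial T ℂ) (hf : ∀ c : ℂ, ∃ x ∈ X, MvPolynomial.eval x f ≠ c) :
    Nonempty (Cht X f) := by
  classical
  -- the function is transcendental
  have htr : Transcendental ℂ (toFun X f) := by
    rw [transcendental_iff]
    intro p hp
    by_contra hp0
    have hsp := IsAlgClosed.splits p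
    have h1 : aeval (toFun X f) p =
        algebraMap ℂ (polyFun X) p.leadingCoeff * (p.roots.map (fun a => toFun X f -
          algebraMap ℂ (polyFun X) a)).prod := by
      conv_lhs => rw [hsp.eq_prod_roots]
      rw [map_mul, aeval_C, map_multiset_prod, Multiset.map_map]
      congr 2
      apply Multiset.map_congr rfl
      intro a _
      simp
    rw [h1, mul_eq_zero] at hp
    rcases hp with hp | hp
    · rw [map_eq_zero_iff _ (algebraMap ℂ (polyFun X)).injective] at hp
      exact hp0 (leadingCoeff_eq_zero.1 hp)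
    · rw [Multiset.prod_eq_zero_iff, Multiset.mem_map] at hp
      obtain ⟨a, -, ha⟩ := hp
      obtain ⟨x, hx, hne⟩ := hf a
      apply hne
      have h2 := congrArg (fun r : polyFun X => r.1 ⟨x, hx⟩) ha
      have h3 : (toFun X f).1 ⟨x, hx⟩ - a = 0 := h2
      rw [toFun_apply] at h3
      exact sub_eq_zero.1 h3
  -- transcendence basis
  let t : Set (polyFun X) := insert (toFun X f) (Set.range (fun i : T => toFun X (MvPolynomial.X i)))
  have htfin : t.Finite := (Set.finite_range _).insert _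
  have hadj : Algebra.adjoin ℂ t = ⊤ := by
    rw [eq_top_iff]
    intro r _
    obtain ⟨F, hF⟩ := mem_polyFun r
    have h1 : r = MvPolynomial.aeval (fun i : T => toFun X (MvPolynomial.X i)) F := by
      refine polyFun_ext (fun x => ?_)
      rw [hF]
      have h3 := MvPolynomial.comp_aeval_apply (φ := evX x)
        (fun i : T => toFun X (MvPolynomial.X i)) F
      have h4 : (MvPolynomial.aeval (fun i : T => toFun X (MvPolynomial.X i)) F).1 x =
          evX x (MvPolynomial.aeval (fun i : T => toFun X (MvPolynomial.X i)) F) := rfl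
      rw [h4, h3, MvPolynomial.aeval_def, MvPolynomial.eval, ← MvPolynomial.coe_eval₂Hom]
      congr 2
      funext i
      change _ = (toFun X (MvPolynomial.X i)).1 x
      rw [toFun_apply, MvPolynomial.eval_X]
    rw [h1]
    have h2 : MvPolynomial.aeval (fun i : T => toFun X (MvPolynomial.X i)) F ∈
        Algebra.adjoin ℂ (Set.range (fun i : T => toFun X (MvPolynomial.X i))) := by
      rw [Algebra.adjoin_range_eq_range_aeval]
      exact ⟨F, rfl⟩
    exact Algebra.adjoin_mono (Set.subset_insert _ _) h2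
  have halg : Algebra.IsAlgebraic (Algebra.adjoin ℂ t) (polyFun X) := by
    refine ⟨fun a => ?_⟩
    have ha : a ∈ Algebra.adjoin ℂ t := by rw [hadj]; trivial
    exact isAlgebraic_algebraMap (⟨a, ha⟩ : Algebra.adjoin ℂ t)
  have hind : AlgebraicIndepOn ℂ id ({toFun X f} : Set (polyFun X)) := by
    have : Subsingleton ({toFun X f} : Set (polyFun X)) := by
      rw [Set.subsingleton_coe]; exact Set.subsingleton_singleton
    exact (algebraicIndependent_singleton_iff (⟨toFun X f, rfl⟩ :
      ({toFun X f} : Set (polyFun X)))).2 htr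
  obtain ⟨u, hu1, hu2, hu⟩ := exists_isTranscendenceBasis_between ({toFun X f} : Set (polyFun X)) t
    (Set.singleton_subset_iff.2 (Set.mem_insert _ _)) hind
  have hufin : Finite u := (htfin.subset hu2).to_subtype
  have hfu : toFun X f ∈ u := hu1 rfl
  cases nonempty_fintype u
  let iRA : Algebra (MvPolynomial u ℂ) (polyFun X) :=
    (MvPolynomial.aeval (fun j : u => j.1)).toRingHom.toAlgebra
  have hRA : ∀ r : MvPolynomial u ℂ, algebraMap (MvPolynomial u ℂ) (polyFun X) r =
    MvPolynomial.aeval (fun j : u => j.1) r := fun _ => rfl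
  have iT : IsScalarTower ℂ (MvPolynomial u ℂ) (polyFun X) :=
    IsScalarTower.of_algebraMap_eq
      (fun c => ((MvPolynomial.aeval (fun j : u => j.1)).commutes c).symm)
  have iF : Algebra.FiniteType (MvPolynomial u ℂ) (polyFun X) :=
    Algebra.FiniteType.of_restrictScalars_finiteType ℂ _ _
  have hinj : Function.Injective (algebraMap (MvPolynomial u ℂ) (polyFun X)) := hu.1
  have halg2 : Algebra.IsAlgebraic (Algebra.adjoin ℂ (Set.range (fun j : u => j.1)))
    (polyFun X) := hu.isAlgebraic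
  have iA : Algebra.IsAlgebraic (MvPolynomial u ℂ) (polyFun X) := by
    refine Algebra.IsAlgebraic.of_ringHom_of_comp_eq (S := Algebra.adjoin ℂ (Set.range
      (fun j : u => j.1))) (B := polyFun X) (hu.1.aevalEquiv) (RingHom.id (polyFun X))
      (AlgEquiv.surjective _) Function.injective_id ?_
    ext r
    · simp [hRA]
    · simp [hRA]
  obtain ⟨D, θ, P, s, U, V, hD, hPm, hPd, hPθ, hs, hUV, hmin⟩ := exists_prim hinj
    (fun i : T => toFun X (MvPolynomial.X i))
  obtain ⟨Θ, hΘ⟩ := mem_polyFun θ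
  have hrep : ∀ j : u, ∃ y : MvPolynomial T ℂ, ∀ x : X, j.1.1 x = MvPolynomial.eval x.1 y :=
    fun j => mem_polyFun j.1
  choose y hy using hrep
  -- evaluation at points of `X`
  have hevR : ∀ (x : X) (r : MvPolynomial u ℂ),
      (algebraMap (MvPolynomial u ℂ) (polyFun X) r).1 x =
        ev (fun j => MvPolynomial.eval x.1 (y j)) r := by
    intro x r
    have h3 := MvPolynomial.comp_aeval_apply (φ := evX x) (fun j : u => j.1) r
    have h4 : (algebraMap (MvPolynomial u ℂ) (polyFun X) r).1 x =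
        evX x (MvPolynomial.aeval (fun j : u => j.1) r) := rfl
    rw [h4, h3, MvPolynomial.aeval_def, ev, MvPolynomial.eval, ← MvPolynomial.coe_eval₂Hom]
    congr 2
    funext j
    change j.1.1 x = _
    rw [hy]
  have hev2 : ∀ (x : X) (q : (MvPolynomial u ℂ)[X]), (aeval θ q).1 x =
      ev2 (fun j => MvPolynomial.eval x.1 (y j)) (MvPolynomial.eval x.1 Θ) q := by
    intro x q
    have h1 : (aeval θ q).1 x = (evX x : polyFun X →+* ℂ)
      (eval₂ (algebraMap (MvPolynomial u ℂ) (polyFun X)) θ q) := rfl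
    rw [h1, hom_eval₂]
    change _ = eval₂ _ _ _
    congr 1
    · ext r
      · exact hevR x _
      · exact hevR x _
    · exact hΘ x
  have hevw : ∀ (x : X) (F : MvPolynomial T ℂ),
      (MvPolynomial.aeval (fun i : T => toFun X (MvPolynomial.X i)) F).1 x =
        MvPolynomial.eval x.1 F := by
    intro x F
    have h3 := MvPolynomial.comp_aeval_apply (φ := evX x)
      (fun i : T => toFun X (MvPolynomial.X i)) F
    have h4 : (MvPolynomial.aeval (fun i : T => toFun X (MvPolynomial.X i)) F).1 x =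
        evX x (MvPolynomial.aeval (fun i : T => toFun X (MvPolynomial.X i)) F) := rfl
    rw [h4, h3, MvPolynomial.aeval_def, MvPolynomial.eval, ← MvPolynomial.coe_eval₂Hom]
    congr 2
    funext i
    change (toFun X (MvPolynomial.X i)).1 x = _
    rw [toFun_apply, MvPolynomial.eval_X]
  -- the key relation
  have key : ∀ (F : MvPolynomial T ℂ) (G : (MvPolynomial u ℂ)[X]),
      MvPolynomial.aeval (fun i : T => toFun X (MvPolynomial.X i)) F = aeval θ G →
      ∀ (v : u → ℂ) (t : ℂ), MvPolynomial.eval v D ≠ 0 → ev2 v t P = 0 →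
        MvPolynomial.eval (ptt D s v t) F = ev2 v t G := by
    intro F G hFG v t hv hP
    obtain ⟨M, H, h1, h2⟩ := exists_hom D s θ (fun i : T => toFun X (MvPolynomial.X i)) hs F
    have h3 : aeval θ (H - C (D ^ M) * G) = 0 := by
      rw [map_sub, map_mul, h1, hFG, aeval_C, map_pow, sub_self]
    obtain ⟨Q, hQ⟩ := hmin _ h3
    have h4 := congrArg (ev2 v t) hQ
    rw [map_mul, hP, zero_mul, map_sub, map_mul, ev2_C, h2 v t hv, map_pow, ← mul_sub,
      mul_eq_zero] at h4
    rcases h4 with h4 | h4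
    · exact absurd h4 (pow_ne_zero _ hv)
    · exact sub_eq_zero.1 h4
  refine ⟨⟨u, inferInstance, inferInstance, ⟨toFun X f, hfu⟩, y, Θ, D, P, s, fun x hx => ?_, hD,
    hPm, hPd, fun x hx => ?_, fun x hx h0 => ?_, fun v t hv hP => ?_, fun v t hv hP => ?_,
    fun v t hv hP j => ?_, fun v t hv hP => ?_⟩⟩
  · rw [← hy _ ⟨x, hx⟩]
    exact toFun_apply X f ⟨x, hx⟩
  · rw [← hev2 ⟨x, hx⟩, hPθ]
    rfl
  · funext i
    unfold ptt
    rw [← hev2 ⟨x, hx⟩, hs]
    have h1 : (algebraMap (MvPolynomial u ℂ) (polyFun X) D * toFun X (MvPolynomial.X i)).1 ⟨x, hx⟩ =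
        (algebraMap (MvPolynomial u ℂ) (polyFun X) D).1 ⟨x, hx⟩ *
          (toFun X (MvPolynomial.X i)).1 ⟨x, hx⟩ := rfl
    rw [h1, hevR, toFun_apply, MvPolynomial.eval_X, mul_div_cancel_left₀ _ h0]
  · intro h'
    have h1 := congrArg (ev2 v t) hUV
    rw [map_add, map_mul, map_mul, hP, mul_zero, zero_add, ev2_C, ev2_apply v t (derivative P),
      ← derivative_map, h', mul_zero] at h1
    exact hv h1.symm
  · refine (Set.ext_iff.mp hXa _).mpr ?_
    intro F hF
    rw [key F 0 ?_ v t hv hP, map_zero]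
    rw [map_zero]
    refine polyFun_ext (fun x => ?_)
    rw [hevw]
    exact (Set.ext_iff.mp hXa x.1).mp x.2 F hF
  · rw [key (y j) (C (MvPolynomial.X j)) ?_ v t hv hP, ev2_C, MvPolynomial.eval_X]
    refine polyFun_ext (fun x => ?_)
    rw [hevw, aeval_C, hevR, MvPolynomial.eval_X]
  · rw [key Θ Polynomial.X ?_ v t hv hP, ev2_X]
    refine polyFun_ext (fun x => ?_)
    rw [hevw, aeval_X, hΘ]

end Pool.Agent.Run7.h562
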