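import Pool.Agent.Run7.h562.TreeC

/-!
# The tree of an open cover without triple intersections of a simply connected space
-/

set_option autoImplicit false

set_option linter.unusedSectionVars false

namespace Pool.Agent.Run7.h562

open Pool.Agent.H599R3.RH Topology Set unitInterval

section
variable {Y : Type} [TopologicalSpace Y] {J : Type} [LinearOrder J] (W : J → Set Y)

/-- points in members of the cover -/
abbrev PV : Type := {x : J × Y // x.2 ∈ W x.1}
/-- points in intersections of members of the cover -/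
abbrev PE : Type := {x : (J × J) × Y // x.1.1 < x.1.2 ∧ x.2 ∈ W x.1.1 ∩ W x.1.2}

/-- same component -/
def stV : Setoid (PV W) where
  r x y := x.1.1 = y.1.1 ∧ JoinedIn (W x.1.1) x.1.2 y.1.2
  iseqv := {
    refl := fun x => ⟨rfl, JoinedIn.refl x.2⟩
    symm := by
      rintro ⟨⟨i, a⟩, ha⟩ ⟨⟨j, b⟩, hb⟩ ⟨rfl, h⟩
      exact ⟨rfl, h.symm⟩
    trans := by
      rintro ⟨⟨i, a⟩, ha⟩ ⟨⟨j, b⟩, hb⟩ ⟨⟨k, c⟩, hc⟩ ⟨rfl, h⟩ ⟨h1, h'⟩
      exact ⟨h1, h.trans h'⟩ }

/-- same component -/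
def stE : Setoid (PE W) where
  r x y := x.1.1 = y.1.1 ∧ JoinedIn (W x.1.1.1 ∩ W x.1.1.2) x.1.2 y.1.2
  iseqv := {
    refl := fun x => ⟨rfl, JoinedIn.refl x.2.2⟩
    symm := by
      rintro ⟨⟨i, a⟩, ha⟩ ⟨⟨j, b⟩, hb⟩ ⟨rfl, h⟩
      exact ⟨rfl, h.symm⟩
    trans := by
      rintro ⟨⟨i, a⟩, ha⟩ ⟨⟨j, b⟩, hb⟩ ⟨⟨k, c⟩, hc⟩ ⟨rfl, h⟩ ⟨h1, h'⟩
      exact ⟨h1, h.trans h'⟩ }

/-- vertices: components of members of the cover -/
def VV : Type := Quotient (stV W)
/-- edges: components of intersections -/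
def EE : Type := Quotient (stE W)

variable {W}

/-- the vertex of a point -/
def mkV (j : J) (y : Y) (h : y ∈ W j) : VV W := Quotient.mk (stV W) ⟨(j, y), h⟩
/-- the edge of a point -/
def mkE (i j : J) (y : Y) (hij : i < j) (h : y ∈ W i ∩ W j) : EE W :=
  Quotient.mk (stE W) ⟨((i, j), y), hij, h⟩

theorem mkV_eq {j : J} {y y' : Y} {h : y ∈ W j} {h' : y' ∈ W j} (hj : JoinedIn (W j) y y') :
    mkV j y h = mkV j y' h' := Quotient.sound ⟨rfl, hj⟩

theorem mkE_eq {i j : J} {y y' : Y} {hij : i < j} {h : y ∈ W i ∩ W j} {h' : y' ∈ W i ∩ W j}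
    (hj : JoinedIn (W i ∩ W j) y y') : mkE i j y hij h = mkE i j y' hij h' :=
  Quotient.sound ⟨rfl, hj⟩

theorem mkV_joined {j : J} {y y' : Y} {h : y ∈ W j} {h' : y' ∈ W j}
    (he : mkV j y h = mkV j y' h') : JoinedIn (W j) y y' :=
  (Quotient.exact he : (stV W).r _ _).2

theorem mkE_joined {i j : J} {y y' : Y} {hij : i < j} {h : y ∈ W i ∩ W j} {h' : y' ∈ W i ∩ W j}
    (he : mkE i j y hij h = mkE i j y' hij h') : JoinedIn (W i ∩ W j) y y' :=
  (Quotient.exact he : (stE W).r _ _).2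

theorem indV {P : VV W → Prop} (h : ∀ j y hy, P (mkV j y hy)) (v : VV W) : P v := by
  induction v using Quotient.inductionOn with | h x => ?_
  exact h x.1.1 x.1.2 x.2

theorem indE {P : EE W → Prop} (h : ∀ i j y hij hy, P (mkE i j y hij hy)) (v : EE W) : P v := by
  induction v using Quotient.inductionOn with | h x => ?_
  exact h x.1.1.1 x.1.1.2 x.1.2 x.2.1 x.2.2

/-- first end -/
def dd0 : EE W → VV W :=
  Quotient.lift (fun x : PE W => mkV x.1.1.1 x.1.2 x.2.2.1) (by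
    rintro ⟨⟨⟨i, i'⟩, a⟩, ha⟩ ⟨⟨⟨j, j'⟩, b⟩, hb⟩ ⟨h1, h⟩
    cases h1
    exact mkV_eq (h.mono inter_subset_left))

/-- second end -/
def dd1 : EE W → VV W :=
  Quotient.lift (fun x : PE W => mkV x.1.1.2 x.1.2 x.2.2.2) (by
    rintro ⟨⟨⟨i, i'⟩, a⟩, ha⟩ ⟨⟨⟨j, j'⟩, b⟩, hb⟩ ⟨h1, h⟩
    cases h1
    exact mkV_eq (h.mono inter_subset_right))

theorem dd0_mk {i j : J} {y : Y} {hij : i < j} {h : y ∈ W i ∩ W j} :
    dd0 (mkE i j y hij h) = mkV i y h.1 := rfl
theorem dd1_mk {i j : J} {y : Y} {hij : i < j} {h : y ∈ W i ∩ W j} :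
    dd1 (mkE i j y hij h) = mkV j y h.2 := rfl

variable {G : Type} [Group G] [MulAction G Y]

theorem joined_smul (hc : ∀ g : G, Continuous (fun y : Y => g • y)) (g : G) {S : Set Y}
    (hS : ∀ y ∈ S, g • y ∈ S) {a b : Y} (h : JoinedIn S a b) : JoinedIn S (g • a) (g • b) := by
  obtain ⟨γ, hγ⟩ := h
  exact ⟨γ.map (hc g), fun t => hS _ (hγ t)⟩

/-- the action on vertices -/
@[reducible] def actVV (hc : ∀ g : G, Continuous (fun y : Y => g • y))
    (hW : ∀ (g : G) (j : J), ∀ y ∈ W j, g • y ∈ W j) : MulAction G (VV W) where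
  smul g := Quotient.lift (fun x : PV W => mkV x.1.1 (g • x.1.2) (hW g _ _ x.2)) (by
    rintro ⟨⟨i, a⟩, ha⟩ ⟨⟨j, b⟩, hb⟩ ⟨h1, h⟩
    cases h1
    exact mkV_eq (joined_smul hc g (hW g _) h))
  one_smul v := by
    induction v using indV with | h j y hy => ?_
    exact congrArg (Quotient.mk (stV W)) (Subtype.ext (Prod.ext rfl (one_smul G y)))
  mul_smul g h v := by
    induction v using indV with | h j y hy => ?_
    exact congrArg (Quotient.mk (stV W)) (Subtype.ext (Prod.ext rfl (mul_smul g h y)))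

/-- the action on edges -/
@[reducible] def actEE (hc : ∀ g : G, Continuous (fun y : Y => g • y))
    (hW : ∀ (g : G) (j : J), ∀ y ∈ W j, g • y ∈ W j) : MulAction G (EE W) where
  smul g := Quotient.lift (fun x : PE W => mkE x.1.1.1 x.1.1.2 (g • x.1.2) x.2.1
      ⟨hW g _ _ x.2.2.1, hW g _ _ x.2.2.2⟩) (by
    rintro ⟨⟨⟨i, i'⟩, a⟩, ha⟩ ⟨⟨⟨j, j'⟩, b⟩, hb⟩ ⟨h1, h⟩
    cases h1
    exact mkE_eq (joined_smul hc g (S := W i ∩ W i')
      (fun y hy => ⟨hW g i y hy.1, hW g i' y hy.2⟩) h))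
  one_smul v := by
    induction v using indE with | h i j y hij hy => ?_
    exact congrArg (Quotient.mk (stE W)) (Subtype.ext (Prod.ext rfl (one_smul G y)))
  mul_smul g h v := by
    induction v using indE with | h i j y hij hy => ?_
    exact congrArg (Quotient.mk (stE W)) (Subtype.ext (Prod.ext rfl (mul_smul g h y)))

theorem exists_pc_nhds [LocallyPathConnectedSpace Y] {O : Set Y} (hO : IsOpen O) {y : Y}
    (hy : y ∈ O) : ∃ N ∈ 𝓝 y, ∀ y' ∈ N, JoinedIn O y y' :=
  ⟨pathComponentIn O y, (hO.pathComponentIn y).mem_nhds (mem_pathComponentIn_self hy),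
    fun _ h => h⟩

open Classical in
/-- the cocycle -/
noncomputable def coc (φ : EE W → ZMod 2) (i j : J) (y : Y) : ZMod 2 :=
  if h : i < j ∧ y ∈ W i ∩ W j then φ (mkE i j y h.1 h.2)
  else if h : j < i ∧ y ∈ W j ∩ W i then φ (mkE j i y h.1 h.2) else 0

theorem coc_self (φ : EE W → ZMod 2) (i : J) (y : Y) : coc φ i i y = 0 := by
  unfold coc
  rw [dif_neg (fun h => lt_irrefl _ h.1), dif_neg (fun h => lt_irrefl _ h.1)]

theorem coc_symm (φ : EE W → ZMod 2) (i j : J) (y : Y) : coc φ i j y = coc φ j i y := by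
  unfold coc
  by_cases h1 : i < j ∧ y ∈ W i ∩ W j
  · rw [dif_pos h1, dif_neg (fun h => lt_asymm h.1 h1.1), dif_pos h1]
  · by_cases h2 : j < i ∧ y ∈ W j ∩ W i
    · rw [dif_neg h1, dif_pos h2, dif_pos h2]
    · rw [dif_neg h1, dif_neg h2, dif_neg h2, dif_neg h1]

theorem coc_joined (φ : EE W → ZMod 2) (i j : J) {y y' : Y} (h : JoinedIn (W i ∩ W j) y y') :
    coc φ i j y = coc φ i j y' := by
  have h1 : y ∈ W i ∩ W j := h.source_mem
  have h2 : y' ∈ W i ∩ W j := h.target_mem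
  unfold coc
  by_cases hij : i < j
  · have c1 : i < j ∧ y ∈ W i ∩ W j := ⟨hij, h1⟩
    have c2 : i < j ∧ y' ∈ W i ∩ W j := ⟨hij, h2⟩
    rw [dif_pos c1, dif_pos c2, mkE_eq h]
  · have c1 : ¬ (i < j ∧ y ∈ W i ∩ W j) := fun h => hij h.1
    have c2 : ¬ (i < j ∧ y' ∈ W i ∩ W j) := fun h => hij h.1
    rw [dif_neg c1, dif_neg c2]
    by_cases hji : j < i
    · have h3 : JoinedIn (W j ∩ W i) y y' := by rwa [inter_comm]
      have c3 : j < i ∧ y ∈ W j ∩ W i := ⟨hji, h1.2, h1.1⟩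
      have c4 : j < i ∧ y' ∈ W j ∩ W i := ⟨hji, h2.2, h2.1⟩
      rw [dif_pos c3, dif_pos c4, mkE_eq h3]
    · have c3 : ¬ (j < i ∧ y ∈ W j ∩ W i) := fun h => hji h.1
      have c4 : ¬ (j < i ∧ y' ∈ W j ∩ W i) := fun h => hji h.1
      rw [dif_neg c3, dif_neg c4]

variable (hWo : ∀ j, IsOpen (W j)) (hWc : ∀ y, ∃ j, y ∈ W j)
  (hW3 : ∀ i j k y, y ∈ W i → y ∈ W j → y ∈ W k → i = j ∨ j = k ∨ i = k)

/-- the double cover -/
noncomputable def core [LocallyPathConnectedSpace Y] (φ : EE W → ZMod 2) :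
    FiberBundleCore J Y (ZMod 2) where
  baseSet := W
  isOpen_baseSet := hWo
  indexAt y := (hWc y).choose
  mem_baseSet_at y := (hWc y).choose_spec
  coordChange i j y v := v + coc φ i j y
  coordChange_self i y _ v := by rw [coc_self, add_zero]
  continuousOn_coordChange i j := by
    rintro ⟨y, v⟩ ⟨hy, -⟩
    obtain ⟨N, hN, h⟩ := exists_pc_nhds ((hWo i).inter (hWo j)) hy
    have h1 : ContinuousAt (fun p : Y × ZMod 2 => p.2 + coc φ i j y) (y, v) := by fun_prop
    refine (h1.congr ?_).continuousWithinAt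
    have h2 : ∀ᶠ p : Y × ZMod 2 in 𝓝 (y, v), p.1 ∈ N := continuous_fst.continuousAt hN
    filter_upwards [h2] with p hp
    rw [coc_joined φ i j (h _ hp)]
  coordChange_comp i j k y hy v := by
    rcases hW3 i j k y hy.1.1 hy.1.2 hy.2 with rfl | rfl | rfl
    · rw [coc_self, add_zero]
    · rw [coc_self, add_zero]
    · rw [coc_self, coc_symm φ j i, add_assoc, CharTwo.add_self_eq_zero]

include hWo hWc hW3 in
theorem exists_pot [SimplyConnectedSpace Y] [LocallyPathConnectedSpace Y] (φ : EE W → ZMod 2) :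
    ∃ F : VV W → ZMod 2, ∀ e, F (dd1 e) - F (dd0 e) = φ e := by
  let Z := core hWo hWc hW3 φ
  have hcov : IsCoveringMap (Bundle.TotalSpace.proj : Z.TotalSpace → Y) :=
    FiberBundle.isCoveringMap
  obtain ⟨y₀⟩ := (inferInstance : Nonempty Y)
  obtain ⟨s, ⟨-, hs⟩, -⟩ := hcov.existsUnique_continuousMap_lifts (ContinuousMap.id Y) y₀
    (⟨y₀, (0 : ZMod 2)⟩ : Z.TotalSpace) rfl
  have hs' : ∀ y, (s y).proj = y := fun y => congrFun hs y
  let f : J → Y → ZMod 2 := fun j y => (Z.localTriv j (s y)).2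
  have hf : ∀ j y, f j y = (show ZMod 2 from (s y).2) + coc φ (Z.indexAt y) j y := by
    intro j y
    change (show ZMod 2 from (s y).2) + coc φ (Z.indexAt (s y).proj) j (s y).proj = _
    rw [hs']
  have hcont : ∀ j, ContinuousOn (f j) (W j) := by
    intro j
    have h1 := (Z.localTriv j).continuousOn
    refine (continuous_snd.comp_continuousOn h1).comp s.continuous.continuousOn ?_
    intro y hy
    rw [FiberBundleCore.mem_localTriv_source]
    change (s y).proj ∈ W j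
    rw [hs']; exact hy
  have hconst : ∀ j y y', JoinedIn (W j) y y' → f j y = f j y' := by
    rintro j y y' ⟨γ, hγ⟩
    have h1 : Continuous (fun t => f j (γ t)) := (hcont j).comp_continuous γ.continuous hγ
    have h2 := ((IsLocallyConstant.iff_continuous _).2 h1).apply_eq_of_preconnectedSpace 0 1
    simpa using h2
  have hchg : ∀ i j y, y ∈ W i → y ∈ W j → f j y = f i y + coc φ i j y := by
    intro i j y hi hj
    have h3 := Z.coordChange_comp (Z.indexAt y) i j y ⟨⟨Z.mem_baseSet_at y, hi⟩, hj⟩ (s y).2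
    rw [hf, hf]
    exact h3.symm
  refine ⟨Quotient.lift (fun x : PV W => f x.1.1 x.1.2) ?_, fun e => ?_⟩
  · rintro ⟨⟨i, a⟩, ha⟩ ⟨⟨j, b⟩, hb⟩ ⟨h1, h⟩
    cases h1
    exact hconst _ _ _ h
  · induction e using indE with | h i j y hij hy => ?_
    change f j y - f i y = _
    rw [hchg i j y hy.1 hy.2, add_sub_cancel_left]
    unfold coc
    rw [dif_pos ⟨hij, hy⟩]

include hWo hWc in
theorem conn_aux [PreconnectedSpace Y] [LocallyPathConnectedSpace Y] {M : Type} (F : VV W → M)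
    (hF : ∀ e, F (dd1 e) = F (dd0 e)) (u v : VV W) : F u = F v := by
  choose jj hjj using hWc
  let h : Y → M := fun y => F (mkV (jj y) y (hjj y))
  have h1 : ∀ i j y (hi : y ∈ W i) (hj : y ∈ W j), F (mkV i y hi) = F (mkV j y hj) := by
    intro i j y hi hj
    rcases lt_trichotomy i j with hij | rfl | hij
    · exact (hF (mkE i j y hij ⟨hi, hj⟩)).symm
    · rfl
    · exact hF (mkE j i y hij ⟨hj, hi⟩)
  have h2 : IsLocallyConstant h := by
    rw [IsLocallyConstant.iff_eventually_eq]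
    intro y
    obtain ⟨N, hN, hN2⟩ := exists_pc_nhds (hWo (jj y)) (hjj y)
    filter_upwards [hN] with y' hy'
    have h3 := hN2 y' hy'
    have h4 : F (mkV (jj y) y (hjj y)) = F (mkV (jj y) y' h3.target_mem) := by
      rw [mkV_eq h3]
    change F _ = F _
    rw [h4]
    exact h1 _ _ _ _ _
  induction u using indV with | h i a ha => ?_
  induction v using indV with | h j b hb => ?_
  rw [h1 i (jj a) a ha (hjj a), h1 j (jj b) b hb (hjj b)]
  exact h2.apply_eq_of_preconnectedSpace a b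

/-- the tree of the cover -/
@[reducible] noncomputable def covTree [SimplyConnectedSpace Y] [LocallyPathConnectedSpace Y]
    (hc : ∀ g : G, Continuous (fun y : Y => g • y))
    (hW : ∀ (g : G) (j : J), ∀ y ∈ W j, g • y ∈ W j) :
    @Tree G (VV W) (EE W) _ (actVV hc hW) (actEE hc hW) :=
  letI := actVV hc hW
  letI := actEE hc hW
  { d0 := dd0
    d1 := dd1
    s0 := fun g e => by
      induction e using indE with | h i j y hij hy => ?_
      rfl
    s1 := fun g e => by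
      induction e using indE with | h i j y hij hy => ?_
      rfl
    conn := fun {M} F hF u v => conn_aux hWo hWc F hF u v
    surj := fun φ => exists_pot hWo hWc hW3 φ }

end

end Pool.Agent.Run7.h562
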