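import Pool.Agent.Run7.h562.LemmaZ

/-!
# Good directions
-/

set_option autoImplicit false
set_option linter.unusedSectionVars false

open Polynomial

namespace Pool.Agent.Run7.h562

/-- degree bound and coefficient for products -/
theorem prod_coeff {R ι : Type*} [CommRing R] (s : Finset ι) (f : ι → R[X]) (n : ι → ℕ)
    (h : ∀ i, (f i).natDegree ≤ n i) : (∏ i ∈ s, f i).natDegree ≤ ∑ i ∈ s, n i ∧
      (∏ i ∈ s, f i).coeff (∑ i ∈ s, n i) = ∏ i ∈ s, (f i).coeff (n i) := by
  classical
  induction s using Finset.induction_on with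
  | empty => simp
  | insert a s ha ih =>
    rw [Finset.prod_insert ha, Finset.sum_insert ha, Finset.prod_insert ha]
    exact ⟨natDegree_mul_le.trans (add_le_add (h a) ih.1), by
      rw [coeff_mul_add_eq_of_natDegree_le (h a) ih.1, ih.2]⟩

section
variable {κ : Type} [Fintype κ] [DecidableEq κ]

theorem exists_dir (D : MvPolynomial κ ℂ) (hD : D ≠ 0) (F : Finset κ) :
    ∃ c : κ → ℂ, (∀ i ∈ F, c i = 0) ∧ ∀ b b' : κ → ℂ, (∀ i ∈ F, b i = b' i) →
      MvPolynomial.eval b (pz D c).leadingCoeff = MvPolynomial.eval b' (pz D c).leadingCoeff := by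
  classical
  let w : (κ →₀ ℕ) → ℕ := fun m => ∑ i, if i ∈ F then 0 else m i
  obtain ⟨m₀, hm₀, hmax⟩ := D.support.exists_max_image w (by
    rwa [MvPolynomial.support_nonempty])
  set d := w m₀ with hd
  let Dt : MvPolynomial κ ℂ := ∑ m ∈ D.support.filter (fun m => w m = d),
    MvPolynomial.monomial m (D.coeff m)
  have hDt : Dt ≠ 0 := by
    intro h0
    have h1 := congrArg (MvPolynomial.coeff m₀) h0
    rw [MvPolynomial.coeff_sum, Finset.sum_eq_single m₀] at h1
    · rw [MvPolynomial.coeff_monomial, if_pos rfl, MvPolynomial.coeff_zero] at h1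
      exact (MvPolynomial.mem_support_iff.1 hm₀) h1
    · intro m _ hne
      rw [MvPolynomial.coeff_monomial, if_neg hne]
    · intro h
      exact absurd (Finset.mem_filter.2 ⟨hm₀, (rfl : w m₀ = d)⟩) h
  obtain ⟨x, hx⟩ : ∃ x, MvPolynomial.eval x Dt ≠ 0 := by
    by_contra h
    push Not at h
    exact hDt (MvPolynomial.funext (fun x => by rw [h x, map_zero]))
  let c : κ → ℂ := fun i => if i ∈ F then 0 else x i
  have hc : ∀ i ∈ F, c i = 0 := fun i hi => if_pos hi
  -- monomials
  have hmon : ∀ (m : κ →₀ ℕ) (a : ℂ), (pz (MvPolynomial.monomial m a) c).natDegree ≤ w m ∧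
      ∀ b, MvPolynomial.eval b ((pz (MvPolynomial.monomial m a) c).coeff (w m)) =
        MvPolynomial.eval (fun i => if i ∈ F then b i else x i) (MvPolynomial.monomial m a) := by
    intro m a
    have h1 : pz (MvPolynomial.monomial m a) c = C (MvPolynomial.C a) *
        ∏ i, (C (MvPolynomial.X i) + C (MvPolynomial.C (c i)) * X) ^ m i := by
      unfold pz
      rw [MvPolynomial.aeval_monomial, Finsupp.prod_fintype _ _ (fun i => by simp)]
      rfl
    have hb : ∀ i, (C (MvPolynomial.X i) + C (MvPolynomial.C (c i)) * X :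
        (MvPolynomial κ ℂ)[X]).natDegree ≤ if i ∈ F then 0 else 1 := by
      intro i
      split_ifs with h
      · rw [hc i h, map_zero, map_zero, zero_mul, add_zero, natDegree_C]
      · rw [add_comm]
        exact natDegree_linear_le
    have hb2 : ∀ i, ((C (MvPolynomial.X i) + C (MvPolynomial.C (c i)) * X :
        (MvPolynomial κ ℂ)[X]) ^ m i).natDegree ≤ if i ∈ F then 0 else m i := by
      intro i
      refine natDegree_pow_le.trans ?_
      have := hb i
      split_ifs at this ⊢ with h
      · simp only [Nat.le_zero] at this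
        rw [this, mul_zero]
      · calc m i * _ ≤ m i * 1 := Nat.mul_le_mul_left _ this
          _ = m i := mul_one _
    have h2 := prod_coeff Finset.univ (fun i => (C (MvPolynomial.X i) +
      C (MvPolynomial.C (c i)) * X : (MvPolynomial κ ℂ)[X]) ^ m i)
      (fun i => if i ∈ F then 0 else m i) hb2
    rw [h1]
    refine ⟨(natDegree_C_mul_le _ _).trans h2.1, fun b => ?_⟩
    rw [coeff_C_mul, h2.2, map_mul, MvPolynomial.eval_C, map_prod, MvPolynomial.eval_monomial,
      Finsupp.prod_fintype _ _ (fun i => by simp)]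
    congr 1
    refine Finset.prod_congr rfl (fun i _ => ?_)
    by_cases h : i ∈ F
    · rw [if_pos h, if_pos h, hc i h, map_zero, map_zero, zero_mul, add_zero, ← C_pow,
        coeff_C_zero, map_pow, MvPolynomial.eval_X]
    · rw [if_neg h, if_neg h]
      have h3 := coeff_pow_of_natDegree_le (p := (C (MvPolynomial.X i) +
        C (MvPolynomial.C (c i)) * X : (MvPolynomial κ ℂ)[X])) (m := m i) (n := 1) (by
          have := hb i
          rwa [if_neg h] at this)
      rw [mul_one] at h3
      rw [h3, coeff_add, coeff_C_succ, zero_add, coeff_C_mul, coeff_X_one, mul_one, map_pow,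
        MvPolynomial.eval_C]
      change (if i ∈ F then 0 else x i) ^ m i = _
      rw [if_neg h]
  have hsum : pz D c = ∑ m ∈ D.support, pz (MvPolynomial.monomial m (D.coeff m)) c := by
    conv_lhs => rw [D.as_sum]
    unfold pz
    rw [map_sum]
  have hdeg : (pz D c).natDegree ≤ d := by
    rw [hsum]
    refine natDegree_sum_le_of_forall_le _ _ (fun m hm => ?_)
    exact ((hmon m _).1).trans (hmax m hm)
  have hcoef : ∀ b, MvPolynomial.eval b ((pz D c).coeff d) =
      MvPolynomial.eval (fun i => if i ∈ F then b i else x i) Dt := by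
    intro b
    rw [hsum, finsetSum_coeff, map_sum, map_sum, Finset.sum_filter]
    refine Finset.sum_congr rfl (fun m hm => ?_)
    split_ifs with h
    · rw [← h]
      exact (hmon m _).2 b
    · have h3 : w m < d := lt_of_le_of_ne (hmax m hm) h
      rw [coeff_eq_zero_of_natDegree_lt (lt_of_le_of_lt (hmon m _).1 h3), map_zero]
  have hne : (pz D c).coeff d ≠ 0 := by
    intro h0
    have h1 := hcoef x
    rw [h0, map_zero] at h1
    apply hx
    have h2 : (fun i => if i ∈ F then x i else x i) = x := by funext i; simp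
    rw [h2] at h1
    exact h1.symm
  have hlc : (pz D c).leadingCoeff = (pz D c).coeff d := by
    rw [leadingCoeff, le_antisymm hdeg (le_natDegree_of_ne_zero hne)]
  refine ⟨c, hc, fun b b' hbb => ?_⟩
  rw [hlc, hcoef, hcoef]
  congr 1
  congr 1
  funext i
  split_ifs with h
  · exact hbb i h
  · rfl

/-- a polynomial invariant under translations in direction `c` -/
theorem pz_of_inv (g : MvPolynomial κ ℂ) (c : κ → ℂ)
    (h : ∀ (b : κ → ℂ) (z : ℂ), MvPolynomial.eval (b + z • c) g = MvPolynomial.eval b g) : pz g c = C g := by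
  have h1 : ∀ b : κ → ℂ, (pz g c).map (ev b) = (C g).map (ev b) := by
    intro b
    apply Polynomial.funext
    intro z
    rw [← ev2_apply, ev2_pz, h, ← ev2_apply, ev2_C]
  ext1 n
  apply MvPolynomial.funext
  intro b
  have h2 := congrArg (fun q : ℂ[X] => q.coeff n) (h1 b)
  simp only [coeff_map] at h2
  exact h2

/-- multiplying by the leading coefficient -/
theorem lead_mul (D : MvPolynomial κ ℂ) (c : κ → ℂ) (F : Finset κ) (hc : ∀ i ∈ F, c i = 0)
    (h : ∀ b b' : κ → ℂ, (∀ i ∈ F, b i = b' i) →
      MvPolynomial.eval b (pz D c).leadingCoeff = MvPolynomial.eval b' (pz D c).leadingCoeff) :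
    (pz (D * (pz D c).leadingCoeff) c).leadingCoeff =
      (pz D c).leadingCoeff * (pz D c).leadingCoeff := by
  have h1 : pz (D * (pz D c).leadingCoeff) c = pz D c * pz (pz D c).leadingCoeff c := by
    unfold pz
    rw [map_mul]
  rw [h1, pz_of_inv _ _ (fun b z => h _ _ (fun i hi => by
    rw [Pi.add_apply, Pi.smul_apply, hc i hi, smul_zero, add_zero])), leadingCoeff_mul,
    leadingCoeff_C]

end

end Pool.Agent.Run7.h562
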