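import Pool.Agent.Run7.h562.VK

/-!
# Fundamental groups of fibre products
-/

set_option autoImplicit false
set_option linter.unusedSectionVars false

open Topology Set unitInterval

namespace Pool.Agent.Run7.h562

open Monoid

/-- trivializations over subsets of the base -/
structure Trv {Y : Type} [TopologicalSpace Y] (F : Type) [NormedAddCommGroup F] [NormedSpace ℝ F]
    (f : C(Y, ℂ)) (D : Set ℂ) where
  Φ : Y → F
  Ψ : ℂ × F → Y
  hΦ : ContinuousOn Φ {y | f y ∈ D}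
  hΨ : ContinuousOn Ψ (D ×ˢ univ)
  hf : ∀ t ∈ D, ∀ v, f (Ψ (t, v)) = t
  hl : ∀ t ∈ D, ∀ v, Φ (Ψ (t, v)) = v
  hr : ∀ y, f y ∈ D → Ψ (f y, Φ y) = y

/-- restriction -/
def Trv.mono {Y : Type} [TopologicalSpace Y] {F : Type} [NormedAddCommGroup F] [NormedSpace ℝ F]
    {f : C(Y, ℂ)} {D D' : Set ℂ} (T : Trv F f D) (h : D' ⊆ D) : Trv F f D' where
  Φ := T.Φ
  Ψ := T.Ψ
  hΦ := T.hΦ.mono (fun _ hy => h hy)
  hΨ := T.hΨ.mono (prod_mono h subset_rfl)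
  hf t ht := T.hf t (h ht)
  hl t ht := T.hl t (h ht)
  hr y hy := T.hr y (h hy)

/-- change of sign -/
def Trv.neg {Y : Type} [TopologicalSpace Y] {F : Type} [NormedAddCommGroup F] [NormedSpace ℝ F]
    {f : C(Y, ℂ)} {D D' : Set ℂ} (T : Trv F f D) (h : ∀ t ∈ D', -t ∈ D) : Trv F (-f) D' where
  Φ := T.Φ
  Ψ := fun x => T.Ψ (-x.1, x.2)
  hΦ := T.hΦ.mono (fun y hy => by
    have := h _ hy
    simpa using this)
  hΨ := by
    refine T.hΨ.comp (by fun_prop) ?_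
    rintro ⟨t, v⟩ ⟨ht, -⟩
    exact ⟨h t ht, trivial⟩
  hf t ht v := by
    change -(f (T.Ψ (-t, v))) = t
    rw [T.hf (-t) (h t ht) v, neg_neg]
  hl t ht v := T.hl (-t) (h t ht) v
  hr y hy := by
    change T.Ψ (-(-(f y)), T.Φ y) = y
    rw [neg_neg]
    refine T.hr y ?_
    have := h _ hy
    simpa using this

/-- the shift of the base -/
noncomputable def rh (s : ℝ) (t : ℂ) : ℂ := t - ((s * max t.re 0 : ℝ) : ℂ)

theorem rh_re (s : ℝ) (t : ℂ) : (rh s t).re = t.re - s * max t.re 0 := by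
  unfold rh
  rw [Complex.sub_re, Complex.ofReal_re]

theorem rh_zero (t : ℂ) : rh 0 t = t := by simp [rh]

theorem rh_of_nonpos (s : ℝ) {t : ℂ} (h : t.re ≤ 0) : rh s t = t := by
  simp [rh, max_eq_right h]

theorem rh_lo {s : ℝ} (h1 : s ≤ 1) {t : ℂ} (h : -1 < t.re) : -1 < (rh s t).re := by
  rw [rh_re]
  rcases le_total t.re 0 with h2 | h2
  · rw [max_eq_right h2]; linarith
  · rw [max_eq_left h2]; nlinarith

theorem rh_hi {s : ℝ} (h0 : 0 ≤ s) {t : ℂ} (h : t.re < 1) : (rh s t).re < 1 := by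
  rw [rh_re]
  have : 0 ≤ s * max t.re 0 := mul_nonneg h0 (le_max_right _ _)
  linarith

theorem rh_one (t : ℂ) : (rh 1 t).re < 1 := by
  rw [rh_re, one_mul]
  have := le_max_left t.re 0
  linarith

theorem rh_cont : Continuous (fun x : ℝ × ℂ => rh x.1 x.2) := by
  unfold rh
  fun_prop

section

variable {Y : Type} [TopologicalSpace Y] {F : Type} [NormedAddCommGroup F] [NormedSpace ℝ F]
  {f : C(Y, ℂ)} (T : Trv F f {t : ℂ | -1 < t.re})

open Classical in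
/-- the retraction -/
noncomputable def hh (x : I × Y) : Y :=
  if -1 < (f x.2).re then T.Ψ (rh x.1 (f x.2), T.Φ x.2) else x.2

theorem hh_pos {x : I × Y} (h : -1 < (f x.2).re) : hh T x = T.Ψ (rh x.1 (f x.2), T.Φ x.2) :=
  if_pos h

theorem hh_neg {x : I × Y} (h : (f x.2).re ≤ 0) : hh T x = x.2 := by
  by_cases h1 : -1 < (f x.2).re
  · rw [hh_pos T h1, rh_of_nonpos _ h, T.hr x.2 h1]
  · exact if_neg h1

theorem hh_zero (y : Y) : hh T (0, y) = y := by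
  by_cases h1 : -1 < (f y).re
  · rw [hh_pos T h1]
    change T.Ψ (rh 0 (f y), T.Φ y) = y
    rw [rh_zero, T.hr y h1]
  · exact if_neg h1

theorem f_hh (x : I × Y) : f (hh T x) = rh x.1 (f x.2) := by
  by_cases h1 : -1 < (f x.2).re
  · rw [hh_pos T h1, T.hf _ (rh_lo x.1.2.2 h1)]
  · rw [hh_neg T (by linarith), rh_of_nonpos _ (by linarith)]

theorem hh_cont : Continuous (hh T) := by
  rw [continuous_iff_continuousAt]
  intro x
  by_cases h1 : -1 < (f x.2).re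
  · have h2 : IsOpen {x : I × Y | -1 < (f x.2).re} :=
      isOpen_lt continuous_const (Complex.continuous_re.comp (f.continuous.comp continuous_snd))
    have h3 : ContinuousOn (fun x : I × Y => T.Ψ (rh x.1 (f x.2), T.Φ x.2))
        {x : I × Y | -1 < (f x.2).re} := by
      refine T.hΨ.comp (ContinuousOn.prodMk ?_ ?_) ?_
      · have h4 : Continuous (fun x : I × Y => ((x.1 : ℝ), f x.2)) := by fun_prop
        exact (rh_cont.comp h4).continuousOn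
      · exact T.hΦ.comp continuous_snd.continuousOn (fun x hx => hx)
      · intro x hx
        exact ⟨rh_lo x.1.2.2 hx, trivial⟩
    refine (h3.continuousAt (h2.mem_nhds h1)).congr ?_
    filter_upwards [h2.mem_nhds h1] with z hz
    exact (hh_pos T hz).symm
  · have h2 : IsOpen {x : I × Y | (f x.2).re < 0} :=
      isOpen_lt (Complex.continuous_re.comp (f.continuous.comp continuous_snd)) continuous_const
    have h5 : (f x.2).re < 0 := by linarith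
    refine continuous_snd.continuousAt.congr ?_
    filter_upwards [h2.mem_nhds h5] with z hz
    exact (hh_neg T (le_of_lt hz)).symm

end

section

variable {X Y₁ Y₂ : Type} [TopologicalSpace X] [TopologicalSpace Y₁] [TopologicalSpace Y₂]
  {F₁ F₂ : Type} [NormedAddCommGroup F₁] [NormedSpace ℝ F₁] [NormedAddCommGroup F₂]
  [NormedSpace ℝ F₂]

/-- fibre products -/
structure Crt (q₁ : C(X, Y₁)) (q₂ : C(X, Y₂)) (f₁ : C(Y₁, ℂ)) (f₂ : C(Y₂, ℂ)) : Prop where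
  hq : ∀ x, f₁ (q₁ x) = f₂ (q₂ x)
  hinj : ∀ x x', q₁ x = q₁ x' → q₂ x = q₂ x' → x = x'
  hcart : ∀ (Z : Type) [TopologicalSpace Z] (a : C(Z, Y₁)) (b : C(Z, Y₂)),
    (∀ z, f₁ (a z) = f₂ (b z)) → ∃ c : C(Z, X), (∀ z, q₁ (c z) = a z) ∧ ∀ z, q₂ (c z) = b z

variable {q₁ : C(X, Y₁)} {q₂ : C(X, Y₂)} {f₁ : C(Y₁, ℂ)} {f₂ : C(Y₂, ℂ)}

theorem Crt.swap (h : Crt q₁ q₂ f₁ f₂) : Crt q₂ q₁ (-f₂) (-f₁) where
  hq x := congrArg Neg.neg (h.hq x).symm
  hinj x x' h1 h2 := h.hinj x x' h2 h1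
  hcart Z _ a b hab := by
    obtain ⟨c, hc1, hc2⟩ := h.hcart Z b a (fun z => (neg_inj.1 (hab z)).symm)
    exact ⟨c, hc2, hc1⟩

/-- the group of one half -/
theorem half [PathConnectedSpace Y₁] (h : Crt q₁ q₂ f₁ f₂) (T₁ : Trv F₁ f₁ {t : ℂ | -1 < t.re})
    (T₂ : Trv F₂ f₂ {t : ℂ | t.re < 1}) (x₀ : X) (hx₀ : (f₁ (q₁ x₀)).re ≤ 0)
    (hx₀U : x₀ ∈ {x : X | (f₁ (q₁ x)).re < 1}) :
    Nonempty (LG {x : X | (f₁ (q₁ x)).re < 1} x₀ hx₀U ≃* FundamentalGroup Y₁ (q₁ x₀)) ∧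
      ∀ x ∈ {x : X | (f₁ (q₁ x)).re < 1}, JoinedIn {x : X | (f₁ (q₁ x)).re < 1} x x₀ := by
  set U : Set X := {x : X | (f₁ (q₁ x)).re < 1} with hU
  have hU2 : ∀ x ∈ U, (f₂ (q₂ x)).re < 1 := fun x hx => by rw [← h.hq]; exact hx
  let v₀ : F₂ := T₂.Φ (q₂ x₀)
  -- the homotopy
  let a : C(I × U, Y₁) := ⟨fun x => hh T₁ (x.1, q₁ x.2.1), (hh_cont T₁).comp (by fun_prop)⟩
  let b : C(I × U, Y₂) := ⟨fun x => T₂.Ψ (rh x.1 (f₂ (q₂ x.2.1)),
      (1 - (x.1 : ℝ)) • T₂.Φ (q₂ x.2.1) + (x.1 : ℝ) • v₀), by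
    refine T₂.hΨ.comp_continuous (Continuous.prodMk ?_ ?_) ?_
    · have h4 : Continuous (fun x : I × U => ((x.1 : ℝ), f₂ (q₂ x.2.1))) := by fun_prop
      exact rh_cont.comp h4
    · have h5 : Continuous (fun x : I × U => T₂.Φ (q₂ x.2.1)) :=
        T₂.hΦ.comp_continuous (by fun_prop) (fun x => hU2 _ x.2.2)
      have h6 : Continuous (fun x : I × U => (1 - (x.1 : ℝ))) := by fun_prop
      have h7 : Continuous (fun x : I × U => (x.1 : ℝ)) := by fun_prop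
      exact (h6.smul h5).add (h7.smul continuous_const)
    · intro x
      exact ⟨rh_hi x.1.2.1 (hU2 _ x.2.2), trivial⟩⟩
  obtain ⟨K, hK1, hK2⟩ := h.hcart (I × U) a b (fun x => by
    change f₁ (hh T₁ (x.1, q₁ x.2.1)) = f₂ (T₂.Ψ _)
    rw [f_hh, T₂.hf _ (rh_hi x.1.2.1 (hU2 _ x.2.2)), h.hq])
  let aL : C(Y₁, Y₁) := ⟨fun y => hh T₁ (1, y), (hh_cont T₁).comp (by fun_prop)⟩
  let bL : C(Y₁, Y₂) := ⟨fun y => T₂.Ψ (rh 1 (f₁ y), v₀), by
    refine T₂.hΨ.comp_continuous (Continuous.prodMk ?_ continuous_const) ?_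
    · have h4 : Continuous (fun y : Y₁ => ((1 : ℝ), f₁ y)) := by fun_prop
      exact rh_cont.comp h4
    · intro y
      exact ⟨rh_one _, trivial⟩⟩
  obtain ⟨L, hL1, hL2⟩ := h.hcart Y₁ aL bL (fun y => by
    change f₁ (hh T₁ (1, y)) = f₂ (T₂.Ψ _)
    rw [f_hh, T₂.hf _ (rh_one _)]
    rfl)
  have hK1' : ∀ x, K (1, x) = L (q₁ x.1) := by
    intro x
    apply h.hinj
    · rw [hK1, hL1]
      rfl
    · rw [hK2, hL2]
      change T₂.Ψ (rh 1 (f₂ (q₂ x.1)), (1 - (1 : ℝ)) • T₂.Φ (q₂ x.1) + (1 : ℝ) • v₀) =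
        T₂.Ψ (rh 1 (f₁ (q₁ x.1)), v₀)
      rw [h.hq, sub_self, zero_smul, zero_add, one_smul]
  have hK0 : ∀ x, K (0, x) = x.1 := by
    intro x
    apply h.hinj
    · rw [hK1]
      exact hh_zero T₁ _
    · rw [hK2]
      change T₂.Ψ (rh 0 (f₂ (q₂ x.1)), (1 - (0 : ℝ)) • T₂.Φ (q₂ x.1) + (0 : ℝ) • v₀) = q₂ x.1
      rw [rh_zero, sub_zero, one_smul, zero_smul, add_zero]
      exact T₂.hr _ (hU2 _ x.2)
  have hKx : ∀ s : I, K (s, ⟨x₀, hx₀U⟩) = x₀ := by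
    intro s
    apply h.hinj
    · rw [hK1]
      exact hh_neg T₁ hx₀
    · rw [hK2]
      change T₂.Ψ (rh s (f₂ (q₂ x₀)), (1 - (s : ℝ)) • v₀ + (s : ℝ) • v₀) = q₂ x₀
      rw [rh_of_nonpos _ (by rw [← h.hq]; exact hx₀), ← add_smul, sub_add_cancel, one_smul]
      exact T₂.hr _ (hU2 _ hx₀U)
  have hLx : L (q₁ x₀) = x₀ := by
    have := hK1' ⟨x₀, hx₀U⟩
    rw [hKx] at this
    exact this.symm
  have hKU : ∀ x, K x ∈ U := by
    intro x
    change (f₁ (q₁ (K x))).re < 1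
    rw [hK1]
    change (f₁ (hh T₁ (x.1, q₁ x.2.1))).re < 1
    rw [f_hh]
    exact rh_hi x.1.2.1 x.2.2
  have hLU : ∀ y, L y ∈ U := by
    intro y
    change (f₁ (q₁ (L y))).re < 1
    rw [hL1]
    change (f₁ (hh T₁ (1, y))).re < 1
    rw [f_hh]
    exact rh_one _
  constructor
  · let φ : LG U x₀ hx₀U →* FundamentalGroup Y₁ (q₁ x₀) :=
      (FundamentalGroup.map q₁ x₀).comp (LG U x₀ hx₀U).subtype
    refine ⟨MulEquiv.ofBijective φ ⟨?_, ?_⟩⟩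
    · rw [injective_iff_map_eq_one]
      rintro ⟨m, γ, hγ, rfl⟩ hm
      have h1 : (γ.map q₁.continuous).Homotopic (Path.refl _) := Path.Homotopic.Quotient.eq.1 hm
      let γ' : Path x₀ x₀ := ((γ.map q₁.continuous).map L.continuous).cast hLx.symm hLx.symm
      have h2 : γ'.Homotopic (Path.refl x₀) :=
        null_congr γ' ((γ.map q₁.continuous).map L.continuous) (fun _ => rfl) (h1.map L)
      have hsq := square γ γ' (Path.refl x₀) (Path.refl x₀)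
        (K.comp ⟨fun x : I × I => (x.2, (⟨γ x.1, hγ x.1⟩ : U)), by fun_prop⟩)
        (fun t => hK0 ⟨γ t, hγ t⟩) (fun t => hK1' ⟨γ t, hγ t⟩)
        (fun s => by
          change K (s, ⟨γ 0, hγ 0⟩) = x₀
          have : (⟨γ 0, hγ 0⟩ : U) = ⟨x₀, hx₀U⟩ := Subtype.ext γ.source
          rw [this, hKx])
        (fun s => by
          change K (s, ⟨γ 1, hγ 1⟩) = x₀
          have : (⟨γ 1, hγ 1⟩ : U) = ⟨x₀, hx₀U⟩ := Subtype.ext γ.target
          rw [this, hKx])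
      rw [Path.Homotopic.Quotient.eq.2 h2, Path.Homotopic.Quotient.mk_refl,
        Path.Homotopic.Quotient.trans_refl, Path.Homotopic.Quotient.trans_refl] at hsq
      exact Subtype.ext hsq
    · intro m
      obtain ⟨δ, rfl⟩ := Path.Homotopic.Quotient.mk_surjective m
      let γ : Path x₀ x₀ := (δ.map L.continuous).cast hLx.symm hLx.symm
      refine ⟨⟨Path.Homotopic.Quotient.mk γ, γ, fun t => hLU _, rfl⟩, ?_⟩
      have hsq := square δ (γ.map q₁.continuous) (Path.refl (q₁ x₀)) (Path.refl (q₁ x₀))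
        ⟨fun x : I × I => hh T₁ (x.2, δ x.1), (hh_cont T₁).comp (by fun_prop)⟩
        (fun t => hh_zero T₁ _) (fun t => (hL1 (δ t)).symm)
        (fun s => by
          change hh T₁ (s, δ 0) = q₁ x₀
          rw [δ.source]
          exact hh_neg T₁ hx₀)
        (fun s => by
          change hh T₁ (s, δ 1) = q₁ x₀
          rw [δ.target]
          exact hh_neg T₁ hx₀)
      rw [Path.Homotopic.Quotient.mk_refl,
        Path.Homotopic.Quotient.trans_refl, Path.Homotopic.Quotient.refl_trans] at hsq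
      exact hsq.symm
  · intro x hx
    obtain ⟨δ⟩ := PathConnectedSpace.joined (q₁ x) (q₁ x₀)
    have j1 : JoinedIn U x (L (q₁ x)) :=
      ⟨⟨⟨fun s => K (s, ⟨x, hx⟩), by fun_prop⟩, hK0 ⟨x, hx⟩, hK1' ⟨x, hx⟩⟩, fun s => hKU _⟩
    have j2 : JoinedIn U (L (q₁ x)) x₀ :=
      ⟨(δ.map L.continuous).cast rfl hLx.symm, fun s => hLU _⟩
    exact j1.trans j2

/-- the intersection of the halves -/
theorem middle (h : Crt q₁ q₂ f₁ f₂) (T₁ : Trv F₁ f₁ {t : ℂ | -1 < t.re})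
    (T₂ : Trv F₂ f₂ {t : ℂ | t.re < 1}) (x₀ : X)
    (hx₀U : x₀ ∈ {x : X | (f₁ (q₁ x)).re < 1 ∧ -1 < (f₁ (q₁ x)).re}) :
    (∀ x ∈ {x : X | (f₁ (q₁ x)).re < 1 ∧ -1 < (f₁ (q₁ x)).re},
      JoinedIn {x : X | (f₁ (q₁ x)).re < 1 ∧ -1 < (f₁ (q₁ x)).re} x x₀) ∧
    ∀ γ : Path x₀ x₀, (∀ t, γ t ∈ {x : X | (f₁ (q₁ x)).re < 1 ∧ -1 < (f₁ (q₁ x)).re}) →
      γ.Homotopic (Path.refl x₀) := by
  set U : Set X := {x : X | (f₁ (q₁ x)).re < 1 ∧ -1 < (f₁ (q₁ x)).re} with hU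
  have hU2 : ∀ x ∈ U, (f₂ (q₂ x)).re < 1 := fun x hx => by rw [← h.hq]; exact hx.1
  let tt : I × U → ℂ := fun x => (1 - (x.1 : ℝ)) • f₁ (q₁ x.2.1) + (x.1 : ℝ) • f₁ (q₁ x₀)
  have htt : Continuous tt := by
    have h5 : Continuous (fun x : I × U => f₁ (q₁ x.2.1)) := by fun_prop
    have h6 : Continuous (fun x : I × U => (1 - (x.1 : ℝ))) := by fun_prop
    have h7 : Continuous (fun x : I × U => (x.1 : ℝ)) := by fun_prop
    exact (h6.smul h5).add (h7.smul continuous_const)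
  have httre : ∀ x, (tt x).re = (1 - (x.1 : ℝ)) * (f₁ (q₁ x.2.1)).re +
      (x.1 : ℝ) * (f₁ (q₁ x₀)).re := by
    intro x
    change ((1 - (x.1 : ℝ)) • f₁ (q₁ x.2.1) + (x.1 : ℝ) • f₁ (q₁ x₀)).re = _
    rw [Complex.add_re, Complex.smul_re, Complex.smul_re, smul_eq_mul, smul_eq_mul]
  have hlo : ∀ x, -1 < (tt x).re := by
    intro x
    rw [httre]
    have h1 := x.1.2.1
    have h2 := x.1.2.2
    have h3 := x.2.2.2
    have h4 := hx₀U.2
    rcases eq_or_lt_of_le h2 with h5 | h5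
    · rw [h5]; linarith
    · nlinarith
  have hhi : ∀ x, (tt x).re < 1 := by
    intro x
    rw [httre]
    have h1 := x.1.2.1
    have h2 := x.1.2.2
    have h3 := x.2.2.1
    have h4 := hx₀U.1
    rcases eq_or_lt_of_le h2 with h5 | h5
    · rw [h5]; linarith
    · nlinarith
  have hc2 : ∀ {F : Type} [NormedAddCommGroup F] [NormedSpace ℝ F] (Φ : U → F) (v : F),
      Continuous Φ → Continuous (fun x : I × U => (1 - (x.1 : ℝ)) • Φ x.2 + (x.1 : ℝ) • v) := by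
    intro F _ _ Φ v hΦ
    have h5 : Continuous (fun x : I × U => Φ x.2) := hΦ.comp continuous_snd
    have h6 : Continuous (fun x : I × U => (1 - (x.1 : ℝ))) := by fun_prop
    have h7 : Continuous (fun x : I × U => (x.1 : ℝ)) := by fun_prop
    exact (h6.smul h5).add (h7.smul continuous_const)
  let a : C(I × U, Y₁) := ⟨fun x => T₁.Ψ (tt x,
      (1 - (x.1 : ℝ)) • T₁.Φ (q₁ x.2.1) + (x.1 : ℝ) • T₁.Φ (q₁ x₀)), by
    refine T₁.hΨ.comp_continuous (Continuous.prodMk htt ?_) (fun x => ⟨hlo x, trivial⟩)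
    exact hc2 (fun x : U => T₁.Φ (q₁ x.1)) _
      (T₁.hΦ.comp_continuous (by fun_prop) (fun x => x.2.2))⟩
  let b : C(I × U, Y₂) := ⟨fun x => T₂.Ψ (tt x,
      (1 - (x.1 : ℝ)) • T₂.Φ (q₂ x.2.1) + (x.1 : ℝ) • T₂.Φ (q₂ x₀)), by
    refine T₂.hΨ.comp_continuous (Continuous.prodMk htt ?_) (fun x => ⟨hhi x, trivial⟩)
    exact hc2 (fun x : U => T₂.Φ (q₂ x.1)) _
      (T₂.hΦ.comp_continuous (by fun_prop) (fun x => hU2 _ x.2))⟩
  obtain ⟨K, hK1, hK2⟩ := h.hcart (I × U) a b (fun x => by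
    change f₁ (T₁.Ψ _) = f₂ (T₂.Ψ _)
    rw [T₁.hf _ (hlo x), T₂.hf _ (hhi x)])
  have hK0 : ∀ x, K (0, x) = x.1 := by
    intro x
    have h0 : tt (0, x) = f₁ (q₁ x.1) := by
      change (1 - (0 : ℝ)) • f₁ (q₁ x.1) + (0 : ℝ) • f₁ (q₁ x₀) = _
      rw [sub_zero, one_smul, zero_smul, add_zero]
    apply h.hinj
    · rw [hK1]
      change T₁.Ψ (tt (0, x), (1 - (0 : ℝ)) • T₁.Φ (q₁ x.1) + (0 : ℝ) • T₁.Φ (q₁ x₀)) = q₁ x.1
      rw [h0, sub_zero, one_smul, zero_smul, add_zero]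
      exact T₁.hr _ x.2.2
    · rw [hK2]
      change T₂.Ψ (tt (0, x), (1 - (0 : ℝ)) • T₂.Φ (q₂ x.1) + (0 : ℝ) • T₂.Φ (q₂ x₀)) = q₂ x.1
      rw [h0, sub_zero, one_smul, zero_smul, add_zero, h.hq]
      exact T₂.hr _ (hU2 _ x.2)
  have hK1' : ∀ x, K (1, x) = x₀ := by
    intro x
    have h0 : tt (1, x) = f₁ (q₁ x₀) := by
      change (1 - (1 : ℝ)) • f₁ (q₁ x.1) + (1 : ℝ) • f₁ (q₁ x₀) = _
      rw [sub_self, one_smul, zero_smul, zero_add]
    apply h.hinj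
    · rw [hK1]
      change T₁.Ψ (tt (1, x), (1 - (1 : ℝ)) • T₁.Φ (q₁ x.1) + (1 : ℝ) • T₁.Φ (q₁ x₀)) = q₁ x₀
      rw [h0, sub_self, one_smul, zero_smul, zero_add]
      exact T₁.hr _ hx₀U.2
    · rw [hK2]
      change T₂.Ψ (tt (1, x), (1 - (1 : ℝ)) • T₂.Φ (q₂ x.1) + (1 : ℝ) • T₂.Φ (q₂ x₀)) = q₂ x₀
      rw [h0, sub_self, one_smul, zero_smul, zero_add, h.hq]
      exact T₂.hr _ (hU2 _ hx₀U)
  have hKx : ∀ s : I, K (s, ⟨x₀, hx₀U⟩) = x₀ := by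
    intro s
    have h0 : tt (s, ⟨x₀, hx₀U⟩) = f₁ (q₁ x₀) := by
      change (1 - (s : ℝ)) • f₁ (q₁ x₀) + (s : ℝ) • f₁ (q₁ x₀) = _
      rw [← add_smul, sub_add_cancel, one_smul]
    apply h.hinj
    · rw [hK1]
      change T₁.Ψ (tt (s, ⟨x₀, hx₀U⟩), (1 - (s : ℝ)) • T₁.Φ (q₁ x₀) +
        (s : ℝ) • T₁.Φ (q₁ x₀)) = q₁ x₀
      rw [h0, ← add_smul, sub_add_cancel, one_smul]
      exact T₁.hr _ hx₀U.2
    · rw [hK2]
      change T₂.Ψ (tt (s, ⟨x₀, hx₀U⟩), (1 - (s : ℝ)) • T₂.Φ (q₂ x₀) +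
        (s : ℝ) • T₂.Φ (q₂ x₀)) = q₂ x₀
      rw [h0, ← add_smul, sub_add_cancel, one_smul, h.hq]
      exact T₂.hr _ (hU2 _ hx₀U)
  have hKU : ∀ x, K x ∈ U := by
    intro x
    have h1 : f₁ (q₁ (K x)) = tt x := by
      rw [hK1]
      exact T₁.hf _ (hlo x) _
    change (f₁ (q₁ (K x))).re < 1 ∧ -1 < (f₁ (q₁ (K x))).re
    rw [h1]
    exact ⟨hhi x, hlo x⟩
  constructor
  · intro x hx
    exact ⟨⟨⟨fun s => K (s, ⟨x, hx⟩), by fun_prop⟩, hK0 ⟨x, hx⟩, hK1' ⟨x, hx⟩⟩, fun s => hKU _⟩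
  · intro γ hγ
    have hsq := square γ (Path.refl x₀) (Path.refl x₀) (Path.refl x₀)
        (K.comp ⟨fun x : I × I => (x.2, (⟨γ x.1, hγ x.1⟩ : U)), by fun_prop⟩)
        (fun t => hK0 ⟨γ t, hγ t⟩) (fun t => hK1' ⟨γ t, hγ t⟩)
        (fun s => by
          change K (s, ⟨γ 0, hγ 0⟩) = x₀
          have : (⟨γ 0, hγ 0⟩ : U) = ⟨x₀, hx₀U⟩ := Subtype.ext γ.source
          rw [this, hKx])
        (fun s => by
          change K (s, ⟨γ 1, hγ 1⟩) = x₀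
          have : (⟨γ 1, hγ 1⟩ : U) = ⟨x₀, hx₀U⟩ := Subtype.ext γ.target
          rw [this, hKx])
    rw [Path.Homotopic.Quotient.mk_refl,
        Path.Homotopic.Quotient.trans_refl, Path.Homotopic.Quotient.refl_trans] at hsq
    exact Path.Homotopic.Quotient.eq.1 hsq

/-- path connectedness of the fibre product -/
theorem fib_conn [PathConnectedSpace Y₁] [PathConnectedSpace Y₂] (h : Crt q₁ q₂ f₁ f₂)
    (T₁ : Trv F₁ f₁ {t : ℂ | -1 < t.re}) (T₂ : Trv F₂ f₂ {t : ℂ | t.re < 1}) (x₀ : X)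
    (hx₀ : (f₁ (q₁ x₀)).re = 0) (x : X) : Joined x x₀ := by
  by_cases h1 : (f₁ (q₁ x)).re < 1
  · exact ((half h T₁ T₂ x₀ hx₀.le (by change (f₁ (q₁ x₀)).re < 1; rw [hx₀]; exact one_pos)).2 x h1).joined
  · have e1 : ∀ y : X, ((-f₂) (q₂ y)).re = -(f₁ (q₁ y)).re := fun y => by
      change (-(f₂ (q₂ y))).re = _
      rw [← h.hq, Complex.neg_re]
    refine ((half h.swap (T₂.neg (D' := {t : ℂ | -1 < t.re}) (fun t ht => ?_))
      (T₁.neg (D' := {t : ℂ | t.re < 1}) (fun t ht => ?_)) x₀ ?_ ?_).2 x ?_).joined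
    · change (-t).re < 1
      rw [Complex.neg_re]
      have : -1 < t.re := ht
      linarith
    · change -1 < (-t).re
      rw [Complex.neg_re]
      have : t.re < 1 := ht
      linarith
    · rw [e1, hx₀, neg_zero]
    · change ((-f₂) (q₂ x₀)).re < 1
      rw [e1, hx₀]
      norm_num
    · change ((-f₂) (q₂ x)).re < 1
      rw [e1]
      push Not at h1
      linarith

/-- **the fundamental group of the fibre product** -/
theorem fib_vk [PathConnectedSpace Y₁] [PathConnectedSpace Y₂] [PathConnectedSpace X]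
    [LocallyPathConnectedSpace X] (hs : Pool.Agent.W622.RB.SLSC X) (h : Crt q₁ q₂ f₁ f₂)
    (T₁ : Trv F₁ f₁ {t : ℂ | -1 < t.re}) (T₂ : Trv F₂ f₂ {t : ℂ | t.re < 1}) (x₀ : X)
    (hx₀ : (f₁ (q₁ x₀)).re = 0) :
    Nonempty (FundamentalGroup X x₀ ≃*
      Coprod (FundamentalGroup Y₁ (q₁ x₀)) (FundamentalGroup Y₂ (q₂ x₀))) := by
  have e1 : ∀ y : X, ((-f₂) (q₂ y)).re = -(f₁ (q₁ y)).re := fun y => by
    change (-(f₂ (q₂ y))).re = _
    rw [← h.hq, Complex.neg_re]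
  have hU₀ : x₀ ∈ {x : X | (f₁ (q₁ x)).re < 1} := by change (f₁ (q₁ x₀)).re < 1; rw [hx₀]; exact one_pos
  have hV₀ : x₀ ∈ {x : X | ((-f₂) (q₂ x)).re < 1} := by
    change ((-f₂) (q₂ x₀)).re < 1
    rw [e1, hx₀]
    norm_num
  obtain ⟨⟨E1⟩, -⟩ := half h T₁ T₂ x₀ hx₀.le hU₀
  obtain ⟨⟨E2⟩, -⟩ := half h.swap (T₂.neg (D' := {t : ℂ | -1 < t.re}) (fun t ht => by
      change (-t).re < 1
      rw [Complex.neg_re]
      have : -1 < t.re := ht
      linarith))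
      (T₁.neg (D' := {t : ℂ | t.re < 1}) (fun t ht => by
        change -1 < (-t).re
        rw [Complex.neg_re]
        have : t.re < 1 := ht
        linarith)) x₀ (by rw [e1, hx₀, neg_zero]) hV₀
  have hint : {x : X | (f₁ (q₁ x)).re < 1} ∩ {x : X | ((-f₂) (q₂ x)).re < 1} =
      {x : X | (f₁ (q₁ x)).re < 1 ∧ -1 < (f₁ (q₁ x)).re} := by
    ext x
    constructor
    · rintro ⟨h1, h2⟩
      have h3 : ((-f₂) (q₂ x)).re < 1 := h2
      rw [e1] at h3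
      exact ⟨h1, by linarith⟩
    · rintro ⟨h1, h2⟩
      refine ⟨h1, ?_⟩
      change ((-f₂) (q₂ x)).re < 1
      rw [e1]
      linarith
  have hm := middle h T₁ T₂ x₀ (by rw [← hint]; exact ⟨hU₀, hV₀⟩)
  rw [← hint] at hm
  obtain ⟨E⟩ := vki hs x₀ (U := {x : X | (f₁ (q₁ x)).re < 1})
    (V := {x : X | ((-f₂) (q₂ x)).re < 1})
    (isOpen_lt (by fun_prop) continuous_const)
    (isOpen_lt (by fun_prop) continuous_const) (by
      rw [eq_univ_iff_forall]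
      intro x
      by_cases h1 : (f₁ (q₁ x)).re < 1
      · exact Or.inl h1
      · right
        change ((-f₂) (q₂ x)).re < 1
        rw [e1]
        push Not at h1
        linarith) hU₀ hV₀ hm.1 hm.2
  exact ⟨E.trans (MulEquiv.coprodCongr E1 E2)⟩

end

end Pool.Agent.Run7.h562
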