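import Pool.Agent.Run7.h562.Dir
import Pool.Agent.W327.F4.CurveFG

/-!
# The group of the generic fibre
-/

set_option autoImplicit false
set_option linter.unusedSectionVars false

open Topology Set unitInterval Polynomial

namespace Pool.Agent.Run7.h562

open Pool.Agent.Y193.FG Pool.Agent.X325.EC

attribute [instance] Cht.fin Cht.dec

/-! ### lifting -/

theorem lift_loop {E X : Type} [TopologicalSpace E] [TopologicalSpace X] {p : C(E, X)}
    (cov : IsCoveringMap p) {e₀ : E} (γ : Path e₀ e₀) (γ' : Path (p e₀) (p e₀))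
    (h : (γ.map p.continuous).Homotopic γ') :
    ∃ Γ : Path e₀ e₀, (∀ t, p (Γ t) = γ' t) ∧ γ.Homotopic Γ := by
  obtain ⟨Γ, hΓ, hΓ0⟩ := cov.exists_path_lifts γ' e₀ γ'.source
  have h1 : Γ 1 = e₀ := by
    have h2 := cov.liftPath_apply_one_eq_of_homotopicRel
      (γ₀ := (γ.map p.continuous).toContinuousMap) (γ₁ := γ'.toContinuousMap) h e₀
      (by simp) (by simp)
    have h3 : γ.toContinuousMap = cov.liftPath (γ.map p.continuous).toContinuousMap e₀ (by simp) :=
      (cov.eq_liftPath_iff' _).2 ⟨rfl, γ.source⟩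
    have h4 : Γ = cov.liftPath γ'.toContinuousMap e₀ (by simp) :=
      (cov.eq_liftPath_iff' _).2 ⟨hΓ, hΓ0⟩
    rw [h4, ← h2, ← h3]
    exact γ.target
  refine ⟨⟨Γ, hΓ0, h1⟩, fun t => congrFun hΓ t, ?_⟩
  have h5 := cov.injective_path_homotopic_map e₀ e₀
  rw [← Path.Homotopic.Quotient.eq]
  apply h5
  change Path.Homotopic.Quotient.mk (γ.map p.continuous) = Path.Homotopic.Quotient.mk _
  rw [Path.Homotopic.Quotient.eq.2 h]
  congr 1
  ext t
  exact (congrFun hΓ t).symm

/-! ### curves -/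

theorem rs_curve_fg {n : ℕ} {L : Set ℂ} (hLo : IsOpen L) (hLf : Lᶜ.Finite) (P : L → ℂ[X])
    (hn : ∀ t, (P t).natDegree = n) (hc : ∀ i, Continuous (fun t => (P t).coeff i))
    (hm : ∀ t, (P t).Monic) (hs : ∀ t θ, (P t).eval θ = 0 → (P t).derivative.eval θ ≠ 0)
    (y₀ : RS P) : Group.FG (FundamentalGroup (RS P) y₀) := by
  have hcov := rs_cov P hn hc hm hs
  refine Pool.Agent.W327.F4.curve_fg (fun q : RS P => ((RS.pr P q : L) : ℂ)) ?_ Lᶜ hLf ?_ ?_ y₀
  · exact (hLo.isOpenEmbedding_subtypeVal.isLocalHomeomorph).comp (rs_lh P hn hc hm hs)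
  · rw [compl_compl]
    intro x hx
    exact ((hcov ⟨x, hx⟩).subtypeVal_comp _ hLo).to_isEvenlyCovered_preimage
  · intro s
    by_cases hs' : s ∈ L
    · refine (rs_finite P hm ⟨s, hs'⟩).subset ?_
      intro q hq
      exact Subtype.ext hq
    · have : (fun q : RS P => ((RS.pr P q : L) : ℂ)) ⁻¹' {s} = ∅ := by
        rw [eq_empty_iff_forall_notMem]
        intro q hq
        apply hs'
        have h1 : ((RS.pr P q : L) : ℂ) = s := hq
        rw [← h1]
        exact (RS.pr P q).2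
      rw [this]
      exact finite_empty

section

variable {T : Type} [Fintype T] {X : Set (T → ℂ)} {f : MvPolynomial T ℂ} (C : Cht X f)

/-- the family of polynomials -/
noncomputable def PX (D : MvPolynomial C.σ ℂ) : Om D → ℂ[X] := fun b => C.P.map (ev b.1)

/-- the covering of the complement of a hypersurface -/
abbrev EX (D : MvPolynomial C.σ ℂ) : Type := RS (PX C D)

variable {D : MvPolynomial C.σ ℂ}
  (hD : ∀ b, MvPolynomial.eval b D ≠ 0 → MvPolynomial.eval b C.D ≠ 0)

theorem PX_deg (b : C.σ → ℂ) : (C.P.map (ev b)).natDegree = C.P.natDegree :=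
  C.hP.natDegree_map _

theorem PX_monic (b : C.σ → ℂ) : (C.P.map (ev b)).Monic := C.hP.map _

theorem PX_cont {Y : Type*} [TopologicalSpace Y] {g : Y → C.σ → ℂ} (hg : Continuous g) (i : ℕ) :
    Continuous (fun y => (C.P.map (ev (g y))).coeff i) := by
  simp only [coeff_map]
  exact (MvPolynomial.continuous_eval _).comp hg

include hD in
theorem PX_sep (b : C.σ → ℂ) (hb : MvPolynomial.eval b D ≠ 0) (θ : ℂ)
    (h : (C.P.map (ev b)).eval θ = 0) : (C.P.map (ev b)).derivative.eval θ ≠ 0 :=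
  C.sep b θ (hD b hb) (by rw [ev2_apply]; exact h)

/-- the covering map -/
noncomputable def EXp (D : MvPolynomial C.σ ℂ) : C(EX C D, Om D) := ⟨RS.pr (PX C D), rs_cont _⟩

include hD in
theorem EX_cov : IsCoveringMap (EXp C D) :=
  rs_cov (PX C D) (fun b => PX_deg C b.1) (fun i => PX_cont C continuous_subtype_val i)
    (fun b => PX_monic C b.1) (fun b θ h => PX_sep C hD b.1 (mem_Om.1 b.2) θ h)

theorem ev2_cont {κ : Type} (q : (MvPolynomial κ ℂ)[X]) {Y : Type*} [TopologicalSpace Y]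
    {v : Y → κ → ℂ} {θ : Y → ℂ} (hv : Continuous v) (hθ : Continuous θ) :
    Continuous (fun y => ev2 (v y) (θ y) q) := by
  have h1 : ∀ y, ev2 (v y) (θ y) q =
      ∑ i ∈ Finset.range (q.natDegree + 1), ev (v y) (q.coeff i) * (θ y) ^ i :=
    fun y => eval₂_eq_sum_range _ _
  simp only [h1]
  exact continuous_finsetSum _ (fun i _ =>
    ((MvPolynomial.continuous_eval _).comp hv).mul (hθ.pow i))

/-- the map to the variety -/
noncomputable def fromE : C(EX C D, X) :=
  ⟨fun q => ⟨ptt C.D C.s q.1.1.1 q.1.2, C.mem _ _ (hD _ (mem_Om.1 q.1.1.2)) (by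
    rw [ev2_apply]; exact q.2)⟩, by
    refine Continuous.subtype_mk (continuous_pi (fun i => ?_)) _
    have h1 : Continuous (fun q : EX C D => (q.1.1.1 : C.σ → ℂ)) :=
      continuous_subtype_val.comp (continuous_fst.comp continuous_subtype_val)
    refine Continuous.div ?_ ?_ (fun q => hD _ (mem_Om.1 q.1.1.2))
    · exact ev2_cont _ h1 (continuous_snd.comp continuous_subtype_val)
    · exact (MvPolynomial.continuous_eval _).comp h1⟩

/-- coordinates on the variety -/
noncomputable def ee (x : T → ℂ) : C.σ → ℂ := fun j => MvPolynomial.eval x (C.y j)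

theorem ee_cont : Continuous (ee C) :=
  continuous_pi (fun _ => MvPolynomial.continuous_eval _)

theorem eval_bind (x : T → ℂ) (D : MvPolynomial C.σ ℂ) :
    MvPolynomial.eval x (MvPolynomial.bind₁ C.y D) = MvPolynomial.eval (ee C x) D :=
  MvPolynomial.eval₂Hom_bind₁ _ _ _ _

/-- the map from the open piece -/
noncomputable def toE : C(Nzs X (MvPolynomial.bind₁ C.y D), EX C D) :=
  ⟨fun x => ⟨(⟨ee C x.1, mem_Om.2 (by rw [← eval_bind]; exact x.2.2)⟩,
      MvPolynomial.eval x.1 C.Θ), by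
      have := C.rel x.1 x.2.1
      rw [ev2_apply] at this
      exact this⟩, by
    refine Continuous.subtype_mk (Continuous.prodMk (Continuous.subtype_mk ?_ _) ?_) _
    · exact (ee_cont C).comp continuous_subtype_val
    · exact (MvPolynomial.continuous_eval _).comp continuous_subtype_val⟩

theorem from_to (x : Nzs X (MvPolynomial.bind₁ C.y D)) : (fromE C hD (toE C x)).1 = x.1 :=
  C.crd x.1 x.2.1 (hD _ (by
    have := x.2.2
    rw [Set.mem_ofPred_eq, eval_bind] at this
    exact this))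

theorem ee_from (q : EX C D) : ee C (fromE C hD q).1 = q.1.1.1 :=
  funext (fun j => C.pr1 _ _ (hD _ (mem_Om.1 q.1.1.2)) (by rw [ev2_apply]; exact q.2) j)

theorem from_mem (q : EX C D) : (fromE C hD q).1 ∈ Nzs X (MvPolynomial.bind₁ C.y D) :=
  ⟨(fromE C hD q).2, by
    rw [Set.mem_ofPred_eq, eval_bind, ee_from]
    exact mem_Om.1 q.1.1.2⟩

theorem to_from (q : EX C D) : toE C ⟨(fromE C hD q).1, from_mem C hD q⟩ = q :=
  Subtype.ext (Prod.ext (Subtype.ext (ee_from C hD q))
    (C.pr2 _ _ (hD _ (mem_Om.1 q.1.1.2)) (by rw [ev2_apply]; exact q.2)))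

/-! ### lines -/

/-- the line minus the hypersurface -/
def Ls (D : MvPolynomial C.σ ℂ) (w c : C.σ → ℂ) : Set ℂ := {z | MvPolynomial.eval (w + z • c) D ≠ 0}

/-- the family over the line -/
noncomputable def PL (D : MvPolynomial C.σ ℂ) (w c : C.σ → ℂ) : Ls C D w c → ℂ[X] :=
  fun z => C.P.map (ev (w + z.1 • c))

variable {w c : C.σ → ℂ}

/-- the map of the curve -/
noncomputable def jj (D : MvPolynomial C.σ ℂ) (w c : C.σ → ℂ) : C(RS (PL C D w c), EX C D) :=
  ⟨fun q => ⟨(⟨w + q.1.1.1 • c, mem_Om.2 q.1.1.2⟩, q.1.2), q.2⟩, by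
    refine Continuous.subtype_mk (Continuous.prodMk (Continuous.subtype_mk ?_ _) ?_) _
    · have h1 : Continuous (fun q : RS (PL C D w c) => (q.1.1.1 : ℂ)) :=
        continuous_subtype_val.comp (continuous_fst.comp continuous_subtype_val)
      exact continuous_const.add (h1.smul continuous_const)
    · exact continuous_snd.comp continuous_subtype_val⟩

include hD in
theorem curve_fg' (h0 : MvPolynomial.eval w D ≠ 0) (y₀ : RS (PL C D w c)) :
    Group.FG (FundamentalGroup (RS (PL C D w c)) y₀) := by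
  have hcl : Continuous (fun z : ℂ => w + z • c) := by fun_prop
  refine rs_curve_fg ?_ ?_ (PL C D w c) (fun z => PX_deg C _)
    (fun i => PX_cont C (hcl.comp continuous_subtype_val) i) (fun z => PX_monic C _)
    (fun z θ h => PX_sep C hD _ z.2 θ h) y₀
  · exact isOpen_ne_fun ((MvPolynomial.continuous_eval D).comp hcl) continuous_const
  · have hne : (pz D c).map (ev w) ≠ 0 := by
      intro h
      apply h0
      have := ev2_pz D c w 0
      rw [zero_smul, add_zero, ev2_apply, h, eval_zero] at this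
      exact this.symm
    refine (((pz D c).map (ev w)).roots.toFinset.finite_toSet).subset ?_
    intro z hz
    rw [Finset.mem_coe, Multiset.mem_toFinset, mem_roots hne, IsRoot, ← ev2_apply, ev2_pz]
    by_contra h
    exact hz h

include hD in
/-- **the key lemma** on loops -/
theorem keyK (hD0 : D ≠ 0)
    (hgD : ∀ b, MvPolynomial.eval b D ≠ 0 → MvPolynomial.eval b (pz D c).leadingCoeff ≠ 0) :
    ∃ δ : MvPolynomial C.σ ℂ, δ ≠ 0 ∧ ∀ (w : C.σ → ℂ) (c₀ : RS (PL C D w c)),
      c₀.1.1.1 = 0 → MvPolynomial.eval w δ ≠ 0 →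
      ∀ γ : Path (jj C D w c c₀) (jj C D w c c₀),
        ((γ.map (EXp C D).continuous).map (inc (om_sub hgD)).continuous).Homotopic
          (Path.refl _) →
        ∃ γ' : Path c₀ c₀, γ.Homotopic (γ'.map (jj C D w c).continuous) := by
  obtain ⟨δ, hδ, hZ⟩ := lemmaZ D c hD0 hgD
  refine ⟨δ, hδ, fun w c₀ hc₀ hw γ hγ => ?_⟩
  have hbase : (EXp C D (jj C D w c c₀)).1 = w := by
    change w + c₀.1.1.1 • c = w
    rw [hc₀, zero_smul, add_zero]
  obtain ⟨l, γ₁, hl, hγ₁⟩ := hZ (EXp C D (jj C D w c c₀)) (by rw [hbase]; exact hw)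
    (γ.map (EXp C D).continuous) hγ
  obtain ⟨Γ, hΓ, hγΓ⟩ := lift_loop (EX_cov C hD) γ γ₁ hγ₁
  have hΓ1 : ∀ t, (Γ t).1.1.1 = w + l t • c := by
    intro t
    have h1 : (EXp C D (Γ t)).1 = (γ₁ t).1 := congrArg Subtype.val (hΓ t)
    rw [hl, hbase] at h1
    exact h1
  have hmem : ∀ t, l t ∈ Ls C D w c := by
    intro t
    have h1 := mem_Om.1 (Γ t).1.1.2
    rw [hΓ1] at h1
    exact h1
  have hroot : ∀ t, (PL C D w c ⟨l t, hmem t⟩).eval (Γ t).1.2 = 0 := by
    intro t
    have h1 : (C.P.map (ev (Γ t).1.1.1)).eval (Γ t).1.2 = 0 := (Γ t).2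
    rw [hΓ1] at h1
    exact h1
  have hsrc : ∀ t, l t = 0 → Γ t = jj C D w c c₀ →
      (⟨(⟨l t, hmem t⟩, (Γ t).1.2), hroot t⟩ : RS (PL C D w c)) = c₀ := by
    intro t h1 h2
    apply Subtype.ext
    refine Prod.ext (Subtype.ext ?_) ?_
    · change l t = _
      rw [h1, hc₀]
    · change (Γ t).1.2 = _
      rw [h2]
      rfl
  refine ⟨⟨⟨fun t => ⟨(⟨l t, hmem t⟩, (Γ t).1.2), hroot t⟩, ?_⟩, hsrc 0 l.source Γ.source,
    hsrc 1 l.target Γ.target⟩, ?_⟩
  · refine Continuous.subtype_mk (Continuous.prodMk (Continuous.subtype_mk l.continuous _) ?_) _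
    exact continuous_snd.comp (continuous_subtype_val.comp Γ.continuous)
  · have h2 : Γ = (Path.map ⟨⟨fun t => (⟨(⟨l t, hmem t⟩, (Γ t).1.2), hroot t⟩ :
        RS (PL C D w c)), by
        refine Continuous.subtype_mk (Continuous.prodMk (Continuous.subtype_mk l.continuous _)
          ?_) _
        exact continuous_snd.comp (continuous_subtype_val.comp Γ.continuous)⟩,
        hsrc 0 l.source Γ.source, hsrc 1 l.target Γ.target⟩ (jj C D w c).continuous) := by
      ext1
      funext t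
      apply Subtype.ext
      refine Prod.ext (Subtype.ext ?_) rfl
      exact hΓ1 t
    rw [← h2]
    exact hγΓ

end

end Pool.Agent.Run7.h562
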