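import Pool.Agent.Run7.h562.FibreGrp

/-!
# The group of the generic fibre, main statements
-/

set_option autoImplicit false
set_option linter.unusedSectionVars false

open Topology Set unitInterval Polynomial

namespace Pool.Agent.Run7.h562

open Pool.Agent.Y193.FG Pool.Agent.X325.EC

theorem contr_null {V W : Type} [TopologicalSpace V] [TopologicalSpace W]
    [SimplyConnectedSpace V] (Φ : C(V, W)) {v : V} (p : Path v v) :
    (p.map Φ.continuous).Homotopic (Path.refl _) :=
  (SimplyConnectedSpace.paths_homotopic p (Path.refl v)).map Φ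

instance contrPi {κ : Type} [Fintype κ] : ContractibleSpace (κ → ℂ) :=
  RealTopologicalVectorSpace.contractibleSpace

theorem map_comp' {X Y Z : Type} [TopologicalSpace X] [TopologicalSpace Y] [TopologicalSpace Z]
    (f : C(X, Y)) (g : C(Y, Z)) (x : X) (a : FundamentalGroup X x) :
    FundamentalGroup.map g (f x) (FundamentalGroup.map f x a) =
      FundamentalGroup.map (g.comp f) x a := by
  obtain ⟨p, rfl⟩ := Path.Homotopic.Quotient.mk_surjective a
  rfl

theorem null_congr {Y : Type} [TopologicalSpace Y] {a b : Y} (p : Path a a) (q : Path b b)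
    (h : ∀ t, p t = q t) (hq : q.Homotopic (Path.refl b)) : p.Homotopic (Path.refl a) := by
  have h0 : a = b := by
    have := h 0
    rwa [p.source, q.source] at this
  subst h0
  have h1 : p = q := by ext t; exact h t
  rw [h1]
  exact hq

section

variable {T : Type} [Fintype T] {X : Set (T → ℂ)} {f : MvPolynomial T ℂ} (C : Cht X f)
  {D : MvPolynomial C.σ ℂ} (hD : ∀ b, MvPolynomial.eval b D ≠ 0 → MvPolynomial.eval b C.D ≠ 0)

theorem liftE (e₀ : EX C D) (γ : Path (fromE C hD e₀) (fromE C hD e₀))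
    (h : ∀ t, MvPolynomial.eval (γ t).1 (MvPolynomial.bind₁ C.y D) ≠ 0) :
    ∃ γE : Path e₀ e₀, γE.map (fromE C hD).continuous = γ ∧
      ∀ t, (γE t).1.1.1 = ee C (γ t).1 := by
  have hend : ∀ t, γ t = fromE C hD e₀ → toE C ⟨(γ t).1, (γ t).2, h t⟩ = e₀ := by
    intro t ht
    exact (congrArg (toE C) (Subtype.ext (by
      change (γ t).1 = (fromE C hD e₀).1
      rw [ht]))).trans (to_from C hD e₀)
  refine ⟨⟨⟨fun t => toE C ⟨(γ t).1, (γ t).2, h t⟩, ?_⟩, hend 0 γ.source, hend 1 γ.target⟩, ?_, ?_⟩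
  · exact (toE C).continuous.comp
      (Continuous.subtype_mk (continuous_subtype_val.comp γ.continuous) _)
  · ext1
    funext t
    apply Subtype.ext
    exact from_to C hD ⟨(γ t).1, (γ t).2, h t⟩
  · intro t
    rfl

theorem surjE (hX : IsSubm X) (hc : IsConnected X) (e₀ : EX C D) :
    Function.Surjective (FundamentalGroup.map (fromE C hD) e₀) := by
  intro g
  obtain ⟨p, rfl⟩ := Path.Homotopic.Quotient.mk_surjective g
  have h0 := (from_mem C hD e₀).2
  obtain ⟨q, hq, hqp⟩ := push_nz hX hc (MvPolynomial.bind₁ C.y D) h0 h0 p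
  obtain ⟨γE, hγE, -⟩ := liftE C hD e₀ q hq
  refine ⟨Path.Homotopic.Quotient.mk γE, ?_⟩
  change Path.Homotopic.Quotient.mk (γE.map (fromE C hD).continuous) = _
  rw [hγE]
  exact Path.Homotopic.Quotient.eq.2 hqp

end

/-- **finite generation** of the fundamental group of an affine manifold -/
theorem pi1_fg {T : Type} [Fintype T] {X : Set (T → ℂ)} (hX : IsSubm X) (hc : IsConnected X)
    {Sx : Set (MvPolynomial T ℂ)} (hXa : X = {x | ∀ F ∈ Sx, MvPolynomial.eval x F = 0})
    (f : MvPolynomial T ℂ) (hf : ∀ c : ℂ, ∃ x ∈ X, MvPolynomial.eval x f ≠ c) (x : X) :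
    Group.FG (FundamentalGroup X x) := by
  classical
  obtain ⟨C⟩ := exists_cht (isDomain_of_submanifold hX hc) hXa f hf
  obtain ⟨c, -, hinv⟩ := exists_dir C.D C.hD ∅
  have hpz : pz C.D c ≠ 0 := by
    intro h0
    apply C.hD
    apply MvPolynomial.funext
    intro b
    have h1 := ev2_pz C.D c b 0
    rw [h0, map_zero, zero_smul, add_zero] at h1
    rw [← h1, map_zero]
  have hlc : ∀ b, MvPolynomial.eval b (pz C.D c).leadingCoeff ≠ 0 := by
    intro b hb
    apply leadingCoeff_ne_zero.2 hpz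
    apply MvPolynomial.funext
    intro b'
    rw [hinv b' b (fun i hi => absurd hi (Finset.notMem_empty i)), hb, map_zero]
  have hD : ∀ b, MvPolynomial.eval b C.D ≠ 0 → MvPolynomial.eval b C.D ≠ 0 := fun _ h => h
  obtain ⟨δ, hδ, hK⟩ := keyK C hD (c := c) C.hD (fun b _ => hlc b)
  obtain ⟨w, hw⟩ : ∃ w, MvPolynomial.eval w (C.D * δ) ≠ 0 := by
    by_contra h
    push Not at h
    exact mul_ne_zero C.hD hδ (MvPolynomial.funext (fun x => by rw [h x, map_zero]))
  rw [map_mul] at hw
  have hw1 := left_ne_zero_of_mul hw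
  have hw2 := right_ne_zero_of_mul hw
  have hL0 : (0 : ℂ) ∈ Ls C C.D w c := by
    change MvPolynomial.eval (w + (0 : ℂ) • c) C.D ≠ 0
    rwa [zero_smul, add_zero]
  obtain ⟨θ₀, hθ₀⟩ : ∃ θ, (PL C C.D w c ⟨0, hL0⟩).eval θ = 0 := by
    refine IsAlgClosed.exists_root _ ?_
    have h1 : (PL C C.D w c ⟨0, hL0⟩).natDegree = C.P.natDegree := PX_deg C _
    intro h2
    have h3 : (PL C C.D w c ⟨0, hL0⟩).natDegree = 0 := natDegree_eq_of_degree_eq_some h2
    rw [h1] at h3
    have := C.hdeg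
    omega
  let c₀ : RS (PL C C.D w c) := ⟨(⟨0, hL0⟩, θ₀), hθ₀⟩
  have hfg := curve_fg' C hD (c := c) hw1 c₀
  have hs1 : Function.Surjective (FundamentalGroup.map (jj C C.D w c) c₀) := by
    intro g
    obtain ⟨γ, rfl⟩ := Path.Homotopic.Quotient.mk_surjective g
    obtain ⟨γ', hγ'⟩ := hK w c₀ rfl hw2 γ (by
      let Φ : C(C.σ → ℂ, Om (pz C.D c).leadingCoeff) :=
        ⟨fun x => ⟨x, mem_Om.2 (hlc x)⟩, Continuous.subtype_mk continuous_id _⟩
      have h1 := contr_null Φ ((γ.map (EXp C C.D).continuous).map continuous_subtype_val)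
      exact h1)
    exact ⟨Path.Homotopic.Quotient.mk γ', (Path.Homotopic.Quotient.eq.2 hγ').symm⟩
  have hfgE : Group.FG (FundamentalGroup (EX C C.D) (jj C C.D w c c₀)) :=
    Group.fg_of_surjective hs1
  have hfgX : Group.FG (FundamentalGroup X (fromE C hD (jj C C.D w c c₀))) :=
    Group.fg_of_surjective (surjE C hD hX hc _)
  have := pathConnected_of hX hc
  exact Group.fg_of_surjective (f := (FundamentalGroup.fundamentalGroupMulEquivOfPathConnected
    (fromE C hD (jj C C.D w c c₀)) x).toMonoidHom) (MulEquiv.surjective _)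

/-- the function given by a polynomial -/
noncomputable def fc {T : Type} (X : Set (T → ℂ)) (f : MvPolynomial T ℂ) : C(X, ℂ) :=
  ⟨fun x => MvPolynomial.eval x.1 f,
    (MvPolynomial.continuous_eval f).comp continuous_subtype_val⟩

/-- the polynomial function with one variable free -/
theorem finite_slice {κ : Type} [DecidableEq κ] (H : MvPolynomial κ ℂ) (s₀ : κ) (x : κ → ℂ)
    (hx : MvPolynomial.eval x H ≠ 0) :
    {t : ℂ | MvPolynomial.eval (Function.update x s₀ t) H = 0}.Finite := by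
  let h₁ : ℂ[X] := MvPolynomial.aeval (fun i => if i = s₀ then X else C (x i)) H
  have h2 : ∀ t, h₁.eval t = MvPolynomial.eval (Function.update x s₀ t) H := by
    intro t
    have h3 := MvPolynomial.comp_aeval_apply (φ := (Polynomial.aeval t : ℂ[X] →ₐ[ℂ] ℂ))
      (fun i => if i = s₀ then (X : ℂ[X]) else C (x i)) H
    rw [← coe_aeval_eq_eval]
    change Polynomial.aeval t (MvPolynomial.aeval _ H) = _
    rw [h3, MvPolynomial.aeval_def, MvPolynomial.eval, ← MvPolynomial.coe_eval₂Hom]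
    congr 2
    funext i
    by_cases hi : i = s₀
    · subst hi
      simp
    · simp [hi]
  have h4 : h₁ ≠ 0 := by
    intro h0
    apply hx
    have h5 := h2 (x s₀)
    rw [h0, eval_zero, Function.update_eq_self] at h5
    exact h5.symm
  refine (h₁.roots.toFinset.finite_toSet).subset ?_
  intro t ht
  rw [Finset.mem_coe, Multiset.mem_toFinset, mem_roots h4, IsRoot, h2]
  exact ht

/-- **the group of the generic fibre** -/
theorem fibre_group {T : Type} [Fintype T] {X : Set (T → ℂ)} (hX : IsSubm X) (hc : IsConnected X)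
    {Sx : Set (MvPolynomial T ℂ)} (hXa : X = {x | ∀ F ∈ Sx, MvPolynomial.eval x F = 0})
    (f : MvPolynomial T ℂ) (hf : ∀ c : ℂ, ∃ x ∈ X, MvPolynomial.eval x f ≠ c)
    (Tv : Set ℂ) (hTv : Tv.Infinite) :
    ∃ (B : Set ℂ) (x₀ : X) (N : Subgroup (FundamentalGroup X x₀)), B.Finite ∧
      fc X f x₀ ∈ Tv ∧ fc X f x₀ ∉ B ∧ N.Normal ∧ N.FG ∧
      (∀ (γ : Path x₀ x₀) (hγ : ∀ t, (γ.map (fc X f).continuous) t ∈ Bᶜ),
        (cod (γ.map (fc X f).continuous) hγ).Homotopic (Path.refl _) →
        (Path.Homotopic.Quotient.mk γ : FundamentalGroup X x₀) ∈ N) ∧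
      ∀ n ∈ N, ∃ γ : Path x₀ x₀, (∀ t, fc X f (γ t) = fc X f x₀) ∧
        (Path.Homotopic.Quotient.mk γ : FundamentalGroup X x₀) = n := by
  classical
  obtain ⟨C⟩ := exists_cht (isDomain_of_submanifold hX hc) hXa f hf
  obtain ⟨c, hc0, hinv⟩ := exists_dir C.D C.hD {C.s₀}
  set g := (pz C.D c).leadingCoeff with hg
  have hinv' : ∀ b b' : C.σ → ℂ, b C.s₀ = b' C.s₀ →
      MvPolynomial.eval b g = MvPolynomial.eval b' g := fun b b' h =>
    hinv b b' (fun i hi => by rw [Finset.mem_singleton.1 hi]; exact h)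
  have hcs : c C.s₀ = 0 := hc0 _ (Finset.mem_singleton_self _)
  have hpz : pz C.D c ≠ 0 := by
    intro h0
    apply C.hD
    apply MvPolynomial.funext
    intro b
    have h1 := ev2_pz C.D c b 0
    rw [h0, map_zero, zero_smul, add_zero] at h1
    rw [← h1, map_zero]
  have hg0 : g ≠ 0 := leadingCoeff_ne_zero.2 hpz
  obtain ⟨bg, hbg⟩ : ∃ b, MvPolynomial.eval b g ≠ 0 := by
    by_contra h
    push Not at h
    exact hg0 (MvPolynomial.funext (fun x => by rw [h x, map_zero]))
  set D := C.D * g with hDdef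
  have hD0 : D ≠ 0 := mul_ne_zero C.hD hg0
  have hlead : (pz D c).leadingCoeff = g * g := lead_mul C.D c {C.s₀} hc0 hinv
  have hD : ∀ b, MvPolynomial.eval b D ≠ 0 → MvPolynomial.eval b C.D ≠ 0 := by
    intro b hb
    rw [hDdef, map_mul] at hb
    exact left_ne_zero_of_mul hb
  have hDg : ∀ b, MvPolynomial.eval b D ≠ 0 → MvPolynomial.eval b g ≠ 0 := by
    intro b hb
    rw [hDdef, map_mul] at hb
    exact right_ne_zero_of_mul hb
  have hgD : ∀ b, MvPolynomial.eval b D ≠ 0 →
      MvPolynomial.eval b (pz D c).leadingCoeff ≠ 0 := by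
    intro b hb
    rw [hlead, map_mul]
    exact mul_ne_zero (hDg b hb) (hDg b hb)
  obtain ⟨δ, hδ, hK⟩ := keyK C hD (c := c) hD0 hgD
  -- bad values
  let B : Set ℂ := {t | MvPolynomial.eval (Function.update bg C.s₀ t) g = 0}
  have hB : B.Finite := finite_slice g C.s₀ bg hbg
  have hBg : ∀ b : C.σ → ℂ, MvPolynomial.eval b g = 0 ↔ b C.s₀ ∈ B := by
    intro b
    change _ ↔ MvPolynomial.eval _ g = 0
    rw [hinv' b (Function.update bg C.s₀ (b C.s₀)) (by rw [Function.update_self])]
  have hes : ∀ x : X, ee C x.1 C.s₀ = fc X f x := fun x => C.hf x.1 x.2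
  -- base point
  obtain ⟨w', hw'⟩ : ∃ w, MvPolynomial.eval w (D * δ) ≠ 0 := by
    by_contra h
    push Not at h
    exact mul_ne_zero hD0 hδ (MvPolynomial.funext (fun x => by rw [h x, map_zero]))
  obtain ⟨t₀, ht₀, ht₀'⟩ := hTv.exists_notMem_finite ((finite_slice (D * δ) C.s₀ w' hw').union hB)
  rw [Set.mem_union, not_or] at ht₀'
  set w := Function.update w' C.s₀ t₀ with hwdef
  have hwt : w C.s₀ = t₀ := Function.update_self _ _ _
  have hw : MvPolynomial.eval w (D * δ) ≠ 0 := ht₀'.1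
  rw [map_mul] at hw
  have hw1 := left_ne_zero_of_mul hw
  have hw2 := right_ne_zero_of_mul hw
  have hL0 : (0 : ℂ) ∈ Ls C D w c := by
    change MvPolynomial.eval (w + (0 : ℂ) • c) D ≠ 0
    rwa [zero_smul, add_zero]
  obtain ⟨θ₀, hθ₀⟩ : ∃ θ, (PL C D w c ⟨0, hL0⟩).eval θ = 0 := by
    refine IsAlgClosed.exists_root _ ?_
    have h1 : (PL C D w c ⟨0, hL0⟩).natDegree = C.P.natDegree := PX_deg C _
    intro h2
    have h3 : (PL C D w c ⟨0, hL0⟩).natDegree = 0 := natDegree_eq_of_degree_eq_some h2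
    rw [h1] at h3
    have := C.hdeg
    omega
  let c₀ : RS (PL C D w c) := ⟨(⟨0, hL0⟩, θ₀), hθ₀⟩
  set e₀ : EX C D := jj C D w c c₀ with he₀
  set x₀ : X := fromE C hD e₀ with hx₀
  have hfib : ∀ q : RS (PL C D w c), fc X f (fromE C hD (jj C D w c q)) = t₀ := by
    intro q
    rw [← hes, ee_from]
    change w C.s₀ + q.1.1.1 • c C.s₀ = t₀
    rw [hcs, smul_zero, add_zero, hwt]
  have hfx : fc X f x₀ = t₀ := hfib c₀
  have hfg := curve_fg' C hD (c := c) hw1 c₀
  let φ : C(RS (PL C D w c), X) := (fromE C hD).comp (jj C D w c)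
  -- loops in the curve are trivial in the base
  have htriv : ∀ γ : Path c₀ c₀, (((γ.map (jj C D w c).continuous).map
      (EXp C D).continuous).map (inc (om_sub hgD)).continuous).Homotopic (Path.refl _) := by
    intro γ
    have hin : ∀ z : ℂ, MvPolynomial.eval (w + z • c) (pz D c).leadingCoeff ≠ 0 := by
      intro z
      rw [hlead, map_mul]
      have h1 : MvPolynomial.eval (w + z • c) g = MvPolynomial.eval w g := by
        apply hinv'
        rw [Pi.add_apply, Pi.smul_apply, hcs, smul_zero, add_zero]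
      rw [h1]
      exact mul_ne_zero (hDg w hw1) (hDg w hw1)
    let Φ : C(ℂ, Om (pz D c).leadingCoeff) :=
      ⟨fun z => ⟨w + z • c, mem_Om.2 (hin z)⟩, Continuous.subtype_mk (by fun_prop) _⟩
    let Ψ : C(RS (PL C D w c), ℂ) := ⟨fun q => q.1.1.1,
      continuous_subtype_val.comp (continuous_fst.comp continuous_subtype_val)⟩
    have : SimplyConnectedSpace ℂ := inferInstance
    exact contr_null Φ (γ.map Ψ.continuous)
  refine ⟨B, x₀, (FundamentalGroup.map φ c₀).range, hB, by rw [hfx]; exact ht₀, by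
    rw [hfx]; exact ht₀'.2, ⟨?_⟩, ?_, ?_, ?_⟩
  · -- normality
    rintro _ ⟨n, rfl⟩ a
    obtain ⟨γt, rfl⟩ := Path.Homotopic.Quotient.mk_surjective n
    obtain ⟨a', ha'⟩ := surjE C hD hX hc e₀ a
    let m : FundamentalGroup (EX C D) e₀ := FundamentalGroup.map (jj C D w c) c₀
      (Path.Homotopic.Quotient.mk γt)
    let k : FundamentalGroup (EX C D) e₀ := a' * m * a'⁻¹
    obtain ⟨κ₁, hκ₁⟩ := Path.Homotopic.Quotient.mk_surjective k
    let Θ : FundamentalGroup (EX C D) e₀ →* FundamentalGroup (Om (pz D c).leadingCoeff)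
        ((inc (om_sub hgD)) (EXp C D e₀)) :=
      FundamentalGroup.map ((inc (om_sub hgD)).comp (EXp C D)) e₀
    have hm : Θ m = 1 := by
      change Path.Homotopic.Quotient.mk (((γt.map (jj C D w c).continuous).map
        (EXp C D).continuous).map (inc (om_sub hgD)).continuous) = _
      rw [Path.Homotopic.Quotient.eq.2 (htriv γt)]
      rfl
    have hk1 : Θ k = 1 := by
      rw [map_mul, map_mul, hm, mul_one, ← map_mul, mul_inv_cancel, map_one]
    obtain ⟨γ', hγ'⟩ := hK w c₀ rfl hw2 κ₁ (by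
      rw [← Path.Homotopic.Quotient.eq]
      have h3 : Θ (Path.Homotopic.Quotient.mk κ₁) = 1 := by rw [← hk1, ← hκ₁]
      exact h3)
    refine ⟨Path.Homotopic.Quotient.mk γ', ?_⟩
    have h4 : FundamentalGroup.map φ c₀ (Path.Homotopic.Quotient.mk γ') =
        FundamentalGroup.map (fromE C hD) e₀ k := by
      rw [← hκ₁, ← Path.Homotopic.Quotient.eq.2 hγ'.symm]
      rfl
    rw [h4]
    change FundamentalGroup.map (fromE C hD) e₀ (a' * m * a'⁻¹) = _
    rw [map_mul, map_mul, map_inv, ha']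
    rfl
  · -- finite generation
    have : Group.FG (FundamentalGroup.map φ c₀).range := Group.fg_of_surjective
      (FundamentalGroup.map φ c₀).rangeRestrict_surjective
    exact (Group.fg_iff_subgroup_fg _).1 this
  · -- loops over the complement of the bad values
    intro γ hγ hnull
    have hU : ∀ x : X, MvPolynomial.eval x.1 (MvPolynomial.bind₁ C.y g) ≠ 0 ↔
        fc X f x ∈ Bᶜ := by
      intro x
      rw [eval_bind, Ne, hBg, hes]
      rfl
    set XU := Nzs X (MvPolynomial.bind₁ C.y g) with hXU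
    have hx₀B : fc X f x₀ ∈ Bᶜ := by rw [hfx]; exact ht₀'.2
    have hXUc : IsConnected XU := nzs_conn hX hc _ ⟨x₀.1, x₀.2, (hU x₀).2 hx₀B⟩
    let xU : XU := ⟨x₀.1, x₀.2, (hU x₀).2 hx₀B⟩
    let γU : Path xU xU :=
      { toFun := fun t => ⟨(γ t).1, (γ t).2, (hU (γ t)).2 (hγ t)⟩
        continuous_toFun := Continuous.subtype_mk (continuous_subtype_val.comp γ.continuous) _
        source' := Subtype.ext (by change (γ 0).1 = x₀.1; rw [γ.source])
        target' := Subtype.ext (by change (γ 1).1 = x₀.1; rw [γ.target]) }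
    have h0 : MvPolynomial.eval xU.1 (MvPolynomial.bind₁ C.y D) ≠ 0 := (from_mem C hD e₀).2
    obtain ⟨γ₁, hγ₁, hγ₁U⟩ := push_nz (nzs_subm hX _) hXUc (MvPolynomial.bind₁ C.y D) h0 h0 γU
    -- the path in `X`
    have hγX : ((γ₁.map (inc (nzs_sub X _)).continuous : Path x₀ x₀)).Homotopic γ :=
      hγ₁U.map (inc (nzs_sub X _))
    obtain ⟨γE, hγE, hγE2⟩ := liftE C hD e₀ (γ₁.map (inc (nzs_sub X _)).continuous) hγ₁
    -- null-homotopic in the base
    have hBc : ∀ x : XU, fc X f (inc (nzs_sub X _) x) ∈ Bᶜ := fun x =>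
      (hU (inc (nzs_sub X _) x)).1 x.2.2
    let fU : C(XU, (Bᶜ : Set ℂ)) := ⟨fun x => ⟨fc X f (inc (nzs_sub X _) x), hBc x⟩,
      Continuous.subtype_mk ((fc X f).continuous.comp (inc (nzs_sub X _)).continuous) _⟩
    have hn1 : (γ₁.map fU.continuous).Homotopic (Path.refl _) :=
      (hγ₁U.map fU).trans hnull
    have hupd : ∀ (t : (Bᶜ : Set ℂ)) (v : C.σ → ℂ),
        MvPolynomial.eval (Function.update v C.s₀ t.1) (pz D c).leadingCoeff ≠ 0 := by
      intro t v
      rw [hlead, map_mul]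
      have h1 : MvPolynomial.eval (Function.update v C.s₀ t.1) g ≠ 0 := by
        rw [Ne, hBg, Function.update_self]
        exact t.2
      exact mul_ne_zero h1 h1
    let Ψ : C((Bᶜ : Set ℂ) × (C.σ → ℂ), Om (pz D c).leadingCoeff) :=
      ⟨fun x => ⟨Function.update x.2 C.s₀ x.1.1, mem_Om.2 (hupd x.1 x.2)⟩, by
        refine Continuous.subtype_mk ?_ _
        exact continuous_snd.update C.s₀ (continuous_subtype_val.comp continuous_fst)⟩
    let eU : C(XU, C.σ → ℂ) := ⟨fun x => ee C x.1, (ee_cont C).comp continuous_subtype_val⟩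
    obtain ⟨γ', hγ'⟩ := hK w c₀ rfl hw2 γE (by
      have h3 : ((γ₁.map fU.continuous).prod (γ₁.map eU.continuous)).Homotopic
          ((Path.refl _).prod (Path.refl _)) := by
        obtain ⟨H1⟩ := hn1
        obtain ⟨H2⟩ := SimplyConnectedSpace.paths_homotopic (γ₁.map eU.continuous)
          (Path.refl _)
        exact ⟨Path.Homotopic.prodHomotopy H1 H2⟩
      have h4 := h3.map Ψ
      refine null_congr _ (((γ₁.map fU.continuous).prod (γ₁.map eU.continuous)).map Ψ.continuous)
        (fun t => ?_) h4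
      apply Subtype.ext
      have h5 : ee C (γ₁ t).1 C.s₀ = fc X f (inc (nzs_sub X _) (γ₁ t)) :=
        hes (inc (nzs_sub X _) (γ₁ t))
      change (γE t).1.1.1 = Function.update (ee C (γ₁ t).1) C.s₀
        (fc X f (inc (nzs_sub X _) (γ₁ t)))
      rw [← h5, Function.update_eq_self]
      exact hγE2 t)
    refine ⟨Path.Homotopic.Quotient.mk γ', ?_⟩
    change Path.Homotopic.Quotient.mk ((γ'.map (jj C D w c).continuous).map
      (fromE C hD).continuous) = _
    have h7 : Path.Homotopic.Quotient.mk ((γ'.map (jj C D w c).continuous).map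
        (fromE C hD).continuous) = Path.Homotopic.Quotient.mk (γE.map (fromE C hD).continuous) :=
      Path.Homotopic.Quotient.eq.2 ((hγ'.symm).map (fromE C hD))
    exact h7.trans ((congrArg Path.Homotopic.Quotient.mk hγE).trans
      (Path.Homotopic.Quotient.eq.2 hγX))
  · rintro _ ⟨n, rfl⟩
    obtain ⟨γt, rfl⟩ := Path.Homotopic.Quotient.mk_surjective n
    refine ⟨γt.map φ.continuous, fun t => ?_, rfl⟩
    rw [hfx]
    exact hfib (γt t)

end Pool.Agent.Run7.h562
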