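import Pool.Agent.Run7.h562.Asm1

/-!
# Units
-/

set_option autoImplicit false
set_option linter.unusedSectionVars false

open Topology Set unitInterval

namespace Pool.Agent.Run7.h562

open Pool.Agent.Y193.FG Monoid

/-- a loop on which a nonconstant polynomial has a nonzero winding number -/
theorem wind_loop {T : Type} [Fintype T] {X : Set (T → ℂ)} (hX : IsSubm X) (hc : IsConnected X)
    {Sx : Set (MvPolynomial T ℂ)} (hXa : X = {x | ∀ F ∈ Sx, MvPolynomial.eval x F = 0})
    (f : MvPolynomial T ℂ) (hf : ∀ c : ℂ, ∃ x ∈ X, MvPolynomial.eval x f ≠ c) :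
    ∃ (x : X) (γ : Path x x) (a : ℂ) (k : ℤ) (η : Path a (a + 2 * Real.pi * Complex.I * k)),
      k ≠ 0 ∧ ∀ t, Complex.exp (η t) = fc X f (γ t) := by
  classical
  obtain ⟨C⟩ := exists_cht (isDomain_of_submanifold hX hc) hXa f hf
  have hD : ∀ b, MvPolynomial.eval b C.D ≠ 0 → MvPolynomial.eval b C.D ≠ 0 := fun _ h => h
  obtain ⟨w, hw⟩ : ∃ w, MvPolynomial.eval w C.D ≠ 0 := by
    by_contra h
    push Not at h
    exact C.hD (MvPolynomial.funext (fun x => by rw [h x, map_zero]))
  have hfin := finite_slice C.D C.s₀ w hw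
  obtain ⟨r, hr, hrZ⟩ := (Set.Ioi_infinite (0 : ℝ)).exists_notMem_finite (hfin.image norm)
  have hr0 : (0 : ℝ) < r := hr
  -- the circle
  let z : ℝ → ℂ := fun s => Complex.exp ((Real.log r : ℂ) + 2 * Real.pi * Complex.I * s)
  have hz : Continuous z := by fun_prop
  have hznorm : ∀ s, ‖z s‖ = r := by
    intro s
    change ‖Complex.exp ((Real.log r : ℂ) + 2 * Real.pi * Complex.I * s)‖ = r
    rw [Complex.norm_exp]
    have h1 : ((Real.log r : ℂ) + 2 * Real.pi * Complex.I * s).re = Real.log r := by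
      simp
    rw [h1, Real.exp_log hr0]
  have hmem : ∀ s, MvPolynomial.eval (Function.update w C.s₀ (z s)) C.D ≠ 0 := by
    intro s h
    exact hrZ ⟨z s, h, hznorm s⟩
  let κ : C(ℝ, Om C.D) := ⟨fun s => ⟨Function.update w C.s₀ (z s), mem_Om.2 (hmem s)⟩, by
    refine Continuous.subtype_mk ?_ _
    exact continuous_const.update C.s₀ hz⟩
  obtain ⟨θ₀, hθ₀⟩ : ∃ θ, (PX C C.D (κ 0)).eval θ = 0 := by
    refine IsAlgClosed.exists_root _ ?_
    have h1 : (PX C C.D (κ 0)).natDegree = C.P.natDegree := PX_deg C _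
    intro h2
    have h3 : (PX C C.D (κ 0)).natDegree = 0 := Polynomial.natDegree_eq_of_degree_eq_some h2
    rw [h1] at h3
    have := C.hdeg
    omega
  let e₀ : EX C C.D := ⟨(κ 0, θ₀), hθ₀⟩
  obtain ⟨Γ, ⟨-, hΓ⟩, -⟩ := (EX_cov C hD).existsUnique_continuousMap_lifts κ (0 : ℝ) e₀ rfl
  have hΓ' : ∀ s, EXp C C.D (Γ s) = κ s := fun s => congrFun hΓ s
  have hper : ∀ m : ℕ, κ (m : ℝ) = κ 0 := by
    intro m
    apply Subtype.ext
    change Function.update w C.s₀ (z m) = Function.update w C.s₀ (z 0)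
    congr 1
    change Complex.exp _ = Complex.exp _
    rw [Complex.exp_eq_exp_iff_exists_int]
    exact ⟨m, by push_cast; ring⟩
  obtain ⟨m, -, m', -, hmm, hΓm⟩ := (Set.infinite_univ (α := ℕ)).exists_ne_map_eq_of_mapsTo
    (f := fun m : ℕ => Γ (m : ℝ)) (t := RS.pr (PX C C.D) ⁻¹' {κ 0})
    (fun m _ => by
      change EXp C C.D (Γ (m : ℝ)) = κ 0
      rw [hΓ', hper])
    (rs_finite (PX C C.D) (fun b => PX_monic C b.1) (κ 0))
  have hΓm' : Γ (m : ℝ) = Γ (m' : ℝ) := hΓm
  let γE : Path (Γ (m : ℝ)) (Γ (m : ℝ)) :=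
    { toFun := fun t => Γ ((m : ℝ) + t * ((m' : ℝ) - m))
      continuous_toFun := by fun_prop
      source' := by simp
      target' := by simp [hΓm'] }
  have hval : ∀ t, fc X f (fromE C hD (γE t)) = z ((m : ℝ) + t * ((m' : ℝ) - m)) := by
    intro t
    have h1 : ee C (fromE C hD (γE t)).1 C.s₀ = fc X f (fromE C hD (γE t)) :=
      C.hf _ (fromE C hD (γE t)).2
    rw [← h1, ee_from]
    have h2 : (γE t).1.1.1 = Function.update w C.s₀ (z ((m : ℝ) + t * ((m' : ℝ) - m))) :=
      congrArg Subtype.val (hΓ' ((m : ℝ) + t * ((m' : ℝ) - m)))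
    rw [h2, Function.update_self]
  refine ⟨fromE C hD (Γ (m : ℝ)), γE.map (fromE C hD).continuous,
    (Real.log r : ℂ) + 2 * Real.pi * Complex.I * m, (m' : ℤ) - (m : ℤ),
    { toFun := fun t => (Real.log r : ℂ) + 2 * Real.pi * Complex.I *
        (((m : ℝ) + t * ((m' : ℝ) - m) : ℝ) : ℂ)
      continuous_toFun := by fun_prop
      source' := by simp
      target' := by
        simp only [Set.Icc.coe_one]
        push_cast
        ring }, ?_, ?_⟩
  · intro h
    apply hmm
    omega
  · intro t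
    exact (hval t).symm

section

variable {Y : Type} [TopologicalSpace Y] (F : C(Y, ℂ))

/-- group elements and winding numbers -/
def Rw (z : Y) (g : FundamentalGroup Y z) (n : ℤ) : Prop :=
  ∃ γ : Path z z, (Path.Homotopic.Quotient.mk γ : FundamentalGroup Y z) = g ∧
    ∃ (a : ℂ) (η : Path a (a + 2 * Real.pi * Complex.I * n)),
      ∀ t, Complex.exp (η t) = F (γ t)

theorem rw_mul {z : Y} {g g' : FundamentalGroup Y z} {n n' : ℤ} (h : Rw F z g n)
    (h' : Rw F z g' n') : Rw F z (g' * g) (n + n') := by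
  obtain ⟨γ, rfl, a, η, hη⟩ := h
  obtain ⟨γ', rfl, a', η', hη'⟩ := h'
  have hper : Complex.exp (a + 2 * Real.pi * Complex.I * n - a') = 1 := by
    have h1 := hη 1
    have h2 := hη' 0
    rw [η.target, γ.target] at h1
    rw [η'.source, γ'.source] at h2
    rw [Complex.exp_sub, h1, h2, div_self]
    rw [← h2]
    exact Complex.exp_ne_zero _
  let c : ℂ := a + 2 * Real.pi * Complex.I * n - a'
  have hc0 : a + 2 * Real.pi * Complex.I * n = a' + c := by
    change _ = a' + (a + 2 * Real.pi * Complex.I * n - a')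
    ring
  have hc1 : a + 2 * Real.pi * Complex.I * ((n + n' : ℤ) : ℂ) =
      (a' + 2 * Real.pi * Complex.I * n') + c := by
    change _ = _ + (a + 2 * Real.pi * Complex.I * n - a')
    push_cast
    ring
  let η'' : Path (a + 2 * Real.pi * Complex.I * n)
      (a + 2 * Real.pi * Complex.I * ((n + n' : ℤ) : ℂ)) :=
    (η'.map (f := fun z => z + c) (by fun_prop)).cast hc0 hc1
  have e2 : ∀ t, Complex.exp (η'' t) = F (γ' t) := fun t => by
    change Complex.exp (η' t + c) = _
    rw [Complex.exp_add, hper, mul_one, hη']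
  refine ⟨γ.trans γ', rfl, a, η.trans η'', fun t => ?_⟩
  rw [Path.trans_apply, Path.trans_apply]
  split_ifs
  · exact hη _
  · exact e2 _

theorem rw_pow {z : Y} {g : FundamentalGroup Y z} {n : ℤ} (h : Rw F z g n) (N : ℕ) :
    Rw F z (g ^ (N + 1)) ((N + 1 : ℕ) * n) := by
  induction N with
  | zero => simpa using h
  | succ N ih =>
    have h1 := rw_mul F ih h
    rw [← pow_succ'] at h1
    convert h1 using 1
    push_cast
    ring

theorem rw_conj {z x : Y} (δ : Path z x) (hδ : ∀ t, F (δ t) ≠ 0) (γ : Path x x) {a : ℂ} {n : ℤ}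
    (η : Path a (a + 2 * Real.pi * Complex.I * n)) (hη : ∀ t, Complex.exp (η t) = F (γ t)) :
    Rw F z (Path.Homotopic.Quotient.mk (δ.trans (γ.trans δ.symm))) n := by
  obtain ⟨h, hh⟩ := exists_log (δ.map F.continuous) (b := 0) hδ
  have hh' : ∀ t, Complex.exp (h t) = F (δ t) := fun t => by
    have := hh t
    rwa [sub_zero] at this
  let ηδ : Path (h 0) (h 1) := ⟨h, rfl, rfl⟩
  let c : ℂ := h 1 - a
  have hc : Complex.exp c = 1 := by
    change Complex.exp (h 1 - a) = 1
    have h1 := hη 0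
    rw [η.source, γ.source] at h1
    rw [Complex.exp_sub, hh', δ.target, h1, div_self]
    rw [← h1]
    exact Complex.exp_ne_zero _
  let η₁ : Path (h 1) (h 1 + 2 * Real.pi * Complex.I * n) :=
    (η.map (f := fun z => z + c) (by fun_prop)).cast (by
      change h 1 = a + (h 1 - a)
      ring) (by
      change h 1 + 2 * Real.pi * Complex.I * n = (a + 2 * Real.pi * Complex.I * n) + (h 1 - a)
      ring)
  let η₂ : Path (h 1 + 2 * Real.pi * Complex.I * n) (h 0 + 2 * Real.pi * Complex.I * n) :=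
    ηδ.symm.map (f := fun z => z + 2 * Real.pi * Complex.I * n) (by fun_prop)
  have e1 : ∀ t, Complex.exp (η₁ t) = F (γ t) := fun t => by
    change Complex.exp (η t + c) = _
    rw [Complex.exp_add, hc, mul_one, hη]
  have e2 : ∀ t, Complex.exp (η₂ t) = F (δ.symm t) := fun t => by
    change Complex.exp (h (σ t) + 2 * Real.pi * Complex.I * n) = F (δ (σ t))
    rw [Complex.exp_add, exp_period, mul_one, hh']
  refine ⟨_, rfl, h 0, ηδ.trans (η₁.trans η₂), fun t => ?_⟩
  rw [Path.trans_apply, Path.trans_apply]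
  split_ifs with h1
  · exact hh' _
  · rw [Path.trans_apply, Path.trans_apply]
    split_ifs with h2
    · exact e1 _
    · exact e2 _

theorem rw_fib (hF : ∀ y, F y ≠ 0) {z : Y} {g : FundamentalGroup Y z} {n : ℤ} (h : Rw F z g n)
    (hg : g ∈ fibG F z) : n = 0 := by
  obtain ⟨γ, hγ, a, η, hη⟩ := h
  obtain ⟨γ', hγ', hγ'g⟩ := (mem_fibG _ _ _).1 hg
  have hh : γ.Homotopic γ' := by
    rw [← Path.Homotopic.Quotient.eq]
    exact hγ.trans hγ'g.symm
  let F' : C(Y, {z : ℂ // z ≠ 0}) := ⟨fun y => ⟨F y, hF y⟩, Continuous.subtype_mk F.continuous _⟩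
  have h1 := hh.map F'
  have ha : (F' z) = ⟨Complex.exp a, Complex.exp_ne_zero a⟩ := by
    apply Subtype.ext
    change F z = Complex.exp a
    have := hη 0
    rw [η.source, γ.source] at this
    exact this.symm
  have cov := Complex.isCoveringMap_exp
  have s0 : (γ.map F'.continuous).toContinuousMap 0 =
      (⟨Complex.exp a, Complex.exp_ne_zero a⟩ : {z : ℂ // z ≠ 0}) := by
    change F' (γ 0) = _
    rw [γ.source, ha]
  have s1 : (γ'.map F'.continuous).toContinuousMap 0 =
      (⟨Complex.exp a, Complex.exp_ne_zero a⟩ : {z : ℂ // z ≠ 0}) := by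
    change F' (γ' 0) = _
    rw [γ'.source, ha]
  have h2 := cov.liftPath_apply_one_eq_of_homotopicRel
      (γ₀ := (γ.map F'.continuous).toContinuousMap)
      (γ₁ := (γ'.map F'.continuous).toContinuousMap) h1 a s0 s1
  have h3 : η.toContinuousMap = cov.liftPath (γ.map F'.continuous).toContinuousMap a s0 :=
    (cov.eq_liftPath_iff' _).2 ⟨by
      funext t
      exact Subtype.ext (hη t), η.source⟩
  have h4 : ContinuousMap.const I a =
      cov.liftPath (γ'.map F'.continuous).toContinuousMap a s1 :=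
    (cov.eq_liftPath_iff' _).2 ⟨by
      funext t
      apply Subtype.ext
      change Complex.exp a = F (γ' t)
      rw [hγ']
      have := hη 0
      rw [η.source, γ.source] at this
      exact this, rfl⟩
  rw [← h3, ← h4] at h2
  have h5 : η 1 = a := h2
  rw [η.target] at h5
  have h6 : 2 * (Real.pi : ℂ) * Complex.I * (n : ℂ) = 0 := by linear_combination h5
  have h7 : 2 * (Real.pi : ℂ) * Complex.I ≠ 0 := Complex.two_pi_I_ne_zero
  exact_mod_cast (mul_eq_zero.1 h6).resolve_left h7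

end

/-- fibres of a unit -/
theorem unit_index {T : Type} [Fintype T] {X : Set (T → ℂ)} (hX : IsSubm X) (hc : IsConnected X)
    {Sx : Set (MvPolynomial T ℂ)} (hXa : X = {x | ∀ F ∈ Sx, MvPolynomial.eval x F = 0})
    (f : MvPolynomial T ℂ) (hf : ∀ c : ℂ, ∃ x ∈ X, MvPolynomial.eval x f ≠ c)
    (h0 : ∀ x : X, fc X f x ≠ 0) (z : X) : (fibG (fc X f) z).index = 0 := by
  by_contra hne
  obtain ⟨x, γ, a, k, η, hk, hη⟩ := wind_loop hX hc hXa f hf
  have hpc : PathConnectedSpace X := pathConnected_of hX hc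
  obtain ⟨δ⟩ := PathConnectedSpace.joined z x
  have h1 := rw_conj (fc X f) δ (fun t => h0 _) γ η hη
  obtain ⟨N, hN, -, hNm⟩ := Subgroup.exists_pow_mem_of_index_ne_zero hne
    (Path.Homotopic.Quotient.mk (δ.trans (γ.trans δ.symm)) : FundamentalGroup X z)
  obtain ⟨N', rfl⟩ : ∃ N', N = N' + 1 := ⟨N - 1, by omega⟩
  have h2 := rw_fib (fc X f) h0 (rw_pow (fc X f) h1 N') hNm
  rcases mul_eq_zero.1 h2 with h3 | h3
  · have : ((N' + 1 : ℕ) : ℤ) ≠ 0 := by positivity
    exact this h3
  · exact hk h3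

end Pool.Agent.Run7.h562
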