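import Pool.Agent.Run7.h562.BaseD
import Pool.Agent.Run7.h562.Wind

/-!
# Free products of cyclic groups are quasi-projective; the main theorem
-/

set_option autoImplicit false
set_option linter.unusedSectionVars false

open Topology Set unitInterval

namespace Pool.Agent.Run7.h562

open Pool.Agent.Y193.FG Monoid

theorem model_cyc (G : Type) [Group G] (h : IsCyclic G) : Nonempty (Mdl G) := by
  rcases finite_or_infinite G with hf | hf
  · obtain ⟨n, hn⟩ : ∃ n, Nat.card G = n := ⟨_, rfl⟩
    rcases n with _ | _ | k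
    · exact absurd hn Nat.card_pos.ne'
    · have hs : Subsingleton G := (Nat.card_eq_one_iff_unique.1 hn).1
      obtain ⟨M⟩ := model_triv
      exact ⟨M.cast
        { toFun := fun _ => 1
          invFun := fun _ => 1
          left_inv := fun _ => rfl
          right_inv := fun _ => Subsingleton.elim _ _
          map_mul' := fun _ _ => (mul_one 1).symm }⟩
    · obtain ⟨M⟩ := model_fin k
      have hc : Nat.card (rootsOfUnity (k + 2) ℂ) = k + 2 := Complex.card_rootsOfUnity (k + 2)
      exact ⟨M.cast (mulEquivOfCyclicCardEq (hc.trans hn.symm))⟩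
  · obtain ⟨M⟩ := model_int
    exact ⟨M.cast (mulEquivOfCyclicCardEq (by
      rw [Nat.card_eq_zero_of_infinite, Nat.card_eq_zero_of_infinite]))⟩

theorem model_of_fpc {G : Type} {i : Group G} (h : FPC G i) : Nonempty (Mdl G) := by
  induction h with
  | cyc G h => exact model_cyc G h
  | coprod G A B hA hB e ihA ihB =>
    obtain ⟨M₁⟩ := ihA
    obtain ⟨M₂⟩ := ihB
    obtain ⟨M⟩ := M₁.coprod M₂
    exact ⟨M.cast e.symm⟩

theorem qp_of_model {G : Type} [Group G] (M : Mdl G) :
    ∃ (n : ℕ) (S : Set (Fin n → ℂ)),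
      (∃ P : Set (MvPolynomial (Fin n) ℂ),
        S = {z : Fin n → ℂ | ∀ f ∈ P, MvPolynomial.eval z f = 0}) ∧ FSm S ∧
      ∃ x : S, Nonempty (FundamentalGroup S x ≃* G) := by
  classical
  let e : M.T ≃ Fin (Fintype.card M.T) := Fintype.equivFin M.T
  let S : Set (Fin (Fintype.card M.T) → ℂ) := {z | z ∘ e ∈ M.S}
  let h : M.S ≃ₜ S :=
    { toFun := fun z => ⟨z.1 ∘ e.symm, by
        change (z.1 ∘ e.symm) ∘ e ∈ M.S
        rw [Function.comp_assoc, e.symm_comp_self, Function.comp_id]
        exact z.2⟩
      invFun := fun z => ⟨z.1 ∘ e, z.2⟩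
      left_inv := fun z => by
        apply Subtype.ext
        change (z.1 ∘ e.symm) ∘ e = z.1
        rw [Function.comp_assoc, e.symm_comp_self, Function.comp_id]
      right_inv := fun z => by
        apply Subtype.ext
        change (z.1 ∘ e) ∘ e.symm = z.1
        rw [Function.comp_assoc, e.self_comp_symm, Function.comp_id]
      continuous_toFun := by
        refine Continuous.subtype_mk (continuous_pi (fun i => ?_)) _
        exact (continuous_apply _).comp continuous_subtype_val
      continuous_invFun := by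
        refine Continuous.subtype_mk (continuous_pi (fun i => ?_)) _
        exact (continuous_apply _).comp continuous_subtype_val }
  obtain ⟨E⟩ := pi1_homeo h M.x
  refine ⟨Fintype.card M.T, S, ⟨MvPolynomial.rename e '' M.P, ?_⟩,
    fsm_of_sm (fun p hp => (M.sm p hp).sm) e, h M.x, ⟨E.symm.trans M.e⟩⟩
  ext z
  change z ∘ e ∈ M.S ↔ _
  rw [M.hP]
  constructor
  · rintro hz _ ⟨F, hF, rfl⟩
    rw [MvPolynomial.eval_rename]
    exact hz F hF
  · intro hz F hF
    rw [← MvPolynomial.eval_rename]
    exact hz _ ⟨F, hF, rfl⟩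

/-- **main theorem** -/
theorem main {n : ℕ} {S : Set (Fin n → ℂ)} (hS : FSm S) (hc : IsConnected S)
    {P : Set (MvPolynomial (Fin n) ℂ)}
    (hP : S = {z | ∀ F ∈ P, MvPolynomial.eval z F = 0}) (f : MvPolynomial (Fin n) ℂ)
    (hf : ∀ c : ℂ, ∃ z ∈ S, MvPolynomial.eval z f ≠ c)
    (h : (∀ z ∈ S, MvPolynomial.eval z f ≠ 0) ∨
      {t : ℂ | ∀ z : S, fc S f z = t → (fibG (fc S f) z).index = 0}.Infinite)
    (x : S) {A B : Type} [Group A] [Group B] [Nontrivial A] [Nontrivial B]
    (e : FundamentalGroup S x ≃* Coprod A B) : FPC A inferInstance ∧ FPC B inferInstance := by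
  have hsub := subm_of_fsm hS
  rcases h with h | h
  · exact factors_fpc hsub hc hP f hf univ Set.infinite_univ
      (fun z _ => unit_index hsub hc hP f hf (fun x => h x.1 x.2) z) x e
  · exact factors_fpc hsub hc hP f hf _ h (fun z hz => hz z rfl) x e

end Pool.Agent.Run7.h562
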