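import Pool.Agent.Run7.h562.Base
import Pool.Agent.X325.EC.Cov

/-!
# The covering space of the roots of a family of separable polynomials
-/

set_option autoImplicit false
set_option linter.unusedSectionVars false

open Topology Set unitInterval Polynomial

namespace Pool.Agent.Run7.h562

open Pool.Agent.Y193.FG Pool.Agent.X325.EC

section

variable {B : Type} [TopologicalSpace B] {n : ℕ} (P : B → ℂ[X])

/-- the space of roots -/
abbrev RS : Type := {q : B × ℂ // (P q.1).eval q.2 = 0}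

/-- the projection -/
def RS.pr (q : RS P) : B := q.1.1

variable (hn : ∀ t, (P t).natDegree = n) (hc : ∀ i, Continuous (fun t => (P t).coeff i))

include hn hc in
theorem rs_cont_eval : Continuous (fun q : B × ℂ => (P q.1).eval q.2) := by
  have : (fun q : B × ℂ => (P q.1).eval q.2) =
      fun q : B × ℂ => ∑ i ∈ Finset.range (n + 1), (P q.1).coeff i * q.2 ^ i := by
    funext q
    exact eval_sum (hn _) _
  rw [this]
  refine continuous_finsetSum _ (fun i _ => ?_)
  exact ((hc i).comp continuous_fst).mul (continuous_snd.pow i)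

include hc in
theorem rs_cont_dd : Continuous (fun q : B × ℂ × ℂ => dd n (P q.1) q.2.1 q.2.2) := by
  unfold dd
  refine continuous_finsetSum _ (fun i _ => ?_)
  refine ((hc i).comp continuous_fst).mul ?_
  fun_prop

/-- a bound for the roots -/
noncomputable def bd (n : ℕ) (Q : ℂ[X]) : ℝ := 1 + ∑ i ∈ Finset.range n, ‖Q.coeff i‖

include hc in
theorem bd_cont : Continuous (fun b => bd n (P b)) :=
  continuous_const.add (continuous_finsetSum _ (fun i _ => (hc i).norm))

theorem le_bd {Q : ℂ[X]} (hm : Q.Monic) (hn : Q.natDegree = n) {θ : ℂ} (h : Q.eval θ = 0) :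
    ‖θ‖ ≤ bd n Q := by
  by_contra hlt
  push Not at hlt
  unfold bd at hlt
  set C := ∑ i ∈ Finset.range n, ‖Q.coeff i‖ with hC
  have hC0 : 0 ≤ C := Finset.sum_nonneg (fun i _ => norm_nonneg _)
  have h1 : 1 < ‖θ‖ := by linarith
  have h2 := eval_sum hn θ
  rw [h, Finset.sum_range_succ, show Q.coeff n = 1 by
    rw [← hn]; exact hm.coeff_natDegree, one_mul] at h2
  rcases Nat.eq_zero_or_pos n with h0 | hpos
  · subst h0
    simp at h2
  have h3 : ‖θ‖ ^ n ≤ C * ‖θ‖ ^ (n - 1) := by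
    have : θ ^ n = - ∑ i ∈ Finset.range n, Q.coeff i * θ ^ i := by
      linear_combination -h2
    calc ‖θ‖ ^ n = ‖∑ i ∈ Finset.range n, Q.coeff i * θ ^ i‖ := by
          rw [← norm_pow, this, norm_neg]
      _ ≤ ∑ i ∈ Finset.range n, ‖Q.coeff i‖ * ‖θ‖ ^ (n - 1) := by
          refine (norm_sum_le _ _).trans (Finset.sum_le_sum (fun i hi => ?_))
          rw [norm_mul, norm_pow]
          refine mul_le_mul_of_nonneg_left ?_ (norm_nonneg _)
          exact pow_le_pow_right₀ h1.le (by rw [Finset.mem_range] at hi; omega)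
      _ ≤ C * ‖θ‖ ^ (n - 1) := by
          rw [← Finset.sum_mul]
  have h4 : ‖θ‖ ^ n = ‖θ‖ * ‖θ‖ ^ (n - 1) := by
    rw [← pow_succ']
    congr 1
    omega
  rw [h4] at h3
  have := le_of_mul_le_mul_right h3 (by positivity)
  linarith

include hn hc in
theorem rs_open (hm : ∀ t, (P t).Monic) : IsOpenMap (RS.pr P) := by
  rw [isOpenMap_iff_nhds_le]
  rintro ⟨⟨t₀, θ₀⟩, h0⟩
  intro S hS
  rw [Filter.mem_map, nhds_subtype_eq_comap, Filter.mem_comap] at hS
  obtain ⟨T, hT, hTS⟩ := hS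
  rw [nhds_prod_eq, Filter.mem_prod_iff] at hT
  obtain ⟨A, hA, B, hB, hAB⟩ := hT
  obtain ⟨ε, hε, hball⟩ := Metric.mem_nhds_iff.mp hB
  have hcont : Continuous (fun t => (P t).eval θ₀) :=
    (rs_cont_eval P hn hc).comp (continuous_id.prodMk continuous_const)
  have hev : ∀ᶠ t in 𝓝 t₀, ‖(P t).eval θ₀‖ < ε ^ n := by
    have h1 : ‖(P t₀).eval θ₀‖ < ε ^ n := by
      simp only at h0
      rw [h0, norm_zero]
      positivity
    exact hcont.norm.continuousAt.eventually_lt continuousAt_const h1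
  filter_upwards [hev, hA] with t ht htA
  obtain ⟨θ, h1, h2⟩ := exists_root_near (hm t) (hn t) θ₀ hε ht
  exact hTS (show (⟨(t, θ), h1⟩ : RS P) ∈ _ from hAB ⟨htA, hball h2⟩)

include hn hc in
theorem rs_inj (hs : ∀ t θ, (P t).eval θ = 0 → (P t).derivative.eval θ ≠ 0) (q : RS P) :
    ∃ U : Set (RS P), IsOpen U ∧ q ∈ U ∧ InjOn (RS.pr P) U := by
  obtain ⟨⟨t₀, θ₀⟩, h0⟩ := q
  have h1 : dd n (P t₀) θ₀ θ₀ ≠ 0 := by
    rw [dd_self (hn t₀)]
    exact hs _ _ h0
  have hopen : IsOpen {q : B × ℂ × ℂ | dd n (P q.1) q.2.1 q.2.2 ≠ 0} :=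
    isOpen_ne_fun (rs_cont_dd P hc) continuous_const
  have hmem := hopen.mem_nhds (show ((t₀, θ₀, θ₀) : B × ℂ × ℂ) ∈ _ from h1)
  rw [nhds_prod_eq, Filter.mem_prod_iff] at hmem
  obtain ⟨A, hA, B', hB, hAB⟩ := hmem
  rw [nhds_prod_eq, Filter.mem_prod_self_iff] at hB
  obtain ⟨C, hC, hCB⟩ := hB
  obtain ⟨A', hA', hA'o, hA't⟩ := mem_nhds_iff.mp hA
  obtain ⟨C', hC', hC'o, hC't⟩ := mem_nhds_iff.mp hC
  refine ⟨Subtype.val ⁻¹' (A' ×ˢ C'), (hA'o.prod hC'o).preimage continuous_subtype_val,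
    ⟨hA't, hC't⟩, ?_⟩
  rintro ⟨⟨t, θ⟩, h⟩ ⟨ht, hθ⟩ ⟨⟨t', θ'⟩, h'⟩ ⟨ht', hθ'⟩ heq
  have heq' : t = t' := heq
  simp only at h h' ht hθ ht' hθ'
  subst heq'
  have h2 := hAB (show ((t, θ, θ') : B × ℂ × ℂ) ∈ A ×ˢ B' from
    ⟨hA' ht, hCB ⟨hC' hθ, hC' hθ'⟩⟩)
  have h3 := dd_mul (hn t) θ θ'
  rw [h, h', sub_zero, mul_eq_zero] at h3
  rcases h3 with h3 | h3
  · exact absurd h3 h2
  · have : θ = θ' := sub_eq_zero.mp h3
    subst this
    rfl

theorem rs_cont : Continuous (RS.pr P) := continuous_fst.comp continuous_subtype_val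

include hn hc in
theorem rs_lh (hm : ∀ t, (P t).Monic)
    (hs : ∀ t θ, (P t).eval θ = 0 → (P t).derivative.eval θ ≠ 0) : IsLocalHomeomorph (RS.pr P) := by
  rw [isLocalHomeomorph_iff_isOpenEmbedding_restrict]
  intro q
  obtain ⟨U, hU, hq, hinj⟩ := rs_inj P hn hc hs q
  refine ⟨U, hU.mem_nhds hq, ?_⟩
  refine IsOpenEmbedding.of_continuous_injective_isOpenMap ?_ ?_ ?_
  · exact (rs_cont P).comp continuous_subtype_val
  · intro a b hab
    exact Subtype.ext (hinj a.2 b.2 hab)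
  · exact (rs_open P hn hc hm).comp hU.isOpenMap_subtype_val

include hn hc in
theorem rs_closed (hm : ∀ t, (P t).Monic) : IsClosedMap (RS.pr P) := by
  intro C hC
  have hcl : IsClosed {q : B × ℂ | (P q.1).eval q.2 = 0} :=
    isClosed_eq (rs_cont_eval P hn hc) continuous_const
  have hC' : IsClosed (Subtype.val '' C : Set (B × ℂ)) :=
    hcl.isClosedEmbedding_subtypeVal.isClosedMap C hC
  rw [← isOpen_compl_iff, isOpen_iff_mem_nhds]
  intro b₀ hb₀
  set M : ℝ := bd n (P b₀) + 1 with hM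
  have hev : ∀ᶠ b in 𝓝 b₀, bd n (P b) < M :=
    (bd_cont P hc).continuousAt.eventually_lt continuousAt_const (by rw [hM]; linarith)
  obtain ⟨u, v, hu, hv, hbu, hKv, huv⟩ := generalized_tube_lemma (s := {b₀})
    isCompact_singleton (isCompact_closedBall (0 : ℂ) M) (hC'.isOpen_compl) (by
      rintro ⟨b, θ⟩ ⟨hb, hθ⟩ ⟨q, hq, hqe⟩
      apply hb₀
      refine ⟨q, hq, ?_⟩
      have h1 : q.1.1 = b := congrArg Prod.fst hqe
      have h2 : b = b₀ := hb
      change q.1.1 = b₀
      rw [h1, h2])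
  filter_upwards [hu.mem_nhds (hbu rfl), hev] with b hb hbM
  rintro ⟨q, hq, rfl⟩
  have h1 : q.1.2 ∈ Metric.closedBall (0 : ℂ) M := by
    rw [mem_closedBall_zero_iff]
    exact (le_bd (hm _) (hn _) q.2).trans hbM.le
  exact huv (show q.1 ∈ u ×ˢ v from ⟨hb, hKv h1⟩) ⟨q, hq, rfl⟩

theorem rs_finite (hm : ∀ t, (P t).Monic) (b : B) : (RS.pr P ⁻¹' {b}).Finite := by
  have h1 : ((P b).roots.toFinset : Set ℂ).Finite := Finset.finite_toSet _
  refine Set.Finite.of_injOn (f := fun q : RS P => q.1.2) (t := ((P b).roots.toFinset : Set ℂ))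
    ?_ ?_ h1
  · intro q hq
    have hq' : q.1.1 = b := hq
    simp only [Finset.mem_coe, Multiset.mem_toFinset]
    rw [mem_roots (hm b).ne_zero, IsRoot, ← hq']
    exact q.2
  · intro q hq q' hq' h
    have h1 : q.1.1 = b := hq
    have h2 : q'.1.1 = b := hq'
    exact Subtype.ext (Prod.ext (h1.trans h2.symm) h)

include hn hc in
theorem rs_cov [T2Space B] (hm : ∀ t, (P t).Monic)
    (hs : ∀ t θ, (P t).eval θ = 0 → (P t).derivative.eval θ ≠ 0) : IsCoveringMap (RS.pr P) := by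
  rw [isCoveringMap_iff_isCoveringMapOn_univ]
  refine (rs_closed P hn hc hm).isCoveringMapOn_of_isLocalHomeomorphOn
    (fun x _ => rs_finite P hm x) ?_
  rw [preimage_univ, ← isLocalHomeomorph_iff_isLocalHomeomorphOn_univ]
  exact rs_lh P hn hc hm hs

end

/-! ### root families over an interval -/

section

variable {n : ℕ} (P : I → ℂ[X])

theorem root_family (hn : ∀ t, (P t).natDegree = n)
    (hc : ∀ i, Continuous (fun t => (P t).coeff i)) (hm : ∀ t, (P t).Monic)
    (hs : ∀ t θ, (P t).eval θ = 0 → (P t).derivative.eval θ ≠ 0) :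
    ∃ e : ℝ → Fin n → ℂ, Continuous e ∧ (∀ s ∈ Icc (0 : ℝ) 1, Function.Injective (e s)) ∧
      ∀ (s : I) (z : ℂ), (P s).eval z = 0 ↔ ∃ i, z = e s i := by
  classical
  have hsep : ∀ t, (P t).Separable := by
    intro t
    have h1 : ∀ θ : ℂ, ¬ (aeval θ (P t) = 0 ∧ aeval θ (derivative (P t)) = 0) := by
      rintro θ ⟨h1, h2⟩
      rw [coe_aeval_eq_eval] at h1 h2
      exact hs t θ h1 h2
    rw [Polynomial.Separable, ← EuclideanDomain.gcd_isUnit_iff]
    by_contra h
    have hne : EuclideanDomain.gcd (P t) (derivative (P t)) ≠ 0 := fun h0 =>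
      (hm t).ne_zero ((EuclideanDomain.gcd_eq_zero_iff.1 h0).1)
    obtain ⟨θ, hθ⟩ := IsAlgClosed.exists_root _ (fun h0 => h (isUnit_iff_degree_eq_zero.2 h0))
    refine h1 θ ⟨?_, ?_⟩
    · rw [coe_aeval_eq_eval]
      exact eval_eq_zero_of_dvd_of_eval_eq_zero (EuclideanDomain.gcd_dvd_left _ _) hθ
    · rw [coe_aeval_eq_eval]
      exact eval_eq_zero_of_dvd_of_eval_eq_zero (EuclideanDomain.gcd_dvd_right _ _) hθ
  have hcard : ∀ t, (P t).roots.toFinset.card = n := by
    intro t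
    rw [Multiset.toFinset_card_of_nodup (nodup_roots (hsep t)),
      ← (IsAlgClosed.splits (P t)).natDegree_eq_card_roots, hn]
  let r : Fin n → ℂ := fun i => ((P 0).roots.toFinset.equivFinOfCardEq (hcard 0)).symm i
  have hr0 : ∀ i, (P 0).eval (r i) = 0 := by
    intro i
    have := (((P 0).roots.toFinset.equivFinOfCardEq (hcard 0)).symm i).2
    rw [Multiset.mem_toFinset, mem_roots (hm 0).ne_zero] at this
    exact this
  have hri : Function.Injective r := fun i j h =>
    ((P 0).roots.toFinset.equivFinOfCardEq (hcard 0)).symm.injective (Subtype.ext h)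
  choose θ hθ0 hθ using fun i => root_lift P hn hc hm hs (r i) (hr0 i)
  have hcov := rs_cov P hn hc hm hs
  have hdis : ∀ t, Function.Injective (fun i => θ i t) := by
    intro t i j h
    apply hri
    rw [← hθ0 i, ← hθ0 j]
    let Γ : Fin n → C(I, RS P) := fun i => ⟨fun t => ⟨(t, θ i t), hθ i t⟩, by
      exact Continuous.subtype_mk (continuous_id.prodMk (θ i).continuous) _⟩
    have h1 := hcov.eq_of_comp_eq (Γ i).continuous (Γ j).continuous rfl t (by
      apply Subtype.ext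
      exact Prod.ext rfl h)
    have h2 := congrFun h1 0
    exact congrArg (fun q : RS P => q.1.2) h2
  refine ⟨fun s i => IccExtend zero_le_one (θ i) s, ?_, ?_, ?_⟩
  · exact continuous_pi (fun i => (θ i).continuous.Icc_extend')
  · intro s hs i j h
    simp only [IccExtend_of_mem _ _ hs] at h
    exact hdis ⟨s, hs⟩ h
  · intro s z
    have h1 : (Finset.univ.image (fun i => θ i s)) = (P s).roots.toFinset := by
      apply Finset.eq_of_subset_of_card_le
      · intro x hx
        rw [Finset.mem_image] at hx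
        obtain ⟨i, -, rfl⟩ := hx
        rw [Multiset.mem_toFinset, mem_roots (hm s).ne_zero]
        exact hθ i s
      · rw [hcard, Finset.card_image_of_injective _ (hdis s), Finset.card_univ, Fintype.card_fin]
    have h2 : (P s).eval z = 0 ↔ z ∈ (P s).roots.toFinset := by
      rw [Multiset.mem_toFinset, mem_roots (hm s).ne_zero]
      rfl
    rw [h2, ← h1, Finset.mem_image]
    constructor
    · rintro ⟨i, -, rfl⟩
      exact ⟨i, by simp only [IccExtend_val]⟩
    · rintro ⟨i, hi⟩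
      refine ⟨i, Finset.mem_univ _, ?_⟩
      simp only [IccExtend_val] at hi
      exact hi.symm

end

/-! ### complements of points -/

section

variable {m : ℕ} {ρ : ℝ}

/-- complement of finitely many points -/
def Cp (e : Fin m → ℂ) : Set ℂ := {w | ∀ i, w ≠ e i}

theorem triv_Cp {e : ℝ → Fin m → ℂ} (he : Continuous e) {a b : ℝ} (hρ : 0 < ρ)
    (hs : Sep ρ (e a)) (h : ∀ s ∈ Icc a b, Near ρ (e a) (e s)) :
    Triv (fun s => Cp (e s)) a b := by
  refine ⟨fun x => hh ρ (e a) (e x.1) x.2, fun x => hinv ρ (e a) (e x.1) x.2, ?_, ?_,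
    fun s hs' w hw i hi => ?_,
    fun s hs' w hw => ⟨fun i hi => ?_, hh_hinv hρ (h s hs') w⟩,
    fun w hw => ⟨hh_self _ _ _, hinv_self hρ _ _⟩⟩
  · intro t₀ _
    exact continuousWithinAt_hh (he.comp continuous_fst).continuousWithinAt
      continuous_snd.continuousWithinAt
  · intro t₀ ht₀
    exact continuousWithinAt_hinv hρ (fun t ht => h t.1 ht.1) ht₀
      (he.comp continuous_fst).continuousWithinAt continuous_snd.continuousWithinAt
  · apply hw i
    have h1 := hh_anti hρ (h s hs') w (e a i)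
    have hi' : hh ρ (e a) (e s) w = e s i := hi
    rw [hh_point hρ hs, hi', sub_self, norm_zero, mul_zero] at h1
    exact sub_eq_zero.1 (norm_le_zero_iff.1 h1)
  · apply hw i
    have hi' : hinv ρ (e a) (e s) w = e a i := hi
    have h1 := hh_hinv hρ (h s hs') w
    rw [hi', hh_point hρ hs] at h1
    exact h1.symm

theorem lifts_Cp {e : ℝ → Fin m → ℂ} (he : Continuous e)
    (hi : ∀ s ∈ Icc (0 : ℝ) 1, Function.Injective (e s)) {p p' : ℝ → ℂ} (hp : Continuous p)
    (hp' : Continuous p') (hpF : ∀ s ∈ Icc (0 : ℝ) 1, p s ∈ Cp (e s))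
    (hpF' : ∀ s ∈ Icc (0 : ℝ) 1, p' s ∈ Cp (e s)) : Lifts (fun s => Cp (e s)) p p' 0 1 := by
  obtain ⟨ρ, hρ, hs⟩ := exists_sep he hi
  obtain ⟨δ, hδ, hn⟩ := exists_near he hρ
  refine lifts_of_triv hδ (fun a b ha hab hb hd => ?_) hp hp' hpF hpF'
  refine triv_Cp he hρ (hs a ⟨ha, hab.trans hb⟩) (fun s hs' => ?_)
  refine hn a ⟨ha, hab.trans hb⟩ s ⟨ha.trans hs'.1, hs'.2.trans hb⟩ ?_
  rw [abs_of_nonneg (by linarith [hs'.1])]
  linarith [hs'.2]

theorem Cp_joined (e : Fin m → ℂ) {a b : ℂ} (ha : a ∈ Cp e) (hb : b ∈ Cp e) :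
    JoinedIn (Cp e) a b := by
  have h1 : Cp e = (Set.range e)ᶜ := by
    ext w
    simp only [Cp, Set.mem_ofPred_eq, Set.mem_compl_iff, Set.mem_range, not_exists]
    exact ⟨fun h i hi => h i hi.symm, fun h i hi => h i hi.symm⟩
  have h2 : IsPathConnected (Set.range e)ᶜ := by
    refine Set.Countable.isPathConnected_compl_of_one_lt_rank (E := ℂ) ?_ (finite_range e).countable
    rw [Complex.rank_real_complex]
    exact_mod_cast one_lt_two
  rw [← h1] at h2
  exact h2.joinedIn a ha b hb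

end

end Pool.Agent.Run7.h562
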