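import Pool.Agent.Run7.h562.Base

/-!
# Zariski open pieces of submanifolds
-/

set_option autoImplicit false
set_option linter.unusedSectionVars false

open Topology Set unitInterval

namespace Pool.Agent.Run7.h562

open Pool.Agent.Y193.FG

section

variable {T : Type} [Fintype T] {X : Set (T → ℂ)}

theorem subm_inter {O' : Set (T → ℂ)} (hX : IsSubm X) (hO' : IsOpen O') : IsSubm (X ∩ O') := by
  rintro x ⟨hx, hxO'⟩
  obtain ⟨E, i1, i2, V, O, φ, ψ, hV, hO, hxO, hφd, hψd, hφ, hl⟩ := hX x hx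
  refine ⟨E, i1, i2, V ∩ φ ⁻¹' O', O ∩ O', φ, ψ, ?_, hO.inter hO', ⟨hxO, hxO'⟩,
    hφd.mono inter_subset_left, hψd.mono inter_subset_left, ?_, fun v hv => hl v hv.1⟩
  · exact hφd.continuousOn.isOpen_inter_preimage hV hO'
  · ext y
    constructor
    · rintro ⟨v, ⟨hv1, hv2⟩, rfl⟩
      have h1 : φ v ∈ X ∩ O := by rw [← hφ]; exact ⟨v, hv1, rfl⟩
      exact ⟨⟨h1.1, hv2⟩, h1.2, hv2⟩
    · rintro ⟨⟨hy1, hy2⟩, hy3, -⟩
      have h1 : y ∈ φ '' V := by rw [hφ]; exact ⟨hy1, hy3⟩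
      obtain ⟨v, hv, rfl⟩ := h1
      exact ⟨v, ⟨hv, hy2⟩, rfl⟩

theorem subm_univ : IsSubm (univ : Set (T → ℂ)) := by
  intro x _
  exact ⟨T → ℂ, inferInstance, inferInstance, univ, univ, id, id, isOpen_univ, isOpen_univ,
    trivial, differentiableOn_id, differentiableOn_id, by simp, fun _ _ => rfl⟩

/-- a Zariski open piece -/
def Nzs (X : Set (T → ℂ)) (h : MvPolynomial T ℂ) : Set (T → ℂ) :=
  X ∩ {x | MvPolynomial.eval x h ≠ 0}

theorem isOpen_nz (h : MvPolynomial T ℂ) : IsOpen {x : T → ℂ | MvPolynomial.eval x h ≠ 0} :=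
  isOpen_ne_fun (MvPolynomial.continuous_eval h) continuous_const

theorem nzs_subm (hX : IsSubm X) (h : MvPolynomial T ℂ) : IsSubm (Nzs X h) :=
  subm_inter hX (isOpen_nz h)

theorem push_nz (hX : IsSubm X) (hc : IsConnected X) (h : MvPolynomial T ℂ) {a b : X}
    (ha : MvPolynomial.eval a.1 h ≠ 0) (hb : MvPolynomial.eval b.1 h ≠ 0) (p : Path a b) :
    ∃ q : Path a b, (∀ t, MvPolynomial.eval (q t).1 h ≠ 0) ∧ q.Homotopic p :=
  push (goodBasis hX hc.isPreconnected (differentiable_eval h) ha) ha hb p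

theorem nzs_conn (hX : IsSubm X) (hc : IsConnected X) (h : MvPolynomial T ℂ)
    (h0 : ∃ x ∈ X, MvPolynomial.eval x h ≠ 0) : IsConnected (Nzs X h) := by
  obtain ⟨x₀, hx₀, h0⟩ := h0
  have := pathConnected_of hX hc
  have hp : IsPathConnected (Nzs X h) := by
    refine ⟨x₀, ⟨hx₀, h0⟩, fun {y} hy => ?_⟩
    obtain ⟨p⟩ := PathConnectedSpace.joined (⟨x₀, hx₀⟩ : X) ⟨y, hy.1⟩
    obtain ⟨q, hq, -⟩ := push_nz hX hc h (a := ⟨x₀, hx₀⟩) (b := ⟨y, hy.1⟩) h0 hy.2 p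
    exact ⟨q.map continuous_subtype_val, fun t => ⟨(q t).2, hq t⟩⟩
  exact hp.isConnected

/-- the inclusion -/
def inc {A B : Set (T → ℂ)} (h : A ⊆ B) : C(A, B) := ⟨Set.inclusion h, continuous_inclusion h⟩

theorem nzs_sub (X : Set (T → ℂ)) (h : MvPolynomial T ℂ) : Nzs X h ⊆ X := inter_subset_left

theorem univ_conn : IsConnected (univ : Set (T → ℂ)) := isConnected_univ

end

end Pool.Agent.Run7.h562
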