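import Pool.Agent.Run7.h562.Sqf
import Pool.Agent.Run7.h562.RootCov
import Pool.Agent.Run7.h562.Subm

/-!
# Loops in complements of hypersurfaces and generic lines
-/

set_option autoImplicit false
set_option linter.unusedSectionVars false

open Topology Set unitInterval Polynomial

namespace Pool.Agent.Run7.h562

open Pool.Agent.Y193.FG Pool.Agent.X325.EC

section
variable {κ : Type}

/-- the polynomial along the lines in direction `c` -/
noncomputable def pz (D : MvPolynomial κ ℂ) (c : κ → ℂ) : (MvPolynomial κ ℂ)[X] :=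
  MvPolynomial.aeval (fun i => C (MvPolynomial.X i) + C (MvPolynomial.C (c i)) * X) D

theorem ev2_pz (D : MvPolynomial κ ℂ) (c b : κ → ℂ) (z : ℂ) :
    ev2 b z (pz D c) = MvPolynomial.eval (b + z • c) D := by
  unfold pz
  induction D using MvPolynomial.induction_on with
  | C a =>
    rw [MvPolynomial.aeval_C, MvPolynomial.eval_C]
    have : algebraMap ℂ (MvPolynomial κ ℂ)[X] a = C (MvPolynomial.C a) := rfl
    rw [this, ev2_C]
    exact MvPolynomial.eval_C a
  | add p q hp hq => rw [map_add, map_add, map_add, hp, hq]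
  | mul_X p i hp =>
    rw [map_mul, map_mul, map_mul, hp, MvPolynomial.aeval_X, MvPolynomial.eval_X, map_add,
      map_mul, ev2_C, ev2_C, ev2_X]
    have h1 : ev b (MvPolynomial.X i) = b i := MvPolynomial.eval_X _
    have h2 : ev b (MvPolynomial.C (c i)) = c i := MvPolynomial.eval_C _
    rw [h1, h2, mul_comm (c i) z]
    rfl

/-- normalization -/
noncomputable def nrm (Q : (MvPolynomial κ ℂ)[X]) (b : κ → ℂ) : ℂ[X] :=
  C (MvPolynomial.eval b Q.leadingCoeff)⁻¹ * Q.map (ev b)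

variable {Q : (MvPolynomial κ ℂ)[X]} {b : κ → ℂ}

theorem nrm_coeff (i : ℕ) : (nrm Q b).coeff i =
    (MvPolynomial.eval b Q.leadingCoeff)⁻¹ * MvPolynomial.eval b (Q.coeff i) := by
  rw [nrm, coeff_C_mul, coeff_map]

theorem nrm_monic (h : MvPolynomial.eval b Q.leadingCoeff ≠ 0) : (nrm Q b).Monic := by
  apply monic_C_mul_of_mul_leadingCoeff_eq_one
  rw [leadingCoeff_map_of_leadingCoeff_ne_zero (ev b) h]
  exact inv_mul_cancel₀ h

theorem nrm_deg (h : MvPolynomial.eval b Q.leadingCoeff ≠ 0) :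
    (nrm Q b).natDegree = Q.natDegree := by
  rw [nrm, natDegree_C_mul (inv_ne_zero h), natDegree_map_of_leadingCoeff_ne_zero (ev b) h]

theorem nrm_eval (h : MvPolynomial.eval b Q.leadingCoeff ≠ 0) (z : ℂ) :
    (nrm Q b).eval z = 0 ↔ (Q.map (ev b)).eval z = 0 := by
  rw [nrm, eval_mul, eval_C, mul_eq_zero]
  exact ⟨fun h' => h'.resolve_left (inv_ne_zero h), Or.inr⟩

theorem nrm_deriv (h : MvPolynomial.eval b Q.leadingCoeff ≠ 0) (z : ℂ)
    (hd : (derivative (Q.map (ev b))).eval z ≠ 0) : (derivative (nrm Q b)).eval z ≠ 0 := by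
  rw [nrm, derivative_C_mul, eval_mul, eval_C]
  exact mul_ne_zero (inv_ne_zero h) hd

theorem nrm_cont (Q : (MvPolynomial κ ℂ)[X]) {Y : Type*} [TopologicalSpace Y] {f : Y → κ → ℂ}
    (hf : Continuous f) (h : ∀ y, MvPolynomial.eval (f y) Q.leadingCoeff ≠ 0) (i : ℕ) :
    Continuous (fun y => (nrm Q (f y)).coeff i) := by
  simp only [nrm_coeff]
  exact (((MvPolynomial.continuous_eval _).comp hf).inv₀ h).mul
    ((MvPolynomial.continuous_eval _).comp hf)

end

section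
variable {κ : Type} [Fintype κ]

/-- the complement of a hypersurface -/
abbrev Om (D : MvPolynomial κ ℂ) : Set (κ → ℂ) := Nzs univ D

theorem mem_Om {D : MvPolynomial κ ℂ} {v : κ → ℂ} : v ∈ Om D ↔ MvPolynomial.eval v D ≠ 0 :=
  ⟨fun h => h.2, fun h => ⟨trivial, h⟩⟩

theorem Om_subm (D : MvPolynomial κ ℂ) : IsSubm (Om D) := nzs_subm subm_univ D

theorem Om_conn {D : MvPolynomial κ ℂ} (hD : D ≠ 0) : IsConnected (Om D) := by
  refine nzs_conn subm_univ univ_conn D ?_
  by_contra h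
  push Not at h
  exact hD (MvPolynomial.funext (fun x => by rw [h x trivial, map_zero]))

/-- the section at infinity -/
noncomputable def rr (D : MvPolynomial κ ℂ) (c : κ → ℂ) (b : κ → ℂ) : ℝ :=
  bd (pz D c).natDegree (nrm (pz D c) b) + 1

theorem rr_cont (D : MvPolynomial κ ℂ) (c : κ → ℂ) {Y : Type*} [TopologicalSpace Y]
    {f : Y → κ → ℂ} (hf : Continuous f)
    (h : ∀ y, MvPolynomial.eval (f y) (pz D c).leadingCoeff ≠ 0) :
    Continuous (fun y => rr D c (f y)) := by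
  unfold rr bd
  refine (continuous_const.add (continuous_finsetSum _ (fun i _ => ?_))).add continuous_const
  exact (nrm_cont (pz D c) hf h i).norm

theorem rr_ne (D : MvPolynomial κ ℂ) (c : κ → ℂ) {b : κ → ℂ}
    (h : MvPolynomial.eval b (pz D c).leadingCoeff ≠ 0) :
    MvPolynomial.eval (b + (rr D c b : ℂ) • c) D ≠ 0 := by
  intro h0
  rw [← ev2_pz, ev2_apply, ← nrm_eval h] at h0
  have h1 := le_bd (nrm_monic h) (nrm_deg h) h0
  have h2 : 0 ≤ bd (pz D c).natDegree (nrm (pz D c) b) := by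
    unfold bd
    have : 0 ≤ ∑ i ∈ Finset.range (pz D c).natDegree, ‖(nrm (pz D c) b).coeff i‖ :=
      Finset.sum_nonneg (fun i _ => norm_nonneg _)
    linarith
  rw [Complex.norm_real, Real.norm_eq_abs] at h1
  unfold rr at h1
  rw [abs_of_nonneg (by linarith)] at h1
  linarith

theorem om_sub {D g : MvPolynomial κ ℂ}
    (hgD : ∀ b, MvPolynomial.eval b D ≠ 0 → MvPolynomial.eval b g ≠ 0) : Om D ⊆ Om g :=
  fun b hb => mem_Om.2 (hgD b (mem_Om.1 hb))

/-- **pushing loops to a line** -/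
theorem lemmaZ (D : MvPolynomial κ ℂ) (c : κ → ℂ) (hD : D ≠ 0)
    (hgD : ∀ b, MvPolynomial.eval b D ≠ 0 → MvPolynomial.eval b (pz D c).leadingCoeff ≠ 0) :
    ∃ δ : MvPolynomial κ ℂ, δ ≠ 0 ∧ ∀ w₀ : Om D, MvPolynomial.eval w₀.1 δ ≠ 0 →
      ∀ γ : Path w₀ w₀, (γ.map (inc (om_sub hgD)).continuous).Homotopic (Path.refl _) →
        ∃ (l : Path (0 : ℂ) 0) (γ' : Path w₀ w₀), (∀ t, (γ' t).1 = w₀.1 + l t • c) ∧
          γ.Homotopic γ' := by
  have hpz : pz D c ≠ 0 := by
    intro h0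
    apply hD
    apply MvPolynomial.funext
    intro b
    have h1 := ev2_pz D c b 0
    rw [h0, map_zero, zero_smul, add_zero] at h1
    rw [← h1, map_zero]
  obtain ⟨δ, Q, hδ, hQ⟩ := sqf_part (pz D c) hpz
  refine ⟨δ, hδ, fun w₀ hw₀ γ hγ => ?_⟩
  obtain ⟨γ₁, hγ₁, hγ₁γ⟩ := push_nz (Om_subm D) (Om_conn hD) δ hw₀ hw₀ γ
  have hlc : ∀ t, MvPolynomial.eval (γ₁ t).1 Q.leadingCoeff ≠ 0 := fun t => (hQ _ (hγ₁ t)).1
  have hγc : Continuous (fun t => (γ₁ t).1) := continuous_subtype_val.comp γ₁.continuous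
  obtain ⟨e, he, hei, hroot⟩ := root_family (fun t => nrm Q (γ₁ t).1)
    (fun t => nrm_deg (hlc t)) (fun i => nrm_cont Q hγc hlc i) (fun t => nrm_monic (hlc t))
    (fun t z hz => nrm_deriv (hlc t) z ((hQ _ (hγ₁ t)).2.2 z ((nrm_eval (hlc t) z).1 hz)))
  have hF : ∀ (s : I) (z : ℂ), z ∈ Cp (e s) ↔ MvPolynomial.eval ((γ₁ s).1 + z • c) D ≠ 0 := by
    intro s z
    rw [← ev2_pz, ev2_apply, Ne, ← (hQ _ (hγ₁ s)).2.1 z, ← nrm_eval (hlc s) z, hroot s z]
    simp [Cp]
  have hg : ∀ t, MvPolynomial.eval (γ₁ t).1 (pz D c).leadingCoeff ≠ 0 :=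
    fun t => hgD _ (mem_Om.1 (γ₁ t).2)
  have hrc : Continuous (fun t : I => ((rr D c (γ₁ t).1 : ℝ) : ℂ)) :=
    Complex.continuous_ofReal.comp (rr_cont D c hγc hg)
  have hp0 : ∀ s : I, (0 : ℂ) ∈ Cp (e s) := by
    intro s
    rw [hF, zero_smul, add_zero]
    exact mem_Om.1 (γ₁ s).2
  have hp1 : ∀ s : I, ((rr D c (γ₁ s).1 : ℝ) : ℂ) ∈ Cp (e s) := by
    intro s
    rw [hF]
    exact rr_ne D c (hg s)
  have hlift := lifts_Cp he hei (p := fun _ => 0)
    (p' := IccExtend zero_le_one (fun t : I => ((rr D c (γ₁ t).1 : ℝ) : ℂ)))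
    continuous_const hrc.Icc_extend' (fun s hs => hp0 ⟨s, hs⟩) (fun s hs => by
      rw [IccExtend_of_mem _ _ hs]
      exact hp1 ⟨s, hs⟩)
  obtain ⟨β, hβ⟩ := Cp_joined (e (0 : I)) (hp0 0) (hp1 0)
  obtain ⟨B, hB1, hB2, hB3⟩ := hlift β.toContinuousMap hβ β.source (by
    have h1 := β.target
    have h2 : IccExtend zero_le_one (fun t : I => ((rr D c (γ₁ t).1 : ℝ) : ℂ)) 0 =
        ((rr D c (γ₁ 0).1 : ℝ) : ℂ) := IccExtend_left _ _
    rw [h2]
    exact h1)
  have hIcc : ∀ s : I, IccExtend zero_le_one (fun t : I => ((rr D c (γ₁ t).1 : ℝ) : ℂ)) s =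
      ((rr D c (γ₁ s).1 : ℝ) : ℂ) := fun s => IccExtend_val _ _ s
  -- the square
  have hBm : ∀ (s u : I), MvPolynomial.eval ((γ₁ s).1 + B ((s : ℝ), u) • c) D ≠ 0 := by
    intro s u
    rw [← hF]
    exact hB1 s s.2 u
  let F : C(I × I, Om D) := ⟨fun x => ⟨(γ₁ x.1).1 + B ((x.1 : ℝ), x.2) • c, mem_Om.2 (hBm _ _)⟩,
    by
      have h7 : Continuous (fun x : I × I => B ((x.1 : ℝ), x.2)) := B.continuous.comp (by fun_prop)
      exact Continuous.subtype_mk ((hγc.comp continuous_fst).add (h7.smul continuous_const)) _⟩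
  let Tm : C(Om (pz D c).leadingCoeff, Om D) :=
    ⟨fun b => ⟨b.1 + ((rr D c b.1 : ℝ) : ℂ) • c, mem_Om.2 (rr_ne D c (mem_Om.1 b.2))⟩, by
      have h7 : Continuous (fun b : Om (pz D c).leadingCoeff => ((rr D c b.1 : ℝ) : ℂ)) :=
        Complex.continuous_ofReal.comp (rr_cont D c continuous_subtype_val
          (fun y => mem_Om.1 y.2))
      exact Continuous.subtype_mk (continuous_subtype_val.add (h7.smul continuous_const)) _⟩
  let top := (γ₁.map (inc (om_sub hgD)).continuous).map Tm.continuous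
  have htop : top.Homotopic (Path.refl _) := by
    have h1 : (γ₁.map (inc (om_sub hgD)).continuous).Homotopic
        (γ.map (inc (om_sub hgD)).continuous) := hγ₁γ.map (inc (om_sub hgD))
    exact (h1.trans hγ).map Tm
  -- the sides
  let β₁ : Path (0 : ℂ) ((rr D c w₀.1 : ℝ) : ℂ) :=
    { toFun := fun t => B ((1 : ℝ), t)
      continuous_toFun := B.continuous.comp (by fun_prop)
      source' := (hB3 1 ⟨zero_le_one, le_rfl⟩).1
      target' := by
        rw [(hB3 1 ⟨zero_le_one, le_rfl⟩).2]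
        have h3 := hIcc 1
        rw [γ₁.target] at h3
        exact h3 }
  let β₀ : Path (0 : ℂ) ((rr D c w₀.1 : ℝ) : ℂ) :=
    { toFun := fun t => B ((0 : ℝ), t)
      continuous_toFun := B.continuous.comp (by fun_prop)
      source' := (hB3 0 ⟨le_rfl, zero_le_one⟩).1
      target' := by
        rw [(hB3 0 ⟨le_rfl, zero_le_one⟩).2]
        have h3 := hIcc 0
        rw [γ₁.source] at h3
        exact h3 }
  have hβ₀ : ∀ t, MvPolynomial.eval (w₀.1 + β₀ t • c) D ≠ 0 := by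
    intro t
    have := hBm 0 t
    rw [γ₁.source] at this
    exact this
  have hβ₁ : ∀ t, MvPolynomial.eval (w₀.1 + β₁ t • c) D ≠ 0 := by
    intro t
    have := hBm 1 t
    rw [γ₁.target] at this
    exact this
  let sd : ∀ (β : Path (0 : ℂ) ((rr D c w₀.1 : ℝ) : ℂ)),
      (∀ t, MvPolynomial.eval (w₀.1 + β t • c) D ≠ 0) → Path w₀ (Tm (inc (om_sub hgD) w₀)) :=
    fun β h =>
    { toFun := fun t => ⟨w₀.1 + β t • c, mem_Om.2 (h t)⟩
      continuous_toFun := Continuous.subtype_mk (continuous_const.add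
        (β.continuous.smul continuous_const)) _
      source' := by
        apply Subtype.ext
        change w₀.1 + β 0 • c = w₀.1
        rw [β.source, zero_smul, add_zero]
      target' := by
        apply Subtype.ext
        change w₀.1 + β 1 • c = w₀.1 + ((rr D c w₀.1 : ℝ) : ℂ) • c
        rw [β.target] }
  have hsq := square γ₁ top (sd β₀ hβ₀) (sd β₁ hβ₁) F
    (fun t => by
      apply Subtype.ext
      change (γ₁ t).1 + B ((t : ℝ), 0) • c = (γ₁ t).1
      rw [(hB3 t t.2).1, zero_smul, add_zero])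
    (fun t => by
      apply Subtype.ext
      change (γ₁ t).1 + B ((t : ℝ), 1) • c = (γ₁ t).1 + ((rr D c (γ₁ t).1 : ℝ) : ℂ) • c
      rw [(hB3 t t.2).2, hIcc])
    (fun s => by
      apply Subtype.ext
      change (γ₁ 0).1 + B (((0 : I) : ℝ), s) • c = w₀.1 + B ((0 : ℝ), s) • c
      rw [γ₁.source]
      rfl)
    (fun s => by
      apply Subtype.ext
      change (γ₁ 1).1 + B (((1 : I) : ℝ), s) • c = w₀.1 + B ((1 : ℝ), s) • c
      rw [γ₁.target]
      rfl)
  have h5 := loop_of_square _ _ _ _ hsq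
  rw [Path.Homotopic.Quotient.eq.2 htop, Path.Homotopic.Quotient.mk_refl,
    Path.Homotopic.Quotient.trans_refl, ← Path.Homotopic.Quotient.mk_symm,
    ← Path.Homotopic.Quotient.mk_trans] at h5
  refine ⟨β₀.trans β₁.symm, (sd β₀ hβ₀).trans (sd β₁ hβ₁).symm, fun t => ?_,
    hγ₁γ.symm.trans (Path.Homotopic.Quotient.eq.1 h5)⟩
  rw [Path.trans_apply, Path.trans_apply]
  split_ifs
  · rfl
  · rfl

end

end Pool.Agent.Run7.h562
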