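import Pool.Agent.Run7.h562.PencilA

/-!
# The tree of a pencil
-/

set_option autoImplicit false
set_option linter.unusedSectionVars false

open Topology Set unitInterval

namespace Pool.Agent.Run7.h562

open Pool.Agent.Y193.FG

theorem lpc_of_subm {T : Type} [Fintype T] {X : Set (T → ℂ)} (hX : IsSubm X)
    (hc : IsConnected X) : LocallyPathConnectedSpace X := by
  obtain ⟨x₀, hx₀⟩ := hc.nonempty
  exact lpc_of_good (goodBasis hX hc.isPreconnected (g := fun _ => 1)
    (differentiable_const 1) (x₀ := ⟨x₀, hx₀⟩) one_ne_zero)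

theorem slsc_of_subm {T : Type} [Fintype T] {X : Set (T → ℂ)} (hX : IsSubm X)
    (hc : IsConnected X) : Pool.Agent.W622.RB.SLSC X := by
  obtain ⟨x₀, hx₀⟩ := hc.nonempty
  exact slsc_of_good (goodBasis hX hc.isPreconnected (g := fun _ => 1)
    (differentiable_const 1) (x₀ := ⟨x₀, hx₀⟩) one_ne_zero)

/-- pushing a path off a fibre, over an open set of the base -/
theorem push_in {T : Type} [Fintype T] {X : Set (T → ℂ)} (hX : IsSubm X) (hc : IsConnected X)
    (f : MvPolynomial T ℂ) {D : Set ℂ} (hD : IsOpen D) (b : ℂ) {x y : X} (p : Path x y)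
    (hp : ∀ t, fc X f (p t) ∈ D) (hx : fc X f x ≠ b) (hy : fc X f y ≠ b) :
    ∃ q : Path x y, (∀ t, fc X f (q t) ∈ D ∧ fc X f (q t) ≠ b) ∧ q.Homotopic p := by
  have := lpc_of_subm hX hc
  have hWo : IsOpen ((fc X f) ⁻¹' D) := hD.preimage (fc X f).continuous
  have hxW : x ∈ (fc X f) ⁻¹' D := by have := hp 0; rwa [p.source] at this
  set Q : Set X := pathComponentIn ((fc X f) ⁻¹' D) x with hQ
  have hQo : IsOpen Q := hWo.pathComponentIn x
  obtain ⟨O', hO', hQO⟩ := isOpen_induced_iff.1 hQo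
  have hQ' : ∀ y : X, y ∈ Q ↔ y.1 ∈ X ∩ O' := fun y => by
    rw [← hQO]
    exact ⟨fun h => ⟨y.2, h⟩, fun h => h.2⟩
  have him : X ∩ O' = Subtype.val '' Q := by
    ext z
    constructor
    · intro hz
      exact ⟨⟨z, hz.1⟩, (hQ' _).2 hz, rfl⟩
    · rintro ⟨z, hz, rfl⟩
      exact (hQ' _).1 hz
  have hpc : IsPathConnected Q := isPathConnected_pathComponentIn hxW
  have hconn : IsConnected (X ∩ O') := by
    rw [him]
    exact (hpc.image continuous_subtype_val).isConnected
  have hpQ : ∀ t, p t ∈ Q := by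
    have h1 : IsPathConnected (range p) := isPathConnected_range p.continuous
    have h2 := h1.subset_pathComponentIn (x := x) (F := (fc X f) ⁻¹' D) ⟨0, p.source⟩ (by
      rintro _ ⟨t, rfl⟩
      exact hp t)
    exact fun t => h2 ⟨t, rfl⟩
  let x' : (X ∩ O' : Set (T → ℂ)) := ⟨x.1, (hQ' x).1 (by have := hpQ 0; rwa [p.source] at this)⟩
  let y' : (X ∩ O' : Set (T → ℂ)) := ⟨y.1, (hQ' y).1 (by have := hpQ 1; rwa [p.target] at this)⟩
  let p' : Path x' y' :=
    { toFun := fun t => ⟨(p t).1, (hQ' _).1 (hpQ t)⟩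
      continuous_toFun := Continuous.subtype_mk (continuous_subtype_val.comp p.continuous) _
      source' := Subtype.ext (by change (p 0).1 = x.1; rw [p.source])
      target' := Subtype.ext (by change (p 1).1 = y.1; rw [p.target]) }
  have hev : ∀ z : X, MvPolynomial.eval z.1 (f - MvPolynomial.C b) = fc X f z - b := fun z => by
    rw [map_sub, MvPolynomial.eval_C]
    rfl
  obtain ⟨q, hq, hqp⟩ := push_nz (subm_inter hX hO') hconn (f - MvPolynomial.C b)
    (a := x') (b := y') (by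
      have := hev x
      change MvPolynomial.eval x.1 _ ≠ 0
      rw [this]
      exact sub_ne_zero.2 hx) (by
      have := hev y
      change MvPolynomial.eval y.1 _ ≠ 0
      rw [this]
      exact sub_ne_zero.2 hy) p'
  refine ⟨q.map (inc (inter_subset_left : X ∩ O' ⊆ X)).continuous, fun t => ⟨?_, ?_⟩, ?_⟩
  · have h1 : (inc (inter_subset_left : X ∩ O' ⊆ X) (q t)) ∈ Q := (hQ' _).2 (q t).2
    exact (pathComponentIn_subset h1 : _ ∈ (fc X f) ⁻¹' D)
  · have h1 := hq t
    have h2 := hev (inc (inter_subset_left : X ∩ O' ⊆ X) (q t))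
    change MvPolynomial.eval (q t).1 _ = _ at h2
    rw [h2] at h1
    exact sub_ne_zero.1 h1
  · exact hqp.map (inc (inter_subset_left : X ∩ O' ⊆ X))

section

variable {T : Type} [Fintype T] {X : Set (T → ℂ)} (hX : IsSubm X) (hc : IsConnected X)
  {f : MvPolynomial T ℂ} (hf : ∀ c : ℂ, ∃ x ∈ X, MvPolynomial.eval x f ≠ c)
  {U : Type} [TopologicalSpace U] (p : C(U, X)) (cov : IsCoveringMap p)
  {G : Type} [Group G] [MulAction G U]
  (hGc : ∀ g : G, Continuous (fun u : U => g • u)) (hGp : ∀ (g : G) (u : U), p (g • u) = p u)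
  (hGf : ∀ (g : G) (u : U), g • u = u → g = 1)
  {B : Set ℂ} (H1 : HypB X f B)

include hX hc cov hGp in
theorem rel_surj {D : Set ℂ} (hD : IsOpen D) {b : ℂ} {u : U} (hub : fc X f (p u) ≠ b) (g : G)
    (h : JoinedIn {u : U | fc X f (p u) ∈ D} u (g • u)) : ∃ n : ℤ, Rel p f D b u g n := by
  obtain ⟨Γ, hΓ⟩ := h
  obtain ⟨q, hq, hqp⟩ := push_in hX hc f hD b (Γ.map p.continuous) hΓ hub (by rwa [hGp])
  obtain ⟨Γ', hΓ'⟩ := lift_path cov Γ q hqp.symm
  obtain ⟨h, hh⟩ := exists_log (undr (f := f) p hGp g u Γ') (b := b) (fun t => by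
    change fc X f (p (Γ' t)) ≠ b
    rw [hΓ']
    exact (hq t).2)
  have hh' : ∀ t, Complex.exp (h t) = fc X f (p (Γ' t)) - b := hh
  have h1 : Complex.exp (h 1) = Complex.exp (h 0) := by
    rw [hh', hh', Γ'.target, Γ'.source, hGp]
  obtain ⟨n, hn⟩ := Complex.exp_eq_exp_iff_exists_int.1 h1
  refine ⟨n, Γ', fun t => ?_, h 0, ⟨h, rfl, ?_⟩, hh'⟩
  · rw [hΓ']
    exact (hq t).1
  · change h 1 = _
    rw [hn]
    ring

include cov hGp hGf H1 in
theorem rel_inj (L : ℂ →L[ℝ] ℝ) {b : ℂ} {ε : ℝ} (hε : 0 < ε)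
    (hB : ∀ z, |L z - L b| < ε → z ∈ B → z = b) {u : U} (g : G)
    (h : Rel p f {z | |L z - L b| < ε} b u g 0) : g = 1 := by
  obtain ⟨Γ, hΓ, a, η, hη⟩ := h
  have hδ' : ∀ t, (undr (f := f) p hGp g u Γ) t ∈ Bᶜ := by
    intro t ht
    have h1 := hB _ (hΓ t) ht
    have h2 := hη t
    have h3 : fc X f (p (Γ t)) = b := h1
    rw [h3, sub_self] at h2
    exact Complex.exp_ne_zero _ h2
  refine triv_of_null p cov hGp hGf H1 g u Γ (undr (f := f) p hGp g u Γ) (fun _ => rfl) hδ'
    (null_log L hε hB (undr (f := f) p hGp g u Γ) hΓ η.toContinuousMap hη ?_ hδ')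
  change η 1 = η 0
  rw [η.target, η.source]
  simp

include hX hc cov hGc hGp hGf H1 in
theorem stab_cyclic (L : ℂ →L[ℝ] ℝ) {b : ℂ} {ε : ℝ} (hε : 0 < ε)
    (hB : ∀ z, |L z - L b| < ε → z ∈ B → z = b) {u : U}
    (hu : |L (fc X f (p u)) - L b| < ε) (hub : fc X f (p u) ≠ b) (H : Subgroup G)
    (hH : ∀ g ∈ H, JoinedIn {u : U | |L (fc X f (p u)) - L b| < ε} u (g • u)) :
    IsCyclic H := by
  have hDo : IsOpen {z : ℂ | |L z - L b| < ε} :=
    isOpen_lt (by fun_prop) continuous_const
  let R : Subgroup (G × Multiplicative ℤ) :=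
    RR p hGc hGp f (D := {z : ℂ | |L z - L b| < ε}) hu hub
  have hR : ∀ x : G × Multiplicative ℤ, x ∈ R ↔
      Rel p f {z : ℂ | |L z - L b| < ε} b u x.1 (Multiplicative.toAdd x.2) := fun x => Iff.rfl
  -- the relation group is cyclic
  have h1 : IsCyclic R := by
    let φ : R →* Multiplicative ℤ := (MonoidHom.snd G (Multiplicative ℤ)).comp R.subtype
    refine isCyclic_of_injective φ ?_
    rw [injective_iff_map_eq_one]
    rintro ⟨⟨g, n⟩, hx⟩ hn
    have hn' : n = 1 := hn
    subst hn'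
    have := rel_inj p cov hGp hGf H1 L hε hB g ((hR _).1 hx)
    subst this
    rfl
  -- it maps onto `H`
  let R' : Subgroup R := H.comap ((MonoidHom.fst G (Multiplicative ℤ)).comp R.subtype)
  let ψ : R' →* H :=
    { toFun := fun x => ⟨x.1.1.1, x.2⟩
      map_one' := rfl
      map_mul' := fun _ _ => rfl }
  have h2 : Function.Surjective ψ := by
    rintro ⟨g, hg⟩
    obtain ⟨n, hn⟩ := rel_surj hX hc p cov hGp hDo hub g (hH g hg)
    exact ⟨⟨⟨(g, Multiplicative.ofAdd n), (hR _).2 hn⟩, hg⟩, rfl⟩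
  exact isCyclic_of_surjective ψ h2

end

theorem exists_gap {S : Set ℝ} (hS : S.Finite) :
    ∃ ε : ℝ, 0 < ε ∧ ∀ r ∈ S, ∀ r' ∈ S, r ≠ r' → 2 * ε ≤ |r - r'| := by
  have h1 : ∀ᶠ ε in 𝓝[>] (0 : ℝ), ∀ q ∈ S ×ˢ S, q.1 ≠ q.2 → 2 * ε ≤ |q.1 - q.2| := by
    rw [Filter.eventually_all_finite (hS.prod hS)]
    rintro ⟨r, r'⟩ -
    by_cases h : r = r'
    · exact Filter.Eventually.of_forall (fun _ h' => absurd h h')
    · have h2 : 0 < |r - r'| := abs_pos.2 (sub_ne_zero.2 h)
      have h3 : ∀ᶠ ε in 𝓝[>] (0 : ℝ), ε < |r - r'| / 2 :=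
        nhdsWithin_le_nhds (Iio_mem_nhds (by positivity))
      filter_upwards [h3] with ε hε _
      linarith
  obtain ⟨ε, h2, h3⟩ := (h1.and self_mem_nhdsWithin).exists
  exact ⟨ε, h3, fun r hr r' hr' h => h2 (r, r') ⟨hr, hr'⟩ h⟩

/-- the cover -/
def Wc (L : ℂ →L[ℝ] ℝ) (B : Set ℂ) (ε : ℝ) {U : Type} (F : U → ℂ) (j : WithBot ℝ) : Set U :=
  WithBot.recBotCoe (C := fun _ => Set U) {u : U | ∀ b ∈ B, L (F u) ≠ L b}
    (fun r => {u : U | ∃ b ∈ B, L b = r ∧ |L (F u) - L b| < ε}) j

/-- **the theorem on pencils** -/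
theorem pencil_fpc {T : Type} [Fintype T] {X : Set (T → ℂ)} (hX : IsSubm X) (hc : IsConnected X)
    {f : MvPolynomial T ℂ} (hf : ∀ c : ℂ, ∃ x ∈ X, MvPolynomial.eval x f ≠ c)
    {U : Type} [TopologicalSpace U] [SimplyConnectedSpace U] [LocallyPathConnectedSpace U]
    (p : C(U, X)) (cov : IsCoveringMap p)
    {G : Type} [Group G] [MulAction G U]
    (hGc : ∀ g : G, Continuous (fun u : U => g • u)) (hGp : ∀ (g : G) (u : U), p (g • u) = p u)
    (hGf : ∀ (g : G) (u : U), g • u = u → g = 1)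
    {B : Set ℂ} (H1 : HypB X f B) (hBf : B.Finite) (hFG : Group.FG G) : FPC G inferInstance := by
  obtain ⟨L, hL⟩ := exists_functional hBf
  obtain ⟨ε, hε, hgap⟩ := exists_gap (hBf.image L)
  have hsep : ∀ z, ∀ b ∈ B, ∀ b' ∈ B, |L z - L b| < ε → |L z - L b'| < ε → b = b' := by
    intro z b hb b' hb' h1 h2
    by_contra hne
    have h3 := hgap _ ⟨b, hb, rfl⟩ _ ⟨b', hb', rfl⟩ (fun h => hne (hL hb hb' h))
    have h4 : |L b - L b'| ≤ |L z - L b| + |L z - L b'| := by
      have h5 : L b - L b' = -(L z - L b) + (L z - L b') := by ring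
      rw [h5]
      refine (abs_add_le _ _).trans ?_
      rw [abs_neg]
    linarith
  let F : U → ℂ := fun u => fc X f (p u)
  have hFc : Continuous F := (fc X f).continuous.comp p.continuous
  have hFG' : ∀ (g : G) u, F (g • u) = F u := fun g u => by
    change fc X f (p (g • u)) = _
    rw [hGp]
  let W : WithBot ℝ → Set U := Wc L B ε F
  have hWbot : W ⊥ = {u : U | ∀ b ∈ B, L (F u) ≠ L b} := rfl
  have hWr : ∀ r : ℝ, W (r : WithBot ℝ) = {u : U | ∃ b ∈ B, L b = r ∧ |L (F u) - L b| < ε} :=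
    fun r => rfl
  have hWo : ∀ j, IsOpen (W j) := by
    intro j
    induction j using WithBot.recBotCoe with
    | bot =>
      have h1 : {u : U | ∀ b ∈ B, L (F u) ≠ L b} = F ⁻¹' (L ⁻¹' (L '' B)ᶜ) := by
        ext u
        constructor
        · rintro h ⟨b, hb, hb'⟩
          exact h b hb hb'.symm
        · intro h b hb hb'
          exact h ⟨b, hb, hb'.symm⟩
      rw [hWbot, h1]
      exact ((hBf.image L).isClosed.isOpen_compl.preimage L.continuous).preimage hFc
    | coe r =>
      rw [hWr]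
      have h1 : {u : U | ∃ b ∈ B, L b = r ∧ |L (F u) - L b| < ε} =
          ⋃ b ∈ B, {u : U | L b = r ∧ |L (F u) - L b| < ε} := by
        ext u
        simp only [mem_ofPred_eq, mem_iUnion, exists_prop]
      rw [h1]
      refine isOpen_biUnion (fun b _ => ?_)
      by_cases h2 : L b = r
      · have h3 : {u : U | L b = r ∧ |L (F u) - L b| < ε} = {u : U | |L (F u) - L b| < ε} := by
          ext u
          simp [h2]
        rw [h3]
        exact isOpen_lt (by fun_prop) continuous_const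
      · have h3 : {u : U | L b = r ∧ |L (F u) - L b| < ε} = ∅ := by
          ext u
          simp [h2]
        rw [h3]
        exact isOpen_empty
  have hWc : ∀ u, ∃ j, u ∈ W j := by
    intro u
    by_cases h : ∀ b ∈ B, L (F u) ≠ L b
    · exact ⟨⊥, h⟩
    · push Not at h
      obtain ⟨b, hb, h⟩ := h
      exact ⟨(L b : WithBot ℝ), b, hb, rfl, by rw [h, sub_self, abs_zero]; exact hε⟩
  have hrr : ∀ (r r' : ℝ) (u : U), u ∈ W (r : WithBot ℝ) → u ∈ W (r' : WithBot ℝ) →
      (r : WithBot ℝ) = (r' : WithBot ℝ) := by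
    rintro r r' u ⟨b, hb, rfl, h1⟩ ⟨b', hb', rfl, h2⟩
    rw [hsep _ b hb b' hb' h1 h2]
  have hW3 : ∀ i j k u, u ∈ W i → u ∈ W j → u ∈ W k → i = j ∨ j = k ∨ i = k := by
    intro i j k u hi hj hk
    induction i using WithBot.recBotCoe with
    | bot =>
      induction j using WithBot.recBotCoe with
      | bot => exact Or.inl rfl
      | coe s =>
        induction k using WithBot.recBotCoe with
        | bot => exact Or.inr (Or.inr rfl)
        | coe t => exact Or.inr (Or.inl (hrr _ _ _ hj hk))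
    | coe r =>
      induction j using WithBot.recBotCoe with
      | bot =>
        induction k using WithBot.recBotCoe with
        | bot => exact Or.inr (Or.inl rfl)
        | coe t => exact Or.inr (Or.inr (hrr _ _ _ hi hk))
      | coe s => exact Or.inl (hrr _ _ _ hi hj)
  have hWi : ∀ (g : G) (j : WithBot ℝ), ∀ u ∈ W j, g • u ∈ W j := by
    intro g j u hu
    induction j using WithBot.recBotCoe with
    | bot =>
      change ∀ b ∈ B, L (F (g • u)) ≠ L b
      rw [hFG']
      exact hu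
    | coe r =>
      change ∃ b ∈ B, L b = r ∧ |L (F (g • u)) - L b| < ε
      rw [hFG']
      exact hu
  let _ := actVV hGc hWi
  let _ := actEE hGc hWi
  obtain ⟨u₀⟩ := (inferInstance : Nonempty U)
  obtain ⟨j₀, hj₀⟩ := hWc u₀
  have hsm : ∀ (g : G) (j : WithBot ℝ) (y : U) (h : y ∈ W j),
      g • (mkV j y h : VV W) = mkV j (g • y) (hWi g j y h) := fun _ _ _ _ => rfl
  have hsmE : ∀ (g : G) (i j : WithBot ℝ) (y : U) (hij : i < j) (h : y ∈ W i ∩ W j),
      g • (mkE i j y hij h : EE W) = mkE i j (g • y) hij ⟨hWi g i y h.1, hWi g j y h.2⟩ :=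
    fun _ _ _ _ _ _ => rfl
  refine fpc_of_tree (covTree hWo hWc hW3 hGc hWi) hFG ?_ ?_ (mkV j₀ u₀ hj₀)
  · intro e g hg
    induction e using indE with | h i j y hij hy => ?_
    rw [hsmE] at hg
    have h1 := (mkE_joined hg).symm
    have hi : i = ⊥ := by
      induction i using WithBot.recBotCoe with
      | bot => rfl
      | coe r =>
        induction j using WithBot.recBotCoe with
        | bot => exact absurd hij (by simp)
        | coe s =>
          have := hrr _ _ _ hy.1 hy.2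
          rw [this] at hij
          exact absurd hij (lt_irrefl _)
    subst hi
    exact stab_off p cov hGp hGf H1 L g y (h1.mono inter_subset_left)
  · intro v
    induction v using indV with | h j y hy => ?_
    induction j using WithBot.recBotCoe with
    | bot =>
      have h1 : ∀ g ∈ MulAction.stabilizer G (mkV (⊥ : WithBot ℝ) y hy : VV W), g = 1 := by
        intro g hg
        rw [MulAction.mem_stabilizer_iff, hsm] at hg
        exact stab_off p cov hGp hGf H1 L g y (mkV_joined hg).symm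
      have : Subsingleton (MulAction.stabilizer G (mkV (⊥ : WithBot ℝ) y hy : VV W)) :=
        ⟨fun a b => Subtype.ext ((h1 a.1 a.2).trans (h1 b.1 b.2).symm)⟩
      exact isCyclic_of_subsingleton
    | coe r =>
      obtain ⟨b, hb, hbr, hyb⟩ := id hy
      have hsub : W (r : WithBot ℝ) ⊆ {u : U | |L (fc X f (p u)) - L b| < ε} := by
        rintro u ⟨b', hb', hbr', h⟩
        have : b' = b := hL hb' hb (hbr'.trans hbr.symm)
        subst this
        exact h
      -- a representative off the bad fibre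
      obtain ⟨y', hyy', hy'b⟩ : ∃ y', JoinedIn (W (r : WithBot ℝ)) y y' ∧ fc X f (p y') ≠ b := by
        by_contra hcon
        push Not at hcon
        obtain ⟨N, hN, hN'⟩ := exists_pc_nhds (hWo (r : WithBot ℝ)) hy
        have h1 : p '' N ∈ 𝓝 (p y) := cov.isLocalHomeomorph.isOpenMap.image_mem_nhds hN
        have h2 : ∀ᶠ x : X in 𝓝 (p y), MvPolynomial.eval x.1 (f - MvPolynomial.C b) = 0 := by
          filter_upwards [h1] with x hx
          obtain ⟨u, hu, rfl⟩ := hx
          rw [map_sub, MvPolynomial.eval_C]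
          exact sub_eq_zero.2 (hcon u (hN' u hu))
        obtain ⟨x, hx, hxb⟩ := hf b
        apply hxb
        have h3 := identity hX hc.isPreconnected
          (g := fun z => MvPolynomial.eval z (f - MvPolynomial.C b))
          (differentiable_eval _) h2 ⟨x, hx⟩
        rw [map_sub, MvPolynomial.eval_C] at h3
        exact sub_eq_zero.1 h3
      rw [mkV_eq (h' := hyy'.target_mem) hyy']
      refine stab_cyclic hX hc p cov hGc hGp hGf H1 L hε ?_ (hsub hyy'.target_mem) hy'b _ ?_
      · intro z hz hzB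
        exact hsep z z hzB b hb (by rw [sub_self, abs_zero]; exact hε) hz
      · intro g hg
        rw [MulAction.mem_stabilizer_iff, hsm] at hg
        exact (mkV_joined hg).symm.mono hsub

end Pool.Agent.Run7.h562
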