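import Pool.Agent.Run7.h562.Subm
import Pool.Agent.Helper540.Holo

/-!
# Smooth sets are submanifolds
-/

set_option autoImplicit false
set_option linter.unusedSectionVars false

open Topology Set unitInterval

namespace Pool.Agent.Run7.h562

open Pool.Agent.Y193.FG

/-- smoothness of a subset of affine space -/
def FSm {n : ℕ} (S : Set (Fin n → ℂ)) : Prop :=
  ∀ p ∈ S, ∃ (m : ℕ) (g : (Fin n → ℂ) → (Fin m → ℂ)) (U : Set (Fin n → ℂ)),
    IsOpen U ∧ p ∈ U ∧ DifferentiableOn ℂ g U ∧ Function.Surjective (fderiv ℂ g p) ∧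
    ∀ z ∈ U, (z ∈ S ↔ g z = 0)

/-- smoothness at a point, general target -/
def Sm {T : Type} [Fintype T] (S : Set (T → ℂ)) (p : T → ℂ) : Prop :=
  ∃ (E : Type) (_ : NormedAddCommGroup E) (_ : NormedSpace ℂ E) (_ : FiniteDimensional ℂ E)
    (g : (T → ℂ) → E) (U : Set (T → ℂ)),
    IsOpen U ∧ p ∈ U ∧ DifferentiableOn ℂ g U ∧ Function.Surjective (fderiv ℂ g p) ∧
    ∀ z ∈ U, (z ∈ S ↔ g z = 0)

theorem sm_of_fsm {n : ℕ} {S : Set (Fin n → ℂ)} (h : FSm S) (p : Fin n → ℂ) (hp : p ∈ S) :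
    Sm S p := by
  obtain ⟨m, g, U, hU, hpU, hg, hs, hS⟩ := h p hp
  exact ⟨Fin m → ℂ, inferInstance, inferInstance, inferInstance, g, U, hU, hpU, hg, hs, hS⟩

theorem subm_of_sm {T : Type} [Fintype T] {S : Set (T → ℂ)} (h : ∀ p ∈ S, Sm S p) :
    IsSubm S := by
  intro p hp
  obtain ⟨E, _, _, _, g, U, hU, hpU, hg, hs, hS⟩ := h p hp
  have hcE : CompleteSpace E := FiniteDimensional.complete ℂ E
  have hcd : ContDiffAt ℂ 1 g p := by
    have h1 := Pool.Agent.Helper540.contDiffOn_of_differentiableOn hU hg 1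
    exact (h1.contDiffAt (hU.mem_nhds hpU))
  have hst : HasStrictFDerivAt g (fderiv ℂ g p) p := hcd.hasStrictFDerivAt (by simp)
  have hr : (fderiv ℂ g p).range = ⊤ := LinearMap.range_eq_top.2 hs
  have hker : (fderiv ℂ g p).ker.ClosedComplemented :=
    (fderiv ℂ g p).ker_closedComplemented_of_finiteDimensional_range
  set D := HasStrictFDerivAt.implicitFunctionDataOfComplemented g (fderiv ℂ g p) hst hr hker
    with hD
  have hr0 : ∀ x, D.rightFun x = Classical.choose hker (x - p) := fun x => rfl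
  let e := D.toOpenPartialHomeomorph
  have he : ∀ x, e x = (g x, D.rightFun x) := fun x => rfl
  have hpe : p ∈ e.source := D.pt_mem_toOpenPartialHomeomorph_source
  have hgp : g p = 0 := (hS p hpU).1 hp
  -- the inverse is differentiable
  have h1 : ContDiffAt ℂ 1 e.symm (e p) := by
    have := D.contDiffAt_implicitFunction (n := 1) hcd (by
      change ContDiffAt ℂ 1 (fun x => Classical.choose hker (x - p)) p
      fun_prop) (by simp)
    exact this
  have h2 : ∀ᶠ q in 𝓝 (e p), DifferentiableAt ℂ e.symm q := by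
    have := h1.eventually (by simp)
    filter_upwards [this] with q hq using hq.differentiableAt (by simp)
  obtain ⟨Q, hQs, hQo, hpQ⟩ := mem_nhds_iff.1 h2
  have hdr : Differentiable ℂ D.rightFun := by
    change Differentiable ℂ (fun x => Classical.choose hker (x - p))
    fun_prop
  have hι : Continuous (fun v : (fderiv ℂ g p).ker => ((0 : E), v)) := by fun_prop
  refine ⟨(fderiv ℂ g p).ker, inferInstance, inferInstance,
    (fun v : (fderiv ℂ g p).ker => ((0 : E), v)) ⁻¹' (e.target ∩ e.symm ⁻¹' U ∩ Q),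
    e.source ∩ e ⁻¹' Q ∩ U, fun v => e.symm (0, v), D.rightFun, ?_, ?_, ?_, ?_, ?_, ?_, ?_⟩
  · exact ((e.symm.isOpen_inter_preimage hU).inter hQo).preimage hι
  · exact (e.isOpen_inter_preimage hQo).inter hU
  · exact ⟨⟨hpe, hpQ⟩, hpU⟩
  · rintro v ⟨⟨hv1, hv2⟩, hv3⟩
    have h3 : DifferentiableAt ℂ e.symm ((0 : E), v) := hQs hv3
    have h4 : DifferentiableAt ℂ (fun v : (fderiv ℂ g p).ker => ((0 : E), v)) v := by
      fun_prop
    exact (DifferentiableAt.comp (f := fun v : (fderiv ℂ g p).ker => ((0 : E), v)) v h3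
      h4).differentiableWithinAt
  · exact hdr.differentiableOn
  · ext x
    constructor
    · rintro ⟨v, ⟨⟨hv1, hv2⟩, hv3⟩, rfl⟩
      have h5 : e (e.symm ((0 : E), v)) = (0, v) := e.right_inv hv1
      refine ⟨(hS _ hv2).2 ?_, ⟨e.map_target hv1, ?_⟩, hv2⟩
      · exact congrArg Prod.fst h5
      · change e (e.symm ((0 : E), v)) ∈ Q
        rw [h5]
        exact hv3
    · rintro ⟨hx1, ⟨hx2, hx3⟩, hx4⟩
      have h5 : e x = (0, D.rightFun x) := by
        rw [he, (hS x hx4).1 hx1]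
      have h6 : e.symm (0, D.rightFun x) = x := by
        rw [← h5]
        exact e.left_inv hx2
      refine ⟨D.rightFun x, ⟨⟨?_, ?_⟩, ?_⟩, h6⟩
      · change ((0 : E), D.rightFun x) ∈ e.target
        rw [← h5]
        exact e.map_source hx2
      · change e.symm ((0 : E), D.rightFun x) ∈ U
        rw [h6]
        exact hx4
      · change ((0 : E), D.rightFun x) ∈ Q
        rw [← h5]
        exact hx3
  · rintro v ⟨⟨hv1, hv2⟩, hv3⟩
    have h5 : e (e.symm ((0 : E), v)) = (0, v) := e.right_inv hv1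
    exact congrArg Prod.snd h5

theorem subm_of_fsm {n : ℕ} {S : Set (Fin n → ℂ)} (h : FSm S) : IsSubm S :=
  subm_of_sm (sm_of_fsm h)

/-- change of coordinates -/
theorem fsm_of_sm {T : Type} [Fintype T] {S : Set (T → ℂ)} (h : ∀ p ∈ S, Sm S p) {n : ℕ}
    (e : T ≃ Fin n) : FSm {z : Fin n → ℂ | z ∘ e ∈ S} := by
  intro p hp
  obtain ⟨E, _, _, _, g, U, hU, hpU, hg, hs, hS⟩ := h (p ∘ e) hp
  let R : (Fin n → ℂ) ≃L[ℂ] (T → ℂ) := (LinearEquiv.funCongrLeft ℂ ℂ e).toContinuousLinearEquiv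
  have hR : ∀ z, R z = z ∘ e := fun z => rfl
  let L : E ≃L[ℂ] (Fin (Module.finrank ℂ E) → ℂ) := ContinuousLinearEquiv.ofFinrankEq (by simp)
  have hgd : DifferentiableAt ℂ g (R p) := hg.differentiableAt (hU.mem_nhds hpU)
  refine ⟨Module.finrank ℂ E, fun z => L (g (R z)), R ⁻¹' U, hU.preimage R.continuous, hpU,
    ?_, ?_, ?_⟩
  · exact L.differentiable.comp_differentiableOn (hg.comp R.differentiableOn (fun z hz => hz))
  · have h1 : HasFDerivAt (fun z => L (g (R z)))
        ((L : E →L[ℂ] _).comp ((fderiv ℂ g (R p)).comp (R : (Fin n → ℂ) →L[ℂ] (T → ℂ)))) p :=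
      L.hasFDerivAt.comp p (hgd.hasFDerivAt.comp p R.hasFDerivAt)
    rw [h1.fderiv]
    exact L.surjective.comp (hs.comp R.surjective)
  · intro z hz
    change z ∘ e ∈ S ↔ L (g (z ∘ e)) = 0
    rw [hS (z ∘ e) hz, map_eq_zero_iff L L.injective]

end Pool.Agent.Run7.h562
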