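import Pool.Agent.Run7.h562.FibProd
import Pool.Agent.Run7.h562.Smooth
import Pool.Agent.Run7.h562.PencilB

/-!
# Affine models of groups
-/

set_option autoImplicit false
set_option linter.unusedSectionVars false

open Topology Set unitInterval

namespace Pool.Agent.Run7.h562

open Pool.Agent.Y193.FG Monoid

/-- homeomorphisms and fundamental groups -/
theorem pi1_homeo {X Y : Type} [TopologicalSpace X] [TopologicalSpace Y] (h : X ≃ₜ Y) (x : X) :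
    Nonempty (FundamentalGroup X x ≃* FundamentalGroup Y (h x)) := by
  let f : C(X, Y) := ⟨h, h.continuous⟩
  let k : C(Y, X) := ⟨h.symm, h.symm.continuous⟩
  refine ⟨MulEquiv.ofBijective (FundamentalGroup.map f x) ⟨?_, ?_⟩⟩
  · rw [injective_iff_map_eq_one]
    intro m hm
    obtain ⟨γ, rfl⟩ := Path.Homotopic.Quotient.mk_surjective m
    have h1 : (γ.map f.continuous).Homotopic (Path.refl _) := Path.Homotopic.Quotient.eq.1 hm
    have h2 : γ.Homotopic (Path.refl x) :=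
      null_congr γ ((γ.map f.continuous).map k.continuous)
        (fun t => (h.symm_apply_apply (γ t)).symm) (h1.map k)
    exact Path.Homotopic.Quotient.eq.2 h2
  · intro m
    obtain ⟨δ, rfl⟩ := Path.Homotopic.Quotient.mk_surjective m
    have hx : x = k (f x) := (h.symm_apply_apply x).symm
    refine ⟨Path.Homotopic.Quotient.mk ((δ.map k.continuous).cast hx hx), ?_⟩
    change Path.Homotopic.Quotient.mk _ = _
    congr 1
    ext t
    exact h.apply_symm_apply (δ t)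

/-- smoothness of a set and of a function off a finite set of values -/
def SmF {T : Type} [Fintype T] (S : Set (T → ℂ)) (f : (T → ℂ) → ℂ) (B : Set ℂ) (p : T → ℂ) :
    Prop :=
  ∃ (E : Type) (_ : NormedAddCommGroup E) (_ : NormedSpace ℂ E) (_ : FiniteDimensional ℂ E)
    (g : (T → ℂ) → E) (U : Set (T → ℂ)),
    IsOpen U ∧ p ∈ U ∧ DifferentiableOn ℂ g U ∧ Function.Surjective (fderiv ℂ g p) ∧
    (∀ z ∈ U, (z ∈ S ↔ g z = 0)) ∧
    (f p ∉ B → ∀ (a : E) (c : ℂ), ∃ v, fderiv ℂ g p v = a ∧ fderiv ℂ f p v = c)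

theorem SmF.sm {T : Type} [Fintype T] {S : Set (T → ℂ)} {f : (T → ℂ) → ℂ} {B : Set ℂ}
    {p : T → ℂ} (h : SmF S f B p) : Sm S p := by
  obtain ⟨E, i1, i2, i3, g, U, h1, h2, h3, h4, h5, -⟩ := h
  exact ⟨E, i1, i2, i3, g, U, h1, h2, h3, h4, h5⟩

/-- affine models -/
structure Mdl (G : Type) [Group G] where
  T : Type
  fT : Fintype T
  S : Set (T → ℂ)
  P : Set (MvPolynomial T ℂ)
  hP : S = {z | ∀ F ∈ P, MvPolynomial.eval z F = 0}
  f : MvPolynomial T ℂ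
  B : Set ℂ
  hB : B.Finite
  sm : ∀ p ∈ S, SmF S (fun z => MvPolynomial.eval z f) B p
  pc : PathConnectedSpace S
  x : S
  e : FundamentalGroup S x ≃* G
  F : Type
  iF1 : NormedAddCommGroup F
  iF2 : NormedSpace ℝ F
  tr : Trv F (fc S f) Bᶜ

attribute [instance] Mdl.fT Mdl.iF1 Mdl.iF2

/-- change of group -/
noncomputable def Mdl.cast {G H : Type} [Group G] [Group H] (M : Mdl G) (e : G ≃* H) : Mdl H :=
  { M with e := M.e.trans e }

/-- translation -/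
noncomputable def Mdl.shift {G : Type} [Group G] (M : Mdl G) (c : ℂ) : Mdl G :=
  { M with
    f := M.f + MvPolynomial.C c
    B := {t | t - c ∈ M.B}
    hB := M.hB.preimage (fun a _ b _ h => by simpa using h)
    sm := by
      intro p hp
      obtain ⟨E, i1, i2, i3, g, U, h1, h2, h3, h4, h5, h6⟩ := M.sm p hp
      refine ⟨E, i1, i2, i3, g, U, h1, h2, h3, h4, h5, fun h a b => ?_⟩
      have e1 : (fun z : M.T → ℂ => MvPolynomial.eval z (M.f + MvPolynomial.C c)) =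
          fun z => MvPolynomial.eval z M.f + c := by
        funext z
        rw [map_add, MvPolynomial.eval_C]
      have e2 : MvPolynomial.eval p (M.f + MvPolynomial.C c) ∉ {t | t - c ∈ M.B} := h
      rw [map_add, MvPolynomial.eval_C] at e2
      obtain ⟨v, hv1, hv2⟩ := h6 (fun hh => e2 (by
        change _ + c - c ∈ M.B
        rw [add_sub_cancel_right]
        exact hh)) a b
      refine ⟨v, hv1, ?_⟩
      rw [e1, fderiv_add_const]
      exact hv2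
    tr :=
      { Φ := M.tr.Φ
        Ψ := fun x => M.tr.Ψ (x.1 - c, x.2)
        hΦ := M.tr.hΦ.mono (fun y hy => by
          have e1 : fc M.S (M.f + MvPolynomial.C c) y = fc M.S M.f y + c := by
            change MvPolynomial.eval y.1 (M.f + MvPolynomial.C c) = _
            rw [map_add, MvPolynomial.eval_C]
            rfl
          intro h
          apply hy
          change _ - c ∈ M.B
          rw [e1, add_sub_cancel_right]
          exact h)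
        hΨ := by
          refine M.tr.hΨ.comp (by fun_prop) ?_
          rintro ⟨t, v⟩ ⟨ht, -⟩
          exact ⟨ht, trivial⟩
        hf := fun t ht v => by
          change MvPolynomial.eval (M.tr.Ψ (t - c, v)).1 (M.f + MvPolynomial.C c) = t
          rw [map_add, MvPolynomial.eval_C]
          have : MvPolynomial.eval (M.tr.Ψ (t - c, v)).1 M.f = t - c := M.tr.hf (t - c) ht v
          rw [this, sub_add_cancel]
        hl := fun t ht v => M.tr.hl (t - c) ht v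
        hr := fun y hy => by
          have e1 : fc M.S (M.f + MvPolynomial.C c) y = fc M.S M.f y + c := by
            change MvPolynomial.eval y.1 (M.f + MvPolynomial.C c) = _
            rw [map_add, MvPolynomial.eval_C]
            rfl
          rw [e1] at hy ⊢
          change M.tr.Ψ (fc M.S M.f y + c - c, M.tr.Φ y) = y
          rw [add_sub_cancel_right]
          refine M.tr.hr y (fun h => hy ?_)
          change _ - c ∈ M.B
          rw [add_sub_cancel_right]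
          exact h } }

theorem Mdl.shift_B {G : Type} [Group G] (M : Mdl G) (c : ℂ) (t : ℂ) :
    t ∈ (M.shift c).B ↔ t - c ∈ M.B := Iff.rfl

section

variable {A B : Type} [Group A] [Group B] (M₁ : Mdl A) (M₂ : Mdl B)

/-- the fibre product -/
def prS : Set (M₁.T ⊕ M₂.T → ℂ) :=
  {z | (z ∘ Sum.inl) ∈ M₁.S ∧ (z ∘ Sum.inr) ∈ M₂.S ∧
    MvPolynomial.eval (z ∘ Sum.inl) M₁.f = MvPolynomial.eval (z ∘ Sum.inr) M₂.f}

theorem prS_smooth (h₁ : ∀ t : ℂ, -1 < t.re → t ∉ M₁.B) (h₂ : ∀ t : ℂ, t.re < 1 → t ∉ M₂.B)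
    (p : M₁.T ⊕ M₂.T → ℂ) (hp : p ∈ prS M₁ M₂) :
    SmF (prS M₁ M₂) (fun z => MvPolynomial.eval z (MvPolynomial.rename Sum.inl M₁.f))
      (M₁.B ∪ M₂.B) p := by
  obtain ⟨hp1, hp2, hp3⟩ := hp
  obtain ⟨E₁, i1, i2, i3, g₁, U₁, a1, a2, a3, a4, a5, a6⟩ := M₁.sm _ hp1
  obtain ⟨E₂, j1, j2, j3, g₂, U₂, b1, b2, b3, b4, b5, b6⟩ := M₂.sm _ hp2
  let r₁ : (M₁.T ⊕ M₂.T → ℂ) →L[ℂ] (M₁.T → ℂ) :=
    ContinuousLinearMap.pi (fun i => ContinuousLinearMap.proj (Sum.inl i))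
  let r₂ : (M₁.T ⊕ M₂.T → ℂ) →L[ℂ] (M₂.T → ℂ) :=
    ContinuousLinearMap.pi (fun i => ContinuousLinearMap.proj (Sum.inr i))
  have hr₁ : ∀ z, r₁ z = z ∘ Sum.inl := fun _ => rfl
  have hr₂ : ∀ z, r₂ z = z ∘ Sum.inr := fun _ => rfl
  let F₁ : (M₁.T → ℂ) → ℂ := fun z => MvPolynomial.eval z M₁.f
  let F₂ : (M₂.T → ℂ) → ℂ := fun z => MvPolynomial.eval z M₂.f
  have hF₁ : Differentiable ℂ F₁ := differentiable_eval M₁.f
  have hF₂ : Differentiable ℂ F₂ := differentiable_eval M₂.f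
  have hg₁ : DifferentiableAt ℂ g₁ (r₁ p) := a3.differentiableAt (a1.mem_nhds a2)
  have hg₂ : DifferentiableAt ℂ g₂ (r₂ p) := b3.differentiableAt (b1.mem_nhds b2)
  let g : (M₁.T ⊕ M₂.T → ℂ) → E₁ × E₂ × ℂ :=
    fun z => (g₁ (r₁ z), g₂ (r₂ z), F₁ (r₁ z) - F₂ (r₂ z))
  have d1 : HasFDerivAt (fun z => g₁ (r₁ z)) ((fderiv ℂ g₁ (r₁ p)).comp r₁) p :=
    hg₁.hasFDerivAt.comp p r₁.hasFDerivAt
  have d2 : HasFDerivAt (fun z => g₂ (r₂ z)) ((fderiv ℂ g₂ (r₂ p)).comp r₂) p :=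
    hg₂.hasFDerivAt.comp p r₂.hasFDerivAt
  have d3 : HasFDerivAt (fun z => F₁ (r₁ z)) ((fderiv ℂ F₁ (r₁ p)).comp r₁) p :=
    (hF₁ (r₁ p)).hasFDerivAt.comp p r₁.hasFDerivAt
  have d4 : HasFDerivAt (fun z => F₂ (r₂ z)) ((fderiv ℂ F₂ (r₂ p)).comp r₂) p :=
    (hF₂ (r₂ p)).hasFDerivAt.comp p r₂.hasFDerivAt
  have dg := d1.prodMk (d2.prodMk (d3.sub d4))
  have hfg : ∀ v, fderiv ℂ g p v = (fderiv ℂ g₁ (r₁ p) (r₁ v), fderiv ℂ g₂ (r₂ p) (r₂ v),
      fderiv ℂ F₁ (r₁ p) (r₁ v) - fderiv ℂ F₂ (r₂ p) (r₂ v)) := by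
    intro v
    have := dg.fderiv
    change fderiv ℂ g p = _ at this
    rw [this]
    rfl
  have hfe : (fun z : M₁.T ⊕ M₂.T → ℂ => MvPolynomial.eval z (MvPolynomial.rename Sum.inl M₁.f)) =
      fun z => F₁ (r₁ z) := by
    funext z
    rw [MvPolynomial.eval_rename]
    rfl
  have hmk : ∀ (z : M₁.T → ℂ) (w : M₂.T → ℂ), ∃ v : M₁.T ⊕ M₂.T → ℂ, r₁ v = z ∧ r₂ v = w :=
    fun z w => ⟨Sum.elim z w, rfl, rfl⟩
  refine ⟨E₁ × E₂ × ℂ, inferInstance, inferInstance, inferInstance, g, r₁ ⁻¹' U₁ ∩ r₂ ⁻¹' U₂,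
    (a1.preimage r₁.continuous).inter (b1.preimage r₂.continuous), ⟨a2, b2⟩, ?_, ?_, ?_, ?_⟩
  · have k1 : DifferentiableOn ℂ (fun z => g₁ (r₁ z)) (r₁ ⁻¹' U₁ ∩ r₂ ⁻¹' U₂) :=
      a3.comp r₁.differentiableOn (fun z hz => hz.1)
    have k2 : DifferentiableOn ℂ (fun z => g₂ (r₂ z)) (r₁ ⁻¹' U₁ ∩ r₂ ⁻¹' U₂) :=
      b3.comp r₂.differentiableOn (fun z hz => hz.2)
    have k3 : Differentiable ℂ (fun z => F₁ (r₁ z)) := hF₁.comp r₁.differentiable
    have k4 : Differentiable ℂ (fun z => F₂ (r₂ z)) := hF₂.comp r₂.differentiable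
    exact k1.prodMk (k2.prodMk (k3.sub k4).differentiableOn)
  · rintro ⟨a, b, c⟩
    by_cases ht : -1 < (F₁ (r₁ p)).re
    · obtain ⟨w, hw⟩ := b4 b
      obtain ⟨z, hz1, hz2⟩ := a6 (h₁ _ ht) a (c + fderiv ℂ F₂ (r₂ p) w)
      obtain ⟨v, rfl, rfl⟩ := hmk z w
      refine ⟨v, ?_⟩
      rw [hfg]
      refine Prod.ext hz1 (Prod.ext hw ?_)
      change fderiv ℂ F₁ (r₁ p) (r₁ v) - fderiv ℂ F₂ (r₂ p) (r₂ v) = c
      have hz2' : fderiv ℂ F₁ (r₁ p) (r₁ v) = c + fderiv ℂ F₂ (r₂ p) (r₂ v) := hz2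
      rw [hz2', add_sub_cancel_right]
    · have ht' : (F₂ (r₂ p)).re < 1 := by
        have : F₁ (r₁ p) = F₂ (r₂ p) := hp3
        rw [← this]
        linarith
      obtain ⟨z, hz⟩ := a4 a
      obtain ⟨w, hw1, hw2⟩ := b6 (h₂ _ ht') b (fderiv ℂ F₁ (r₁ p) z - c)
      obtain ⟨v, rfl, rfl⟩ := hmk z w
      refine ⟨v, ?_⟩
      rw [hfg]
      refine Prod.ext hz (Prod.ext hw1 ?_)
      change fderiv ℂ F₁ (r₁ p) (r₁ v) - fderiv ℂ F₂ (r₂ p) (r₂ v) = c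
      have hw2' : fderiv ℂ F₂ (r₂ p) (r₂ v) = fderiv ℂ F₁ (r₁ p) (r₁ v) - c := hw2
      rw [hw2', sub_sub_cancel]
  · rintro z ⟨hz1, hz2⟩
    constructor
    · rintro ⟨c1, c2, c3⟩
      have e1 : g₁ (r₁ z) = 0 := (a5 _ hz1).1 c1
      have e2 : g₂ (r₂ z) = 0 := (b5 _ hz2).1 c2
      have e3 : F₁ (r₁ z) = F₂ (r₂ z) := c3
      change (g₁ (r₁ z), g₂ (r₂ z), F₁ (r₁ z) - F₂ (r₂ z)) = 0
      rw [e1, e2, e3, sub_self]
      rfl
    · intro h
      have e1 : g₁ (r₁ z) = 0 := congrArg Prod.fst h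
      have e2 : g₂ (r₂ z) = 0 := congrArg (fun x => x.2.1) h
      have e3 : F₁ (r₁ z) - F₂ (r₂ z) = 0 := congrArg (fun x => x.2.2) h
      exact ⟨(a5 _ hz1).2 e1, (b5 _ hz2).2 e2, sub_eq_zero.1 e3⟩
  · intro h ab d
    obtain ⟨a, b, c⟩ := ab
    rw [hfe] at h ⊢
    have hn1 : F₁ (r₁ p) ∉ M₁.B := fun hh => h (Or.inl hh)
    have hn2 : F₂ (r₂ p) ∉ M₂.B := fun hh => h (Or.inr (by
      have : F₁ (r₁ p) = F₂ (r₂ p) := hp3
      change F₁ (r₁ p) ∈ M₂.B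
      rw [this]; exact hh))
    obtain ⟨z, hz1, hz2⟩ := a6 hn1 a d
    obtain ⟨w, hw1, hw2⟩ := b6 hn2 b (d - c)
    obtain ⟨v, rfl, rfl⟩ := hmk z w
    have hz2' : fderiv ℂ F₁ (r₁ p) (r₁ v) = d := hz2
    have hw2' : fderiv ℂ F₂ (r₂ p) (r₂ v) = d - c := hw2
    refine ⟨v, ?_, ?_⟩
    · rw [hfg]
      refine Prod.ext hz1 (Prod.ext hw1 ?_)
      change fderiv ℂ F₁ (r₁ p) (r₁ v) - fderiv ℂ F₂ (r₂ p) (r₂ v) = c
      rw [hz2', hw2', sub_sub_cancel]
    · rw [d3.fderiv]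
      exact hz2'

end

end Pool.Agent.Run7.h562
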