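import Pool.Agent.Run7.h562.Model

/-!
# Products of affine models
-/

set_option autoImplicit false
set_option linter.unusedSectionVars false

open Topology Set unitInterval

namespace Pool.Agent.Run7.h562

open Pool.Agent.Y193.FG Monoid

theorem conn_of_pc {T : Type} {S : Set (T → ℂ)} (h : PathConnectedSpace S) : IsConnected S :=
  (isPathConnected_iff_pathConnectedSpace.2 h).isConnected

section

variable {A B : Type} [Group A] [Group B] (M₁ : Mdl A) (M₂ : Mdl B)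

theorem prod_model (h₁ : ∀ t : ℂ, -1 < t.re → t ∉ M₁.B) (h₂ : ∀ t : ℂ, t.re < 1 → t ∉ M₂.B) :
    Nonempty (Mdl (Coprod A B)) := by
  classical
  have pc1 := M₁.pc
  have pc2 := M₂.pc
  let f : MvPolynomial (M₁.T ⊕ M₂.T) ℂ := MvPolynomial.rename Sum.inl M₁.f
  have hf : ∀ z : M₁.T ⊕ M₂.T → ℂ, MvPolynomial.eval z f =
      MvPolynomial.eval (z ∘ Sum.inl) M₁.f := fun z => MvPolynomial.eval_rename _ _ _
  -- the projections
  let q₁ : C(prS M₁ M₂, M₁.S) := ⟨fun z => ⟨z.1 ∘ Sum.inl, z.2.1⟩, by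
    refine Continuous.subtype_mk ?_ _
    exact continuous_pi (fun i => (continuous_apply _).comp continuous_subtype_val)⟩
  let q₂ : C(prS M₁ M₂, M₂.S) := ⟨fun z => ⟨z.1 ∘ Sum.inr, z.2.2.1⟩, by
    refine Continuous.subtype_mk ?_ _
    exact continuous_pi (fun i => (continuous_apply _).comp continuous_subtype_val)⟩
  let f₁ : C(M₁.S, ℂ) := fc M₁.S M₁.f
  let f₂ : C(M₂.S, ℂ) := fc M₂.S M₂.f
  have hmk : ∀ (a : M₁.S) (b : M₂.S), f₁ a = f₂ b → Sum.elim a.1 b.1 ∈ prS M₁ M₂ := by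
    intro a b hab
    exact ⟨a.2, b.2, hab⟩
  have hC : Crt q₁ q₂ f₁ f₂ := by
    refine ⟨fun x => x.2.2.2, ?_, ?_⟩
    · intro x x' h1 h2
      have h1' : x.1 ∘ Sum.inl = x'.1 ∘ Sum.inl := congrArg Subtype.val h1
      have h2' : x.1 ∘ Sum.inr = x'.1 ∘ Sum.inr := congrArg Subtype.val h2
      apply Subtype.ext
      funext i
      rcases i with i | i
      · exact congrFun h1' i
      · exact congrFun h2' i
    · intro Z _ a b hab
      refine ⟨⟨fun z => ⟨Sum.elim (a z).1 (b z).1, hmk _ _ (hab z)⟩, ?_⟩, fun z => rfl,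
        fun z => rfl⟩
      refine Continuous.subtype_mk (continuous_pi (fun i => ?_)) _
      rcases i with i | i
      · exact (continuous_apply i).comp (continuous_subtype_val.comp a.continuous)
      · exact (continuous_apply i).comp (continuous_subtype_val.comp b.continuous)
  -- trivializations over half planes
  let T₁ : Trv M₁.F f₁ {t : ℂ | -1 < t.re} := M₁.tr.mono (fun t ht => h₁ t ht)
  let T₂ : Trv M₂.F f₂ {t : ℂ | t.re < 1} := M₂.tr.mono (fun t ht => h₂ t ht)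
  -- the base point
  have z1 : (0 : ℂ) ∈ {t : ℂ | -1 < t.re} := by
    change -1 < (0 : ℂ).re
    rw [Complex.zero_re]; norm_num
  have z2 : (0 : ℂ) ∈ {t : ℂ | t.re < 1} := by
    change (0 : ℂ).re < 1
    rw [Complex.zero_re]; norm_num
  have e1 := T₁.hf 0 z1 0
  have e2 := T₂.hf 0 z2 0
  let x₀ : prS M₁ M₂ := ⟨Sum.elim (T₁.Ψ (0, 0)).1 (T₂.Ψ (0, 0)).1,
    hmk _ _ (e1.trans e2.symm)⟩
  have hx₀ : (f₁ (q₁ x₀)).re = 0 := by
    have : f₁ (q₁ x₀) = 0 := e1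
    rw [this]; rfl
  have hpc : PathConnectedSpace (prS M₁ M₂) := by
    refine ⟨⟨x₀⟩, fun x y => ?_⟩
    exact (fib_conn hC T₁ T₂ x₀ hx₀ x).trans (fib_conn hC T₁ T₂ x₀ hx₀ y).symm
  have hsm := prS_smooth M₁ M₂ h₁ h₂
  have hsub : IsSubm (prS M₁ M₂) := subm_of_sm (fun p hp => (hsm p hp).sm)
  have hconn : IsConnected (prS M₁ M₂) := conn_of_pc hpc
  have hlpc := lpc_of_subm hsub hconn
  obtain ⟨E⟩ := fib_vk (slsc_of_subm hsub hconn) hC T₁ T₂ x₀ hx₀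
  let E1 : FundamentalGroup M₁.S (q₁ x₀) ≃* A :=
    (FundamentalGroup.fundamentalGroupMulEquivOfPathConnected (q₁ x₀) M₁.x).trans M₁.e
  let E2 : FundamentalGroup M₂.S (q₂ x₀) ≃* B :=
    (FundamentalGroup.fundamentalGroupMulEquivOfPathConnected (q₂ x₀) M₂.x).trans M₂.e
  have hD1 : ∀ t ∈ (M₁.B ∪ M₂.B)ᶜ, t ∈ M₁.Bᶜ := fun t ht h => ht (Or.inl h)
  have hD2 : ∀ t ∈ (M₁.B ∪ M₂.B)ᶜ, t ∈ M₂.Bᶜ := fun t ht h => ht (Or.inr h)
  have hfy : ∀ y : prS M₁ M₂, fc (prS M₁ M₂) f y = f₁ (q₁ y) := fun y => hf y.1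
  refine ⟨
    { T := M₁.T ⊕ M₂.T
      fT := inferInstance
      S := prS M₁ M₂
      P := MvPolynomial.rename Sum.inl '' M₁.P ∪ MvPolynomial.rename Sum.inr '' M₂.P ∪
        {MvPolynomial.rename Sum.inl M₁.f - MvPolynomial.rename Sum.inr M₂.f}
      hP := ?_
      f := f
      B := M₁.B ∪ M₂.B
      hB := M₁.hB.union M₂.hB
      sm := hsm
      pc := hpc
      x := x₀
      e := E.trans (MulEquiv.coprodCongr E1 E2)
      F := M₁.F × M₂.F
      iF1 := inferInstance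
      iF2 := inferInstance
      tr :=
        { Φ := fun y => (M₁.tr.Φ (q₁ y), M₂.tr.Φ (q₂ y))
          Ψ := fun x => if h : x.1 ∈ (M₁.B ∪ M₂.B)ᶜ then
            ⟨Sum.elim (M₁.tr.Ψ (x.1, x.2.1)).1 (M₂.tr.Ψ (x.1, x.2.2)).1, hmk _ _ (by
              change fc M₁.S M₁.f _ = fc M₂.S M₂.f _
              rw [M₁.tr.hf _ (hD1 _ h), M₂.tr.hf _ (hD2 _ h)])⟩ else x₀
          hΦ := ?_
          hΨ := ?_
          hf := ?_
          hl := ?_
          hr := ?_ } }⟩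
  · ext z
    constructor
    · rintro ⟨c1, c2, c3⟩ G hG
      rcases hG with (⟨G, hG, rfl⟩ | ⟨G, hG, rfl⟩) | hG
      · rw [MvPolynomial.eval_rename]
        rw [M₁.hP] at c1
        exact c1 G hG
      · rw [MvPolynomial.eval_rename]
        rw [M₂.hP] at c2
        exact c2 G hG
      · rw [Set.mem_singleton_iff.1 hG, map_sub, MvPolynomial.eval_rename,
          MvPolynomial.eval_rename, c3, sub_self]
    · intro hz
      refine ⟨?_, ?_, ?_⟩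
      · rw [M₁.hP]
        intro G hG
        rw [← MvPolynomial.eval_rename]
        exact hz _ (Or.inl (Or.inl ⟨G, hG, rfl⟩))
      · rw [M₂.hP]
        intro G hG
        rw [← MvPolynomial.eval_rename]
        exact hz _ (Or.inl (Or.inr ⟨G, hG, rfl⟩))
      · have h1 := hz _ (Or.inr rfl)
        rw [map_sub, MvPolynomial.eval_rename, MvPolynomial.eval_rename] at h1
        exact sub_eq_zero.1 h1
  · have k1 : ContinuousOn (fun y : prS M₁ M₂ => M₁.tr.Φ (q₁ y))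
        {y | fc (prS M₁ M₂) f y ∈ (M₁.B ∪ M₂.B)ᶜ} := by
      refine M₁.tr.hΦ.comp q₁.continuous.continuousOn (fun y hy => ?_)
      have hy' : fc (prS M₁ M₂) f y ∈ (M₁.B ∪ M₂.B)ᶜ := hy
      rw [hfy] at hy'
      exact hD1 _ hy'
    have k2 : ContinuousOn (fun y : prS M₁ M₂ => M₂.tr.Φ (q₂ y))
        {y | fc (prS M₁ M₂) f y ∈ (M₁.B ∪ M₂.B)ᶜ} := by
      refine M₂.tr.hΦ.comp q₂.continuous.continuousOn (fun y hy => ?_)
      have hy' : fc (prS M₁ M₂) f y ∈ (M₁.B ∪ M₂.B)ᶜ := hy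
      rw [hfy, hC.hq] at hy'
      exact hD2 _ hy'
    exact k1.prodMk k2
  · rw [IsInducing.subtypeVal.continuousOn_iff]
    have k1 : ContinuousOn (fun x : ℂ × (M₁.F × M₂.F) => (M₁.tr.Ψ (x.1, x.2.1)).1)
        ((M₁.B ∪ M₂.B)ᶜ ×ˢ univ) := by
      refine continuous_subtype_val.comp_continuousOn (M₁.tr.hΨ.comp (by fun_prop) ?_)
      rintro x ⟨hx, -⟩
      exact ⟨hD1 _ hx, trivial⟩
    have k2 : ContinuousOn (fun x : ℂ × (M₁.F × M₂.F) => (M₂.tr.Ψ (x.1, x.2.2)).1)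
        ((M₁.B ∪ M₂.B)ᶜ ×ˢ univ) := by
      refine continuous_subtype_val.comp_continuousOn (M₂.tr.hΨ.comp (by fun_prop) ?_)
      rintro x ⟨hx, -⟩
      exact ⟨hD2 _ hx, trivial⟩
    have k3 : ContinuousOn (fun x : ℂ × (M₁.F × M₂.F) =>
        (Sum.elim (M₁.tr.Ψ (x.1, x.2.1)).1 (M₂.tr.Ψ (x.1, x.2.2)).1 : M₁.T ⊕ M₂.T → ℂ))
        ((M₁.B ∪ M₂.B)ᶜ ×ˢ univ) := by
      rw [continuousOn_pi]
      rintro (i | i)
      · exact (continuous_apply i).comp_continuousOn k1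
      · exact (continuous_apply i).comp_continuousOn k2
    refine k3.congr ?_
    rintro x ⟨hx, -⟩
    change Subtype.val (dite _ _ _) = _
    rw [dif_pos hx]
  · intro t ht v
    change fc (prS M₁ M₂) f (dite _ _ _) = t
    rw [dif_pos (show (t, v).1 ∈ (M₁.B ∪ M₂.B)ᶜ from ht), hfy]
    exact M₁.tr.hf t (hD1 _ ht) v.1
  · intro t ht v
    change (M₁.tr.Φ (q₁ (dite _ _ _)), M₂.tr.Φ (q₂ (dite _ _ _))) = v
    rw [dif_pos (show (t, v).1 ∈ (M₁.B ∪ M₂.B)ᶜ from ht)]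
    exact Prod.ext (M₁.tr.hl t (hD1 _ ht) v.1) (M₂.tr.hl t (hD2 _ ht) v.2)
  · intro y hy
    change (dite _ _ _ : prS M₁ M₂) = y
    rw [dif_pos (show (fc (prS M₁ M₂) f y, (M₁.tr.Φ (q₁ y), M₂.tr.Φ (q₂ y))).1 ∈
      (M₁.B ∪ M₂.B)ᶜ from hy)]
    have hy' := hy
    rw [hfy] at hy'
    apply hC.hinj
    · change (⟨(M₁.tr.Ψ (fc (prS M₁ M₂) f y, M₁.tr.Φ (q₁ y))).1, _⟩ : M₁.S) = q₁ y
      apply Subtype.ext
      change (M₁.tr.Ψ (fc (prS M₁ M₂) f y, M₁.tr.Φ (q₁ y))).1 = _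
      rw [hfy]
      exact congrArg Subtype.val (M₁.tr.hr (q₁ y) (hD1 _ hy'))
    · apply Subtype.ext
      change (M₂.tr.Ψ (fc (prS M₁ M₂) f y, M₂.tr.Φ (q₂ y))).1 = _
      rw [hfy, hC.hq]
      rw [hC.hq] at hy'
      exact congrArg Subtype.val (M₂.tr.hr (q₂ y) (hD2 _ hy'))

end

/-- **closure under free products** -/
theorem Mdl.coprod {A B : Type} [Group A] [Group B] (M₁ : Mdl A) (M₂ : Mdl B) :
    Nonempty (Mdl (Coprod A B)) := by
  obtain ⟨K₁, hK₁⟩ := (M₁.hB.image Complex.re).bddAbove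
  obtain ⟨K₂, hK₂⟩ := (M₂.hB.image Complex.re).bddBelow
  refine prod_model (M₁.shift ((-(K₁ + 1) : ℝ) : ℂ)) (M₂.shift ((1 - K₂ : ℝ) : ℂ)) ?_ ?_
  · intro t ht h
    have h1 : (t - ((-(K₁ + 1) : ℝ) : ℂ)).re ≤ K₁ := hK₁ ⟨_, h, rfl⟩
    rw [Complex.sub_re, Complex.ofReal_re] at h1
    linarith
  · intro t ht h
    have h1 : K₂ ≤ (t - ((1 - K₂ : ℝ) : ℂ)).re := hK₂ ⟨_, h, rfl⟩
    rw [Complex.sub_re, Complex.ofReal_re] at h1
    linarith

end Pool.Agent.Run7.h562
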