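import Pool.Agent.Run7.h562.Strip
import Pool.Agent.Run7.h562.CovTree

/-!
# The tree of a pencil, preparations
-/

set_option autoImplicit false
set_option linter.unusedSectionVars false

open Topology Set unitInterval

namespace Pool.Agent.Run7.h562

open Pool.Agent.Y193.FG

/-- lifting of homotopic paths -/
theorem lift_path {E X : Type} [TopologicalSpace E] [TopologicalSpace X] {p : C(E, X)}
    (cov : IsCoveringMap p) {e₀ e₁ : E} (γ : Path e₀ e₁) (γ' : Path (p e₀) (p e₁))
    (h : (γ.map p.continuous).Homotopic γ') :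
    ∃ Γ : Path e₀ e₁, ∀ t, p (Γ t) = γ' t := by
  obtain ⟨Γ, hΓ, hΓ0⟩ := cov.exists_path_lifts γ' e₀ γ'.source
  have h1 : Γ 1 = e₁ := by
    have h2 := cov.liftPath_apply_one_eq_of_homotopicRel
      (γ₀ := (γ.map p.continuous).toContinuousMap) (γ₁ := γ'.toContinuousMap) h e₀
      (by simp) (by simp)
    have h3 : γ.toContinuousMap = cov.liftPath (γ.map p.continuous).toContinuousMap e₀ (by simp) :=
      (cov.eq_liftPath_iff' _).2 ⟨rfl, γ.source⟩
    have h4 : Γ = cov.liftPath γ'.toContinuousMap e₀ (by simp) :=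
      (cov.eq_liftPath_iff' _).2 ⟨hΓ, hΓ0⟩
    rw [h4, ← h2, ← h3]
    exact γ.target
  exact ⟨⟨Γ, hΓ0, h1⟩, fun t => congrFun hΓ t⟩

/-- a path whose projection is null-homotopic is closed -/
theorem lift_null {E X : Type} [TopologicalSpace E] [TopologicalSpace X] {p : C(E, X)}
    (cov : IsCoveringMap p) {e₀ e₁ : E} (γ : Path e₀ e₁) (γ' : Path (p e₀) (p e₀))
    (h : ∀ t, γ' t = p (γ t)) (hn : γ'.Homotopic (Path.refl _)) : e₁ = e₀ := by
  have h2 := cov.liftPath_apply_one_eq_of_homotopicRel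
      (γ₀ := γ'.toContinuousMap) (γ₁ := (Path.refl (p e₀)).toContinuousMap) hn e₀
      (by simp) (by simp)
  have h3 : γ.toContinuousMap = cov.liftPath γ'.toContinuousMap e₀ (by simp) :=
    (cov.eq_liftPath_iff' _).2 ⟨by funext t; exact (h t).symm, γ.source⟩
  have h4 : ContinuousMap.const I e₀ =
      cov.liftPath (Path.refl (p e₀)).toContinuousMap e₀ (by simp) :=
    (cov.eq_liftPath_iff' _).2 ⟨rfl, rfl⟩
  rw [← h3, ← h4] at h2
  have h5 : γ 1 = e₀ := h2
  rwa [γ.target] at h5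

section

variable {T : Type} [Fintype T] {X : Set (T → ℂ)} {f : MvPolynomial T ℂ}
  {U : Type} [TopologicalSpace U] (p : C(U, X)) (cov : IsCoveringMap p)
  {G : Type} [Group G] [MulAction G U]
  (hGc : ∀ g : G, Continuous (fun u : U => g • u)) (hGp : ∀ (g : G) (u : U), p (g • u) = p u)
  (hGf : ∀ (g : G) (u : U), g • u = u → g = 1)
  {B : Set ℂ}

/-- the hypothesis on loops with trivial image in the base -/
def HypB (X : Set (T → ℂ)) (f : MvPolynomial T ℂ) (B : Set ℂ) : Prop :=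
  ∀ (x : X) (γ : Path x x) (hγ : ∀ t, (γ.map (fc X f).continuous) t ∈ Bᶜ),
    (cod (γ.map (fc X f).continuous) hγ).Homotopic (Path.refl _) → γ.Homotopic (Path.refl x)

variable (H1 : HypB X f B)

include cov hGp hGf H1 in
theorem triv_of_null (g : G) (u : U) (Γ : Path u (g • u)) {z₀ : ℂ} (δ : Path z₀ z₀)
    (hδ : ∀ t, δ t = fc X f (p (Γ t))) (hδ' : ∀ t, δ t ∈ Bᶜ)
    (hn : (cod δ hδ').Homotopic (Path.refl _)) : g = 1 := by
  let γ : Path (p u) (p u) := (Γ.map p.continuous).cast rfl (hGp g u).symm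
  have hγ : ∀ t, (γ.map (fc X f).continuous) t ∈ Bᶜ := fun t => by
    have h1 : (γ.map (fc X f).continuous) t = δ t := (hδ t).symm
    rw [h1]
    exact hδ' t
  have h1 : γ.Homotopic (Path.refl _) := by
    refine H1 (p u) γ hγ (null_congr _ (cod δ hδ') (fun t => ?_) hn)
    exact Subtype.ext (hδ t).symm
  exact hGf g u (lift_null cov Γ γ (fun _ => rfl) h1)

/-- the closed path under a path of the cover -/
noncomputable def undr (g : G) (u : U) (Γ : Path u (g • u)) : Path (fc X f (p u)) (fc X f (p u)) :=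
  (Γ.map ((fc X f).comp p).continuous).cast rfl (by
    change fc X f (p u) = fc X f (p (g • u))
    rw [hGp])

include cov hGp hGf H1 in
theorem stab_off (L : ℂ →L[ℝ] ℝ) (g : G) (u : U)
    (h : JoinedIn {u : U | ∀ b ∈ B, L (fc X f (p u)) ≠ L b} u (g • u)) : g = 1 := by
  obtain ⟨Γ, hΓ⟩ := h
  have hδ : ∀ t, ∀ b ∈ B, L ((undr (f := f) p hGp g u Γ) t) ≠ L b := fun t => hΓ t
  have hδ' : ∀ t, (undr (f := f) p hGp g u Γ) t ∈ Bᶜ := fun t hb => hδ t _ hb rfl
  exact triv_of_null p cov hGp hGf H1 g u Γ (undr (f := f) p hGp g u Γ) (fun _ => rfl) hδ'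
    (null_off L _ hδ hδ')

/-- the relation between group elements and winding numbers -/
def Rel (f : MvPolynomial T ℂ) (D : Set ℂ) (b : ℂ) (u : U) (g : G) (n : ℤ) : Prop :=
  ∃ Γ : Path u (g • u), (∀ t, fc X f (p (Γ t)) ∈ D) ∧
    ∃ (a : ℂ) (η : Path a (a + 2 * Real.pi * Complex.I * n)),
      ∀ t, Complex.exp (η t) = fc X f (p (Γ t)) - b

theorem exp_period (n : ℤ) : Complex.exp (2 * Real.pi * Complex.I * n) = 1 := by
  rw [Complex.exp_eq_one_iff]
  exact ⟨n, by ring⟩

include hGc hGp in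
theorem rel_mul {D : Set ℂ} {b : ℂ} {u : U} {g g' : G} {n n' : ℤ}
    (h : Rel p f D b u g n) (h' : Rel p f D b u g' n') : Rel p f D b u (g * g') (n + n') := by
  obtain ⟨Γ, hΓ, a, η, hη⟩ := h
  obtain ⟨Γ', hΓ', a', η', hη'⟩ := h'
  let Γ'' : Path (g • u) ((g * g') • u) := (Γ'.map (hGc g)).cast rfl (mul_smul g g' u)
  have e1 : ∀ t, fc X f (p (Γ'' t)) = fc X f (p (Γ' t)) := fun t => by
    change fc X f (p (g • Γ' t)) = _
    rw [hGp]
  have hper : Complex.exp (a + 2 * Real.pi * Complex.I * n - a') = 1 := by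
    have h1 := hη 1
    have h2 := hη' 0
    rw [η.target, Γ.target, hGp] at h1
    rw [η'.source, Γ'.source] at h2
    rw [Complex.exp_sub, h1, h2, div_self]
    rw [← h2]
    exact Complex.exp_ne_zero _
  let c : ℂ := a + 2 * Real.pi * Complex.I * n - a'
  have hc0 : a + 2 * Real.pi * Complex.I * n = a' + c := by
    change _ = a' + (a + 2 * Real.pi * Complex.I * n - a')
    ring
  have hc1 : a + 2 * Real.pi * Complex.I * ((n + n' : ℤ) : ℂ) =
      (a' + 2 * Real.pi * Complex.I * n') + c := by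
    change _ = _ + (a + 2 * Real.pi * Complex.I * n - a')
    push_cast
    ring
  let η'' : Path (a + 2 * Real.pi * Complex.I * n)
      (a + 2 * Real.pi * Complex.I * ((n + n' : ℤ) : ℂ)) :=
    (η'.map (f := fun z => z + c) (by fun_prop)).cast hc0 hc1
  have e2 : ∀ t, Complex.exp (η'' t) = fc X f (p (Γ'' t)) - b := fun t => by
    change Complex.exp (η' t + c) = _
    rw [Complex.exp_add, hper, mul_one, e1, hη']
  refine ⟨Γ.trans Γ'', ?_, a, η.trans η'', ?_⟩
  · intro t
    rw [Path.trans_apply]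
    split_ifs
    · exact hΓ _
    · rw [e1]; exact hΓ' _
  · intro t
    rw [Path.trans_apply, Path.trans_apply]
    split_ifs
    · exact hη _
    · exact e2 _

include hGc hGp in
theorem rel_inv {D : Set ℂ} {b : ℂ} {u : U} {g : G} {n : ℤ}
    (h : Rel p f D b u g n) : Rel p f D b u g⁻¹ (-n) := by
  obtain ⟨Γ, hΓ, a, η, hη⟩ := h
  let Γ'' : Path u (g⁻¹ • u) := (Γ.symm.map (hGc g⁻¹)).cast (by rw [inv_smul_smul]) rfl
  have e1 : ∀ t, fc X f (p (Γ'' t)) = fc X f (p (Γ (σ t))) := fun t => by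
    change fc X f (p (g⁻¹ • Γ (σ t))) = _
    rw [hGp]
  refine ⟨Γ'', fun t => ?_, a + 2 * Real.pi * Complex.I * n, η.symm.cast rfl ?_, fun t => ?_⟩
  · rw [e1]
    exact hΓ _
  · push_cast
    ring
  · rw [e1]
    exact hη _

theorem rel_one {D : Set ℂ} {b : ℂ} {u : U} (hu : fc X f (p u) ∈ D) (hub : fc X f (p u) ≠ b) :
    Rel (G := G) p f D b u 1 0 := by
  refine ⟨(Path.refl u).cast rfl (one_smul G u), fun t => hu, Complex.log (fc X f (p u) - b),
    (Path.refl _).cast rfl ?_, fun t => ?_⟩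
  · push_cast
    ring
  · change Complex.exp (Complex.log (fc X f (p u) - b)) = fc X f (p u) - b
    exact Complex.exp_log (sub_ne_zero.2 hub)

/-- the relation as a subgroup -/
def RR (f : MvPolynomial T ℂ) {D : Set ℂ} {b : ℂ} {u : U} (hu : fc X f (p u) ∈ D)
    (hub : fc X f (p u) ≠ b) : Subgroup (G × Multiplicative ℤ) where
  carrier := {x | Rel p f D b u x.1 (Multiplicative.toAdd x.2)}
  mul_mem' := fun {x y} hx hy => by
    have := rel_mul p hGc hGp hx hy
    exact this
  one_mem' := rel_one p hu hub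
  inv_mem' := fun {x} hx => by
    have := rel_inv p hGc hGp hx
    exact this

end

end Pool.Agent.Run7.h562
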