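import Pool.Agent.Run7.h562.Chart

/-!
# Generic squarefree parts
-/

set_option autoImplicit false

open Polynomial

namespace Pool.Agent.Run7.h562

theorem exists_sqf {K : Type} [Field K] (n : ℕ) : ∀ p : K[X], p ≠ 0 → p.natDegree ≤ n →
    ∃ (q : K[X]) (N : ℕ), Squarefree q ∧ q ∣ p ∧ p ∣ q ^ (N + 1) := by
  induction n with
  | zero =>
    intro p hp hn
    refine ⟨p, 0, ?_, dvd_rfl, by simp⟩
    have : p.natDegree = 0 := Nat.le_zero.1 hn
    have hu : IsUnit p := by
      rw [eq_C_of_natDegree_eq_zero this] at hp ⊢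
      exact isUnit_C.2 (isUnit_iff_ne_zero.2 (fun h => hp (by rw [h, C_0])))
    exact hu.squarefree
  | succ n ih =>
    intro p hp hn
    by_cases hs : Squarefree p
    · exact ⟨p, 0, hs, dvd_rfl, by simp⟩
    · unfold Squarefree at hs
      push Not at hs
      obtain ⟨x, ⟨y, hy⟩, hx⟩ := hs
      have hx0 : x ≠ 0 := by
        rintro rfl
        apply hp
        rw [hy]; simp
      have hy0 : y ≠ 0 := by
        rintro rfl
        apply hp
        rw [hy]; simp
      have hd : 0 < x.natDegree := by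
        rw [Nat.pos_iff_ne_zero]
        intro h0
        apply hx
        rw [eq_C_of_natDegree_eq_zero h0] at hx0 ⊢
        exact isUnit_C.2 (isUnit_iff_ne_zero.2 (fun h => hx0 (by rw [h, C_0])))
      have hdeg : (x * y).natDegree ≤ n := by
        rw [natDegree_mul hx0 hy0]
        rw [hy, natDegree_mul (mul_ne_zero hx0 hx0) hy0, natDegree_mul hx0 hx0] at hn
        omega
      obtain ⟨q, N, h1, h2, h3⟩ := ih (x * y) (mul_ne_zero hx0 hy0) hdeg
      refine ⟨q, 2 * (N + 1) - 1, h1, h2.trans ⟨x, by rw [hy]; ring⟩, ?_⟩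
      have h4 : p ∣ (x * y) ^ 2 := ⟨y, by rw [hy]; ring⟩
      refine h4.trans ?_
      have h5 : 2 * (N + 1) - 1 + 1 = (N + 1) * 2 := by omega
      rw [h5, pow_mul]
      exact pow_dvd_pow_of_dvd h3 2

variable {σ : Type} [Finite σ]

/-- generic squarefree part -/
theorem sqf_part (p : (MvPolynomial σ ℂ)[X]) (hp : p ≠ 0) :
    ∃ (δ : MvPolynomial σ ℂ) (Q : (MvPolynomial σ ℂ)[X]), δ ≠ 0 ∧
      ∀ b, MvPolynomial.eval b δ ≠ 0 → MvPolynomial.eval b Q.leadingCoeff ≠ 0 ∧
        (∀ z, (Q.map (ev b)).eval z = 0 ↔ (p.map (ev b)).eval z = 0) ∧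
        (∀ z, (Q.map (ev b)).eval z = 0 → (derivative (Q.map (ev b))).eval z ≠ 0) := by
  classical
  have hcz : CharZero (FractionRing (MvPolynomial σ ℂ)) :=
    charZero_of_injective_algebraMap (IsFractionRing.injective (MvPolynomial σ ℂ)
      (FractionRing (MvPolynomial σ ℂ)))
  have hmi : Function.Injective (Polynomial.map (algebraMap (MvPolynomial σ ℂ)
      (FractionRing (MvPolynomial σ ℂ)))) :=
    Polynomial.map_injective _ (IsFractionRing.injective _ _)
  have hp0 : p.map (algebraMap (MvPolynomial σ ℂ) (FractionRing (MvPolynomial σ ℂ))) ≠ 0 := by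
    intro h
    exact hp (hmi (h.trans (Polynomial.map_zero _).symm))
  obtain ⟨q, N, h1, ⟨h, h2⟩, ⟨k, h3⟩⟩ := exists_sqf _ _ hp0 le_rfl
  obtain ⟨u, v, huv⟩ := PerfectField.separable_iff_squarefree.2 h1
  obtain ⟨b, g, hb, hg⟩ := exists_clear (fun i : Fin 5 => ![q, h, k, u, v] i)
  have hgQ : (g 0).map (algebraMap (MvPolynomial σ ℂ) (FractionRing (MvPolynomial σ ℂ))) =
    C (algebraMap _ _ b) * q := hg 0
  have hgH : (g 1).map (algebraMap (MvPolynomial σ ℂ) (FractionRing (MvPolynomial σ ℂ))) =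
    C (algebraMap _ _ b) * h := hg 1
  have hgK : (g 2).map (algebraMap (MvPolynomial σ ℂ) (FractionRing (MvPolynomial σ ℂ))) =
    C (algebraMap _ _ b) * k := hg 2
  have hgU : (g 3).map (algebraMap (MvPolynomial σ ℂ) (FractionRing (MvPolynomial σ ℂ))) =
    C (algebraMap _ _ b) * u := hg 3
  have hgV : (g 4).map (algebraMap (MvPolynomial σ ℂ) (FractionRing (MvPolynomial σ ℂ))) =
    C (algebraMap _ _ b) * v := hg 4
  have r1 : g 0 * g 1 = C (b ^ 2) * p := by
    apply hmi
    rw [Polynomial.map_mul, Polynomial.map_mul, hgQ, hgH, map_C, h2, map_pow, C_pow]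
    ring
  have r2 : C b * g 0 ^ (N + 1) = C (b ^ (N + 1)) * p * g 2 := by
    apply hmi
    rw [Polynomial.map_mul, Polynomial.map_pow, Polynomial.map_mul, Polynomial.map_mul, hgQ, hgK,
      map_C, map_C, mul_pow, h3, map_pow, C_pow]
    ring
  have r3 : g 3 * g 0 + g 4 * derivative (g 0) = C (b ^ 2) := by
    apply hmi
    rw [Polynomial.map_add, Polynomial.map_mul, Polynomial.map_mul, ← derivative_map, hgQ, hgU,
      hgV, map_C, map_pow, C_pow, derivative_C_mul]
    linear_combination (C (algebraMap (MvPolynomial σ ℂ) (FractionRing (MvPolynomial σ ℂ)) b)) ^ 2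
      * huv
  have hQ0 : g 0 ≠ 0 := by
    intro h0
    rw [h0, zero_mul] at r1
    have := r1.symm
    rw [mul_eq_zero] at this
    rcases this with h | h
    · rw [C_eq_zero] at h
      exact pow_ne_zero 2 hb h
    · exact hp h
  refine ⟨b * (g 0).leadingCoeff, g 0, mul_ne_zero hb (leadingCoeff_ne_zero.2 hQ0), ?_⟩
  intro x hx
  rw [map_mul] at hx
  have hbx := left_ne_zero_of_mul hx
  refine ⟨right_ne_zero_of_mul hx, fun z => ?_, fun z hz hz' => ?_⟩
  · have e1 := congrArg (ev2 x z) r1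
    have e2 := congrArg (ev2 x z) r2
    rw [map_mul, map_mul, ev2_C, map_pow] at e1
    rw [map_mul, map_mul, map_mul, ev2_C, ev2_C, map_pow, map_pow] at e2
    rw [← ev2_apply, ← ev2_apply]
    constructor
    · intro h0
      rw [h0, zero_mul] at e1
      exact (mul_eq_zero.1 e1.symm).resolve_left (pow_ne_zero 2 hbx)
    · intro h0
      rw [h0, mul_zero, zero_mul] at e2
      exact pow_eq_zero_iff (by omega) |>.1 ((mul_eq_zero.1 e2).resolve_left hbx)
  · have e3 := congrArg (ev2 x z) r3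
    rw [map_add, map_mul, map_mul, ev2_C, map_pow, ev2_apply x z (g 0), hz, mul_zero, zero_add,
      ev2_apply x z (derivative (g 0)), ← derivative_map, hz', mul_zero] at e3
    exact pow_ne_zero 2 hbx e3.symm

end Pool.Agent.Run7.h562
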