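import Pool.Agent.Run7.h562.FibreMain
import Pool.Agent.Run7.h562.CovTree

/-!
# Loops in strips
-/

set_option autoImplicit false
set_option linter.unusedSectionVars false

open Topology Set unitInterval

namespace Pool.Agent.Run7.h562

/-- a null-homotopy given by a formula -/
theorem null_of_H {Y : Type} [TopologicalSpace Y] {S : Set Y} {a : Y} (δ : Path a a)
    (hδ : ∀ t, δ t ∈ S) (H : C(I × I, Y)) (hH : ∀ x, H x ∈ S) (h0 : ∀ t, H (0, t) = δ t)
    (h1 : ∀ t, H (1, t) = a) (h2 : ∀ s, H (s, 0) = a) (h3 : ∀ s, H (s, 1) = a) :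
    (cod δ hδ).Homotopic (Path.refl _) := by
  refine ⟨⟨⟨⟨fun x => ⟨H x, hH x⟩, Continuous.subtype_mk H.continuous _⟩, fun t => ?_,
    fun t => ?_⟩, fun s t ht => ?_⟩⟩
  · exact Subtype.ext (h0 t)
  · exact Subtype.ext (h1 t)
  · rcases ht with ht | ht
    · have ht' : t = 0 := ht
      subst ht'
      apply Subtype.ext
      change H (s, 0) = δ 0
      rw [h2, δ.source]
    · have ht' : t = 1 := ht
      subst ht'
      apply Subtype.ext
      change H (s, 1) = δ 1
      rw [h3, δ.target]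

variable (L : ℂ →L[ℝ] ℝ) {B : Set ℂ}

/-- loops which do not cross the lines through the bad points -/
theorem null_off {z₀ : ℂ} (δ : Path z₀ z₀) (hδ : ∀ t, ∀ b ∈ B, L (δ t) ≠ L b)
    (hδ' : ∀ t, δ t ∈ Bᶜ) : (cod δ hδ').Homotopic (Path.refl _) := by
  let H : C(I × I, ℂ) := ⟨fun x => ((1 - (x.1 : ℝ) : ℝ) : ℂ) * δ x.2 + (((x.1 : ℝ)) : ℂ) * z₀, by
    fun_prop⟩
  refine null_of_H δ hδ' H ?_ ?_ ?_ ?_ ?_
  · rintro ⟨s, t⟩ hb
    set b := H (s, t) with hbdef
    have hL : L b = (1 - (s : ℝ)) * L (δ t) + (s : ℝ) * L z₀ := by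
      rw [hbdef]
      change L (((1 - (s : ℝ) : ℝ) : ℂ) * δ t + (((s : ℝ)) : ℂ) * z₀) = _
      rw [map_add, ← Complex.real_smul, ← Complex.real_smul, map_smul, map_smul]
      rfl
    -- the value is attained on the path
    have hcont : Continuous (fun t : I => L (δ t)) := L.continuous.comp δ.continuous
    have hmem : L b ∈ Set.range (fun t : I => L (δ t)) := by
      have hconn : IsPreconnected (Set.range (fun t : I => L (δ t))) := isPreconnected_range hcont
      have hcv : Convex ℝ (Set.range (fun t : I => L (δ t))) := hconn.ordConnected.convex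
      have h1 : L (δ t) ∈ Set.range (fun t : I => L (δ t)) := ⟨t, rfl⟩
      have h2 : L z₀ ∈ Set.range (fun t : I => L (δ t)) := ⟨0, by simp⟩
      have h3 := hcv h1 h2 (show (0 : ℝ) ≤ 1 - s by linarith [s.2.2]) s.2.1 (by ring)
      rw [hL]
      exact h3
    obtain ⟨t', ht'⟩ := hmem
    exact hδ t' b hb ht'
  · intro t
    change ((1 - ((0 : I) : ℝ) : ℝ) : ℂ) * δ t + ((((0 : I) : ℝ)) : ℂ) * z₀ = δ t
    simp
  · intro t
    change ((1 - ((1 : I) : ℝ) : ℝ) : ℂ) * δ t + ((((1 : I) : ℝ)) : ℂ) * z₀ = z₀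
    simp
  · intro s
    change ((1 - (s : ℝ) : ℝ) : ℂ) * δ 0 + (((s : ℝ)) : ℂ) * z₀ = z₀
    rw [δ.source]
    push_cast
    ring
  · intro s
    change ((1 - (s : ℝ) : ℝ) : ℂ) * δ 1 + (((s : ℝ)) : ℂ) * z₀ = z₀
    rw [δ.target]
    push_cast
    ring

/-- loops in a punctured strip with a closed logarithm -/
theorem null_log {b : ℂ} {ε : ℝ} (hε : 0 < ε) (hB : ∀ z, |L z - L b| < ε → z ∈ B → z = b)
    {z₀ : ℂ} (δ : Path z₀ z₀) (hδ : ∀ t, |L (δ t) - L b| < ε) (h : C(I, ℂ))
    (hh : ∀ t, Complex.exp (h t) = δ t - b) (hcl : h 1 = h 0)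
    (hδ' : ∀ t, δ t ∈ Bᶜ) : (cod δ hδ').Homotopic (Path.refl _) := by
  -- the domain of the logarithm
  let S : Set ℂ := {w | |L (Complex.exp w)| < ε}
  have hS : ∀ w ∈ S, ∀ s : ℝ, 0 ≤ s → w - (s : ℂ) ∈ S := by
    intro w hw s hs
    change |L (Complex.exp (w - s))| < ε
    have h1 : Complex.exp (w - s) = (Real.exp (-s)) • Complex.exp w := by
      rw [sub_eq_add_neg, Complex.exp_add, mul_comm, Complex.real_smul]
      push_cast
      rfl
    rw [h1, map_smul, smul_eq_mul, abs_mul, abs_of_pos (Real.exp_pos _)]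
    have h2 : Real.exp (-s) ≤ 1 := Real.exp_le_one_iff.2 (by linarith)
    calc Real.exp (-s) * |L (Complex.exp w)| ≤ 1 * |L (Complex.exp w)| :=
          mul_le_mul_of_nonneg_right h2 (abs_nonneg _)
      _ < ε := by rw [one_mul]; exact hw
  obtain ⟨c, hc⟩ : ∃ c : ℝ, ∀ w : ℂ, w.re < c → w ∈ S := by
    refine ⟨Real.log (ε / (‖L‖ + 1)), fun w hw => ?_⟩
    have h1 : |L (Complex.exp w)| ≤ ‖L‖ * Real.exp w.re := by
      rw [← Real.norm_eq_abs, ← Complex.norm_exp]
      exact L.le_opNorm _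
    have h2 : Real.exp w.re < ε / (‖L‖ + 1) := by
      have := Real.exp_lt_exp.2 hw
      rwa [Real.exp_log (by positivity)] at this
    have h3 : (0 : ℝ) ≤ ‖L‖ := norm_nonneg _
    calc |L (Complex.exp w)| ≤ ‖L‖ * Real.exp w.re := h1
      _ ≤ (‖L‖ + 1) * Real.exp w.re :=
        mul_le_mul_of_nonneg_right (by linarith) (Real.exp_pos _).le
      _ < (‖L‖ + 1) * (ε / (‖L‖ + 1)) := mul_lt_mul_of_pos_left h2 (by linarith)
      _ = ε := by field_simp
  -- the exponential
  have hexp : ∀ w ∈ S, Complex.exp w + b ∈ Bᶜ := by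
    intro w hw hmem
    have h1 := hB _ (by rw [map_add, add_sub_cancel_right]; exact hw) hmem
    exact Complex.exp_ne_zero w (by linear_combination h1)
  let E : C(S, (Bᶜ : Set ℂ)) := ⟨fun w => ⟨Complex.exp w.1 + b, hexp w.1 w.2⟩,
    Continuous.subtype_mk (by fun_prop) _⟩
  have hhS : ∀ t, h t ∈ S := by
    intro t
    change |L (Complex.exp (h t))| < ε
    rw [hh, map_sub]
    exact hδ t
  let η : Path (⟨h 0, hhS 0⟩ : S) ⟨h 0, hhS 0⟩ :=
    { toFun := fun t => ⟨h t, hhS t⟩
      continuous_toFun := Continuous.subtype_mk h.continuous _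
      source' := rfl
      target' := Subtype.ext hcl }
  -- it is null-homotopic
  have hη : η.Homotopic (Path.refl _) := by
    obtain ⟨M, hM0, hM⟩ : ∃ M : ℝ, 0 ≤ M ∧ ∀ t, (h t).re - M < c := by
      obtain ⟨K, hK⟩ := (isCompact_range (Complex.continuous_re.comp h.continuous)).bddAbove
      refine ⟨max 0 (K - c + 1), le_max_left _ _, fun t => ?_⟩
      have h1 : (h t).re ≤ K := hK ⟨t, rfl⟩
      have h2 := le_max_right 0 (K - c + 1)
      linarith
    have hlm : ∀ (s : I) (w : ℂ), w ∈ S → w - ((((s : ℝ) * M : ℝ)) : ℂ) ∈ S := fun s w hw =>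
      hS w hw _ (mul_nonneg s.2.1 hM0)
    let F : C(I × I, S) := ⟨fun x => ⟨h x.1 - ((((x.2 : ℝ) * M : ℝ)) : ℂ), hlm _ _ (hhS _)⟩,
      Continuous.subtype_mk (by fun_prop) _⟩
    have hcM : ∀ t, (h t - ((M : ℝ) : ℂ)).re < c := by
      intro t
      rw [Complex.sub_re, Complex.ofReal_re]
      exact hM t
    let pM : S := ⟨h 0 - ((M : ℝ) : ℂ), hc _ (hcM 0)⟩
    let ℓ : Path (⟨h 0, hhS 0⟩ : S) pM :=
      { toFun := fun s => F (0, s)
        continuous_toFun := F.continuous.comp (by fun_prop)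
        source' := by
          apply Subtype.ext
          change h 0 - (((((0 : I) : ℝ) * M : ℝ)) : ℂ) = h 0
          simp
        target' := by
          apply Subtype.ext
          change h 0 - (((((1 : I) : ℝ) * M : ℝ)) : ℂ) = h 0 - ((M : ℝ) : ℂ)
          simp }
    let top : Path pM pM :=
      { toFun := fun t => ⟨h t - ((M : ℝ) : ℂ), hc _ (hcM t)⟩
        continuous_toFun := Continuous.subtype_mk (by fun_prop) _
        source' := rfl
        target' := by
          apply Subtype.ext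
          change h 1 - ((M : ℝ) : ℂ) = h 0 - ((M : ℝ) : ℂ)
          rw [hcl] }
    have htop : top.Homotopic (Path.refl _) := by
      let HP : Set ℂ := {w | w.re < c}
      have hHPc : Convex ℝ HP := convex_halfSpace_re_lt c
      have : ContractibleSpace HP := hHPc.contractibleSpace ⟨_, hcM 0⟩
      let ι : C(HP, S) := ⟨fun w => ⟨w.1, hc _ w.2⟩, Continuous.subtype_mk continuous_subtype_val _⟩
      let top' : Path (⟨h 0 - ((M : ℝ) : ℂ), hcM 0⟩ : HP) ⟨h 0 - ((M : ℝ) : ℂ), hcM 0⟩ :=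
        { toFun := fun t => ⟨h t - ((M : ℝ) : ℂ), hcM t⟩
          continuous_toFun := Continuous.subtype_mk (by fun_prop) _
          source' := rfl
          target' := by
            apply Subtype.ext
            change h 1 - ((M : ℝ) : ℂ) = h 0 - ((M : ℝ) : ℂ)
            rw [hcl] }
      exact contr_null ι top'
    have hsq := square η top ℓ ℓ F
      (fun t => by
        apply Subtype.ext
        change h t - (((((0 : I) : ℝ) * M : ℝ)) : ℂ) = h t
        simp)
      (fun t => by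
        apply Subtype.ext
        change h t - (((((1 : I) : ℝ) * M : ℝ)) : ℂ) = h t - ((M : ℝ) : ℂ)
        simp)
      (fun s => rfl)
      (fun s => by
        apply Subtype.ext
        change h 1 - ((((s : ℝ) * M : ℝ)) : ℂ) = h 0 - ((((s : ℝ) * M : ℝ)) : ℂ)
        rw [hcl])
    have h5 := loop_of_square _ _ _ _ hsq
    rw [Path.Homotopic.Quotient.eq.2 htop, Path.Homotopic.Quotient.mk_refl,
      Path.Homotopic.Quotient.trans_refl, Path.Homotopic.Quotient.trans_symm] at h5
    exact Path.Homotopic.Quotient.eq.1 h5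
  refine null_congr _ (η.map E.continuous) (fun t => ?_) (hη.map E)
  apply Subtype.ext
  change δ t = Complex.exp (h t) + b
  rw [hh]
  ring

/-- existence of logarithms along paths -/
theorem exists_log {b z₀ z₁ : ℂ} (δ : Path z₀ z₁) (hδ : ∀ t, δ t ≠ b) :
    ∃ h : C(I, ℂ), ∀ t, Complex.exp (h t) = δ t - b := by
  let δ' : C(I, {z : ℂ // z ≠ 0}) := ⟨fun t => ⟨δ t - b, sub_ne_zero.2 (hδ t)⟩,
    Continuous.subtype_mk (by fun_prop) _⟩
  obtain ⟨Γ, hΓ, -⟩ := Complex.isCoveringMap_exp.exists_path_lifts δ' (Complex.log (δ 0 - b)) (by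
    apply Subtype.ext
    change δ 0 - b = Complex.exp (Complex.log (δ 0 - b))
    rw [Complex.exp_log (sub_ne_zero.2 (hδ 0))])
  exact ⟨Γ, fun t => congrArg Subtype.val (congrFun hΓ t)⟩

/-- linear functions injective on a finite set -/
theorem exists_functional (hB : B.Finite) : ∃ L : ℂ →L[ℝ] ℝ, InjOn L B := by
  classical
  let bad : Set ℝ := ⋃ x ∈ B, ⋃ y ∈ B, {k | x ≠ y ∧ x.re + k * x.im = y.re + k * y.im}
  have hbad : bad.Finite := by
    refine hB.biUnion (fun x _ => hB.biUnion (fun y _ => ?_))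
    by_cases hxy : x.im = y.im
    · refine Set.Finite.subset (Set.finite_empty) ?_
      rintro k ⟨h1, h2⟩
      rw [hxy] at h2
      exact absurd (Complex.ext (by linarith) hxy) h1
    · refine Set.Finite.subset (Set.finite_singleton ((y.re - x.re) / (x.im - y.im))) ?_
      rintro k ⟨h1, h2⟩
      rw [Set.mem_singleton_iff, eq_div_iff (sub_ne_zero.2 hxy)]
      linarith
  obtain ⟨k, -, hk⟩ := (Set.infinite_univ (α := ℝ)).exists_notMem_finite hbad
  refine ⟨Complex.reCLM + k • Complex.imCLM, fun x hx y hy hxy => ?_⟩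
  by_contra hne
  apply hk
  have h1 : x.re + k * x.im = y.re + k * y.im := hxy
  exact Set.mem_biUnion hx (Set.mem_biUnion hy ⟨hne, h1⟩)

end Pool.Agent.Run7.h562
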