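import Pool.Agent.Run7.h562.TreeA

/-!
# Groups acting on trees with trivial edge stabilizers are free products
-/

set_option autoImplicit false

namespace Pool.Agent.Run7.h562

open Pool.Agent.H599R3.RH Monoid

/-- finite free products of cyclic groups -/
inductive FPC : (G : Type) → Group G → Prop
  | cyc (G : Type) [i : Group G] : IsCyclic G → FPC G i
  | coprod (G : Type) [i : Group G] (A B : Type) [iA : Group A] [iB : Group B] : FPC A iA → FPC B iB →
      (G ≃* Coprod A B) → FPC G i

theorem FPC.equiv {G H : Type} [iG : Group G] [iH : Group H] (h : FPC G iG) (f : H ≃* G) :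
    FPC H iH := by
  cases h with
  | cyc _ h => exact FPC.cyc H (f.isCyclic.2 h)
  | coprod _ A B hA hB e => exact FPC.coprod H A B hA hB (f.trans e)

/-! ### ping-pong -/

section pp
variable {A B : Type} [Group A] [Group B]

/-- reduced words, with the type of the first letter -/
inductive RW : Option Bool → Coprod A B → Prop
  | one : RW none 1
  | a (o : Option Bool) (x : A) (w : Coprod A B) : x ≠ 1 → o ≠ some true → RW o w →
      RW (some true) (Coprod.inl x * w)
  | b (o : Option Bool) (x : B) (w : Coprod A B) : x ≠ 1 → o ≠ some false → RW o w →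
      RW (some false) (Coprod.inr x * w)

theorem exists_rw (w : Coprod A B) : ∃ o, RW o w := by
  induction w using Coprod.induction_on' with
  | one => exact ⟨none, RW.one⟩
  | inl_mul x w ih =>
    by_cases hx : x = 1
    · subst hx; rw [map_one, one_mul]; exact ih
    obtain ⟨o, h⟩ := ih
    by_cases ho : o = some true
    · subst ho
      cases h with
      | a o y w hy ho hw =>
        by_cases hxy : x * y = 1
        · rw [← mul_assoc, ← map_mul, hxy, map_one, one_mul]
          exact ⟨o, hw⟩
        · rw [← mul_assoc, ← map_mul]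
          exact ⟨_, RW.a o _ w hxy ho hw⟩
    · exact ⟨_, RW.a o x w hx ho h⟩
  | inr_mul x w ih =>
    by_cases hx : x = 1
    · subst hx; rw [map_one, one_mul]; exact ih
    obtain ⟨o, h⟩ := ih
    by_cases ho : o = some false
    · subst ho
      cases h with
      | b o y w hy ho hw =>
        by_cases hxy : x * y = 1
        · rw [← mul_assoc, ← map_mul, hxy, map_one, one_mul]
          exact ⟨o, hw⟩
        · rw [← mul_assoc, ← map_mul]
          exact ⟨_, RW.b o _ w hxy ho hw⟩
    · exact ⟨_, RW.b o x w hx ho h⟩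

variable {G : Type} [Group G] {α : Type} [MulAction G α]

/-- **ping-pong** with a base point -/
theorem pingpong (f : A →* G) (g : B →* G) (hf : ∀ a, a ≠ 1 → f a ≠ 1)
    (X Y : α → Prop) (hd : ∀ x, X x → ¬ Y x) (x₀ : α) (hx₀ : ∀ a, X (f a • x₀))
    (h1 : ∀ a, a ≠ 1 → ∀ y, Y y → X (f a • y)) (h2 : ∀ b, b ≠ 1 → ∀ x, X x → Y (g b • x)) :
    Function.Injective (Coprod.lift f g) := by
  have key : ∀ (t : Option Bool) (w : Coprod A B), RW t w →
      (t = none → w = 1) ∧
      (t = some true → X (Coprod.lift f g w • x₀) ∧ Coprod.lift f g w ≠ 1) ∧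
      (t = some false → Y (Coprod.lift f g w • x₀)) := by
    intro t w h
    induction h with
    | one => simp
    | a o x w hx ho hw ih =>
      refine ⟨fun h => absurd h (by simp), fun _ => ?_, fun h => absurd h (by simp)⟩
      rcases o with _ | _ | _
      · rw [ih.1 rfl, mul_one, Coprod.lift_apply_inl]
        exact ⟨hx₀ x, hf x hx⟩
      · have h3 := ih.2.2 rfl
        rw [map_mul, Coprod.lift_apply_inl, mul_smul]
        refine ⟨h1 x hx _ h3, fun h4 => ?_⟩
        have h5 : Coprod.lift f g w = f x⁻¹ := by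
          rw [map_inv]; exact eq_inv_of_mul_eq_one_right h4
        rw [h5] at h3
        exact hd _ (hx₀ _) h3
      · exact absurd rfl ho
    | b o x w hx ho hw ih =>
      refine ⟨fun h => absurd h (by simp), fun h => absurd h (by simp), fun _ => ?_⟩
      rcases o with _ | _ | _
      · rw [ih.1 rfl, mul_one, Coprod.lift_apply_inr]
        refine h2 x hx _ ?_
        have := hx₀ 1
        rwa [map_one, one_smul] at this
      · exact absurd rfl ho
      · rw [map_mul, Coprod.lift_apply_inr, mul_smul]
        exact h2 x hx _ (ih.2.1 rfl).1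
  rw [injective_iff_map_eq_one]
  intro w hw
  obtain ⟨o, h⟩ := exists_rw w
  rcases o with _ | _ | _
  · exact (key _ _ h).1 rfl
  · have h3 := (key _ _ h).2.2 rfl
    rw [hw, one_smul] at h3
    have := hx₀ 1
    rw [map_one, one_smul] at this
    exact absurd h3 (hd _ this)
  · exact absurd hw ((key _ _ h).2.1 rfl).2

end pp

theorem fp_of_pp {G : Type} [Group G] {α : Type} [MulAction G α] (A B : Subgroup G)
    (hgen : A ⊔ B = ⊤) (X Y : α → Prop) (hd : ∀ x, X x → ¬ Y x) (x₀ : α)
    (hx₀ : ∀ a ∈ A, X (a • x₀)) (h1 : ∀ a ∈ A, a ≠ 1 → ∀ y, Y y → X (a • y))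
    (h2 : ∀ b ∈ B, b ≠ 1 → ∀ x, X x → Y (b • x)) : Nonempty (G ≃* Coprod A B) := by
  let F : Coprod A B →* G := Coprod.lift A.subtype B.subtype
  have hFi : Function.Injective F := by
    refine pingpong A.subtype B.subtype (fun a ha h => ha (Subtype.ext h)) X Y hd x₀
      (fun a => hx₀ a a.2) (fun a ha y hy => h1 a a.2 (fun h => ha (Subtype.ext h)) y hy)
      (fun a ha y hy => h2 a a.2 (fun h => ha (Subtype.ext h)) y hy)
  have hFs : Function.Surjective F := by
    rw [← MonoidHom.range_eq_top, eq_top_iff, ← hgen]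
    apply sup_le
    · intro a ha
      exact ⟨Coprod.inl ⟨a, ha⟩, by simp [F]⟩
    · intro b hb
      exact ⟨Coprod.inr ⟨b, hb⟩, by simp [F]⟩
  exact ⟨(MulEquiv.ofBijective F ⟨hFi, hFs⟩).symm⟩

section
variable {G V E : Type} [Group G] [MulAction G V] [MulAction G E] {T : Tree G V E}

theorem amalgam (e : E)
    (he : ∀ g : G, g • e = e → g = 1) (hc : ∀ t : G, ¬ Sim T e (t • T.d0 e) (T.d1 e)) :
    Nonempty (G ≃* Coprod (fixCl T e (T.d0 e)) (fixCl T e (T.d1 e))) := by
  have hgen : fixCl T e (T.d0 e) ⊔ fixCl T e (T.d1 e) = ⊤ := by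
    set Γ := fixCl T e (T.d0 e) ⊔ fixCl T e (T.d1 e) with hΓ
    have hA : fixCl T e (T.d0 e) ≤ Γ := le_sup_left
    have hB : fixCl T e (T.d1 e) ≤ Γ := le_sup_right
    have key0 : ∀ k : G, (∃ γ ∈ Γ, Sim T e (k • T.d0 e) (γ • T.d0 e) ∨
        Sim T e (k • T.d0 e) (γ • T.d1 e)) → k ∈ Γ := by
      rintro k ⟨γ, hγ, h | h⟩
      · have h2 := h.smul γ⁻¹
        rw [inv_smul_smul, smul_smul] at h2
        have := Γ.mul_mem hγ (hA h2)
        rwa [mul_inv_cancel_left] at this
      · have h2 := h.smul γ⁻¹
        rw [inv_smul_smul, smul_smul] at h2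
        exact absurd h2 (hc _)
    have key1 : ∀ k : G, (∃ γ ∈ Γ, Sim T e (k • T.d1 e) (γ • T.d0 e) ∨
        Sim T e (k • T.d1 e) (γ • T.d1 e)) → k ∈ Γ := by
      rintro k ⟨γ, hγ, h | h⟩
      · have h2 := (h.smul k⁻¹).symm
        rw [inv_smul_smul, smul_smul] at h2
        exact absurd h2 (hc _)
      · have h2 := h.smul γ⁻¹
        rw [inv_smul_smul, smul_smul] at h2
        have := Γ.mul_mem hγ (hB h2)
        rwa [mul_inv_cancel_left] at this
    have hall : ∀ v, ∃ γ ∈ Γ, Sim T e v (γ • T.d0 e) ∨ Sim T e v (γ • T.d1 e) := by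
      intro v
      apply T.all (Q := fun v => ∃ γ ∈ Γ, Sim T e v (γ • T.d0 e) ∨ Sim T e v (γ • T.d1 e))
        (u := T.d0 e)
      · intro e0
        by_cases h0 : ∃ k : G, k • e = e0
        · obtain ⟨k, rfl⟩ := h0
          rw [T.s0, T.s1]
          constructor
          · intro h
            exact ⟨k, key1 k h, Or.inl (Sim.refl _ _)⟩
          · intro h
            exact ⟨k, key0 k h, Or.inr (Sim.refl _ _)⟩
        · push Not at h0
          have h1 := sim_of_not (T := T) h0
          constructor
          · rintro ⟨γ, hγ, h⟩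
            exact ⟨γ, hγ, h.imp (fun h => h1.symm.trans h) (fun h => h1.symm.trans h)⟩
          · rintro ⟨γ, hγ, h⟩
            exact ⟨γ, hγ, h.imp (fun h => h1.trans h) (fun h => h1.trans h)⟩
      · exact ⟨1, Γ.one_mem, Or.inl (by rw [one_smul]; exact Sim.refl _ _)⟩
    rw [eq_top_iff]
    intro g _
    exact key0 g (hall _)
  refine fp_of_pp _ _ hgen (fun v => ¬ side T e v) (fun v => side T e v) (fun x h => h)
    (T.d0 e) ?_ ?_ ?_
  · intro a ha
    have := ha 1
    rw [one_smul] at this
    rw [this]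
    exact side0 T e
  · intro a ha ha1 y hy
    have hne : a • e ≠ e := fun h => ha1 (he a h)
    have h1 := quad T hne (a • y)
    rw [side_smul] at h1
    have h2 : ¬ side T (a • e) (T.d0 e) := by
      rw [← ha a, side_smul]
      exact side0 T e
    have h3 : ¬ side T e (T.d0 (a • e)) := by
      rw [T.s0]
      have := ha 1
      rw [one_smul] at this
      rw [this]
      exact side0 T e
    tauto
  · intro a ha ha1 y hy
    have hne : a • e ≠ e := fun h => ha1 (he a h)
    have h1 := quad T hne (a • y)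
    rw [side_smul] at h1
    have h2 : side T (a • e) (T.d0 e) := by
      rw [← side_ne T hne.symm, ← ha a, side_smul]
      exact side1 T e
    have h3 : side T e (T.d0 (a • e)) := by
      rw [← side_ne T hne, T.s1]
      have := ha 1
      rw [one_smul] at this
      rw [this]
      exact side1 T e
    tauto

theorem hnn (e : E)
    (he : ∀ g : G, g • e = e → g = 1) (t : G) (ht : Sim T e (t • T.d0 e) (T.d1 e)) :
    Nonempty (G ≃* Coprod (fixCl T e (T.d0 e)) (Subgroup.zpowers t)) := by
  have hd01 : ¬ Sim T e (T.d0 e) (T.d1 e) := by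
    have := not_sim (T := T) e 1
    simpa using this
  have ht' : Sim T e (t⁻¹ • T.d1 e) (T.d0 e) := by
    have := (ht.smul t⁻¹).symm
    rwa [inv_smul_smul] at this
  have htA : t ∉ fixCl T e (T.d0 e) := by
    intro h
    exact hd01 ((mem_fixCl.1 h).symm.trans ht)
  have ht1 : t ≠ 1 := by
    intro h
    rw [h, one_smul] at ht
    exact hd01 ht
  have hgen : fixCl T e (T.d0 e) ⊔ Subgroup.zpowers t = ⊤ := by
    set Γ := fixCl T e (T.d0 e) ⊔ Subgroup.zpowers t with hΓ
    have hA : fixCl T e (T.d0 e) ≤ Γ := le_sup_left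
    have hB : t ∈ Γ := (le_sup_right : Subgroup.zpowers t ≤ Γ) (Subgroup.mem_zpowers t)
    have key0 : ∀ k : G, (∃ γ ∈ Γ, Sim T e (k • T.d0 e) (γ • T.d0 e)) → k ∈ Γ := by
      rintro k ⟨γ, hγ, h⟩
      have h2 := h.smul γ⁻¹
      rw [inv_smul_smul, smul_smul] at h2
      have := Γ.mul_mem hγ (hA h2)
      rwa [mul_inv_cancel_left] at this
    have key1 : ∀ k : G, (∃ γ ∈ Γ, Sim T e (k • T.d1 e) (γ • T.d0 e)) → k ∈ Γ := by
      rintro k ⟨γ, hγ, h⟩
      have h2 : Sim T e ((k * t) • T.d0 e) (γ • T.d0 e) := by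
        rw [mul_smul]
        exact (ht.smul k).trans h
      have := Γ.mul_mem (key0 _ ⟨γ, hγ, h2⟩) (Γ.inv_mem hB)
      rwa [mul_inv_cancel_right] at this
    have hall : ∀ v, ∃ γ ∈ Γ, Sim T e v (γ • T.d0 e) := by
      intro v
      apply T.all (Q := fun v => ∃ γ ∈ Γ, Sim T e v (γ • T.d0 e)) (u := T.d0 e)
      · intro e0
        by_cases h0 : ∃ k : G, k • e = e0
        · obtain ⟨k, rfl⟩ := h0
          rw [T.s0, T.s1]
          constructor
          · intro h
            exact ⟨k, key1 k h, Sim.refl _ _⟩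
          · intro h
            refine ⟨k * t, Γ.mul_mem (key0 k h) hB, ?_⟩
            rw [mul_smul]
            exact (ht.smul k).symm
        · push Not at h0
          have h1 := sim_of_not (T := T) h0
          constructor
          · rintro ⟨γ, hγ, h⟩
            exact ⟨γ, hγ, h1.symm.trans h⟩
          · rintro ⟨γ, hγ, h⟩
            exact ⟨γ, hγ, h1.trans h⟩
      · exact ⟨1, Γ.one_mem, by rw [one_smul]; exact Sim.refl _ _⟩
    rw [eq_top_iff]
    intro g _
    exact key0 g (hall _)
  -- nesting
  have hne : t • e ≠ e := fun h => ht1 (he t h)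
  have nest : ∀ v, side T (t • e) v → side T e v := by
    intro v hv
    have h1 := quad T hne v
    have h2 : ¬ side T (t • e) (T.d0 e) := by
      rw [← side_ne T hne.symm, ← ht t, side_smul]
      exact side0 T e
    have h3 : side T e (T.d0 (t • e)) := by
      rw [T.s0]
      have := ht 1
      rw [one_smul] at this
      rw [this]
      exact side1 T e
    tauto
  have nest' : ∀ v, side T e v → side T (t⁻¹ • e) v := by
    intro v hv
    rw [← side_smul']
    apply nest
    rw [side_smul]
    exact hv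
  have s0t' : side T (t⁻¹ • e) (T.d0 e) := by
    rw [← ht' t⁻¹, side_smul]
    exact side1 T e
  refine fp_of_pp _ _ hgen
    (fun v => ¬ side T e v ∧ side T (t⁻¹ • e) v) (fun v => side T e v ∨ ¬ side T (t⁻¹ • e) v)
    (by intro x h; tauto) (T.d0 e) ?_ ?_ ?_
  · intro a ha
    refine ⟨?_, ?_⟩
    · have := ha 1
      rw [one_smul] at this
      rw [this]
      exact side0 T e
    · rw [ha t⁻¹]
      exact s0t'
  · intro a ha ha1 y hy
    have hi : ∀ b : G, b ∈ fixCl T e (T.d0 e) → b ≠ t ∧ b * t ≠ 1 := by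
      intro b hb
      refine ⟨fun h => htA (h ▸ hb), fun h => htA ?_⟩
      rw [← eq_inv_iff_mul_eq_one] at h
      rw [h] at hb
      have := inv_mem hb
      rwa [inv_inv] at this
    -- values at `d0 e`
    have s00 : ¬ side T e (T.d0 e) := side0 T e
    have s0t : side T (t⁻¹ • e) (T.d0 e) := s0t'
    have sa0 : ¬ side T (a • e) (T.d0 e) := by
      rw [← ha a, side_smul]; exact side0 T e
    have sat : side T ((a * t⁻¹) • e) (T.d0 e) := by
      rw [← ha (a * t⁻¹), mul_smul, side_smul]
      exact s0t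
    -- distinctness
    have n1 : a • e ≠ e := fun h => ha1 (he a h)
    have n2 : a • e ≠ t⁻¹ • e := by
      intro h
      have h2 : (t * a) • e = e := by rw [mul_smul, h, smul_inv_smul]
      have h3 := he _ h2
      have h4 : a * t = 1 := by
        rw [mul_eq_one_iff_eq_inv] at h3
        rw [h3]; simp
      exact (hi a ha).2 h4
    have n3 : (a * t⁻¹) • e ≠ e := by
      intro h
      have h3 := he _ h
      rw [mul_inv_eq_one] at h3
      exact (hi a ha).1 h3
    have n4 : (a * t⁻¹) • e ≠ t⁻¹ • e := by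
      intro h
      have h2 : (t * (a * t⁻¹)) • e = e := by rw [mul_smul, h, smul_inv_smul]
      have h3 := he _ h2
      apply ha1
      have : a = t⁻¹ * (t * (a * t⁻¹)) * t := by group
      rw [this, h3]; group
    -- `d0` of the edges
    have c1 : ∀ k : G, side T (k • e) (T.d0 (a • e)) ↔ side T (k • e) (T.d0 e) := by
      intro k; rw [T.s0]; exact ha k
    have c2 : ∀ k : G, k • e ≠ t⁻¹ • e →
        (side T (k • e) (T.d0 (t⁻¹ • e)) ↔ side T (k • e) (T.d0 e)) := by
      intro k hk
      rw [← side_ne T hk.symm, T.s1]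
      exact ht' k
    have c3 : ∀ k : G, k • e ≠ (a * t⁻¹) • e →
        (side T (k • e) (T.d0 ((a * t⁻¹) • e)) ↔ side T (k • e) (T.d0 e)) := by
      intro k hk
      rw [← side_ne T hk.symm, T.s1, mul_smul]
      exact ((ht'.smul a).trans ha) k
    have c1' := c1 1
    have c1t := c1 t⁻¹
    have c2a := c2 a n2
    have c2t := c2 (a * t⁻¹) n4
    have c31 := c3 1 (by rw [one_smul]; exact n3.symm)
    have c3t := c3 t⁻¹ n4.symm
    rw [one_smul] at c1' c31
    have q1 := (quad T n1 (a • y)).imp (fun h hp => sa0 (h.1 hp))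
      (fun h hp => s00 (c1'.1 (h.1 hp)))
    have q2 := (quad T n2 (a • y)).imp (fun h hp => sa0 (c2a.1 (h.1 hp)))
      (fun h => h.2 (c1t.2 s0t))
    have q3 := (quad T n3 (a • y)).imp (fun h => h.2 sat)
      (fun h hp => s00 (c31.1 (h.1 hp)))
    have q4 := (quad T n4 (a • y)).imp (fun h => h.2 (c2t.2 sat))
      (fun h => h.2 (c3t.2 s0t))
    clear c2t c31 c3t c1' c1t c2a c1 c2 c3 n1 n2 n3 n4 sat sa0 s0t s00 hi nest nest' s0t'
    have e1 : side T (a • e) (a • y) ↔ side T e y := side_smul T a e y
    have e2 : side T ((a * t⁻¹) • e) (a • y) ↔ side T (t⁻¹ • e) y := by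
      rw [mul_smul]; exact side_smul T a _ y
    rcases hy with hy | hy
    · rw [← e1] at hy
      exact ⟨fun h => q1.elim (fun h' => h' hy) (fun h' => h' h),
        q2.elim (fun h' => absurd hy h') id⟩
    · rw [← e2] at hy
      exact ⟨fun h => q3.elim hy (fun h' => h' h), q4.elim (fun h' => absurd h' hy) id⟩
  · rintro b ⟨n, rfl⟩ hb1 x ⟨hx1, hx2⟩
    beta_reduce at hb1 ⊢
    rcases n with n | n
    · -- nonnegative
      rw [Int.ofNat_eq_natCast, zpow_natCast] at hb1 ⊢
      obtain ⟨m, rfl⟩ : ∃ m, n = m + 1 := by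
        cases n with
        | zero => exact absurd (pow_zero t) hb1
        | succ m => exact ⟨m, rfl⟩
      left
      clear hb1
      induction m with
      | zero =>
        rw [zero_add, pow_one, side_smul']
        exact hx2
      | succ m ih =>
        rw [pow_succ', mul_smul, side_smul']
        exact nest' _ ih
    · right
      rw [zpow_negSucc, ← inv_pow]
      clear hb1
      induction n with
      | zero =>
        rw [zero_add, pow_one, side_smul]
        exact hx1
      | succ m ih =>
        rw [pow_succ', mul_smul, side_smul]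
        exact fun h => ih (nest' _ h)

end

end Pool.Agent.Run7.h562
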