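import Pool.Agent.Run7.h562.TreeB

/-!
# Finitely generated groups acting on trees with trivial edge stabilizers
-/

set_option autoImplicit false

namespace Pool.Agent.Run7.h562

open Pool.Agent.H599R3.RH Monoid

section cls
variable {G V E : Type} [Group G] [MulAction G V] [MulAction G E] (T : Tree G V E) (e : E) (u : V)

/-- the vertices of a class -/
abbrev CV : Type := {v : V // Sim T e v u}
/-- the edges in a class -/
abbrev CE : Type := {e' : E // (∀ k : G, k • e ≠ e') ∧ Sim T e (T.d0 e') u}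

instance actCV : MulAction (fixCl T e u) (CV T e u) where
  smul g v := ⟨g.1 • v.1, (v.2.smul g.1).trans g.2⟩
  one_smul v := Subtype.ext (one_smul G v.1)
  mul_smul g h v := Subtype.ext (mul_smul g.1 h.1 v.1)

instance actCE : MulAction (fixCl T e u) (CE T e u) where
  smul g v := ⟨g.1 • v.1, fun k h => v.2.1 (g.1⁻¹ * k) (by rw [mul_smul, h, inv_smul_smul]), by
    rw [T.s0]; exact (v.2.2.smul g.1).trans g.2⟩
  one_smul v := Subtype.ext (one_smul G v.1)
  mul_smul g h v := Subtype.ext (mul_smul g.1 h.1 v.1)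

theorem sim_d1 (e' : CE T e u) : Sim T e (T.d1 e'.1) u := (sim_of_not e'.2.1).trans e'.2.2

open Classical in
/-- the tree of a class -/
noncomputable def clsTree : Tree (fixCl T e u) (CV T e u) (CE T e u) where
  d0 e' := ⟨T.d0 e'.1, e'.2.2⟩
  d1 e' := ⟨T.d1 e'.1, sim_d1 T e u e'⟩
  s0 g e' := Subtype.ext (T.s0 g.1 e'.1)
  s1 g e' := Subtype.ext (T.s1 g.1 e'.1)
  conn {M} F hF := by
    intro v w
    let Q : V → Prop := fun x => ∃ h : Sim T e x u, F ⟨x, h⟩ = F w
    have h1 : Q v.1 ↔ Q w.1 := by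
      apply C1 T
      intro e'
      by_cases h : ∃ k : G, k • e = e'
      · obtain ⟨k, rfl⟩ := h
        right
        exact (v.2.trans w.2.symm) k
      · push Not at h
        left
        have h2 := sim_of_not (T := T) h
        constructor
        · rintro ⟨h3, h4⟩
          exact ⟨h2.symm.trans h3, (hF ⟨e', h, h2.symm.trans h3⟩).symm.trans h4⟩
        · rintro ⟨h3, h4⟩
          exact ⟨h2.trans h3, (hF ⟨e', h, h3⟩).trans h4⟩
    obtain ⟨_, h3⟩ := h1.2 ⟨w.2, rfl⟩
    exact h3
  surj φ := by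
    obtain ⟨F, hF⟩ := T.surj (fun e' => if h : (∀ k : G, k • e ≠ e') ∧ Sim T e (T.d0 e') u
      then φ ⟨e', h⟩ else 0)
    refine ⟨fun v => F v.1, fun e' => ?_⟩
    have := hF e'.1
    rw [dif_pos e'.2] at this
    exact this

theorem cls_free (he : ∀ (e : E) (g : G), g • e = e → g = 1) (e' : CE T e u)
    (g : fixCl T e u) (h : g • e' = e') : g = 1 :=
  Subtype.ext (he e'.1 g.1 (congrArg Subtype.val h))

/-- the stabilizers in a class -/
def clsStab (v : CV T e u) :
    MulAction.stabilizer (fixCl T e u) v ≃* MulAction.stabilizer G v.1 where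
  toFun g := ⟨g.1.1, congrArg Subtype.val g.2⟩
  invFun g := ⟨⟨g.1, by
    rw [mem_fixCl]
    have h1 : g.1 • v.1 = v.1 := g.2
    have h2 := (v.2.smul g.1).symm
    rw [h1] at h2
    exact h2.trans v.2⟩, Subtype.ext g.2⟩
  left_inv g := by ext; rfl
  right_inv g := by ext; rfl
  map_mul' g h := by ext; rfl

/-- orbits of edges -/
def clsOrb : MulAction.orbitRel.Quotient (fixCl T e u) (CE T e u) →
    MulAction.orbitRel.Quotient G E :=
  Quotient.map' (fun e' => e'.1) (by
    intro a b h
    obtain ⟨g, hg⟩ := MulAction.orbitRel_apply.1 h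
    exact MulAction.orbitRel_apply.2 ⟨g.1, congrArg Subtype.val hg⟩)

theorem clsOrb_inj : Function.Injective (clsOrb T e u) := by
  intro x y
  induction x using Quotient.inductionOn' with | h a => ?_
  induction y using Quotient.inductionOn' with | h b => ?_
  intro h
  have h1 : (MulAction.orbitRel G E) a.1 b.1 := Quotient.exact' h
  obtain ⟨g, hg⟩ := MulAction.orbitRel_apply.1 h1
  apply Quotient.sound'
  apply MulAction.orbitRel_apply.2
  have hg' : g • b.1 = a.1 := hg
  refine ⟨⟨g, ?_⟩, Subtype.ext hg'⟩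
  rw [mem_fixCl]
  have h2 := (b.2.2.smul g).symm
  rw [← T.s0, hg'] at h2
  exact h2.trans a.2.2

theorem clsOrb_ne (x : MulAction.orbitRel.Quotient (fixCl T e u) (CE T e u)) :
    clsOrb T e u x ≠ (Quotient.mk'' e : MulAction.orbitRel.Quotient G E) := by
  induction x using Quotient.inductionOn' with | h a => ?_
  intro h
  have h1 : (MulAction.orbitRel G E) a.1 e := Quotient.exact' h
  obtain ⟨g, hg⟩ := MulAction.orbitRel_apply.1 h1
  exact a.2.1 g hg

end cls

theorem fpc_of_orbits (n : ℕ) : ∀ (G V E : Type) [Group G] [MulAction G V] [MulAction G E]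
    (_ : Tree G V E), (∀ (e : E) (g : G), g • e = e → g = 1) →
    (∀ v : V, FPC (MulAction.stabilizer G v) inferInstance) →
    Finite (MulAction.orbitRel.Quotient G E) →
    Nat.card (MulAction.orbitRel.Quotient G E) ≤ n → Nonempty V → FPC G inferInstance := by
  have base : ∀ (G V E : Type) [Group G] [MulAction G V] [MulAction G E]
      (_ : Tree G V E), (∀ v : V, FPC (MulAction.stabilizer G v) inferInstance) →
      IsEmpty E → Nonempty V → FPC G inferInstance := by
    intro G V E _ _ _ T hv hE hV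
    obtain ⟨v⟩ := hV
    have h1 : ∀ w, v = w := fun w => (T.conn (fun x => x) (fun e => (hE.false e).elim) v w)
    have h2 : MulAction.stabilizer G v = ⊤ := by
      rw [eq_top_iff]
      intro g _
      exact (h1 (g • v)).symm
    have h3 := hv v
    rw [h2] at h3
    exact h3.equiv Subgroup.topEquiv.symm
  induction n with
  | zero =>
    intro G V E _ _ _ T he hv hf hn hV
    have h1 : IsEmpty (MulAction.orbitRel.Quotient G E) := by
      have := Nat.le_zero.1 hn
      rcases Nat.card_eq_zero.1 this with h | h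
      · exact h
      · exact (not_finite_iff_infinite.2 h hf).elim
    exact base G V E T hv ⟨fun e => h1.false (Quotient.mk'' e)⟩ hV
  | succ n ih =>
    intro G V E _ _ _ T he hv hf hn hV
    by_cases hE : IsEmpty E
    · exact base G V E T hv hE hV
    rw [not_isEmpty_iff] at hE
    obtain ⟨e⟩ := hE
    have key : ∀ u : V, FPC (fixCl T e u) inferInstance := by
      intro u
      have hfin : Finite (MulAction.orbitRel.Quotient (fixCl T e u) (CE T e u)) :=
        Finite.of_injective _ (clsOrb_inj T e u)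
      refine ih (fixCl T e u) (CV T e u) (CE T e u) (clsTree T e u) (fun e' g h =>
        cls_free T e u he e' g h) (fun v => (hv v.1).equiv (clsStab T e u v)) hfin ?_
        ⟨⟨u, Sim.refl e u⟩⟩
      have h1 : Nat.card (MulAction.orbitRel.Quotient (fixCl T e u) (CE T e u)) <
          Nat.card (MulAction.orbitRel.Quotient G E) := by
        have h2 : Nat.card (MulAction.orbitRel.Quotient (fixCl T e u) (CE T e u)) =
            (Set.range (clsOrb T e u)).ncard := by
          rw [← Set.image_univ, Set.ncard_image_of_injective _ (clsOrb_inj T e u),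
            Set.ncard_univ]
        rw [h2, ← Set.ncard_univ]
        apply Set.ncard_lt_ncard _ (Set.toFinite _)
        refine ⟨Set.subset_univ _, fun h => ?_⟩
        obtain ⟨x, hx⟩ := h (Set.mem_univ (Quotient.mk'' e : MulAction.orbitRel.Quotient G E))
        exact clsOrb_ne T e u x hx
      omega
    by_cases hc : ∃ t : G, Sim T e (t • T.d0 e) (T.d1 e)
    · obtain ⟨t, ht⟩ := hc
      obtain ⟨f⟩ := hnn e (he e) t ht
      exact FPC.coprod G _ _ (key _) (FPC.cyc _ inferInstance) f
    · push Not at hc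
      obtain ⟨f⟩ := amalgam e (he e) hc
      exact FPC.coprod G _ _ (key _) (key _) f

/-! ### a cocompact subtree -/

section sub
variable {G V E : Type} [Group G] [MulAction G V] [MulAction G E] (T : Tree G V E) (v₀ : V)
  (S : Set E) (hS : ∀ (g : G) (e : E), e ∈ S → g • e ∈ S) (hsep : ∀ g : G, sep T v₀ (g • v₀) ⊆ S)
  (hgeo : ∀ e ∈ S, ∃ g : G, e ∈ sep T v₀ (g • v₀) ∨ ∃ h : G, e ∈ sep T (h • v₀) (g • v₀))

/-- the vertices of the subtree -/
abbrev YV : Type := {u : V // ∀ e, e ∉ S → (side T e v₀ ↔ side T e u)}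

include hS in
theorem not_mem_smul {g : G} {e : E} (h : e ∉ S) : g • e ∉ S := by
  intro h2
  apply h
  have := hS g⁻¹ _ h2
  rwa [inv_smul_smul] at this

/-- the action on the vertices -/
@[reducible] def actYV : MulAction G (YV T v₀ S) where
  smul g u := ⟨g • u.1, by
    intro e he
    have h1 : side T e v₀ ↔ side T e (g • v₀) := by
      by_contra h
      exact he (hsep g h)
    rw [h1, side_smul', side_smul' T g e u.1]
    exact u.2 _ (not_mem_smul S hS he)⟩
  one_smul v := Subtype.ext (one_smul G v.1)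
  mul_smul g h v := Subtype.ext (mul_smul g h v.1)

/-- the action on the edges -/
@[reducible] def actYE : MulAction G S where
  smul g u := ⟨g • u.1, hS g u.1 u.2⟩
  one_smul v := Subtype.ext (one_smul G v.1)
  mul_smul g h v := Subtype.ext (mul_smul g h v.1)

/-- endpoints of edges on a geodesic -/
theorem sep_d0 {a b : V} {e₁ : E} (h : e₁ ∈ sep T a b) (e' : E) (he' : e' ≠ e₁)
    (h2 : side T e' a ↔ side T e' b) : side T e' a ↔ side T e' (T.d0 e₁) := by
  have h3 : ¬ (side T e₁ a ↔ side T e₁ b) := h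
  have q1 := quad T he' a
  have q2 := quad T he' b
  tauto

include hsep hgeo in
theorem ends {e : E} (he : e ∈ S) : (∀ e', e' ∉ S → (side T e' v₀ ↔ side T e' (T.d0 e))) ∧
    (∀ e', e' ∉ S → (side T e' v₀ ↔ side T e' (T.d1 e))) := by
  have h0 : ∀ e', e' ∉ S → (side T e' v₀ ↔ side T e' (T.d0 e)) := by
    intro e' he'
    have hne : e' ≠ e := fun h => he' (h ▸ he)
    have hv : ∀ k : G, side T e' v₀ ↔ side T e' (k • v₀) := by
      intro k
      by_contra h
      exact he' (hsep k h)
    obtain ⟨g, h | ⟨k, h⟩⟩ := hgeo e he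
    · exact sep_d0 T h e' hne (hv g)
    · rw [hv k]
      exact sep_d0 T h e' hne ((hv k).symm.trans (hv g))
  refine ⟨h0, fun e' he' => ?_⟩
  have hne : e ≠ e' := fun h => he' (h ▸ he)
  rw [h0 e' he', side_ne T hne]

include hS hsep hgeo in
theorem exists_retr (u : V) : ∃ u' : YV T v₀ S, ∀ e ∈ S, (side T e u ↔ side T e u'.1) := by
  apply T.all (Q := fun u => ∃ u' : YV T v₀ S, ∀ e ∈ S, (side T e u ↔ side T e u'.1)) (u := v₀)
  · intro e
    by_cases he : e ∈ S
    · have h1 := ends T v₀ S hsep hgeo he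
      exact ⟨fun _ => ⟨⟨_, h1.1⟩, fun _ _ => Iff.rfl⟩, fun _ => ⟨⟨_, h1.2⟩, fun _ _ => Iff.rfl⟩⟩
    · have h1 : ∀ e' ∈ S, (side T e' (T.d1 e) ↔ side T e' (T.d0 e)) := fun e' he' =>
        side_ne T (fun h => he (h ▸ he'))
      constructor
      · rintro ⟨u', h⟩
        exact ⟨u', fun e' he' => (h1 e' he').symm.trans (h e' he')⟩
      · rintro ⟨u', h⟩
        exact ⟨u', fun e' he' => (h1 e' he').trans (h e' he')⟩
  · exact ⟨⟨v₀, fun _ _ => Iff.rfl⟩, fun _ _ => Iff.rfl⟩

theorem retr_unique {u u' : YV T v₀ S} (h : ∀ e ∈ S, (side T e u.1 ↔ side T e u'.1)) : u = u' := by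
  apply Subtype.ext
  apply eq_of_unsep T
  intro e
  by_cases he : e ∈ S
  · exact h e he
  · exact (u.2 e he).symm.trans (u'.2 e he)

open Classical in
/-- the subtree -/
@[reducible] noncomputable def subTree :
    @Tree G (YV T v₀ S) S _ (actYV T v₀ S hS hsep) (actYE S hS) :=
  letI := actYV T v₀ S hS hsep
  letI := actYE (G := G) S hS
  { d0 := fun e => ⟨T.d0 e.1, (ends T v₀ S hsep hgeo e.2).1⟩
    d1 := fun e => ⟨T.d1 e.1, (ends T v₀ S hsep hgeo e.2).2⟩
    s0 := fun g e => Subtype.ext (T.s0 g e.1)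
    s1 := fun g e => Subtype.ext (T.s1 g e.1)
    conn := fun {M} F hF => by
      choose r hr using exists_retr T v₀ S hS hsep hgeo
      have h1 := T.conn (fun u => F (r u)) (by
        intro e
        by_cases he : e ∈ S
        · have h2 : r (T.d0 e) = ⟨T.d0 e, (ends T v₀ S hsep hgeo he).1⟩ :=
            retr_unique T v₀ S (fun e' he' => (hr _ e' he').symm)
          have h3 : r (T.d1 e) = ⟨T.d1 e, (ends T v₀ S hsep hgeo he).2⟩ :=
            retr_unique T v₀ S (fun e' he' => (hr _ e' he').symm)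
          rw [h2, h3]
          exact hF ⟨e, he⟩
        · congr 1
          apply retr_unique T v₀ S
          intro e' he'
          rw [← hr _ e' he', ← hr _ e' he']
          exact side_ne T (fun h => he (h ▸ he')))
      intro u v
      have h2 : ∀ u : YV T v₀ S, r u.1 = u := fun u =>
        retr_unique T v₀ S (fun e' he' => (hr _ e' he').symm)
      have h3 := h1 u.1 v.1
      rw [h2, h2] at h3
      exact h3
    surj := fun φ => by
      obtain ⟨F, hF⟩ := T.surj (fun e' => if h : e' ∈ S then φ ⟨e', h⟩ else 0)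
      refine ⟨fun v => F v.1, fun e' => ?_⟩
      have := hF e'.1
      rw [dif_pos e'.2] at this
      exact this }

end sub

theorem sep_trans {G V E : Type} [Group G] [MulAction G V] [MulAction G E] (T : Tree G V E)
    (a b c : V) : sep T a c ⊆ sep T a b ∪ sep T b c := by
  intro e he
  by_contra h
  simp only [Set.mem_union, not_or] at h
  have h1 : ¬ ¬ (side T e a ↔ side T e b) := h.1
  have h2 : ¬ ¬ (side T e b ↔ side T e c) := h.2
  have h3 : ¬ (side T e a ↔ side T e c) := he
  tauto

/-- **main theorem on trees** -/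
theorem fpc_of_tree {G V E : Type} [Group G] [MulAction G V] [MulAction G E] (T : Tree G V E)
    (hG : Group.FG G) (he : ∀ (e : E) (g : G), g • e = e → g = 1)
    (hv : ∀ v : V, IsCyclic (MulAction.stabilizer G v)) (v₀ : V) : FPC G inferInstance := by
  obtain ⟨A, hA⟩ := Group.fg_iff.1 hG
  obtain ⟨hA, hAfin⟩ := hA
  let S : Set E := {e | ∃ g : G, ∃ a ∈ A, g • e ∈ sep T v₀ (a • v₀)}
  have hS : ∀ (g : G) (e : E), e ∈ S → g • e ∈ S := by
    rintro g e ⟨k, a, ha, h⟩
    exact ⟨k * g⁻¹, a, ha, by rwa [mul_smul, inv_smul_smul]⟩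
  have hsep : ∀ g : G, sep T v₀ (g • v₀) ⊆ S := by
    intro g
    have hg : g ∈ Subgroup.closure A := by rw [hA]; trivial
    have hmul : ∀ (k : G) (a b : V) (e : E), e ∈ sep T (k • a) (k • b) → k⁻¹ • e ∈ sep T a b := by
      intro k a b e he h
      apply he
      rw [side_smul', side_smul' T k e b]
      exact h
    induction hg using Subgroup.closure_induction with
    | mem a ha =>
      intro e he
      exact ⟨1, a, ha, by rwa [one_smul]⟩
    | one =>
      intro e he
      rw [one_smul] at he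
      exact absurd Iff.rfl he
    | mul x y hx hy ihx ihy =>
      intro e he
      rcases sep_trans T v₀ (x • v₀) _ he with h | h
      · exact ihx h
      · rw [mul_smul] at h
        have h2 := hS x _ (ihy (hmul x _ _ e h))
        rwa [smul_inv_smul] at h2
    | inv x hx ih =>
      intro e he
      have h1 : e ∈ sep T (x⁻¹ • x • v₀) (x⁻¹ • v₀) := by rwa [inv_smul_smul]
      have h2 := hmul x⁻¹ _ _ e h1
      rw [inv_inv] at h2
      have h3 : x • e ∈ sep T v₀ (x • v₀) := fun h => h2 h.symm
      have h4 := hS x⁻¹ _ (ih h3)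
      rwa [inv_smul_smul] at h4
  have hgeo : ∀ e ∈ S, ∃ g : G, e ∈ sep T v₀ (g • v₀) ∨ ∃ h : G, e ∈ sep T (h • v₀) (g • v₀) := by
    rintro e ⟨k, a, ha, h⟩
    refine ⟨k⁻¹ * a, Or.inr ⟨k⁻¹, ?_⟩⟩
    intro h2
    apply h
    rw [side_smul', mul_smul, side_smul' T k⁻¹ e, inv_inv] at h2
    exact h2
  let iV := actYV T v₀ S hS hsep
  let iE := actYE (G := G) S hS
  have hfin : Finite (MulAction.orbitRel.Quotient G S) := by
    have h1 : (⋃ a ∈ A, sep T v₀ (a • v₀)).Finite :=
      Set.Finite.biUnion hAfin (fun a _ => fin_sep T _ _)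
    have h2 : Finite {e : S // e.1 ∈ (⋃ a ∈ A, sep T v₀ (a • v₀))} := by
      have : Finite (⋃ a ∈ A, sep T v₀ (a • v₀)) := h1.to_subtype
      refine Finite.of_injective (β := (⋃ a ∈ A, sep T v₀ (a • v₀))) (fun x => ⟨x.1.1, x.2⟩) ?_
      intro x y hxy
      have h3 : x.1.1 = y.1.1 := Subtype.mk.inj hxy
      exact Subtype.ext (Subtype.ext h3)
    refine Finite.of_surjective
      (fun x : {e : S // e.1 ∈ (⋃ a ∈ A, sep T v₀ (a • v₀))} =>
        (Quotient.mk'' x.1 : MulAction.orbitRel.Quotient G S)) ?_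
    intro q
    induction q using Quotient.inductionOn' with | h e => ?_
    obtain ⟨k, a, ha, h⟩ := e.2
    refine ⟨⟨⟨k • e.1, hS k _ e.2⟩, Set.mem_biUnion ha h⟩, ?_⟩
    apply Quotient.sound'
    exact MulAction.orbitRel_apply.2 ⟨k, rfl⟩
  refine fpc_of_orbits (Nat.card (MulAction.orbitRel.Quotient G S)) G (YV T v₀ S) S
    (subTree T v₀ S hS hsep hgeo) ?_ ?_ hfin le_rfl ⟨⟨v₀, fun _ _ => Iff.rfl⟩⟩
  · intro e g h
    exact he e.1 g (congrArg Subtype.val h)
  · intro v
    have h1 : MulAction.stabilizer G v = MulAction.stabilizer G v.1 := by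
      ext g
      constructor
      · intro h
        exact congrArg Subtype.val (show g • v = v from h)
      · intro h
        exact Subtype.ext (show g • v.1 = v.1 from h)
    rw [h1]
    exact FPC.cyc _ (hv v.1)

end Pool.Agent.Run7.h562
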