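import Pool.Agent.Run7.h562.PencilA
import Pool.Agent.Run7.h562.CovTree

/-!
# A van Kampen theorem
-/

set_option autoImplicit false
set_option linter.unusedSectionVars false

open Topology Set unitInterval

namespace Pool.Agent.Run7.h562

open Pool.Agent.H599R3.RH Monoid

/-- classes of loops in a subset -/
def LG {X : Type} [TopologicalSpace X] (U : Set X) (x₀ : X) (h : x₀ ∈ U) :
    Subgroup (FundamentalGroup X x₀) where
  carrier := {g | ∃ γ : Path x₀ x₀, (∀ t, γ t ∈ U) ∧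
    (Path.Homotopic.Quotient.mk γ : FundamentalGroup X x₀) = g}
  one_mem' := ⟨Path.refl x₀, fun _ => h, rfl⟩
  mul_mem' := by
    rintro _ _ ⟨γ, hγ, rfl⟩ ⟨γ', hγ', rfl⟩
    refine ⟨γ'.trans γ, fun t => ?_, rfl⟩
    rw [Path.trans_apply]
    split_ifs
    · exact hγ' _
    · exact hγ _
  inv_mem' := by
    rintro _ ⟨γ, hγ, rfl⟩
    exact ⟨γ.symm, fun t => hγ _, rfl⟩

theorem mem_LG {X : Type} [TopologicalSpace X] {U : Set X} {x₀ : X} {h : x₀ ∈ U}
    {g : FundamentalGroup X x₀} : g ∈ LG U x₀ h ↔ ∃ γ : Path x₀ x₀, (∀ t, γ t ∈ U) ∧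
    (Path.Homotopic.Quotient.mk γ : FundamentalGroup X x₀) = g := Iff.rfl

section

variable {X Y G : Type} [TopologicalSpace X] [TopologicalSpace Y] [SimplyConnectedSpace Y]
  [LocallyPathConnectedSpace Y] [Group G] [MulAction G Y] (p : C(Y, X))
  (hq : IsQuotientCoveringMap p G)

theorem theta_eq (y₀ : Y) (g : G) (δ : Path y₀ (g • y₀)) (γ : Path (p y₀) (p y₀))
    (h : ∀ t, γ t = p (δ t)) :
    hq.fundamentalGroupEquiv ⟨y₀, rfl⟩ (Path.Homotopic.Quotient.mk γ) = MulOpposite.op g := by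
  change hq.fundamentalGroupToMulOpposite ⟨y₀, rfl⟩ _ = _
  rw [hq.fundamentalGroupToMulOpposite_apply_eq_Iff]
  let e' : p ⁻¹' {p y₀} := ⟨g • y₀, hq.map_smul g⟩
  have h1 : γ = ((δ.map p.continuous).cast rfl (hq.map_smul g).symm) := by
    ext t
    exact h t
  have h2 := hq.isCoveringMap.monodromy_eq_of_map_eq (ex := (⟨y₀, rfl⟩ : p ⁻¹' {p y₀}))
    (ey := e') (γ := Path.Homotopic.Quotient.mk γ) (Path.Homotopic.Quotient.mk δ) (by
      rw [h1]
      rfl)
  exact (congrArg Subtype.val h2).symm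

include hq in
/-- **van Kampen**, for two pieces with trivial intersection -/
theorem vk_core (y₀ : Y) {U V : Set X} (hU : IsOpen U) (hV : IsOpen V) (hUV : U ∪ V = univ)
    (hU₀ : p y₀ ∈ U) (hV₀ : p y₀ ∈ V) (hc : ∀ x ∈ U ∩ V, JoinedIn (U ∩ V) x (p y₀))
    (hnull : ∀ γ : Path (p y₀) (p y₀), (∀ t, γ t ∈ U ∩ V) → γ.Homotopic (Path.refl (p y₀))) :
    Nonempty (FundamentalGroup X (p y₀) ≃* Coprod (LG U (p y₀) hU₀) (LG V (p y₀) hV₀)) := by
  have cov := hq.isCoveringMap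
  have hGc : ∀ g : G, Continuous (fun y : Y => g • y) :=
    hq.toContinuousConstSMul.continuous_const_smul
  have hGp : ∀ (g : G) (y : Y), p (g • y) = p y := fun g y => hq.map_smul g
  have hcs := hq.isCancelSMul
  have hGf : ∀ (g : G) (y : Y), g • y = y → g = 1 := fun g y h =>
    hcs.right_cancel g 1 y (by change g • y = (1 : G) • y; rw [h, one_smul])
  let W : Bool → Set Y := fun b => p ⁻¹' (if b then V else U)
  have hWf : W false = p ⁻¹' U := rfl
  have hWt : W true = p ⁻¹' V := rfl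
  have hWo : ∀ j, IsOpen (W j) := by
    rintro (_ | _)
    · exact hU.preimage p.continuous
    · exact hV.preimage p.continuous
  have hWc : ∀ y, ∃ j, y ∈ W j := by
    intro y
    have h1 : p y ∈ U ∪ V := by rw [hUV]; trivial
    rcases h1 with h1 | h1
    · exact ⟨false, h1⟩
    · exact ⟨true, h1⟩
  have hW3 : ∀ i j k y, y ∈ W i → y ∈ W j → y ∈ W k → i = j ∨ j = k ∨ i = k := by
    have hb : ∀ i j k : Bool, i = j ∨ j = k ∨ i = k := by decide
    exact fun i j k _ _ _ _ => hb i j k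
  have hWi : ∀ (g : G) (j : Bool), ∀ y ∈ W j, g • y ∈ W j := by
    rintro g (_ | _) y hy
    · change p (g • y) ∈ U
      rw [hGp]; exact hy
    · change p (g • y) ∈ V
      rw [hGp]; exact hy
  let _ := actVV hGc hWi
  let _ := actEE hGc hWi
  have hsm : ∀ (g : G) (j : Bool) (y : Y) (h : y ∈ W j),
      g • (mkV j y h : VV W) = mkV j (g • y) (hWi g j y h) := fun _ _ _ _ => rfl
  have hsmE : ∀ (g : G) (i j : Bool) (y : Y) (hij : i < j) (h : y ∈ W i ∩ W j),
      g • (mkE i j y hij h : EE W) = mkE i j (g • y) hij ⟨hWi g i y h.1, hWi g j y h.2⟩ :=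
    fun _ _ _ _ _ _ => rfl
  let T := covTree hWo hWc hW3 hGc hWi
  have hft : false < true := by decide
  have hyW : y₀ ∈ W false ∩ W true := ⟨hU₀, hV₀⟩
  let e : EE W := mkE false true y₀ hft hyW
  -- the stabilizer of the edge
  have he : ∀ g : G, g • e = e → g = 1 := by
    intro g hg
    change g • (mkE false true y₀ hft hyW : EE W) = mkE false true y₀ hft hyW at hg
    rw [hsmE] at hg
    obtain ⟨δ, hδ⟩ := (mkE_joined hg).symm
    let γ : Path (p y₀) (p y₀) := (δ.map p.continuous).cast rfl (hGp g y₀).symm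
    exact hGf g y₀ (lift_null cov δ γ (fun _ => rfl) (hnull γ hδ))
  -- one orbit of edges
  have horb : ∀ e' : EE W, ∃ g : G, g • e = e' := by
    intro e'
    induction e' using indE with | h i j y hij hy => ?_
    have hb : ∀ i j : Bool, i < j → i = false ∧ j = true := by decide
    obtain ⟨hi, hj⟩ := hb i j hij
    subst hi hj
    obtain ⟨δ, hδ⟩ := hc (p y) hy
    obtain ⟨Γ, hΓ, hΓ0⟩ := cov.exists_path_lifts δ y δ.source
    have h1 : p (Γ 1) = p y₀ := by
      have := congrFun hΓ 1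
      simpa using this
    obtain ⟨g, hg⟩ := hq.apply_eq_iff_mem_orbit.1 h1
    have hg' : g • y₀ = Γ 1 := hg
    refine ⟨g, ?_⟩
    change g • (mkE false true y₀ hft hyW : EE W) = _
    rw [hsmE]
    apply mkE_eq
    rw [hg']
    refine JoinedIn.symm ⟨⟨Γ, hΓ0, rfl⟩, fun t => ?_⟩
    have h2 : p (Γ t) = δ t := congrFun hΓ t
    have h3 : p (Γ t) ∈ U ∩ V := by rw [h2]; exact hδ t
    exact h3
  have hsim : ∀ u v : VV W, Sim T e u v ↔ u = v := by
    intro u v
    constructor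
    · intro h
      apply eq_of_unsep (T := T)
      intro e'
      obtain ⟨g, rfl⟩ := horb e'
      exact h g
    · rintro rfl
      exact Sim.refl e u
  have hd0 : T.d0 e = mkV false y₀ hU₀ := rfl
  have hd1 : T.d1 e = mkV true y₀ hV₀ := rfl
  obtain ⟨ψ⟩ := amalgam (T := T) e he (by
    intro t h
    rw [hsim, hd0, hd1, hsm] at h
    have h1 : false = true := (Quotient.exact h : (stV W).r _ _).1
    exact absurd h1 (by decide))
  -- comparison of the groups
  let Θ := hq.fundamentalGroupEquiv (⟨y₀, rfl⟩ : p ⁻¹' {p y₀})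
  let Λ : FundamentalGroup X (p y₀) ≃* G := Θ.trans (MulEquiv.inv' G).symm
  have hΛ : ∀ (g : G) (m : FundamentalGroup X (p y₀)), Θ m = MulOpposite.op g → Λ m = g⁻¹ := by
    intro g m h
    change (MulEquiv.inv' G).symm (Θ m) = _
    rw [h, MulEquiv.symm_apply_eq]
    simp
  have key : ∀ (j : Bool) (O : Set X) (hO : W j = p ⁻¹' O) (h0 : y₀ ∈ W j) (h0' : p y₀ ∈ O),
      (LG O (p y₀) h0').map Λ.toMonoidHom = fixCl T e (mkV j y₀ h0) := by
    intro j O hO h0 h0'
    ext g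
    rw [mem_fixCl, hsim, hsm]
    constructor
    · rintro ⟨m, ⟨γ, hγ, rfl⟩, hm⟩
      obtain ⟨Γ, hΓ, hΓ0⟩ := cov.exists_path_lifts γ y₀ γ.source
      have h1 : p (Γ 1) = p y₀ := by
        have := congrFun hΓ 1
        simpa using this
      obtain ⟨k, hk⟩ := hq.apply_eq_iff_mem_orbit.1 h1
      have hk' : k • y₀ = Γ 1 := hk
      let δ : Path y₀ (k • y₀) := ⟨Γ, hΓ0, hk'.symm⟩
      have h2 := hΛ k _ (theta_eq p hq y₀ k δ γ (fun t => (congrFun hΓ t).symm))
      have h3 : g = k⁻¹ := hm.symm.trans h2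
      rw [h3]
      apply mkV_eq
      have h4 : JoinedIn (W j) y₀ (k • y₀) := by
        refine ⟨δ, fun t => ?_⟩
        rw [hO]
        have h5 : p (Γ t) = γ t := congrFun hΓ t
        change p (Γ t) ∈ O
        rw [h5]
        exact hγ t
      have h6 := joined_smul hGc k⁻¹ (hWi k⁻¹ j) h4
      rwa [inv_smul_smul] at h6
    · intro h
      have h1 := joined_smul hGc g⁻¹ (hWi g⁻¹ j) (mkV_joined h)
      rw [inv_smul_smul] at h1
      obtain ⟨δ, hδ⟩ := h1
      let γ : Path (p y₀) (p y₀) := (δ.map p.continuous).cast rfl (hGp g⁻¹ y₀).symm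
      refine ⟨Path.Homotopic.Quotient.mk γ, ⟨γ, fun t => ?_, rfl⟩, ?_⟩
      · have := hδ t
        rw [hO] at this
        exact this
      · have h2 := hΛ g⁻¹ _ (theta_eq p hq y₀ g⁻¹ δ γ (fun t => rfl))
        rw [inv_inv] at h2
        exact h2
  have k0 := key false U rfl hU₀ hU₀
  have k1 := key true V rfl hV₀ hV₀
  rw [← hd0] at k0
  rw [← hd1] at k1
  let E0 : LG U (p y₀) hU₀ ≃* fixCl T e (T.d0 e) :=
    (Λ.subgroupMap (LG U (p y₀) hU₀)).trans (MulEquiv.subgroupCongr k0)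
  let E1 : LG V (p y₀) hV₀ ≃* fixCl T e (T.d1 e) :=
    (Λ.subgroupMap (LG V (p y₀) hV₀)).trans (MulEquiv.subgroupCongr k1)
  exact ⟨(Λ.trans ψ).trans (MulEquiv.coprodCongr E0.symm E1.symm)⟩

end

theorem vki {X : Type} [TopologicalSpace X] [PathConnectedSpace X] [LocallyPathConnectedSpace X]
    (hs : Pool.Agent.W622.RB.SLSC X) (x₀ : X) {U V : Set X} (hU : IsOpen U) (hV : IsOpen V)
    (hUV : U ∪ V = univ) (hU₀ : x₀ ∈ U) (hV₀ : x₀ ∈ V)
    (hc : ∀ x ∈ U ∩ V, JoinedIn (U ∩ V) x x₀)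
    (hnull : ∀ γ : Path x₀ x₀, (∀ t, γ t ∈ U ∩ V) → γ.Homotopic (Path.refl x₀)) :
    Nonempty (FundamentalGroup X x₀ ≃* Coprod (LG U x₀ hU₀) (LG V x₀ hV₀)) := by
  obtain ⟨Y, tY, hsc, hlpc, p, act, cov, hsurj, hGc, hGp, hGf, htr⟩ := exists_uc X hs x₀
  have hq : IsQuotientCoveringMap p (FundamentalGroup X x₀) := by
    rw [isQuotientCoveringMap_iff_isCoveringMap_and]
    refine ⟨cov, hsurj, ⟨hGc⟩, ?_, ?_⟩
    · rw [isCancelSMul_iff_eq_one_of_smul_eq]
      exact hGf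
    · intro e₁ e₂
      constructor
      · intro h
        exact htr e₂ e₁ h.symm
      · rintro ⟨g, rfl⟩
        exact hGp g e₂
  obtain ⟨y₀, hy₀⟩ := hsurj x₀
  subst hy₀
  exact vk_core p hq y₀ hU hV hUV hU₀ hV₀ hc hnull

end Pool.Agent.Run7.h562
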